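import Mathlib

set_option autoImplicit false
open MeasureTheory Set Module
open scoped ENNReal

namespace Pool.Agent.R751

/-- Hlawka's inequality, for four vectors with sum zero. -/
lemma hlawka {E : Type*} [NormedAddCommGroup E] [InnerProductSpace ℝ E] (a b c d : E)
    (h : a + b + c + d = 0) :
    ‖a + b‖ + ‖a + c‖ + ‖a + d‖ ≤ ‖a‖ + ‖b‖ + ‖c‖ + ‖d‖ := by
  have hd : d = -(a + b + c) := by
    rw [eq_neg_iff_add_eq_zero, add_comm]; exact h
  have e1 : ‖a + b‖ = ‖c + d‖ := by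
    rw [hd, show c + -(a + b + c) = -(a + b) by abel, norm_neg]
  have e2 : ‖a + c‖ = ‖b + d‖ := by
    rw [hd, show b + -(a + b + c) = -(a + c) by abel, norm_neg]
  have e3 : ‖a + d‖ = ‖b + c‖ := by
    rw [hd, show a + -(a + b + c) = -(b + c) by abel, norm_neg]
  have sq : ‖a + b‖ ^ 2 + ‖a + c‖ ^ 2 + ‖a + d‖ ^ 2 = ‖a‖ ^ 2 + ‖b‖ ^ 2 + ‖c‖ ^ 2 + ‖d‖ ^ 2 := by
    rw [e3]
    have h1 : ‖d‖ ^ 2 = ‖a‖ ^ 2 + ‖b‖ ^ 2 + ‖c‖ ^ 2 + 2 * inner ℝ a b + 2 * inner ℝ a c
        + 2 * inner ℝ b c := by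
      rw [hd, norm_neg, norm_add_sq_real, norm_add_sq_real, inner_add_left]; ring
    rw [h1, norm_add_sq_real, norm_add_sq_real, norm_add_sq_real]
    ring
  have t1 : 0 ≤ (‖a‖ + ‖b‖ - ‖a + b‖) * (‖c‖ + ‖d‖ - ‖a + b‖) := by
    apply mul_nonneg
    · linarith [norm_add_le a b]
    · rw [e1]; linarith [norm_add_le c d]
  have t2 : 0 ≤ (‖a‖ + ‖c‖ - ‖a + c‖) * (‖b‖ + ‖d‖ - ‖a + c‖) := by
    apply mul_nonneg
    · linarith [norm_add_le a c]
    · rw [e2]; linarith [norm_add_le b d]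
  have t3 : 0 ≤ (‖a‖ + ‖d‖ - ‖a + d‖) * (‖b‖ + ‖c‖ - ‖a + d‖) := by
    apply mul_nonneg
    · linarith [norm_add_le a d]
    · rw [e3]; linarith [norm_add_le b c]
  have key : 0 ≤ (‖a‖ + ‖b‖ + ‖c‖ + ‖d‖) *
      (‖a‖ + ‖b‖ + ‖c‖ + ‖d‖ - ‖a + b‖ - ‖a + c‖ - ‖a + d‖) := by nlinarith
  rcases (add_nonneg (add_nonneg (add_nonneg (norm_nonneg a) (norm_nonneg b)) (norm_nonneg c))
    (norm_nonneg d)).eq_or_lt with h0 | h0
  · have ha : ‖a‖ = 0 := by linarith [norm_nonneg a, norm_nonneg b, norm_nonneg c, norm_nonneg d]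
    have hb : ‖b‖ = 0 := by linarith [norm_nonneg a, norm_nonneg b, norm_nonneg c, norm_nonneg d]
    have hc : ‖c‖ = 0 := by linarith [norm_nonneg a, norm_nonneg b, norm_nonneg c, norm_nonneg d]
    have hd' : ‖d‖ = 0 := by linarith [norm_nonneg a, norm_nonneg b, norm_nonneg c, norm_nonneg d]
    rw [norm_eq_zero] at ha hb hc hd'
    subst ha hb hc hd'
    simp
  · have := nonneg_of_mul_nonneg_right key h0
    linarith

/-- the plane -/
abbrev P2 := EuclideanSpace ℝ (Fin 2)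

/-- three-space -/
abbrev R3 := EuclideanSpace ℝ (Fin 3)

/-- the cross product -/
def cr (g h : R3) : R3 := !₂[g 1 * h 2 - g 2 * h 1, g 2 * h 0 - g 0 * h 2, g 0 * h 1 - g 1 * h 0]

lemma norm_sq3 (x : R3) : ‖x‖ ^ 2 = x 0 ^ 2 + x 1 ^ 2 + x 2 ^ 2 := by
  rw [EuclideanSpace.norm_eq, Real.sq_sqrt (Finset.sum_nonneg fun i _ => by positivity),
    Fin.sum_univ_three]
  simp only [Real.norm_eq_abs, sq_abs]

lemma inner3 (x y : R3) : inner ℝ x y = x 0 * y 0 + x 1 * y 1 + x 2 * y 2 := by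
  rw [PiLp.inner_apply, Fin.sum_univ_three]
  simp [mul_comm]

lemma norm_sq2 (x : P2) : ‖x‖ ^ 2 = x 0 ^ 2 + x 1 ^ 2 := by
  rw [EuclideanSpace.norm_eq, Real.sq_sqrt (Finset.sum_nonneg fun i _ => by positivity),
    Fin.sum_univ_two]
  simp only [Real.norm_eq_abs, sq_abs]

lemma inner2 (x y : P2) : inner ℝ x y = x 0 * y 0 + x 1 * y 1 := by
  rw [PiLp.inner_apply, Fin.sum_univ_two]
  simp [mul_comm]

lemma norm_cr_sq (g h : R3) : ‖cr g h‖ ^ 2 = ‖g‖ ^ 2 * ‖h‖ ^ 2 - inner ℝ g h ^ 2 := by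
  rw [norm_sq3, norm_sq3, norm_sq3, inner3]
  simp only [cr]
  simp
  ring

/-- the linear parametrisation with columns `g`, `h` -/
noncomputable def par (g h : R3) : P2 →ₗ[ℝ] R3 where
  toFun x := x 0 • g + x 1 • h
  map_add' x y := by simp only [PiLp.add_apply]; module
  map_smul' c x := by simp only [PiLp.smul_apply, smul_eq_mul, RingHom.id_apply]; module

lemma par_apply (g h : R3) (x : P2) : par g h x = x 0 • g + x 1 • h := rfl

/-- Area formula for a linear parametrisation of a plane. -/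
lemma hausdorff_par (g h : R3) (hli : LinearIndependent ℝ ![g, h]) (G : Set P2) :
    μH[2] (par g h '' G) = ENNReal.ofReal ‖cr g h‖ * μH[2] G := by
  set V : Submodule ℝ R3 := Submodule.span ℝ (Set.range ![g, h]) with hV
  have hfin : finrank ℝ V = 2 := by
    have := finrank_span_eq_card hli
    simpa using this
  have hmem : ∀ x, par g h x ∈ V := by
    intro x
    rw [par_apply]
    refine V.add_mem (V.smul_mem _ (Submodule.subset_span ⟨0, rfl⟩))
      (V.smul_mem _ (Submodule.subset_span ⟨1, rfl⟩))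
  let b : OrthonormalBasis (Fin 2) ℝ V := (stdOrthonormalBasis ℝ V).reindex (finCongr hfin)
  let Φ : P2 →ₗ[ℝ] V := (par g h).codRestrict V hmem
  let B : P2 →ₗ[ℝ] P2 := b.repr.toLinearEquiv.toLinearMap ∘ₗ Φ
  let ψ : P2 → R3 := fun y => ((b.repr.symm y : V) : R3)
  have hψ : Isometry ψ := by
    have h1 : Isometry (fun v : V => (v : R3)) := V.subtypeₗᵢ.isometry
    exact h1.comp b.repr.symm.isometry
  have hfac : ∀ x, par g h x = ψ (B x) := by
    intro x
    change par g h x = ((b.repr.symm (b.repr (Φ x)) : V) : R3)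
    rw [LinearIsometryEquiv.symm_apply_apply]
    rfl
  have himg : par g h '' G = ψ '' (B '' G) := by
    rw [image_image]
    exact image_congr fun x _ => hfac x
  have hdist : ∀ x y, inner ℝ (B x) (B y) = inner ℝ (par g h x) (par g h y) := by
    intro x y
    change inner ℝ (b.repr (Φ x)) (b.repr (Φ y)) = _
    rw [LinearIsometryEquiv.inner_map_map]
    rfl
  have : (μH[(2:ℝ)] : Measure P2).IsAddHaarMeasure := by
    have := MeasureTheory.isAddHaarMeasure_hausdorffMeasure (E := P2)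
    simpa using this
  rw [himg, hψ.hausdorffMeasure_image (Or.inl (by norm_num)), Measure.addHaar_image_linearMap]
  congr 2
  -- the determinant
  have hdet : LinearMap.det B = (B (EuclideanSpace.single 0 1)) 0 * (B (EuclideanSpace.single 1 1)) 1
      - (B (EuclideanSpace.single 1 1)) 0 * (B (EuclideanSpace.single 0 1)) 1 := by
    rw [← LinearMap.det_toMatrix (EuclideanSpace.basisFun (Fin 2) ℝ).toBasis, Matrix.det_fin_two]
    simp [LinearMap.toMatrix_apply]
  have e0 : par g h (EuclideanSpace.single 0 1) = g := by rw [par_apply]; simp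
  have e1 : par g h (EuclideanSpace.single 1 1) = h := by rw [par_apply]; simp
  have i00 := hdist (EuclideanSpace.single 0 1) (EuclideanSpace.single 0 1)
  have i01 := hdist (EuclideanSpace.single 0 1) (EuclideanSpace.single 1 1)
  have i11 := hdist (EuclideanSpace.single 1 1) (EuclideanSpace.single 1 1)
  rw [e0, inner2] at i00
  rw [e0, e1, inner2] at i01
  rw [e1, inner2] at i11
  rw [real_inner_self_eq_norm_sq] at i00 i11
  have h2 : (LinearMap.det B) ^ 2 = ‖cr g h‖ ^ 2 := by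
    rw [norm_cr_sq, ← i00, ← i11, ← i01, hdet]
    ring
  rw [← abs_norm (cr g h)]
  exact (sq_eq_sq_iff_abs_eq_abs _ _).1 h2

end Pool.Agent.R751
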