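import Pool.Agent.R751.SegGrowth

set_option autoImplicit false
open MeasureTheory Set
open scoped Pointwise

namespace Pool.Agent.R751

section box

variable {E : Type*} [NormedAddCommGroup E] [InnerProductSpace ℝ E] [FiniteDimensional ℝ E]
  [MeasurableSpace E] [BorelSpace E] {ι : Type*} [Fintype ι]

omit [FiniteDimensional ℝ E] [MeasurableSpace E] [BorelSpace E] in
lemma Box_compact (b : OrthonormalBasis ι ℝ E) (l u : ι → ℝ) : IsCompact (Box b l u) := by
  have : Box b l u = (fun y : ι → ℝ => ∑ i, y i • b i) '' (Icc l u) := by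
    ext x
    constructor
    · intro hx
      exact ⟨fun i => inner ℝ (b i) x, ⟨fun i => (hx i).1, fun i => (hx i).2⟩, b.sum_repr' x⟩
    · rintro ⟨y, hy, rfl⟩ i
      have : inner ℝ (b i) (∑ j, y j • b j) = y i := by
        rw [b.orthonormal.inner_right_fintype]
      change inner ℝ (b i) (∑ j, y j • b j) ∈ _
      rw [this]
      exact ⟨hy.1 i, hy.2 i⟩
  rw [this]
  exact isCompact_Icc.image (by fun_prop)

omit [FiniteDimensional ℝ E] [MeasurableSpace E] [BorelSpace E] in
lemma Box_convex (b : OrthonormalBasis ι ℝ E) (l u : ι → ℝ) : Convex ℝ (Box b l u) := by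
  intro x hx y hy s t hs ht hst i
  rw [inner_add_right, inner_smul_right, inner_smul_right]
  have h1 := hx i
  have h2 := hy i
  exact (convex_Icc (l i) (u i)) h1 h2 hs ht hst

omit [FiniteDimensional ℝ E] [MeasurableSpace E] [BorelSpace E] in
lemma T_convex {M : Set E} (hM : Convex ℝ M) (v : E) (h : ℝ) : Convex ℝ (T M v h) := by
  rintro x ⟨m, hm, s, hs, rfl⟩ y ⟨m', hm', s', hs', rfl⟩ α β hα hβ hαβ
  refine ⟨α • m + β • m', hM hm hm' hα hβ hαβ, α * s + β * s',
    (convex_Icc 0 h) hs hs' hα hβ hαβ, ?_⟩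
  module

/-- comparison of slopes -/
lemma slope_le_slope {M N : Set E} (hMc : IsCompact M) (hM : Convex ℝ M) (hNc : IsCompact N)
    (hN : Convex ℝ N) (v w : E) (C : ℝ) (hC : 0 ≤ C)
    (h : ∀ h : ℝ, 0 ≤ h → T M v h ⊆ (fun x => w + x) '' T N v (h + C)) :
    slope M v ≤ slope N v := by
  refine slope_le hMc hM v (α := (volume N).toReal + C * slope N v) fun k hk => ?_
  have h1 : G M v k ≤ G N v (k + C) := by
    unfold G
    refine ENNReal.toReal_mono (T_vol_ne_top hNc v _) ((measure_mono (h k hk)).trans ?_)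
    rw [image_add_left, measure_preimage_add]
  rw [G_eq hNc hN v (by linarith : 0 ≤ k + C)] at h1
  linarith

lemma G_translate (M : Set E) (v : E) (h : ℝ) (w : E) :
    volume ((fun x => w + x) '' T M v h) = volume (T M v h) := by
  rw [image_add_left, measure_preimage_add]

end box

end Pool.Agent.R751
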