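import Mathlib

set_option autoImplicit false

/-!
# Verified ball arithmetic for exponentials at dyadic points

`Pool.Agent.R751.Flower.CB` is a complex ball; `E s n` encloses `exp (2 pi i n / 2 ^ s)`.
-/

namespace Pool.Agent.R751.Flower

open Complex

/-- A complex ball: centre `(a + b i) / 2 ^ 128`, radius `e / 2 ^ 128`. -/
structure CB where
  a : ℤ
  b : ℤ
  e : ℕ

/-- The scale `2 ^ 128`. -/
def PP : ℤ := 340282366920938463463374607431768211456

/-- The scale `2 ^ 128` as a natural number. -/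
def PN : ℕ := 340282366920938463463374607431768211456

/-- Product of two balls of unit complex numbers. -/
def CB.mul (u v : CB) : CB :=
  ⟨(u.a * v.a - u.b * v.b) / PP, (u.a * v.b + u.b * v.a) / PP, u.e + v.e + (u.e * v.e) / PN + 3⟩

/-- The ball around `1`. -/
def one : CB := ⟨PP, 0, 0⟩

/-- The table of `exp (2 pi i / 2 ^ k)`, `k = 0, ..., 36`. -/
def tab : List CB := [one,
  ⟨-340282366920938463463374607431768211456, 0, 590295811045900419548⟩,
  ⟨0, 340282366920938463463374607431768211456, 295147905522950209636⟩,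
  ⟨240615969168004511545033772477625056927, 240615969168004511545033772477625056927, 147573952761475104776⟩,
  ⟨314379914072750776175968446001973125505, 130220424146621615521356287377630227996, 73786976380737552370⟩,
  ⟨333743936656827580393945988193699131951, 66385796539016198537004233668372411924, 36893488190368776173⟩,
  ⟨338643814315582355912937410983851649519, 33353504510164655995148692934415085169, 18446744095184388076⟩,
  ⟨339872481907374595982655373237523399998, 16696864359439569162511425913059001623, 9223372047592194028⟩,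
  ⟨340179880234010501256410555240815138610, 8350947328924239869306493724758181497, 4611686023796097004⟩,
  ⟨340256744284537774291616451567166656226, 4175788093625692072829030064408394408, 2305843011898048492⟩,
  ⟨340275961201545362514682404085958700136, 2087933351568136955647909863034040375, 1152921505949024236⟩,
  ⟨340280765487321862450779202347741264351, 1043971588913162969962874901364098823, 576460752974512108⟩,
  ⟨340281966562298792572160534645360975660, 521986408598802148050493966777353034, 288230376487256044⟩,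
  ⟨340282266831263825696362301831656808750, 260993281067212527299757014848791288, 144115188243628012⟩,
  ⟨340282341898518884018790830072534181986, 130496650129583753759140694874978295, 72057594121813996⟩,
  ⟨340282360665333511102050687223426738058, 65248326264289096219790833612199600, 36028797060906988⟩,
  ⟨340282365357037221779282487371359009126, 32624163282081701561065576602700777, 18014398530453484⟩,
  ⟨340282366529963152817741505908074724901, 16312081659782994994230389606789418, 9007199265226732⟩,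
  ⟨340282366823194635787928202577525532155, 8156040832234265524836811571533929, 4503599632613356⟩,
  ⟨340282366896502506543635623126062079300, 4078020416409978765915152150696142, 2251799816306668⟩,
  ⟨340282366914829474233385024912081602559, 2039010208241595133395655129367764, 1125899908153324⟩,
  ⟨340282366919411216155873784524142789108, 1019505104125373285502618251386455, 562949954076652⟩,
  ⟨340282366920556651636499187500005369996, 509752552063258607601908924185740, 281474977038316⟩,
  ⟨340282366920843010506655739061023970720, 254876276031700799407279466987393, 140737488519148⟩,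
  ⟨340282366920914600224194889502344430624, 127438138015859336654430360045604, 70368744259564⟩,
  ⟨340282366920932497653579677897116158707, 63719069007930785446064008371169, 35184372129772⟩,
  ⟨340282366920936972010925875044836691548, 31859534503965532362888107730048, 17592186064876⟩,
  ⟨340282366920938090600262424334831049809, 15929767251982783636426066808111, 8796093032428⟩,
  ⟨340282366920938370247596561657521153440, 7964883625991394000085785021942, 4398046516204⟩,
  ⟨340282366920938440159430095988205648977, 3982441812995697272776986463207, 2199023258092⟩,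
  ⟨340282366920938457637388479570877520963, 1991220906497848670480254975633, 1099511629036⟩,
  ⟨340282366920938462006878075466545535716, 995610453248924339501597705820, 549755814508⟩,
  ⟨340282366920938463099250474440462542326, 497805226624462170283482630161, 274877907244⟩,
  ⟨340282366920938463372343574183941794161, 248902613312231085208326787237, 137438953612⟩,
  ⟨340282366920938463440616849119811607132, 124451306656115542612486577638, 68719476796⟩,
  ⟨340282366920938463457685167853779060375, 62225653328057771307283686821, 34359738388⟩,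
  ⟨340282366920938463461952247537270923686, 31112826664028885653771893161, 17179869184⟩]

/-- Table lookup. -/
def T (k : ℕ) : CB := tab.getD k one

/-- Enclosure of `exp (2 pi i n / 2 ^ s)`. -/
def E : ℕ → ℕ → CB
  | 0, _ => one
  | s + 1, n => if n % 2 = 1 then CB.mul (T (s + 1)) (E s (n / 2)) else E s (n / 2)

/-- `exp (2 pi i x)`. -/
noncomputable def ex (x : ℝ) : ℂ := Complex.exp (((2 * Real.pi * x : ℝ) : ℂ) * Complex.I)

lemma ex_add (x y : ℝ) : ex (x + y) = ex x * ex y := by
  unfold ex
  rw [← Complex.exp_add]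
  congr 1
  push_cast
  ring

lemma norm_ex (x : ℝ) : ‖ex x‖ = 1 := Complex.norm_exp_ofReal_mul_I _

lemma ex_zero : ex 0 = 1 := by simp [ex]

lemma ex_nat (n : ℕ) : ex n = 1 := by
  unfold ex
  rw [Complex.exp_eq_one_iff]
  exact ⟨n, by push_cast; ring⟩

lemma ex_re (x : ℝ) : (ex x).re = Real.cos (2 * Real.pi * x) := by
  unfold ex
  rw [Complex.exp_ofReal_mul_I_re]

lemma ex_im (x : ℝ) : (ex x).im = Real.sin (2 * Real.pi * x) := by
  unfold ex
  rw [Complex.exp_ofReal_mul_I_im]

/-- The ball `w` contains `exp (2 pi i x)`. -/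
def Good (x : ℝ) (w : CB) : Prop :=
  ‖((PP : ℤ) : ℂ) * ex x - (((w.a : ℤ) : ℂ) + ((w.b : ℤ) : ℂ) * Complex.I)‖ ≤ (w.e : ℝ)

lemma PP_pos : (0 : ℝ) < ((PP : ℤ) : ℝ) := by
  unfold PP; norm_num

lemma PN_eq : ((PN : ℕ) : ℝ) = ((PP : ℤ) : ℝ) := by
  unfold PN PP; norm_num

lemma floor_err (m : ℤ) : |((m : ℤ) : ℝ) / ((PP : ℤ) : ℝ) - ((m / PP : ℤ) : ℝ)| ≤ 1 := by
  have hP := PP_pos
  have hPZ : (0 : ℤ) < PP := by unfold PP; norm_num
  have h1 : (m : ℝ) = ((PP : ℤ) : ℝ) * ((m / PP : ℤ) : ℝ) + ((m % PP : ℤ) : ℝ) := by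
    exact_mod_cast (Int.mul_ediv_add_emod m PP).symm
  have h2 : (0 : ℝ) ≤ ((m % PP : ℤ) : ℝ) := by exact_mod_cast Int.emod_nonneg m hPZ.ne'
  have h3 : ((m % PP : ℤ) : ℝ) ≤ ((PP : ℤ) : ℝ) := by exact_mod_cast (Int.emod_lt_of_pos m hPZ).le
  have h4 : ((m : ℤ) : ℝ) / ((PP : ℤ) : ℝ) - ((m / PP : ℤ) : ℝ) = ((m % PP : ℤ) : ℝ) / ((PP : ℤ) : ℝ) := by
    rw [h1]; field_simp; ring
  rw [h4, abs_of_nonneg (by positivity)]
  rw [div_le_one hP]; exact h3

lemma nfloor_err (m : ℕ) : ((m : ℕ) : ℝ) / ((PP : ℤ) : ℝ) ≤ ((m / PN : ℕ) : ℝ) + 1 := by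
  have hP := PP_pos
  rw [← PN_eq] at hP ⊢
  have hPN : 0 < PN := by unfold PN; norm_num
  have h1 : (m : ℝ) = ((PN : ℕ) : ℝ) * ((m / PN : ℕ) : ℝ) + ((m % PN : ℕ) : ℝ) := by
    exact_mod_cast (Nat.div_add_mod m PN).symm
  have h3 : ((m % PN : ℕ) : ℝ) ≤ ((PN : ℕ) : ℝ) := by exact_mod_cast (Nat.mod_lt m hPN).le
  rw [div_le_iff₀ hP]
  nlinarith

lemma Good.mul {x y : ℝ} {u v : CB} (hu : Good x u) (hv : Good y v) : Good (x + y) (u.mul v) := by
  unfold Good at *
  have hP := PP_pos
  have hPc : ((PP : ℤ) : ℂ) ≠ 0 := by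
    have : ((PP : ℤ) : ℝ) ≠ 0 := hP.ne'
    exact_mod_cast this
  set U : ℂ := ((u.a : ℤ) : ℂ) + ((u.b : ℤ) : ℂ) * Complex.I with hU
  set V : ℂ := ((v.a : ℤ) : ℂ) + ((v.b : ℤ) : ℂ) * Complex.I with hV
  set W : ℂ := (((u.mul v).a : ℤ) : ℂ) + (((u.mul v).b : ℤ) : ℂ) * Complex.I with hW
  have hV1 : ‖V‖ ≤ ((PP : ℤ) : ℝ) + v.e := by
    have h1 : V = ((PP : ℤ) : ℂ) * ex y - (((PP : ℤ) : ℂ) * ex y - V) := by ring
    rw [h1]
    refine (norm_sub_le _ _).trans (add_le_add ?_ hv)
    rw [norm_mul, norm_ex, mul_one]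
    rw [show ((PP : ℤ) : ℂ) = (((PP : ℤ) : ℝ) : ℂ) by push_cast; rfl, Complex.norm_real, Real.norm_eq_abs,
      abs_of_pos hP]
  have hround : ‖U * V / ((PP : ℤ) : ℂ) - W‖ ≤ 2 := by
    have e1 : U * V / ((PP : ℤ) : ℂ) - W =
        ((((u.a * v.a - u.b * v.b : ℤ) : ℝ) / ((PP : ℤ) : ℝ) -
          (((u.a * v.a - u.b * v.b) / PP : ℤ) : ℝ) : ℝ) : ℂ) +
        ((((u.a * v.b + u.b * v.a : ℤ) : ℝ) / ((PP : ℤ) : ℝ) -
          (((u.a * v.b + u.b * v.a) / PP : ℤ) : ℝ) : ℝ) : ℂ) * Complex.I := by
      rw [hU, hV, hW]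
      simp only [CB.mul]
      push_cast
      field_simp
      ring_nf
      rw [Complex.I_sq]
      ring
    rw [e1]
    refine (norm_add_le _ _).trans ?_
    rw [norm_mul, Complex.norm_I, mul_one, Complex.norm_real, Complex.norm_real, Real.norm_eq_abs,
      Real.norm_eq_abs]
    linarith [floor_err (u.a * v.a - u.b * v.b), floor_err (u.a * v.b + u.b * v.a)]
  have hmain : ((PP : ℤ) : ℂ) * ex (x + y) - W =
      ex x * (((PP : ℤ) : ℂ) * ex y - V) + (((PP : ℤ) : ℂ) * ex x - U) * V / ((PP : ℤ) : ℂ) +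
        (U * V / ((PP : ℤ) : ℂ) - W) := by
    rw [ex_add]
    field_simp
    ring
  rw [hmain]
  have hn1 : ‖ex x * (((PP : ℤ) : ℂ) * ex y - V)‖ ≤ v.e := by
    rw [norm_mul, norm_ex, one_mul]; exact hv
  have hn2 : ‖(((PP : ℤ) : ℂ) * ex x - U) * V / ((PP : ℤ) : ℂ)‖ ≤
      u.e + (((u.e * v.e / PN : ℕ) : ℝ) + 1) := by
    rw [norm_div, norm_mul]
    rw [show ((PP : ℤ) : ℂ) = (((PP : ℤ) : ℝ) : ℂ) by push_cast; rfl] at *
    rw [Complex.norm_real, Real.norm_eq_abs, abs_of_pos hP]
    have h1 : ‖(((PP : ℤ) : ℝ) : ℂ) * ex x - U‖ * ‖V‖ ≤ (u.e : ℝ) * (((PP : ℤ) : ℝ) + v.e) :=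
      mul_le_mul hu hV1 (norm_nonneg _) (Nat.cast_nonneg _)
    have h2 : ‖(((PP : ℤ) : ℝ) : ℂ) * ex x - U‖ * ‖V‖ / ((PP : ℤ) : ℝ) ≤
        (u.e : ℝ) * (((PP : ℤ) : ℝ) + v.e) / ((PP : ℤ) : ℝ) :=
      div_le_div_of_nonneg_right h1 hP.le
    have h3 : (u.e : ℝ) * (((PP : ℤ) : ℝ) + v.e) / ((PP : ℤ) : ℝ) =
        u.e + ((u.e * v.e : ℕ) : ℝ) / ((PP : ℤ) : ℝ) := by
      push_cast; field_simp
    have h4 := nfloor_err (u.e * v.e)
    linarith
  have hfin : (((u.mul v).e : ℕ) : ℝ) = (v.e : ℝ) + (u.e + (((u.e * v.e / PN : ℕ) : ℝ) + 1)) + 2 := by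
    simp only [CB.mul]; push_cast; ring
  rw [hfin]
  refine (norm_add_le _ _).trans (add_le_add ((norm_add_le _ _).trans (add_le_add hn1 hn2)) hround)

lemma good_one (n : ℕ) : Good n one := by
  unfold Good one
  rw [ex_nat]
  simp

end Pool.Agent.R751.Flower
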