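import Pool.Agent.R751.FlA

set_option autoImplicit false

namespace Pool.Agent.R751.Flower

open Complex

lemma Good.weaken {x : ℝ} {w w' : CB} (h : Good x w)
    (hle : (w.a - w'.a).natAbs + (w.b - w'.b).natAbs + w.e ≤ w'.e) : Good x w' := by
  unfold Good at *
  have h1 : ((PP : ℤ) : ℂ) * ex x - (((w'.a : ℤ) : ℂ) + ((w'.b : ℤ) : ℂ) * Complex.I) =
      (((PP : ℤ) : ℂ) * ex x - (((w.a : ℤ) : ℂ) + ((w.b : ℤ) : ℂ) * Complex.I)) +
        (((((w.a - w'.a : ℤ) : ℝ) : ℝ) : ℂ) + ((((w.b - w'.b : ℤ) : ℝ) : ℝ) : ℂ) * Complex.I) := by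
    push_cast; ring
  rw [h1]
  have h2 : ‖(((((w.a - w'.a : ℤ) : ℝ) : ℝ) : ℂ) + ((((w.b - w'.b : ℤ) : ℝ) : ℝ) : ℂ) * Complex.I)‖ ≤
      (((w.a - w'.a).natAbs : ℕ) : ℝ) + (((w.b - w'.b).natAbs : ℕ) : ℝ) := by
    refine (norm_add_le _ _).trans ?_
    rw [norm_mul, Complex.norm_I, mul_one, Complex.norm_real, Complex.norm_real, Real.norm_eq_abs,
      Real.norm_eq_abs]
    rw [Nat.cast_natAbs, Nat.cast_natAbs]
    push_cast
    exact le_refl _
  have h3 : ((((w.a - w'.a).natAbs + (w.b - w'.b).natAbs + w.e : ℕ) : ℕ) : ℝ) ≤ (w'.e : ℝ) := by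
    exact_mod_cast hle
  rw [Nat.cast_add, Nat.cast_add] at h3
  refine (norm_add_le _ _).trans ?_
  linarith

/-- Consistency of the table: each entry contains the square of the next one. -/
def chk (k : ℕ) : Bool :=
  decide (((CB.mul (T (k + 1)) (T (k + 1))).a - (T k).a).natAbs +
    ((CB.mul (T (k + 1)) (T (k + 1))).b - (T k).b).natAbs +
      (CB.mul (T (k + 1)) (T (k + 1))).e ≤ (T k).e)

/-- All consistency checks from `1` to `n`. -/
def chkAll : ℕ → Bool
  | 0 => true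
  | n + 1 => chk (n + 1) && chkAll n

lemma chkAll_spec (n : ℕ) (h : chkAll n = true) : ∀ k, 1 ≤ k → k ≤ n → chk k = true := by
  induction n with
  | zero => intro k h1 h2; omega
  | succ n ih =>
    intro k h1 h2
    rw [chkAll, Bool.and_eq_true] at h
    rcases Nat.lt_or_ge k (n + 1) with h3 | h3
    · exact ih h.2 k h1 (by omega)
    · have : k = n + 1 := by omega
      rw [this]; exact h.1

lemma tab_check : chkAll 35 = true := by decide +kernel

lemma good_top : Good (1 / 2 ^ 36) (T 36) := by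
  unfold Good
  have hT : T 36 = ⟨340282366920938463461952247537270923686, 31112826664028885653771893161, 17179869184⟩ := by
    rfl
  rw [hT]
  set θ : ℝ := 2 * Real.pi * (1 / 2 ^ 36) with hθ
  have hpi1 := Real.pi_gt_d20
  have hpi2 := Real.pi_lt_d20
  have hθ0 : 0 ≤ θ := by rw [hθ]; positivity
  have hθ1 : θ ≤ 1 / 10000000000 := by rw [hθ]; norm_num; linarith
  have hex : ex (1 / 2 ^ 36) = Complex.exp ((θ : ℂ) * Complex.I) := rfl
  have hnorm : ‖(θ : ℂ) * Complex.I‖ = θ := by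
    rw [norm_mul, Complex.norm_I, mul_one, Complex.norm_real, Real.norm_eq_abs, abs_of_nonneg hθ0]
  have hb := Complex.exp_bound (x := (θ : ℂ) * Complex.I) (by rw [hnorm]; linarith) (n := 3) (by norm_num)
  rw [hnorm] at hb
  have hsum : ∑ m ∈ Finset.range 3, ((θ : ℂ) * Complex.I) ^ m / (m.factorial : ℂ) =
      ((1 - θ ^ 2 / 2 : ℝ) : ℂ) + ((θ : ℝ) : ℂ) * Complex.I := by
    simp only [Finset.sum_range_succ, Finset.sum_range_zero, Nat.factorial]
    have hI : ((θ : ℂ) * Complex.I) ^ 2 = -(θ : ℂ) ^ 2 := by rw [mul_pow, Complex.I_sq]; ring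
    rw [hI]
    push_cast
    ring
  rw [hsum] at hb
  have hb' : ‖Complex.exp ((θ : ℂ) * Complex.I) - (((1 - θ ^ 2 / 2 : ℝ) : ℂ) + ((θ : ℝ) : ℂ) * Complex.I)‖ ≤
      θ ^ 3 := by
    refine hb.trans ?_
    have : ((Nat.succ 3 : ℕ) : ℝ) * (((Nat.factorial 3 : ℕ) : ℝ) * ((3 : ℕ) : ℝ))⁻¹ ≤ 1 := by
      norm_num [Nat.factorial]
    calc θ ^ 3 * (((Nat.succ 3 : ℕ) : ℝ) * (((Nat.factorial 3 : ℕ) : ℝ) * ((3 : ℕ) : ℝ))⁻¹) ≤ θ ^ 3 * 1 :=
          mul_le_mul_of_nonneg_left this (by positivity)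
      _ = θ ^ 3 := mul_one _
  rw [hex]
  have e1 : ((PP : ℤ) : ℂ) * Complex.exp ((θ : ℂ) * Complex.I) -
      (((340282366920938463461952247537270923686 : ℤ) : ℂ) +
        ((31112826664028885653771893161 : ℤ) : ℂ) * Complex.I) =
      (((PP : ℤ) : ℝ) : ℂ) * (Complex.exp ((θ : ℂ) * Complex.I) -
        (((1 - θ ^ 2 / 2 : ℝ) : ℂ) + ((θ : ℝ) : ℂ) * Complex.I)) +
      (((((PP : ℤ) : ℝ) * (1 - θ ^ 2 / 2) - 340282366920938463461952247537270923686 : ℝ) : ℂ) +
        ((((PP : ℤ) : ℝ) * θ - 31112826664028885653771893161 : ℝ) : ℂ) * Complex.I) := by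
    push_cast; ring
  rw [e1]
  have hPv : ((PP : ℤ) : ℝ) = 340282366920938463463374607431768211456 := by unfold PP; norm_num
  refine (norm_add_le _ _).trans ?_
  have hA : ‖(((PP : ℤ) : ℝ) : ℂ) * (Complex.exp ((θ : ℂ) * Complex.I) -
        (((1 - θ ^ 2 / 2 : ℝ) : ℂ) + ((θ : ℝ) : ℂ) * Complex.I))‖ ≤ 1000000000 := by
    rw [norm_mul, Complex.norm_real, Real.norm_eq_abs, abs_of_pos PP_pos, hPv]
    have h3 : θ ^ 3 ≤ (1 / 10000000000) ^ 3 := by gcongr
    calc (340282366920938463463374607431768211456 : ℝ) * ‖Complex.exp ((θ : ℂ) * Complex.I) -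
        (((1 - θ ^ 2 / 2 : ℝ) : ℂ) + ((θ : ℝ) : ℂ) * Complex.I)‖
        ≤ 340282366920938463463374607431768211456 * (1 / 10000000000) ^ 3 := by
          gcongr; exact hb'.trans h3
      _ ≤ 1000000000 := by norm_num
  have hB : ‖(((((PP : ℤ) : ℝ) * (1 - θ ^ 2 / 2) - 340282366920938463461952247537270923686 : ℝ) : ℂ) +
        ((((PP : ℤ) : ℝ) * θ - 31112826664028885653771893161 : ℝ) : ℂ) * Complex.I)‖ ≤ 1000000000 := by
    refine (norm_add_le _ _).trans ?_
    rw [norm_mul, Complex.norm_I, mul_one, Complex.norm_real, Complex.norm_real, Real.norm_eq_abs,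
      Real.norm_eq_abs, hPv]
    have h1 : |340282366920938463463374607431768211456 * (1 - θ ^ 2 / 2) -
        340282366920938463461952247537270923686| ≤ 10 := by
      have hp1 : (3.14159265358979323846 : ℝ) ^ 2 ≤ Real.pi ^ 2 := by gcongr
      have hp2 : Real.pi ^ 2 ≤ (3.14159265358979323847 : ℝ) ^ 2 := by gcongr
      have hθ2 : θ ^ 2 = Real.pi ^ 2 / 2 ^ 70 := by rw [hθ]; ring
      rw [hθ2, abs_le]
      constructor
      · norm_num at hp1 hp2 ⊢
        linarith
      · norm_num at hp1 hp2 ⊢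
        linarith
    have h2 : |340282366920938463463374607431768211456 * θ - 31112826664028885653771893161| ≤ 900000000 := by
      rw [hθ, abs_le]
      constructor
      · norm_num at hpi1 hpi2 ⊢
        linarith
      · norm_num at hpi1 hpi2 ⊢
        linarith
    linarith
  have he : (((⟨340282366920938463461952247537270923686, 31112826664028885653771893161, 17179869184⟩ : CB).e : ℕ) : ℝ) =
      17179869184 := by norm_num
  rw [he]
  linarith

lemma good_T (k : ℕ) (hk : k ≤ 36) : Good (1 / 2 ^ k) (T k) := by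
  have key : ∀ j, j ≤ 35 → Good (1 / 2 ^ (36 - j)) (T (36 - j)) := by
    intro j
    induction j with
    | zero => intro _; exact good_top
    | succ j ih =>
      intro hj
      have h1 := ih (by omega)
      have h2 := chkAll_spec 35 tab_check (36 - (j + 1)) (by omega) (by omega)
      unfold chk at h2
      have h3 := of_decide_eq_true h2
      have h4 : 36 - (j + 1) + 1 = 36 - j := by omega
      rw [h4] at h3
      have h5 := (h1.mul h1).weaken h3
      have h6 : (1 : ℝ) / 2 ^ (36 - j) + 1 / 2 ^ (36 - j) = 1 / 2 ^ (36 - (j + 1)) := by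
        rw [← h4, pow_succ]; field_simp; norm_num
      rwa [h6] at h5
  rcases Nat.eq_zero_or_pos k with h0 | h0
  · subst h0
    have h1 : T 0 = one := rfl
    rw [h1]
    have := good_one 1
    simpa using this
  · have := key (36 - k) (by omega)
    have h1 : 36 - (36 - k) = k := by omega
    rwa [h1] at this

lemma good_E (s n : ℕ) (hs : s ≤ 36) : Good ((n : ℝ) / 2 ^ s) (E s n) := by
  induction s generalizing n with
  | zero =>
    have := good_one n
    simpa [E] using this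
  | succ s ih =>
    have h1 := ih (n / 2) (by omega)
    have hn : (n : ℝ) = 2 * ((n / 2 : ℕ) : ℝ) + ((n % 2 : ℕ) : ℝ) := by
      exact_mod_cast (Nat.div_add_mod n 2).symm
    rw [E]
    split_ifs with h
    · have h2 := (good_T (s + 1) hs).mul h1
      have h3 : (1 : ℝ) / 2 ^ (s + 1) + ((n / 2 : ℕ) : ℝ) / 2 ^ s = (n : ℝ) / 2 ^ (s + 1) := by
        rw [hn, h, pow_succ]; push_cast; field_simp; ring
      rwa [h3] at h2
    · have h0 : n % 2 = 0 := by omega
      have h3 : ((n / 2 : ℕ) : ℝ) / 2 ^ s = (n : ℝ) / 2 ^ (s + 1) := by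
        rw [hn, h0, pow_succ]; push_cast; field_simp; ring
      rwa [h3] at h1

end Pool.Agent.R751.Flower
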