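import Pool.Agent.R751.FlB

set_option autoImplicit false

namespace Pool.Agent.R751.Flower

open Real

/-! ### The trigonometric polynomial -/

/-- The trigonometric polynomial
`131 cos(2 pi x) - 29 sin(2 pi x) - 97 cos(6 pi x) + 25 sin(6 pi x)`. -/
noncomputable def f (x : ℝ) : ℝ :=
  131 * cos (2 * π * x) - 29 * sin (2 * π * x) - 97 * cos (6 * π * x) + 25 * sin (6 * π * x)

/-- Its derivative. -/
noncomputable def df (x : ℝ) : ℝ :=
  -(131 * (2 * π)) * sin (2 * π * x) - 29 * (2 * π) * cos (2 * π * x) +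
    97 * (6 * π) * sin (6 * π * x) + 25 * (6 * π) * cos (6 * π * x)

lemma hasDerivAt_f (x : ℝ) : HasDerivAt f (df x) x := by
  have h1 : HasDerivAt (fun x : ℝ => 2 * π * x) (2 * π) x := by
    simpa using (hasDerivAt_id x).const_mul (2 * π)
  have h2 : HasDerivAt (fun x : ℝ => 6 * π * x) (6 * π) x := by
    simpa using (hasDerivAt_id x).const_mul (6 * π)
  have := (((h1.cos.const_mul 131).sub (h1.sin.const_mul 29)).sub (h2.cos.const_mul 97)).add
    (h2.sin.const_mul 25)
  have h : HasDerivAt f _ x := this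
  exact h.congr_deriv (by unfold df; ring)

lemma f_add_nat (x : ℝ) (n : ℕ) : f (x + n) = f x := by
  unfold f
  have h1 : 2 * π * (x + n) = 2 * π * x + n * (2 * π) := by ring
  have h2 : 6 * π * (x + n) = 6 * π * x + ((3 * n : ℕ) : ℝ) * (2 * π) := by push_cast; ring
  rw [h1, h2, cos_add_nat_mul_two_pi, sin_add_nat_mul_two_pi, cos_add_nat_mul_two_pi,
    sin_add_nat_mul_two_pi]

lemma f_lip (x y : ℝ) : |f x - f y| ≤ 3305 * |x - y| := by
  have hp := Real.pi_lt_d4
  have hp0 := Real.pi_pos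
  have h1 := abs_cos_sub_cos_le (2 * π * x) (2 * π * y)
  have h2 := abs_sin_sub_sin_le (2 * π * x) (2 * π * y)
  have h3 := abs_cos_sub_cos_le (6 * π * x) (6 * π * y)
  have h4 := abs_sin_sub_sin_le (6 * π * x) (6 * π * y)
  have e1 : |2 * π * x - 2 * π * y| = 2 * π * |x - y| := by
    rw [← mul_sub, abs_mul, abs_of_pos (by positivity : (0:ℝ) < 2 * π)]
  have e2 : |6 * π * x - 6 * π * y| = 6 * π * |x - y| := by
    rw [← mul_sub, abs_mul, abs_of_pos (by positivity : (0:ℝ) < 6 * π)]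
  rw [e1] at h1 h2
  rw [e2] at h3 h4
  have h0 : f x - f y = 131 * (cos (2 * π * x) - cos (2 * π * y)) -
      29 * (sin (2 * π * x) - sin (2 * π * y)) - 97 * (cos (6 * π * x) - cos (6 * π * y)) +
      25 * (sin (6 * π * x) - sin (6 * π * y)) := by unfold f; ring
  have hxy := abs_nonneg (x - y)
  have hpx : π * |x - y| ≤ 3.1416 * |x - y| := mul_le_mul_of_nonneg_right hp.le hxy
  rw [h0, abs_le]
  rw [abs_le] at h1 h2 h3 h4
  constructor
  · linarith [h1.1, h1.2, h2.1, h2.2, h3.1, h3.2, h4.1, h4.2]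
  · linarith [h1.1, h1.2, h2.1, h2.2, h3.1, h3.2, h4.1, h4.2]

lemma df_bound (x : ℝ) : |df x| ≤ 3305 := by
  have hp := Real.pi_lt_d4
  have hp0 := Real.pi_pos
  have h1 := abs_le.1 (abs_cos_le_one (2 * π * x))
  have h2 := abs_le.1 (abs_sin_le_one (2 * π * x))
  have h3 := abs_le.1 (abs_cos_le_one (6 * π * x))
  have h4 := abs_le.1 (abs_sin_le_one (6 * π * x))
  unfold df
  rw [abs_le]
  constructor
  · nlinarith [h1.1, h1.2, h2.1, h2.2, h3.1, h3.2, h4.1, h4.2]
  · nlinarith [h1.1, h1.2, h2.1, h2.2, h3.1, h3.2, h4.1, h4.2]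

/-! ### Semiconcavity -/

/-- `g` is semiconcave with constant `M`. -/
def SC (M : ℝ) (g : ℝ → ℝ) : Prop := ConcaveOn ℝ Set.univ (fun y => g y - M / 2 * y ^ 2)

lemma concave_quad (a b c : ℝ) (hc : c ≤ 0) :
    ConcaveOn ℝ Set.univ (fun y : ℝ => a + b * y + c * y ^ 2) := by
  refine ⟨convex_univ, fun x _ y _ s t hs ht hst => ?_⟩
  simp only [smul_eq_mul]
  have hs' : s = 1 - t := by linarith
  subst hs'
  have : (1 - t) * (a + b * x + c * x ^ 2) + t * (a + b * y + c * y ^ 2) -
      (a + b * ((1 - t) * x + t * y) + c * ((1 - t) * x + t * y) ^ 2) = c * ((1 - t) * t) * (x - y) ^ 2 := by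
    ring
  have h2 : c * ((1 - t) * t) * (x - y) ^ 2 ≤ 0 := by
    have : 0 ≤ (1 - t) * t := mul_nonneg hs ht
    have h3 : c * ((1 - t) * t) ≤ 0 := mul_nonpos_of_nonpos_of_nonneg hc this
    exact mul_nonpos_of_nonpos_of_nonneg h3 (sq_nonneg _)
  linarith

lemma SC.congr {M : ℝ} {g h : ℝ → ℝ} (hg : SC M g) (he : ∀ y, h y = g y) : SC M h := by
  have : h = g := funext he
  rw [this]; exact hg

lemma SC.add {M N : ℝ} {g h : ℝ → ℝ} (hg : SC M g) (hh : SC N h) : SC (M + N) (fun y => g y + h y) := by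
  unfold SC at *
  have := ConcaveOn.add hg hh
  refine this.congr ?_
  intro y _
  simp only [Pi.add_apply]
  ring

lemma SC.mono {M N : ℝ} {g : ℝ → ℝ} (hg : SC M g) (hMN : M ≤ N) : SC N g := by
  unfold SC at *
  have h1 := concave_quad 0 0 (-(N - M) / 2) (by linarith)
  refine (ConcaveOn.add hg h1).congr ?_
  intro y _
  simp only [Pi.add_apply]
  ring

lemma SC.comp_affine {M : ℝ} {g : ℝ → ℝ} (hg : SC M g) (a b : ℝ) :
    SC (M * a ^ 2) (fun y => g (a * y + b)) := by
  unfold SC at *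
  have h1 : ConcaveOn ℝ Set.univ (fun y : ℝ => g (a * y + b) - M / 2 * (a * y + b) ^ 2) := by
    refine ⟨convex_univ, fun x _ y _ s t hs ht hst => ?_⟩
    have := hg.2 (Set.mem_univ (a * x + b)) (Set.mem_univ (a * y + b)) hs ht hst
    simp only [smul_eq_mul] at this ⊢
    have e : s * (a * x + b) + t * (a * y + b) = a * (s * x + t * y) + b := by
      have : b = (s + t) * b := by rw [hst]; ring
      calc s * (a * x + b) + t * (a * y + b) = a * (s * x + t * y) + (s + t) * b := by ring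
        _ = a * (s * x + t * y) + b := by rw [hst]; ring
    rw [e] at this
    exact this
  have h2 := concave_quad (M / 2 * b ^ 2) (M * a * b) 0 le_rfl
  refine (ConcaveOn.add h1 h2).congr ?_
  intro y _
  simp only [Pi.add_apply]
  ring

lemma SC_quad (a b c M : ℝ) (h : 2 * c ≤ M) : SC M (fun y : ℝ => a + b * y + c * y ^ 2) := by
  unfold SC
  refine (concave_quad a b (c - M / 2) (by linarith)).congr ?_
  intro y _
  ring

lemma SC_cos (A α β : ℝ) : SC (|A| * α ^ 2) (fun x => A * cos (α * x + β)) := by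
  unfold SC
  have hd : ∀ x : ℝ, HasDerivAt (fun y : ℝ => A * cos (α * y + β) - |A| * α ^ 2 / 2 * y ^ 2)
      (-(A * α) * sin (α * x + β) - |A| * α ^ 2 * x) x := by
    intro x
    have h1 : HasDerivAt (fun y : ℝ => α * y + β) α x := by
      simpa using ((hasDerivAt_id x).const_mul α).add_const β
    have h2 := (h1.cos.const_mul A).sub ((hasDerivAt_pow 2 x).const_mul (|A| * α ^ 2 / 2))
    have h : HasDerivAt (fun y : ℝ => A * cos (α * y + β) - |A| * α ^ 2 / 2 * y ^ 2) _ x := h2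
    exact h.congr_deriv (by push_cast; ring)
  have hd2 : ∀ x : ℝ, HasDerivAt (fun x : ℝ => -(A * α) * sin (α * x + β) - |A| * α ^ 2 * x)
      (-(A * α ^ 2) * cos (α * x + β) - |A| * α ^ 2) x := by
    intro x
    have h1 : HasDerivAt (fun y : ℝ => α * y + β) α x := by
      simpa using ((hasDerivAt_id x).const_mul α).add_const β
    have h2 := (h1.sin.const_mul (-(A * α))).sub ((hasDerivAt_id x).const_mul (|A| * α ^ 2))
    have h : HasDerivAt (fun x : ℝ => -(A * α) * sin (α * x + β) - |A| * α ^ 2 * x) _ x := h2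
    exact h.congr_deriv (by ring)
  have hderiv : deriv (fun y : ℝ => A * cos (α * y + β) - |A| * α ^ 2 / 2 * y ^ 2) =
      fun x => -(A * α) * sin (α * x + β) - |A| * α ^ 2 * x := funext fun x => (hd x).deriv
  refine concaveOn_univ_of_deriv2_nonpos (fun x => (hd x).differentiableAt) ?_ ?_
  · rw [hderiv]; exact fun x => (hd2 x).differentiableAt
  · intro x
    rw [Function.iterate_succ, Function.iterate_one, Function.comp_apply, hderiv, (hd2 x).deriv]
    have h3 := abs_le.1 (abs_cos_le_one (α * x + β))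
    have h4 : -(A * cos (α * x + β)) ≤ |A| := by
      calc -(A * cos (α * x + β)) ≤ |A * cos (α * x + β)| := neg_le_abs _
        _ = |A| * |cos (α * x + β)| := abs_mul _ _
        _ ≤ |A| * 1 := by gcongr; exact abs_cos_le_one _
        _ = |A| := mul_one _
    have h5 : 0 ≤ α ^ 2 := sq_nonneg α
    nlinarith

lemma sin_eq_cos' (x : ℝ) : sin x = cos (x + -(π / 2)) := by
  rw [← sub_eq_add_neg, cos_sub_pi_div_two]

lemma SC_f_aux (e : ℝ) (he : |e| = 1) : SC 49700 (fun x => e * f x) := by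
  have h1 := SC_cos (e * 131) (2 * π) 0
  have h2 := SC_cos (e * (-29)) (2 * π) (-(π / 2))
  have h3 := SC_cos (e * (-97)) (6 * π) 0
  have h4 := SC_cos (e * 25) (6 * π) (-(π / 2))
  have h5 := ((h1.add h2).add h3).add h4
  have h6 := h5.congr (h := fun x => e * f x) (fun x => by
    simp only [f, sin_eq_cos', add_zero]; ring)
  refine h6.mono ?_
  simp only [abs_mul, he]
  have hp := Real.pi_lt_d4
  have hp0 := Real.pi_pos
  have hp2 : π ^ 2 ≤ 3.1416 ^ 2 := by gcongr
  rw [abs_of_pos (by norm_num : (0:ℝ) < 131), abs_of_neg (by norm_num : (-29:ℝ) < 0),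
    abs_of_neg (by norm_num : (-97:ℝ) < 0), abs_of_pos (by norm_num : (0:ℝ) < 25)]
  nlinarith

lemma SC_f : SC 49700 f := (SC_f_aux 1 (by norm_num)).congr (fun y => by ring)

lemma SC_negf : SC 49700 (fun x => -f x) := (SC_f_aux (-1) (by norm_num)).congr (fun y => by ring)

/-- Second order upper bound. -/
lemma f_taylor (o h : ℝ) : f (o + h) ≤ f o + df o * h + 49700 / 2 * h ^ 2 := by
  have hc := SC_f
  unfold SC at hc
  have hconv : ConvexOn ℝ Set.univ (fun t : ℝ => -(f t - 49700 / 2 * t ^ 2)) := hc.neg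
  have hder : HasDerivAt (fun t : ℝ => -(f t - 49700 / 2 * t ^ 2)) (-(df o - 49700 * o)) o := by
    have h2 := ((hasDerivAt_f o).sub ((hasDerivAt_pow 2 o).const_mul (49700 / 2 : ℝ))).neg
    have h : HasDerivAt (fun t : ℝ => -(f t - 49700 / 2 * t ^ 2)) _ o := h2
    exact h.congr_deriv (by push_cast; ring)
  rcases lt_trichotomy h 0 with hh | hh | hh
  · have h1 := hconv.slope_le_of_hasDerivAt (Set.mem_univ (o + h)) (Set.mem_univ o) (by linarith) hder
    rw [slope_def_field, div_le_iff₀ (by linarith)] at h1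
    nlinarith
  · subst hh; simp
  · have h1 := hconv.le_slope_of_hasDerivAt (Set.mem_univ o) (Set.mem_univ (o + h)) (by linarith) hder
    rw [slope_def_field, le_div_iff₀ (by linarith)] at h1
    nlinarith

/-- Interval lemma for a semiconcave function. -/
lemma SC.leaf {M : ℝ} {D : ℝ → ℝ} (hD : SC M D) {u v : ℝ} (huv : u < v) (hM : 0 ≤ M)
    (hu : M * (v - u) ^ 2 / 8 ≤ D u) (hv : M * (v - u) ^ 2 / 8 ≤ D v) :
    ∀ y ∈ Set.Icc u v, 0 ≤ D y := by
  intro y hy
  unfold SC at hD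
  set t : ℝ := (y - u) / (v - u) with ht
  have hvu : 0 < v - u := by linarith
  have ht0 : 0 ≤ t := div_nonneg (by linarith [hy.1]) hvu.le
  have ht1 : t ≤ 1 := by rw [ht, div_le_one hvu]; linarith [hy.2]
  have hyt : y = (1 - t) * u + t * v := by rw [ht]; field_simp; ring
  have h1 := hD.2 (Set.mem_univ u) (Set.mem_univ v) (by linarith : 0 ≤ 1 - t) ht0 (by ring)
  simp only [smul_eq_mul] at h1
  rw [← hyt] at h1
  have h2 : M * (v - u) ^ 2 / 8 ≤ (1 - t) * D u + t * D v := by nlinarith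
  have h3 : (1 - t) * (M / 2 * u ^ 2) + t * (M / 2 * v ^ 2) - M / 2 * y ^ 2 =
      M / 2 * (t * (1 - t)) * (v - u) ^ 2 := by rw [hyt]; ring
  have h4 : t * (1 - t) ≤ 1 / 4 := by nlinarith [sq_nonneg (t - 1 / 2)]
  have h5 : M / 2 * (t * (1 - t)) * (v - u) ^ 2 ≤ M * (v - u) ^ 2 / 8 := by
    have : M / 2 * (t * (1 - t)) ≤ M / 2 * (1 / 4) := by gcongr
    have := mul_le_mul_of_nonneg_right this (sq_nonneg (v - u))
    linarith
  linarith

end Pool.Agent.R751.Flower
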