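import Pool.Agent.R751.FlC

set_option autoImplicit false

namespace Pool.Agent.R751.Flower

open Real

/-! ### Evaluation of the trigonometric polynomial -/

/-- Enclosure of the trigonometric polynomial (value and error, in units of `2 ^ (-128)`). -/
def Fv (w : CB) : ℤ × ℕ :=
  (131 * w.a - 29 * w.b - 97 * (CB.mul w (CB.mul w w)).a + 25 * (CB.mul w (CB.mul w w)).b,
    160 * w.e + 122 * (CB.mul w (CB.mul w w)).e)

lemma good_re {x : ℝ} {w : CB} (h : Good x w) :
    |((PP : ℤ) : ℝ) * cos (2 * π * x) - ((w.a : ℤ) : ℝ)| ≤ (w.e : ℝ) := by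
  unfold Good at h
  refine le_trans ?_ h
  have h1 := Complex.abs_re_le_norm (((PP : ℤ) : ℂ) * ex x -
    (((w.a : ℤ) : ℂ) + ((w.b : ℤ) : ℂ) * Complex.I))
  have h2 : (((PP : ℤ) : ℂ) * ex x - (((w.a : ℤ) : ℂ) + ((w.b : ℤ) : ℂ) * Complex.I)).re =
      ((PP : ℤ) : ℝ) * cos (2 * π * x) - ((w.a : ℤ) : ℝ) := by
    rw [← ex_re]
    simp [Complex.sub_re, Complex.add_re, Complex.mul_re]
  rw [h2] at h1
  exact h1

lemma good_im {x : ℝ} {w : CB} (h : Good x w) :
    |((PP : ℤ) : ℝ) * sin (2 * π * x) - ((w.b : ℤ) : ℝ)| ≤ (w.e : ℝ) := by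
  unfold Good at h
  refine le_trans ?_ h
  have h1 := Complex.abs_im_le_norm (((PP : ℤ) : ℂ) * ex x -
    (((w.a : ℤ) : ℂ) + ((w.b : ℤ) : ℂ) * Complex.I))
  have h2 : (((PP : ℤ) : ℂ) * ex x - (((w.a : ℤ) : ℂ) + ((w.b : ℤ) : ℂ) * Complex.I)).im =
      ((PP : ℤ) : ℝ) * sin (2 * π * x) - ((w.b : ℤ) : ℝ) := by
    rw [← ex_im]
    simp [Complex.sub_im, Complex.add_im, Complex.mul_im]
  rw [h2] at h1
  exact h1

lemma Fv_spec {x : ℝ} {w : CB} (h : Good x w) :
    |((PP : ℤ) : ℝ) * f x - (((Fv w).1 : ℤ) : ℝ)| ≤ (((Fv w).2 : ℕ) : ℝ) := by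
  have h3 : Good (x + (x + x)) (CB.mul w (CB.mul w w)) := h.mul (h.mul h)
  have a1 := abs_le.1 (good_re h)
  have a2 := abs_le.1 (good_im h)
  have a3 := abs_le.1 (good_re h3)
  have a4 := abs_le.1 (good_im h3)
  have e : 2 * π * (x + (x + x)) = 6 * π * x := by ring
  rw [e] at a3 a4
  unfold Fv f
  push_cast
  rw [abs_le]
  constructor
  · linarith [a1.1, a1.2, a2.1, a2.2, a3.1, a3.2, a4.1, a4.2]
  · linarith [a1.1, a1.2, a2.1, a2.2, a3.1, a3.2, a4.1, a4.2]

/-- The Birkhoff sum along the backward branch with digits `L`. -/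
noncomputable def Ssum : List ℕ → ℝ → ℝ
  | [], _ => 0
  | b :: L, y => f ((y + b) / 2) + Ssum L ((y + b) / 2)

/-- The backward branch with digits `L`. -/
noncomputable def bk : List ℕ → ℝ → ℝ
  | [], y => y
  | b :: L, y => bk L ((y + b) / 2)

/-- Numerator of the backward branch at a dyadic point. -/
def bkN : List ℕ → ℕ → ℕ → ℕ
  | [], _, n => n
  | b :: L, s, n => bkN L (s + 1) (n + b * 2 ^ s)

/-- Enclosure of `Ssum` at a dyadic point. -/
def evS : List ℕ → ℕ → ℕ → ℤ × ℕ
  | [], _, _ => (0, 0)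
  | b :: L, s, n =>
    ((Fv (E (s + 1) (n + b * 2 ^ s))).1 + (evS L (s + 1) (n + b * 2 ^ s)).1,
      (Fv (E (s + 1) (n + b * 2 ^ s))).2 + (evS L (s + 1) (n + b * 2 ^ s)).2)

lemma half_dyadic (b s n : ℕ) : (((n : ℝ) / 2 ^ s) + b) / 2 = ((n + b * 2 ^ s : ℕ) : ℝ) / 2 ^ (s + 1) := by
  push_cast
  rw [pow_succ]
  field_simp

lemma evS_spec (L : List ℕ) (s n : ℕ) (h : s + L.length ≤ 36) :
    |((PP : ℤ) : ℝ) * Ssum L ((n : ℝ) / 2 ^ s) - (((evS L s n).1 : ℤ) : ℝ)| ≤ (((evS L s n).2 : ℕ) : ℝ) := by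
  induction L generalizing s n with
  | nil => simp [Ssum, evS]
  | cons b L ih =>
    rw [List.length_cons] at h
    have h1 := ih (s + 1) (n + b * 2 ^ s) (by omega)
    have h2 := Fv_spec (good_E (s + 1) (n + b * 2 ^ s) (by omega))
    rw [Ssum, half_dyadic, evS]
    rw [abs_le] at h1 h2 ⊢
    push_cast at h1 h2 ⊢
    constructor
    · linarith [h1.1, h1.2, h2.1, h2.2]
    · linarith [h1.1, h1.2, h2.1, h2.2]

lemma bk_spec (L : List ℕ) (s n : ℕ) :
    bk L ((n : ℝ) / 2 ^ s) = (bkN L s n : ℝ) / 2 ^ (s + L.length) := by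
  induction L generalizing s n with
  | nil => simp [bk, bkN]
  | cons b L ih =>
    rw [bk, half_dyadic, ih, bkN, List.length_cons]
    congr 2
    omega

/-! ### The periodic orbit -/

/-- Numerators of the orbit points. -/
def qv (i : ℕ) : ℕ := 479 * 2 ^ i % 8191

/-- Orbit points in `[0, 1)`. -/
noncomputable def o (i : ℕ) : ℝ := (qv i : ℝ) / 8191

/-- Binary digits of the orbit points. -/
def dg (i : ℕ) : ℕ := if 8191 ≤ 2 * qv i then 1 else 0

lemma qv_lt (i : ℕ) : qv i < 8191 := Nat.mod_lt _ (by norm_num)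

lemma qv_succ (i : ℕ) : qv (i + 1) + 8191 * dg i = 2 * qv i := by
  have h1 : qv (i + 1) = (2 * qv i) % 8191 := by
    unfold qv
    rw [pow_succ, ← mul_assoc, Nat.mul_mod, mul_comm 2, Nat.mul_mod (_ % 8191) 2]
  have h2 := qv_lt i
  rw [h1]
  unfold dg
  split_ifs with h
  · omega
  · omega

lemma o_succ (i : ℕ) : o (i + 1) = 2 * o i - dg i := by
  have h := qv_succ i
  have h' : (qv (i + 1) : ℝ) + 8191 * dg i = 2 * qv i := by exact_mod_cast h
  unfold o
  field_simp
  linarith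

lemma qv_13 : qv 13 = qv 0 := by decide

lemma o_13 : o 13 = o 0 := by unfold o; rw [qv_13]

/-- The average of `f` over the orbit. -/
noncomputable def β : ℝ := (∑ i ∈ Finset.range 13, f (o i)) / 13

/-- Potential along the orbit. -/
noncomputable def c (j : ℕ) : ℝ := ∑ i ∈ Finset.range j, (f (o i) - β)

/-- Derivatives along the orbit. -/
noncomputable def d : ℕ → ℝ
  | 0 => (∑ i ∈ Finset.range 13, 2 ^ i * df (o i)) / 8191
  | j + 1 => (df (o j) + d j) / 2

lemma c_succ (j : ℕ) : c (j + 1) = c j + (f (o j) - β) := by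
  unfold c; rw [Finset.sum_range_succ]

lemma c_13 : c 13 = c 0 := by
  unfold c β
  rw [Finset.sum_sub_distrib]
  simp
  ring

lemma d_13 : d 13 = d 0 := by
  have h0 : 8191 * d 0 = ∑ i ∈ Finset.range 13, 2 ^ i * df (o i) := by
    rw [d]; field_simp
  simp only [Finset.sum_range_succ, Finset.sum_range_zero] at h0
  simp only [show d 13 = (df (o 12) + d 12) / 2 from rfl, show d 12 = (df (o 11) + d 11) / 2 from rfl,
    show d 11 = (df (o 10) + d 10) / 2 from rfl, show d 10 = (df (o 9) + d 9) / 2 from rfl,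
    show d 9 = (df (o 8) + d 8) / 2 from rfl, show d 8 = (df (o 7) + d 7) / 2 from rfl,
    show d 7 = (df (o 6) + d 6) / 2 from rfl, show d 6 = (df (o 5) + d 5) / 2 from rfl,
    show d 5 = (df (o 4) + d 4) / 2 from rfl, show d 4 = (df (o 3) + d 3) / 2 from rfl,
    show d 3 = (df (o 2) + d 2) / 2 from rfl, show d 2 = (df (o 1) + d 1) / 2 from rfl,
    show d 1 = (df (o 0) + d 0) / 2 from rfl]
  linarith

lemma d_bound (j : ℕ) : |d j| ≤ 3305 := by
  induction j with
  | zero =>
    rw [d, abs_div, abs_of_pos (by norm_num : (0:ℝ) < 8191), div_le_iff₀ (by norm_num)]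
    refine (Finset.abs_sum_le_sum_abs _ _).trans ?_
    calc ∑ i ∈ Finset.range 13, |2 ^ i * df (o i)| ≤ ∑ i ∈ Finset.range 13, (2:ℝ) ^ i * 3305 := by
          refine Finset.sum_le_sum fun i _ => ?_
          rw [abs_mul, abs_of_pos (by positivity : (0:ℝ) < 2 ^ i)]
          exact mul_le_mul_of_nonneg_left (df_bound _) (by positivity)
      _ = 3305 * 8191 := by norm_num [Finset.sum_range_succ]
  | succ j ih =>
    rw [d, abs_div, abs_of_pos (by norm_num : (0:ℝ) < 2), div_le_iff₀ (by norm_num)]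
    refine (abs_add_le _ _).trans ?_
    linarith [df_bound (o j)]

/-- The base function at orbit point `j`. -/
noncomputable def B (j : ℕ) (z : ℝ) : ℝ := c j + d j * (z - o j) + 49700 / 6 * (z - o j) ^ 2

/-- The sub-action candidate attached to the digits `L` and the base point `j`. -/
noncomputable def S (L : List ℕ) (j : ℕ) (y : ℝ) : ℝ := Ssum L y - L.length * β + B j (bk L y)

lemma S_cons (b : ℕ) (L : List ℕ) (j : ℕ) (y : ℝ) :
    S (b :: L) j y = f ((y + b) / 2) - β + S L j ((y + b) / 2) := by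
  unfold S
  rw [Ssum, bk, List.length_cons]
  push_cast
  ring

lemma S_nil (j : ℕ) (y : ℝ) : S [] j y = B j y := by
  unfold S; simp [Ssum, bk]

lemma B_13 : B 13 = B 0 := by
  funext z
  unfold B
  rw [c_13, d_13, o_13]

lemma base_ineq (j : ℕ) (z : ℝ) : S [dg j] j z ≤ B (j + 1) z := by
  rw [S_cons, S_nil]
  unfold B
  have h1 := f_taylor (o j) ((z + dg j) / 2 - o j)
  rw [add_sub_cancel] at h1
  have h2 : d (j + 1) = (df (o j) + d j) / 2 := rfl
  rw [c_succ, h2, o_succ]
  nlinarith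

lemma S_append_le (L : List ℕ) (j : ℕ) (y : ℝ) : S (L ++ [dg j]) j y ≤ S L (j + 1) y := by
  induction L generalizing y with
  | nil => rw [List.nil_append, S_nil]; exact base_ineq j y
  | cons b L ih =>
    rw [List.cons_append, S_cons, S_cons]
    linarith [ih ((y + b) / 2)]

lemma S_append_le_13 (L : List ℕ) (y : ℝ) : S (L ++ [dg 12]) 12 y ≤ S L 0 y := by
  have h := S_append_le L 12 y
  have h2 : S L (12 + 1) y = S L 0 y := by
    unfold S; rw [show 12 + 1 = 13 from rfl, B_13]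
  rwa [h2] at h

/-! ### Semiconcavity of differences -/

lemma SC_S (L : List ℕ) (j : ℕ) : SC (49700 / 3) (S L j) ∧ SC (49700 / 3) (fun y => -S L j y) := by
  induction L with
  | nil =>
    constructor
    · refine (SC_quad (c j - d j * o j + 49700 / 6 * o j ^ 2) (d j - 49700 / 3 * o j) (49700 / 6)
        (49700 / 3) (by norm_num)).congr ?_
      intro y; rw [S_nil]; unfold B; ring
    · refine (SC_quad (-(c j - d j * o j + 49700 / 6 * o j ^ 2)) (-(d j - 49700 / 3 * o j)) (-(49700 / 6))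
        (49700 / 3) (by norm_num)).congr ?_
      intro y; rw [S_nil]; unfold B; ring
  | cons b L ih =>
    constructor
    · have h1 := (SC_f.comp_affine (1 / 2) (b / 2)).add (ih.1.comp_affine (1 / 2) (b / 2))
      have h2 := h1.add (SC_quad (-β) 0 0 0 (by norm_num))
      refine (h2.congr (h := S (b :: L) j) (fun y => ?_)).mono (by norm_num)
      rw [S_cons]
      have e : (1 / 2 : ℝ) * y + b / 2 = (y + b) / 2 := by ring
      simp only [e]
      ring
    · have h1 := (SC_negf.comp_affine (1 / 2) (b / 2)).add (ih.2.comp_affine (1 / 2) (b / 2))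
      have h2 := h1.add (SC_quad β 0 0 0 (by norm_num))
      refine (h2.congr (h := fun y => -S (b :: L) j y) (fun y => ?_)).mono (by norm_num)
      rw [S_cons]
      have e : (1 / 2 : ℝ) * y + b / 2 = (y + b) / 2 := by ring
      simp only [e]
      ring

/-- Common prefixes improve the constant. -/
lemma SC_diff (C R R' : List ℕ) (j j' : ℕ) :
    SC (2 * 49700 / 3 / 4 ^ C.length) (fun y => S (C ++ R) j y - S (C ++ R') j' y) := by
  induction C with
  | nil =>
    have := ((SC_S R j).1).add ((SC_S R' j').2)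
    refine (this.congr (fun y => ?_)).mono (by norm_num)
    simp only [List.nil_append]
    ring
  | cons b C ih =>
    have h1 := ih.comp_affine (1 / 2) (b / 2)
    have h2 : (2 * 49700 / 3 / 4 ^ C.length : ℝ) * (1 / 2) ^ 2 = 2 * 49700 / 3 / 4 ^ (b :: C).length := by
      rw [List.length_cons, pow_succ]; field_simp; norm_num; ring
    rw [h2] at h1
    refine h1.congr (fun y => ?_)
    simp only [List.cons_append]
    rw [S_cons, S_cons]
    have e : (1 / 2 : ℝ) * y + b / 2 = (y + b) / 2 := by ring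
    simp only [e]
    ring

end Pool.Agent.R751.Flower
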