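import Pool.Agent.R751.FlD

set_option autoImplicit false

namespace Pool.Agent.R751.Flower

open Real

/-- Approximations of `10 ^ 6 * f (o i)`. -/
def Gl : List ℤ := [90344960, 155336642, -10534060, -40201015, 74440611, 168205424, 34270828, -32979120, 38472700, 67042163, 154909470, 91344704, -53952761]

/-- Approximations of `2 ^ 30 * o i`. -/
def Rl : List ℕ := [62791153, 125582306, 251164612, 502329223, 1004658447, 935575070, 797408316, 521074808, 1042149616, 1010557407, 947372990, 821004156, 568266488]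

/-- Entry of `Gl`. -/
def G (i : ℕ) : ℤ := Gl.getD i 0

/-- Entry of `Rl`. -/
def Rr (i : ℕ) : ℕ := Rl.getD i 0

/-- Check of the approximation of `f (o i)`. -/
def gchk (i : ℕ) : Bool :=
  decide (((Fv (E 30 (Rr i))).1 * 1000000 - G i * PP).natAbs + (Fv (E 30 (Rr i))).2 * 1000000 ≤ PN) &&
    decide (((Rr i : ℤ) * 8191 - (qv i : ℤ) * 2 ^ 30).natAbs ≤ 8191)

/-- All approximations. -/
def gchkAll : ℕ → Bool
  | 0 => true
  | n + 1 => gchk n && gchkAll n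

lemma gchkAll_true : gchkAll 13 = true := by decide +kernel

lemma gchkAll_spec (n : ℕ) (h : gchkAll n = true) : ∀ i, i < n → gchk i = true := by
  induction n with
  | zero => intro i hi; omega
  | succ n ih =>
    intro i hi
    rw [gchkAll, Bool.and_eq_true] at h
    rcases Nat.lt_or_ge i n with h3 | h3
    · exact ih h.2 i h3
    · have : i = n := by omega
      rw [this]; exact h.1

/-- The sum of the approximations. -/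
def Gt : ℤ := 736700546

/-- Partial sums. -/
def Cz : ℕ → ℤ
  | 0 => 0
  | j + 1 => Cz j + 13 * G j - Gt

/-- The point `bk L (n / 2 ^ s)` is within `2 ^ (-20)` of `o j`. -/
def near (L : List ℕ) (j s n : ℕ) : Bool :=
  decide (((bkN L s n : ℤ) * 8191 - (qv j : ℤ) * 2 ^ (s + L.length)).natAbs * 2 ^ 20 ≤
    8191 * 2 ^ (s + L.length))

/-- Node inequality. -/
def node (m : ℕ) (L : List ℕ) (j : ℕ) (L' : List ℕ) (j' s n : ℕ) : Bool :=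
  near L j s n && near L' j' s n &&
  decide (PP * (13000000 * 49700) ≤ 12 * 4 ^ (m + s) *
    (13000000 * ((evS L s n).1 - (evS L' s n).1 - (evS L s n).2 - (evS L' s n).2) +
      PP * (Cz j - Cz j' + ((L'.length : ℤ) - L.length) * Gt - 90000)))

/-- Certificates. -/
inductive Tr
  | lf (k : ℕ)
  | nd (l r : Tr)

/-- Length of the common initial part. -/
def cpl : List ℕ → List ℕ → ℕ
  | a :: L, b :: L' => if a = b then cpl L L' + 1 else 0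
  | _, _ => 0

/-- The pieces of the sub-action. -/
def mems : List (List ℕ × ℕ) := [
  ([1, 1, 1, 1, 1, 0, 1, 1, 1, 0, 0, 0, 0, 1, 1, 1, 1, 1, 0, 1], 6),
  ([0, 1, 1, 1, 1, 1, 0, 1, 1, 1, 0, 0, 0, 0, 1, 1, 1, 1, 1, 0], 7),
  ([0, 0, 1, 1, 1, 1, 1, 0, 1, 1, 1, 0, 0, 0, 0, 1, 1, 1, 1, 1], 8),
  ([0, 0, 0, 1, 1, 1, 1, 1, 0, 1, 1, 1, 0, 0, 0, 0, 1, 1, 1, 1], 9),
  ([0, 0, 0, 0, 1, 1, 1, 1, 1, 0, 1, 1, 1, 0, 0, 0, 0, 1, 1, 1], 10),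
  ([1, 0, 0, 0, 0, 1, 1, 1, 1, 1, 0, 1, 1, 1, 0, 0, 0, 0, 1, 1], 11),
  ([1, 1, 0, 0, 0, 0, 1, 1, 1, 1, 1, 0, 1, 1, 1, 0, 0, 0, 0, 1], 12),
  ([1, 1, 1, 0, 0, 0, 0, 1, 1, 1, 1, 1, 0, 1, 1, 1, 0, 0, 0, 0], 0),
  ([0, 1, 1, 1, 0, 0, 0, 0, 1, 1, 1, 1, 1, 0, 1, 1, 1, 0, 0, 0], 1),
  ([1, 0, 1, 1, 1, 0, 0, 0, 0, 1, 1, 1, 1, 1, 0, 1, 1, 1, 0, 0], 2),
  ([1, 1, 0, 1, 1, 1, 0, 0, 0, 0, 1, 1, 1, 1, 1, 0, 1, 1, 1, 0], 3),
  ([1, 1, 1, 0, 1, 1, 1, 0, 0, 0, 0, 1, 1, 1, 1, 1, 0, 1, 1, 1], 4),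
  ([1, 1, 1, 1, 0, 1, 1, 1, 0, 0, 0, 0, 1, 1, 1, 1, 1, 0, 1, 1], 5),
  ([1, 1, 1, 1, 0, 0, 0, 0, 1, 1, 1, 1, 1, 0, 1, 1, 1, 0, 0, 0, 0], 0),
  ([0, 1, 1, 1, 1, 0, 0, 0, 0, 1, 1, 1, 1, 1, 0, 1, 1, 1, 0, 0, 0, 0], 0),
  ([0, 0, 1, 1, 1, 1, 0, 0, 0, 0, 1, 1, 1, 1, 1, 0, 1, 1, 1, 0, 0, 0, 0], 0),
  ([0, 0, 0, 1, 1, 1, 1, 0, 0, 0, 0, 1, 1, 1, 1, 1, 0, 1, 1, 1, 0, 0, 0, 0], 0)]

/-- Entry of `mems`. -/
def mem (k : ℕ) : List ℕ × ℕ := mems.getD k ([], 0)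

/-- Check of a certificate. -/
def Tr.ok (L' : List ℕ) (j' : ℕ) : Tr → ℕ → ℕ → Bool
  | .lf k, s, n =>
    decide (k < 17) && decide (s + 25 ≤ 36) && decide ((mem k).1.length ≤ 25) &&
      decide (L'.length ≤ 25) && decide ((mem k).2 < 13) && decide (j' < 13) &&
      node (cpl (mem k).1 L') (mem k).1 (mem k).2 L' j' s n &&
      node (cpl (mem k).1 L') (mem k).1 (mem k).2 L' j' s (n + 1)
  | .nd l r, s, n => Tr.ok L' j' l (s + 1) (2 * n) && Tr.ok L' j' r (s + 1) (2 * n + 1)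

/-- A transition step. -/
inductive Step
  | eq (k : ℕ)
  | app (k : ℕ)
  | tr (t : Tr)

/-- Check of a step from the piece `(L, j)` with the new digit `b`. -/
def Step.ok (L : List ℕ) (j b : ℕ) : Step → Bool
  | .eq k => decide (k < 17) && decide (mem k = (b :: L, j))
  | .app k => decide (k < 17) && decide (b :: L = (mem k).1 ++ [dg j]) && decide (j < 13) &&
      decide ((mem k).2 = (j + 1) % 13)
  | .tr t => t.ok (b :: L) j 0 0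

/-- All steps. -/
def steps : List (Step × Step) := [
  (.app 1, .tr (.lf 0)),
  (.app 2, .tr (.lf 9)),
  (.app 3, .tr (.nd (.lf 5) (.lf 5))),
  (.app 4, .tr (.nd (.nd (.lf 5) (.lf 7)) (.lf 5))),
  (.tr (.nd (.lf 4) (.nd (.lf 4) (.nd (.lf 4) (.nd (.lf 4) (.nd (.nd (.lf 4) (.lf 8)) (.lf 8)))))), .app 5),
  (.tr (.nd (.nd (.lf 14) (.lf 16)) (.lf 8)), .app 6),
  (.tr (.nd (.lf 8) (.nd (.lf 4) (.lf 8))), .app 7),
  (.app 8, .eq 13),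
  (.tr (.nd (.lf 2) (.nd (.lf 4) (.lf 4))), .app 9),
  (.tr (.lf 14), .app 10),
  (.tr (.lf 8), .app 11),
  (.tr (.nd (.lf 8) (.lf 8)), .app 12),
  (.tr (.nd (.nd (.nd (.lf 1) (.nd (.nd (.lf 15) (.lf 2)) (.lf 2))) (.nd (.lf 16) (.lf 3))) (.nd (.lf 4) (.nd (.lf 4) (.lf 8)))), .app 0),
  (.eq 14, .tr (.lf 0)),
  (.eq 15, .tr (.lf 9)),
  (.eq 16, .tr (.nd (.lf 5) (.lf 5))),
  (.tr (.nd (.nd (.lf 16) (.nd (.lf 3) (.nd (.lf 3) (.nd (.lf 3) (.nd (.nd (.lf 3) (.lf 7)) (.lf 7)))))) (.nd (.nd (.nd (.lf 7) (.lf 11)) (.lf 6)) (.lf 4))), .tr (.nd (.nd (.lf 5) (.lf 7)) (.lf 5)))]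

/-- Check of all steps. -/
def stepsOk : ℕ → Bool
  | 0 => true
  | k + 1 => ((steps.getD k (.eq 17, .eq 17)).1.ok (mem k).1 (mem k).2 0 &&
      (steps.getD k (.eq 17, .eq 17)).2.ok (mem k).1 (mem k).2 1) && stepsOk k

lemma stepsOk_true : stepsOk 17 = true := by decide +kernel

end Pool.Agent.R751.Flower
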