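import Pool.Agent.R751.FlE

set_option autoImplicit false

namespace Pool.Agent.R751.Flower

open Real

lemma natAbs_cast (m : ℤ) : ((m.natAbs : ℕ) : ℝ) = |(m : ℝ)| := by
  rw [Nat.cast_natAbs]; push_cast; rfl

lemma G_spec (i : ℕ) (hi : i < 13) : |1000000 * f (o i) - G i| ≤ 5 := by
  have h := gchkAll_spec 13 gchkAll_true i hi
  unfold gchk at h
  rw [Bool.and_eq_true] at h
  have h1 := of_decide_eq_true h.1
  have h2 := of_decide_eq_true h.2
  have hP := PP_pos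
  have h3 : |(((Fv (E 30 (Rr i))).1 : ℤ) : ℝ) * 1000000 - (G i : ℝ) * ((PP : ℤ) : ℝ)| +
      (((Fv (E 30 (Rr i))).2 : ℕ) : ℝ) * 1000000 ≤ ((PP : ℤ) : ℝ) := by
    have : ((((((Fv (E 30 (Rr i))).1 * 1000000 - G i * PP).natAbs +
      (Fv (E 30 (Rr i))).2 * 1000000 : ℕ)) : ℕ) : ℝ) ≤ ((PN : ℕ) : ℝ) := by exact_mod_cast h1
    rw [Nat.cast_add, natAbs_cast, PN_eq] at this
    push_cast at this
    exact this
  have h4 : |(Rr i : ℝ) / 2 ^ 30 - o i| ≤ 1 / 2 ^ 30 := by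
    have h5 : ((((Rr i : ℤ) * 8191 - (qv i : ℤ) * 2 ^ 30).natAbs : ℕ) : ℝ) ≤ 8191 := by exact_mod_cast h2
    rw [natAbs_cast] at h5
    push_cast at h5
    have h6 : (Rr i : ℝ) / 2 ^ 30 - o i = ((Rr i : ℝ) * 8191 - (qv i : ℝ) * 2 ^ 30) / (8191 * 2 ^ 30) := by
      unfold o; field_simp
    rw [h6, abs_div, abs_of_pos (by positivity : (0:ℝ) < 8191 * 2 ^ 30), div_le_div_iff₀ (by positivity)
      (by positivity), one_mul]
    exact mul_le_mul_of_nonneg_right (by norm_num at h5 ⊢; exact h5) (by positivity)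
  have h7 := Fv_spec (good_E 30 (Rr i) (by norm_num))
  have h8 := f_lip ((Rr i : ℝ) / 2 ^ 30) (o i)
  have h9 : |f ((Rr i : ℝ) / 2 ^ 30) - f (o i)| ≤ 3305 / 2 ^ 30 := by
    refine h8.trans ?_
    calc 3305 * |(Rr i : ℝ) / 2 ^ 30 - o i| ≤ 3305 * (1 / 2 ^ 30) := by gcongr
      _ = 3305 / 2 ^ 30 := by ring
  -- combine
  have h10 : |1000000 * f ((Rr i : ℝ) / 2 ^ 30) - G i| ≤ 1 := by
    have h11 : ((PP : ℤ) : ℝ) * |1000000 * f ((Rr i : ℝ) / 2 ^ 30) - G i| ≤ ((PP : ℤ) : ℝ) * 1 := by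
      have h12 : ((PP : ℤ) : ℝ) * |1000000 * f ((Rr i : ℝ) / 2 ^ 30) - G i| =
          |((PP : ℤ) : ℝ) * (1000000 * f ((Rr i : ℝ) / 2 ^ 30) - G i)| := by
        rw [abs_mul, abs_of_pos hP]
      rw [h12]
      have h13 : ((PP : ℤ) : ℝ) * (1000000 * f ((Rr i : ℝ) / 2 ^ 30) - G i) =
          1000000 * (((PP : ℤ) : ℝ) * f ((Rr i : ℝ) / 2 ^ 30) - (((Fv (E 30 (Rr i))).1 : ℤ) : ℝ)) +
            ((((Fv (E 30 (Rr i))).1 : ℤ) : ℝ) * 1000000 - (G i : ℝ) * ((PP : ℤ) : ℝ)) := by ring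
      rw [h13]
      refine (abs_add_le _ _).trans ?_
      rw [abs_mul, abs_of_pos (by norm_num : (0:ℝ) < 1000000)]
      nlinarith
    exact le_of_mul_le_mul_left h11 hP
  rw [abs_le] at h9 h10 ⊢
  norm_num at h9
  constructor
  · linarith [h9.1, h9.2, h10.1, h10.2]
  · linarith [h9.1, h9.2, h10.1, h10.2]

lemma Gt_eq : (Gt : ℤ) = ∑ i ∈ Finset.range 13, G i := by decide

lemma β_spec : |13000000 * β - Gt| ≤ 65 := by
  have h1 : 13000000 * β - (Gt : ℝ) = ∑ i ∈ Finset.range 13, (1000000 * f (o i) - G i) := by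
    rw [Gt_eq]
    push_cast
    rw [Finset.sum_sub_distrib, ← Finset.mul_sum]
    unfold β
    ring
  rw [h1]
  refine (Finset.abs_sum_le_sum_abs _ _).trans ?_
  calc ∑ i ∈ Finset.range 13, |1000000 * f (o i) - G i| ≤ ∑ i ∈ Finset.range 13, (5:ℝ) :=
        Finset.sum_le_sum fun i hi => G_spec i (Finset.mem_range.1 hi)
    _ = 65 := by norm_num

lemma Cz_spec (j : ℕ) (hj : j ≤ 13) : |13000000 * c j - Cz j| ≤ 130 * j := by
  induction j with
  | zero => simp [c, Cz]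
  | succ j ih =>
    have h1 := ih (by omega)
    have h2 := G_spec j (by omega)
    have h3 := β_spec
    rw [c_succ, Cz]
    rw [abs_le] at h1 h2 h3 ⊢
    push_cast
    constructor
    · linarith [h1.1, h1.2, h2.1, h2.2, h3.1, h3.2]
    · linarith [h1.1, h1.2, h2.1, h2.2, h3.1, h3.2]

lemma near_spec {L : List ℕ} {j s n : ℕ} (h : near L j s n = true) :
    |bk L ((n : ℝ) / 2 ^ s) - o j| ≤ 1 / 2 ^ 20 := by
  unfold near at h
  have h1 := of_decide_eq_true h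
  have h2 : ((((bkN L s n : ℤ) * 8191 - (qv j : ℤ) * 2 ^ (s + L.length)).natAbs : ℕ) : ℝ) * 2 ^ 20 ≤
      8191 * 2 ^ (s + L.length) := by exact_mod_cast h1
  rw [natAbs_cast] at h2
  push_cast at h2
  have hp : (0:ℝ) < 2 ^ (s + L.length) := by positivity
  rw [bk_spec]
  have h6 : (bkN L s n : ℝ) / 2 ^ (s + L.length) - o j =
      ((bkN L s n : ℝ) * 8191 - (qv j : ℝ) * 2 ^ (s + L.length)) / (8191 * 2 ^ (s + L.length)) := by
    unfold o; field_simp
  rw [h6, abs_div, abs_of_pos (by positivity : (0:ℝ) < 8191 * 2 ^ (s + L.length)),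
    div_le_div_iff₀ (by positivity) (by positivity)]
  linarith

/-- Two-sided numerical bound for `S` at a node. -/
lemma S_num {L : List ℕ} {j s n : ℕ} (hs : s + L.length ≤ 36) (hL : L.length ≤ 25) (hj : j < 13)
    (hn : near L j s n = true) :
    |13000000 * (((PP : ℤ) : ℝ) * S L j ((n : ℝ) / 2 ^ s)) -
      (13000000 * (((evS L s n).1 : ℤ) : ℝ) + ((PP : ℤ) : ℝ) * ((Cz j : ℝ) - L.length * (Gt : ℝ)))| ≤
      13000000 * (((evS L s n).2 : ℕ) : ℝ) + ((PP : ℤ) : ℝ) * 45000 := by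
  have h1 := evS_spec L s n hs
  have h2 := near_spec hn
  have h3 := β_spec
  have h4 := Cz_spec j hj.le
  have h5 := d_bound j
  have hP := PP_pos
  set z := bk L ((n : ℝ) / 2 ^ s) with hz
  have hB : |13000000 * (d j * (z - o j) + 49700 / 6 * (z - o j) ^ 2)| ≤ 41000 := by
    have e1 : |d j * (z - o j)| ≤ 3305 * (1 / 2 ^ 20) := by
      rw [abs_mul]
      exact mul_le_mul h5 h2 (abs_nonneg _) (by norm_num)
    have e2 : (z - o j) ^ 2 ≤ (1 / 2 ^ 20) ^ 2 := by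
      rw [← sq_abs]
      gcongr
    have e3 : 0 ≤ (z - o j) ^ 2 := sq_nonneg _
    rw [abs_le] at e1 ⊢
    norm_num at e1 e2
    constructor
    · linarith [e1.1, e1.2]
    · linarith [e1.1, e1.2]
  have hLr : (L.length : ℝ) ≤ 25 := by exact_mod_cast hL
  have hL0 : (0:ℝ) ≤ (L.length : ℝ) := Nat.cast_nonneg _
  have hjr : (j : ℝ) ≤ 13 := by exact_mod_cast hj.le
  have hmid : |13000000 * (c j + (d j * (z - o j) + 49700 / 6 * (z - o j) ^ 2) - L.length * β) -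
      ((Cz j : ℝ) - L.length * (Gt : ℝ))| ≤ 45000 := by
    have e4 : 13000000 * (c j + (d j * (z - o j) + 49700 / 6 * (z - o j) ^ 2) - L.length * β) -
        ((Cz j : ℝ) - L.length * (Gt : ℝ)) = (13000000 * c j - Cz j) +
          13000000 * (d j * (z - o j) + 49700 / 6 * (z - o j) ^ 2) -
            L.length * (13000000 * β - Gt) := by ring
    have e5 : |(L.length : ℝ) * (13000000 * β - Gt)| ≤ 25 * 65 := by
      rw [abs_mul, abs_of_nonneg hL0]
      exact mul_le_mul hLr h3 (abs_nonneg _) (by norm_num)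
    rw [e4]
    rw [abs_le] at e5 hB h4 ⊢
    constructor
    · linarith [e5.1, e5.2, hB.1, hB.2, h4.1, h4.2]
    · linarith [e5.1, e5.2, hB.1, hB.2, h4.1, h4.2]
  have e6 : 13000000 * (((PP : ℤ) : ℝ) * S L j ((n : ℝ) / 2 ^ s)) -
      (13000000 * (((evS L s n).1 : ℤ) : ℝ) + ((PP : ℤ) : ℝ) * ((Cz j : ℝ) - L.length * (Gt : ℝ))) =
      13000000 * (((PP : ℤ) : ℝ) * Ssum L ((n : ℝ) / 2 ^ s) - (((evS L s n).1 : ℤ) : ℝ)) +
      ((PP : ℤ) : ℝ) * (13000000 * (c j + (d j * (z - o j) + 49700 / 6 * (z - o j) ^ 2) - L.length * β) -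
      ((Cz j : ℝ) - L.length * (Gt : ℝ))) := by
    unfold S B
    rw [← hz]
    ring
  rw [e6]
  refine (abs_add_le _ _).trans ?_
  rw [abs_mul, abs_mul, abs_of_pos hP, abs_of_pos (by norm_num : (0:ℝ) < 13000000)]
  exact add_le_add (mul_le_mul_of_nonneg_left h1 (by norm_num)) (mul_le_mul_of_nonneg_left hmid hP.le)

lemma node_spec {m : ℕ} {L : List ℕ} {j : ℕ} {L' : List ℕ} {j' s n : ℕ}
    (hs : s + 25 ≤ 36) (hL : L.length ≤ 25) (hL' : L'.length ≤ 25) (hj : j < 13) (hj' : j' < 13)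
    (h : node m L j L' j' s n = true) :
    49700 / (12 * 4 ^ (m + s)) ≤ S L j ((n : ℝ) / 2 ^ s) - S L' j' ((n : ℝ) / 2 ^ s) := by
  unfold node at h
  rw [Bool.and_eq_true, Bool.and_eq_true] at h
  obtain ⟨⟨h1, h2⟩, h3⟩ := h
  have h3 := of_decide_eq_true h3
  have e1 := abs_le.1 (S_num (by omega) hL hj h1)
  have e2 := abs_le.1 (S_num (by omega) hL' hj' h2)
  have hP := PP_pos
  have h4 : ((PP : ℤ) : ℝ) * (13000000 * 49700) ≤ 12 * 4 ^ (m + s) *
    (13000000 * ((((evS L s n).1 : ℤ) : ℝ) - (((evS L' s n).1 : ℤ) : ℝ) - (((evS L s n).2 : ℕ) : ℝ) -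
      (((evS L' s n).2 : ℕ) : ℝ)) +
      ((PP : ℤ) : ℝ) * ((Cz j : ℝ) - Cz j' + ((L'.length : ℝ) - L.length) * (Gt : ℝ) - 90000)) := by
    exact_mod_cast h3
  have h5 : (0:ℝ) < 12 * 4 ^ (m + s) := by positivity
  rw [div_le_iff₀ h5]
  have h6 : 13000000 * ((((evS L s n).1 : ℤ) : ℝ) - (((evS L' s n).1 : ℤ) : ℝ) -
      (((evS L s n).2 : ℕ) : ℝ) - (((evS L' s n).2 : ℕ) : ℝ)) +
      ((PP : ℤ) : ℝ) * ((Cz j : ℝ) - Cz j' + ((L'.length : ℝ) - L.length) * (Gt : ℝ) - 90000) ≤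
      13000000 * (((PP : ℤ) : ℝ) * (S L j ((n : ℝ) / 2 ^ s) - S L' j' ((n : ℝ) / 2 ^ s))) := by
    linarith [e1.1, e1.2, e2.1, e2.2]
  have h7 := mul_le_mul_of_nonneg_left h6 h5.le
  have h8 : ((PP : ℤ) : ℝ) * (13000000 * 49700) ≤ ((PP : ℤ) : ℝ) *
      (13000000 * ((S L j ((n : ℝ) / 2 ^ s) - S L' j' ((n : ℝ) / 2 ^ s)) * (12 * 4 ^ (m + s)))) := by
    calc ((PP : ℤ) : ℝ) * (13000000 * 49700) ≤ _ := h4
      _ ≤ _ := h7
      _ = _ := by ring
  have h9 := le_of_mul_le_mul_left h8 hP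
  linarith

lemma cpl_spec (L L' : List ℕ) : ∃ C R R' : List ℕ, L = C ++ R ∧ L' = C ++ R' ∧ C.length = cpl L L' := by
  induction L generalizing L' with
  | nil => exact ⟨[], [], L', by simp, by simp, by cases L' <;> simp [cpl]⟩
  | cons a L ih =>
    cases L' with
    | nil => exact ⟨[], a :: L, [], by simp, by simp, by simp [cpl]⟩
    | cons b L' =>
      by_cases hab : a = b
      · obtain ⟨C, R, R', h1, h2, h3⟩ := ih L'
        refine ⟨a :: C, R, R', ?_, ?_, ?_⟩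
        · rw [h1]; simp
        · rw [h2, hab]; simp
        · simp [cpl, hab, h3]
      · exact ⟨[], a :: L, b :: L', by simp, by simp, by simp [cpl, hab]⟩

lemma Tr_spec (L' : List ℕ) (j' : ℕ) (t : Tr) : ∀ s n : ℕ, t.ok L' j' s n = true →
    ∀ y ∈ Set.Icc ((n : ℝ) / 2 ^ s) ((n + 1 : ℝ) / 2 ^ s), ∃ k < 17,
      S L' j' y ≤ S (mem k).1 (mem k).2 y := by
  induction t with
  | lf k =>
    intro s n h y hy
    simp only [Tr.ok, Bool.and_eq_true, decide_eq_true_eq] at h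
    obtain ⟨⟨⟨⟨⟨⟨⟨h1, h2⟩, h3⟩, h4⟩, h5⟩, h6⟩, h7⟩, h8⟩ := h
    refine ⟨k, h1, ?_⟩
    obtain ⟨C, R, R', hC1, hC2, hC3⟩ := cpl_spec (mem k).1 L'
    have hn1 := node_spec h2 h3 h4 h5 h6 h7
    have hn2 := node_spec h2 h3 h4 h5 h6 h8
    have hSC := SC_diff C R R' (mem k).2 j'
    rw [← hC1, ← hC2, hC3] at hSC
    have hthr : (2 * 49700 / 3 / 4 ^ cpl (mem k).1 L' : ℝ) * (((n + 1 : ℝ) / 2 ^ s) - (n : ℝ) / 2 ^ s) ^ 2 / 8 =
        49700 / (12 * 4 ^ (cpl (mem k).1 L' + s)) := by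
      have e1 : ((n + 1 : ℝ) / 2 ^ s) - (n : ℝ) / 2 ^ s = 1 / 2 ^ s := by ring
      have e2 : (4 : ℝ) ^ s = 2 ^ s * 2 ^ s := by
        rw [← mul_pow]; norm_num
      rw [e1, pow_add, e2]
      field_simp
      norm_num
    push_cast at hn2
    have hlt : (n : ℝ) / 2 ^ s < (n + 1 : ℝ) / 2 ^ s := by
      apply div_lt_div_of_pos_right _ (by positivity)
      linarith
    have := hSC.leaf hlt (by positivity) (by rw [hthr]; exact hn1) (by rw [hthr]; exact hn2) y hy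
    linarith
  | nd l r ihl ihr =>
    intro s n h y hy
    simp only [Tr.ok, Bool.and_eq_true] at h
    have e1 : ((2 * n : ℕ) : ℝ) / 2 ^ (s + 1) = (n : ℝ) / 2 ^ s := by
      push_cast; rw [pow_succ]; field_simp
    have e2 : (((2 * n + 1 : ℕ) : ℝ) + 1) / 2 ^ (s + 1) = (n + 1 : ℝ) / 2 ^ s := by
      push_cast; rw [pow_succ]; field_simp; ring
    have e3 : (((2 * n : ℕ) : ℝ) + 1) / 2 ^ (s + 1) = ((2 * n + 1 : ℕ) : ℝ) / 2 ^ (s + 1) := by
      push_cast; ring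
    rcases le_total y (((2 * n + 1 : ℕ) : ℝ) / 2 ^ (s + 1)) with hle | hle
    · refine ihl (s + 1) (2 * n) h.1 y ⟨?_, ?_⟩
      · rw [e1]; exact hy.1
      · rw [e3]; exact hle
    · refine ihr (s + 1) (2 * n + 1) h.2 y ⟨hle, ?_⟩
      rw [e2]; exact hy.2

lemma stepsOk_spec (n : ℕ) (h : stepsOk n = true) : ∀ k, k < n →
    (steps.getD k (.eq 17, .eq 17)).1.ok (mem k).1 (mem k).2 0 = true ∧
      (steps.getD k (.eq 17, .eq 17)).2.ok (mem k).1 (mem k).2 1 = true := by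
  induction n with
  | zero => intro k hk; omega
  | succ n ih =>
    intro k hk
    rw [stepsOk, Bool.and_eq_true, Bool.and_eq_true] at h
    rcases Nat.lt_or_ge k n with h3 | h3
    · exact ih h.2 k h3
    · have : k = n := by omega
      rw [this]; exact h.1

lemma Step_spec (L : List ℕ) (j b : ℕ) (t : Step) (h : t.ok L j b = true) :
    ∀ y ∈ Set.Icc (0:ℝ) 1, ∃ k < 17, S (b :: L) j y ≤ S (mem k).1 (mem k).2 y := by
  intro y hy
  cases t with
  | eq k =>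
    simp only [Step.ok, Bool.and_eq_true, decide_eq_true_eq] at h
    exact ⟨k, h.1, by rw [h.2]⟩
  | app k =>
    simp only [Step.ok, Bool.and_eq_true, decide_eq_true_eq] at h
    obtain ⟨⟨⟨h1, h2⟩, h3⟩, h4⟩ := h
    refine ⟨k, h1, ?_⟩
    rw [h2, h4]
    rcases Nat.lt_or_ge (j + 1) 13 with h5 | h5
    · rw [Nat.mod_eq_of_lt h5]
      exact S_append_le _ _ _
    · have h6 : j = 12 := by omega
      subst h6
      exact S_append_le_13 _ _
  | tr t =>
    have := Tr_spec (b :: L) j t 0 0 h y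
    simp only [Nat.cast_zero, zero_add, pow_zero, div_one] at this
    exact this hy

/-- The step inequality for every piece and every digit. -/
lemma step_all (k b : ℕ) (hk : k < 17) (hb : b < 2) : ∀ y ∈ Set.Icc (0:ℝ) 1, ∃ k' < 17,
    S (b :: (mem k).1) (mem k).2 y ≤ S (mem k').1 (mem k').2 y := by
  have h := stepsOk_spec 17 stepsOk_true k hk
  have hb' : b = 0 ∨ b = 1 := by omega
  rcases hb' with rfl | rfl
  · exact Step_spec _ _ _ _ h.1
  · exact Step_spec _ _ _ _ h.2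

/-- The sub-action. -/
noncomputable def Phi (y : ℝ) : ℝ :=
  Finset.sup' (Finset.range 17) ⟨0, by simp⟩ (fun k => S (mem k).1 (mem k).2 y)

lemma Phi_step (x : ℝ) (b : ℕ) (hb : b < 2) (h : 2 * x - b ∈ Set.Icc (0:ℝ) 1) :
    f x - β + Phi x ≤ Phi (2 * x - b) := by
  obtain ⟨k, hk, hk2⟩ := Finset.exists_mem_eq_sup' (s := Finset.range 17) ⟨0, by simp⟩
    (fun k => S (mem k).1 (mem k).2 x)
  obtain ⟨k', hk', hle⟩ := step_all k b (Finset.mem_range.1 hk) hb (2 * x - b) h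
  have h1 : Phi x = S (mem k).1 (mem k).2 x := hk2
  have h2 : S (mem k').1 (mem k').2 (2 * x - b) ≤ Phi (2 * x - b) :=
    Finset.le_sup' (fun k => S (mem k).1 (mem k).2 (2 * x - b)) (Finset.mem_range.2 hk')
  rw [S_cons] at hle
  have h3 : (2 * x - (b:ℝ) + b) / 2 = x := by ring
  rw [h3] at hle
  rw [h1]
  linarith

lemma continuous_f : Continuous f := by
  unfold f; fun_prop

lemma continuous_S (L : List ℕ) (j : ℕ) : Continuous (S L j) := by
  induction L with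
  | nil =>
    have : S [] j = B j := funext fun y => S_nil j y
    rw [this]; unfold B; fun_prop
  | cons b L ih =>
    have : S (b :: L) j = fun y => f ((y + b) / 2) - β + S L j ((y + b) / 2) := funext fun y => S_cons b L j y
    rw [this]
    have := continuous_f
    fun_prop

lemma continuous_Phi : Continuous Phi := by
  unfold Phi
  exact Continuous.finset_sup'_apply _ (fun k _ => continuous_S _ _)

end Pool.Agent.R751.Flower
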