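import Pool.Agent.R751.FlF

set_option autoImplicit false

namespace Pool.Agent.R751.Flower

open Real MeasureTheory Set

/-! ### The circle -/

/-- The representative in `[0, 1)`. -/
noncomputable def rep (x : UnitAddCircle) : ℝ := ((AddCircle.equivIco 1 0 x : Ico (0:ℝ) (0 + 1)) : ℝ)

lemma rep_nonneg (x : UnitAddCircle) : 0 ≤ rep x := (AddCircle.equivIco 1 0 x).2.1

lemma rep_lt (x : UnitAddCircle) : rep x < 1 := by
  have := (AddCircle.equivIco 1 0 x).2.2
  unfold rep
  linarith

lemma coe_rep (x : UnitAddCircle) : ((rep x : ℝ) : UnitAddCircle) = x := AddCircle.coe_equivIco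

lemma rep_coe {t : ℝ} (h0 : 0 ≤ t) (h1 : t < 1) : rep (t : UnitAddCircle) = t := by
  unfold rep
  exact AddCircle.equivIco_coe_of_mem ⟨h0, by linarith⟩

lemma measurable_rep : Measurable rep := by
  unfold rep
  exact measurable_subtype_coe.comp (AddCircle.measurableEquivIco 1 0).measurable

lemma coe_add_one (t : ℝ) : ((t + 1 : ℝ) : UnitAddCircle) = (t : UnitAddCircle) := by
  have := AddCircle.coe_add_period (1:ℝ) t
  exact this

lemma coe_sub_one (t : ℝ) : ((t - 1 : ℝ) : UnitAddCircle) = (t : UnitAddCircle) := by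
  have := coe_add_one (t - 1)
  rw [sub_add_cancel] at this
  exact this.symm

lemma coe_eq_iff' {a b : ℝ} : (a : UnitAddCircle) = (b : UnitAddCircle) ↔ ∃ n : ℤ, b - a = n := by
  rw [eq_comm]
  have h := AddCircle.coe_eq_coe_iff_of_mem_Ico (p := (1:ℝ)) (a := 0) (x := Int.fract b) (y := Int.fract a)
    ⟨Int.fract_nonneg _, by simpa using Int.fract_lt_one _⟩ ⟨Int.fract_nonneg _, by simpa using Int.fract_lt_one _⟩
  have h1 : ∀ t : ℝ, ((Int.fract t : ℝ) : UnitAddCircle) = (t : UnitAddCircle) := by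
    intro t
    have := QuotientAddGroup.eq (s := AddSubgroup.zmultiples (1:ℝ)) (a := Int.fract t) (b := t)
    refine this.2 ?_
    refine AddSubgroup.mem_zmultiples_iff.2 ⟨⌊t⌋, ?_⟩
    rw [zsmul_eq_mul, mul_one]
    have := Int.self_sub_floor t
    linarith [Int.self_sub_floor t]
  rw [h1, h1] at h
  rw [h]
  constructor
  · intro h2
    refine ⟨⌊b⌋ - ⌊a⌋, ?_⟩
    push_cast
    have := Int.self_sub_floor b
    have := Int.self_sub_floor a
    linarith
  · rintro ⟨n, hn⟩
    have : b = a + n := by linarith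
    rw [this, Int.fract_add_intCast]

/-- The doubling map. -/
def D2 (x : UnitAddCircle) : UnitAddCircle := x + x

lemma continuous_D2 : Continuous D2 := continuous_id.add continuous_id

lemma rep_D2 (x : UnitAddCircle) : ∃ b : ℕ, b < 2 ∧ rep (D2 x) = 2 * rep x - b := by
  have h0 := rep_nonneg x
  have h1 := rep_lt x
  have hx : D2 x = ((2 * rep x : ℝ) : UnitAddCircle) := by
    unfold D2
    conv_lhs => rw [← coe_rep x]
    rw [← AddCircle.coe_add, two_mul]
  rcases lt_or_ge (rep x) (1 / 2) with h | h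
  · refine ⟨0, by norm_num, ?_⟩
    rw [hx, rep_coe (by linarith) (by linarith)]
    push_cast; ring
  · refine ⟨1, by norm_num, ?_⟩
    rw [hx, ← coe_sub_one, rep_coe (by linarith) (by linarith)]
    push_cast; ring

/-- The trigonometric polynomial on the circle. -/
noncomputable def fC (x : UnitAddCircle) : ℝ := f (rep x)

lemma fC_coe (t : ℝ) : fC (t : UnitAddCircle) = f t := by
  obtain ⟨n, hn⟩ := coe_eq_iff'.1 (coe_rep (t : UnitAddCircle))
  unfold fC
  have h : t = rep (t : UnitAddCircle) + n := by linarith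
  rcases n.eq_nat_or_neg with ⟨m, rfl | rfl⟩
  · conv_rhs => rw [h]
    push_cast
    rw [f_add_nat]
  · have h2 : rep (t : UnitAddCircle) = t + m := by push_cast at h; linarith
    rw [h2, f_add_nat]

/-- The sub-action on the circle. -/
noncomputable def phi (x : UnitAddCircle) : ℝ := Phi (rep x)

lemma phi_step (x : UnitAddCircle) : fC x - β + phi x ≤ phi (D2 x) := by
  obtain ⟨b, hb, h⟩ := rep_D2 x
  unfold fC phi
  rw [h]
  exact Phi_step (rep x) b hb ⟨by rw [← h]; exact rep_nonneg _, by rw [← h]; exact (rep_lt _).le⟩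

lemma measurable_phi : Measurable phi := continuous_Phi.measurable.comp measurable_rep

lemma measurable_fC : Measurable fC := continuous_f.measurable.comp measurable_rep

lemma bdd_phi : ∃ C : ℝ, ∀ x, ‖phi x‖ ≤ C := by
  obtain ⟨C, hC⟩ := isCompact_Icc.exists_bound_of_continuousOn (s := Icc (0:ℝ) 1) continuous_Phi.continuousOn
  exact ⟨C, fun x => hC _ ⟨rep_nonneg x, (rep_lt x).le⟩⟩

lemma bdd_fC : ∃ C : ℝ, ∀ x, ‖fC x‖ ≤ C := by
  obtain ⟨C, hC⟩ := isCompact_Icc.exists_bound_of_continuousOn (s := Icc (0:ℝ) 1) continuous_f.continuousOn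
  exact ⟨C, fun x => hC _ ⟨rep_nonneg x, (rep_lt x).le⟩⟩

lemma integrable_of_bdd {g : UnitAddCircle → ℝ} (hg : Measurable g) (hb : ∃ C : ℝ, ∀ x, ‖g x‖ ≤ C)
    (ν : Measure UnitAddCircle) [IsProbabilityMeasure ν] : Integrable g ν := by
  obtain ⟨C, hC⟩ := hb
  exact Integrable.of_bound hg.aestronglyMeasurable C (Filter.Eventually.of_forall hC)

/-- Every invariant measure gives `f` an integral at most `β`. -/
lemma int_le (ν : Measure UnitAddCircle) [IsProbabilityMeasure ν] (hν : ν.map D2 = ν) :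
    ∫ x, fC x ∂ν ≤ β := by
  have i1 := integrable_of_bdd measurable_fC bdd_fC ν
  have i2 := integrable_of_bdd measurable_phi bdd_phi ν
  have i3 : Integrable (fun x => phi (D2 x)) ν :=
    integrable_of_bdd (measurable_phi.comp continuous_D2.measurable)
      (by obtain ⟨C, hC⟩ := bdd_phi; exact ⟨C, fun x => hC _⟩) ν
  have h1 : ∫ x, (fC x - β + phi x) ∂ν ≤ ∫ x, phi (D2 x) ∂ν :=
    integral_mono ((i1.sub (integrable_const β)).add i2) i3 (fun x => phi_step x)
  have h2 : ∫ x, phi (D2 x) ∂ν = ∫ x, phi x ∂ν := by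
    conv_rhs => rw [← hν]
    rw [integral_map continuous_D2.measurable.aemeasurable measurable_phi.aestronglyMeasurable]
  have h3 : ∫ x, (fC x - β + phi x) ∂ν = ∫ x, fC x ∂ν - β + ∫ x, phi x ∂ν := by
    have e1 : ∫ x, ((fun x => fC x - β) x + phi x) ∂ν = ∫ x, (fun x => fC x - β) x ∂ν + ∫ x, phi x ∂ν :=
      integral_add (i1.sub (integrable_const β)) i2
    have e2 : ∫ x, (fC x - β) ∂ν = ∫ x, fC x ∂ν - β := by
      rw [integral_sub i1 (integrable_const β)]
      simp
    simp only at e1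
    rw [e1, e2]
  rw [h2, h3] at h1
  linarith

/-! ### The orbit measure -/

/-- The orbit measure. -/
noncomputable def μ0 : Measure UnitAddCircle :=
  (13 : ENNReal)⁻¹ • ∑ i ∈ Finset.range 13, Measure.dirac ((o i : ℝ) : UnitAddCircle)

lemma D2_o (i : ℕ) : D2 ((o i : ℝ) : UnitAddCircle) = ((o (i + 1) : ℝ) : UnitAddCircle) := by
  unfold D2
  rw [← AddCircle.coe_add, coe_eq_iff']
  refine ⟨-(dg i : ℤ), ?_⟩
  rw [o_succ]; push_cast; ring

lemma prob_μ0 : IsProbabilityMeasure μ0 := by
  constructor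
  unfold μ0
  rw [Measure.smul_apply, Measure.finsetSum_apply]
  simp
  exact ENNReal.inv_mul_cancel (by norm_num) (by norm_num)

lemma inv_μ0 : μ0.map D2 = μ0 := by
  have hm := continuous_D2.measurable
  unfold μ0
  rw [Measure.map_smul]
  congr 1
  rw [← Measure.mapₗ_apply_of_measurable hm, map_sum]
  simp only [Measure.mapₗ_apply_of_measurable hm, Measure.map_dirac' hm, D2_o]
  rw [Finset.sum_range_succ, o_13, Finset.sum_range_succ' (fun i => Measure.dirac ((o i : ℝ) : UnitAddCircle))]

lemma int_μ0 : ∫ x, fC x ∂μ0 = β := by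
  unfold μ0
  rw [integral_smul_measure, integral_finsetSum_measure]
  · simp only [integral_dirac, fC_coe]
    unfold β
    rw [ENNReal.toReal_inv]
    simp
    ring
  · intro i _
    exact integrable_dirac (by simp)

lemma mem_support_μ0 (i : ℕ) (hi : i < 13) : ((o i : ℝ) : UnitAddCircle) ∈ μ0.support := by
  rw [Measure.mem_support_iff_forall]
  intro U hU
  unfold μ0
  rw [Measure.smul_apply, Measure.finsetSum_apply, smul_eq_mul]
  refine ENNReal.mul_pos (by simp) ?_
  have h1 : Measure.dirac ((o i : ℝ) : UnitAddCircle) U ≤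
      ∑ j ∈ Finset.range 13, Measure.dirac ((o j : ℝ) : UnitAddCircle) U :=
    Finset.single_le_sum (f := fun j => Measure.dirac ((o j : ℝ) : UnitAddCircle) U)
      (fun _ _ => zero_le) (Finset.mem_range.2 hi)
  have h2 : Measure.dirac ((o i : ℝ) : UnitAddCircle) U = 1 := by
    rw [Measure.dirac_apply]
    rw [indicator_of_mem (mem_of_mem_nhds hU)]
    rfl
  rw [h2] at h1
  exact (lt_of_lt_of_le one_pos h1).ne'

end Pool.Agent.R751.Flower
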