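import Pool.Agent.R751.FlG

set_option autoImplicit false

namespace Pool.Agent.R751.Flower

open Set

lemma isOpen_arc (a b : ℝ) : IsOpen ((fun t : ℝ => (t : UnitAddCircle)) '' Ioo a b) :=
  QuotientAddGroup.isOpenMap_coe _ isOpen_Ioo

lemma arc_dichotomy {C : Set UnitAddCircle} (hC : IsPreconnected C) {a b : ℝ} (hab : a < b)
    (hba : b < a + 1) (ha : (a : UnitAddCircle) ∈ C) (hb : (b : UnitAddCircle) ∈ C) :
    (fun t : ℝ => (t : UnitAddCircle)) '' Ioo a b ⊆ C ∨
      (fun t : ℝ => (t : UnitAddCircle)) '' Ioo b (a + 1) ⊆ C := by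
  by_contra hcon
  rw [not_or] at hcon
  obtain ⟨h1, h2⟩ := hcon
  rw [Set.not_subset] at h1 h2
  obtain ⟨_, ⟨u, hu, rfl⟩, huC⟩ := h1
  obtain ⟨_, ⟨v, hv, rfl⟩, hvC⟩ := h2
  simp only at huC hvC
  have hcov : C ⊆ ((fun t : ℝ => (t : UnitAddCircle)) '' Ioo u v) ∪
      ((fun t : ℝ => (t : UnitAddCircle)) '' Ioo v (u + 1)) := by
    intro x hx
    have hmem := (AddCircle.equivIco 1 u x).2
    have hcoe : (((AddCircle.equivIco 1 u x : Ico u (u + 1)) : ℝ) : UnitAddCircle) = x :=
      AddCircle.coe_equivIco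
    set t : ℝ := ((AddCircle.equivIco 1 u x : Ico u (u + 1)) : ℝ) with ht
    rcases eq_or_lt_of_le hmem.1 with h | h
    · exact absurd (by rw [h, hcoe]; exact hx) huC
    · rcases lt_trichotomy t v with h3 | h3 | h3
      · exact Or.inl ⟨t, ⟨h, h3⟩, hcoe⟩
      · exact absurd (by rw [← h3, hcoe]; exact hx) hvC
      · exact Or.inr ⟨t, ⟨h3, hmem.2⟩, hcoe⟩
  obtain ⟨x, hxC, ⟨t1, ht1, h1⟩, ⟨t2, ht2, h2⟩⟩ := hC _ _ (isOpen_arc u v) (isOpen_arc v (u + 1)) hcov
    ⟨(b : UnitAddCircle), hb, ⟨b, ⟨hu.2, hv.1⟩, rfl⟩⟩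
    ⟨(a : UnitAddCircle), ha, ⟨a + 1, ⟨hv.2, by linarith [hu.1]⟩, coe_add_one a⟩⟩
  simp only at h1 h2
  obtain ⟨n, hn⟩ := coe_eq_iff'.1 (h1.trans h2.symm)
  have h3 : (0:ℝ) < n := by rw [← hn]; linarith [ht1.2, ht2.1]
  have h4 : (n:ℝ) < 1 := by rw [← hn]; linarith [ht1.1, ht2.2]
  have h5 : (0:ℤ) < n := by exact_mod_cast h3
  have h6 : n < (1:ℤ) := by exact_mod_cast h4
  omega

/-- Two points of `X` separated on both sides by points of the half turn of `X` lie in different
components. -/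
lemma sep {X Y : Set UnitAddCircle} (hX : X ∩ Y = frontier X) {a b u v : ℝ}
    (hau : a < u) (hub : u < b) (hbv : b < v) (hva : v < a + 1)
    (ha : (a : UnitAddCircle) ∈ X) (hu : (u : UnitAddCircle) ∈ Y)
    (hv : (v : UnitAddCircle) ∈ Y) :
    (b : UnitAddCircle) ∉ connectedComponentIn X (a : UnitAddCircle) := by
  intro hb
  have key : ∀ w : UnitAddCircle, w ∈ Y → ∀ O : Set UnitAddCircle, IsOpen O → O ⊆ X → w ∈ O → False := by
    intro w hw O hO hOX hwO
    have h1 : w ∈ interior X := mem_interior.2 ⟨O, hOX, hO, hwO⟩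
    have h2 : w ∈ frontier X := by rw [← hX]; exact ⟨hOX hwO, hw⟩
    exact h2.2 h1
  have hsub : connectedComponentIn X (a : UnitAddCircle) ⊆ X := connectedComponentIn_subset _ _
  rcases arc_dichotomy isPreconnected_connectedComponentIn (hau.trans hub) (hbv.trans hva)
    (mem_connectedComponentIn ha) hb with h | h
  · exact key _ hu _ (isOpen_arc a b) (h.trans hsub) ⟨u, ⟨hau, hub⟩, rfl⟩
  · exact key _ hv _ (isOpen_arc b (a + 1)) (h.trans hsub) ⟨v, ⟨hbv, hva⟩, rfl⟩

/-- Five points of the orbit. -/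
def Pn : Fin 5 → ℕ := ![0, 3, 7, 6, 8]

/-- Five separating points. -/
noncomputable def Sp : Fin 5 → ℝ := ![3975 / 16382, 7709 / 16382, 9149 / 16382, 15855 / 16382, 16141 / 16382]

lemma o_Pn (i : Fin 5) : o (Pn i) = (![479, 3832, 3975, 6083, 7950] : Fin 5 → ℝ) i / 8191 := by
  unfold o
  fin_cases i
  · show ((qv 0 : ℕ) : ℝ) / 8191 = 479 / 8191
    rw [show qv 0 = 479 by decide]; norm_num
  · show ((qv 3 : ℕ) : ℝ) / 8191 = 3832 / 8191
    rw [show qv 3 = 3832 by decide]; norm_num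
  · show ((qv 7 : ℕ) : ℝ) / 8191 = 3975 / 8191
    rw [show qv 7 = 3975 by decide]; norm_num
  · show ((qv 6 : ℕ) : ℝ) / 8191 = 6083 / 8191
    rw [show qv 6 = 6083 by decide]; norm_num
  · show ((qv 8 : ℕ) : ℝ) / 8191 = 7950 / 8191
    rw [show qv 8 = 7950 by decide]; norm_num

lemma Pn_lt (i : Fin 5) : Pn i < 13 := by fin_cases i <;> decide

/-- If `X` meets its half turn exactly in its frontier and contains the orbit, it has at least five
components. -/
lemma five_petals {X : Set UnitAddCircle}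
    (hX : X ∩ ((fun x : UnitAddCircle => x + ((1 / 2 : ℝ) : UnitAddCircle)) '' X) = frontier X)
    (hO : ∀ i < 13, ((o i : ℝ) : UnitAddCircle) ∈ X) :
    5 ≤ ((fun x => connectedComponentIn X x) '' X).encard := by
  have hsp : ∀ i : Fin 5, ((Sp i : ℝ) : UnitAddCircle) ∈
      ((fun x : UnitAddCircle => x + ((1 / 2 : ℝ) : UnitAddCircle)) '' X) := by
    have hh : ∀ (k : ℕ) (s : ℝ) (n : ℤ), k < 13 → s - (o k + 1 / 2) = n → ((s : ℝ) : UnitAddCircle) ∈
        ((fun x : UnitAddCircle => x + ((1 / 2 : ℝ) : UnitAddCircle)) '' X) := by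
      intro k s n hk hs
      refine ⟨((o k : ℝ) : UnitAddCircle), hO k hk, ?_⟩
      simp only
      rw [← AddCircle.coe_add, coe_eq_iff']
      exact ⟨n, hs⟩
    intro i
    fin_cases i
    · refine hh 6 (3975 / 16382) (-1) (by norm_num) ?_
      have := o_Pn 3
      simp [Pn] at this
      rw [this]; norm_num
    · refine hh 8 (7709 / 16382) (-1) (by norm_num) ?_
      have := o_Pn 4
      simp [Pn] at this
      rw [this]; norm_num
    · refine hh 0 (9149 / 16382) 0 (by norm_num) ?_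
      have := o_Pn 0
      simp [Pn] at this
      rw [this]; norm_num
    · refine hh 3 (15855 / 16382) 0 (by norm_num) ?_
      have := o_Pn 1
      simp [Pn] at this
      rw [this]; norm_num
    · refine hh 7 (16141 / 16382) 0 (by norm_num) ?_
      have := o_Pn 2
      simp [Pn] at this
      rw [this]; norm_num
  have hlt : ∀ i j : Fin 5, i < j → o (Pn i) < Sp i ∧ Sp i < o (Pn j) ∧ o (Pn j) < Sp j ∧
      Sp j < o (Pn i) + 1 := by
    intro i j hij
    rw [o_Pn, o_Pn]
    unfold Sp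
    fin_cases i <;> fin_cases j <;> first | (exfalso; revert hij; decide) | norm_num
  have hinj : Function.Injective (fun i : Fin 5 => connectedComponentIn X ((o (Pn i) : ℝ) : UnitAddCircle)) := by
    intro i j hij
    by_contra hne
    have main : ∀ i j : Fin 5, i < j → connectedComponentIn X ((o (Pn i) : ℝ) : UnitAddCircle) =
        connectedComponentIn X ((o (Pn j) : ℝ) : UnitAddCircle) → False := by
      intro i j hij heq
      obtain ⟨h1, h2, h3, h4⟩ := hlt i j hij
      refine sep hX h1 h2 h3 h4 (hO _ (Pn_lt i)) (hsp i) (hsp j) ?_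
      rw [heq]
      exact mem_connectedComponentIn (hO _ (Pn_lt j))
    rcases lt_or_gt_of_ne hne with h | h
    · exact main i j h hij
    · exact main j i h hij.symm
  have hsub : range (fun i : Fin 5 => connectedComponentIn X ((o (Pn i) : ℝ) : UnitAddCircle)) ⊆
      (fun x => connectedComponentIn X x) '' X := by
    rintro _ ⟨i, rfl⟩
    exact ⟨_, hO _ (Pn_lt i), rfl⟩
  refine le_trans (le_of_eq ?_) (encard_le_encard hsub)
  rw [← image_univ, hinj.encard_image, encard_univ, ENat.card_eq_coe_fintype_card]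
  simp

end Pool.Agent.R751.Flower
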