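import Pool.Agent.Helper481.RHTrans

set_option autoImplicit false
open MeasureTheory Set Module Filter Topology Metric TopologicalSpace
open scoped ENNReal RealInnerProductSpace

namespace Pool.Agent.R751.Mass

open Pool.Agent.Helper481.RH

variable {m : ℕ}

/-- determinant in Euclidean space -/
noncomputable def detc (v : Fin (m + 1) → EuclideanSpace ℝ (Fin (m + 1))) : ℝ :=
  Matrix.det (Matrix.of fun i j => v i j)

/-- determinant in `ℝ × ℝ^m` -/
noncomputable def detp (v : Fin (m + 1) → ℝ × (Fin m → ℝ)) : ℝ :=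
  Matrix.det (Matrix.of fun i j => (Fin.cons (v i).1 (v i).2 : Fin (m + 1) → ℝ) j)

lemma detp_eq (s : Fin (m + 1) → ℝ) (w : Fin (m + 1) → Fin m → ℝ) :
    detp (fun i => (s i, w i)) =
      ∑ i : Fin (m + 1), (-1) ^ (i : ℕ) * s i *
        Matrix.det (Matrix.of fun k j => w (i.succAbove k) j) := by
  unfold detp
  rw [Matrix.det_succ_column_zero]
  refine Finset.sum_congr rfl fun i _ => ?_
  simp only [Matrix.of_apply, Fin.cons_zero]
  congr 1

/-- the key identity: a determinant depends linearly on the vector of first coordinates -/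
lemma detp_sub (a c : Fin (m + 1) → ℝ) (w : Fin (m + 1) → Fin m → ℝ) :
    detp (fun i => (a i, w i)) - detp (fun i => (c i, w i)) =
      2 * detp (fun i => ((a i - c i) / 2, w i)) := by
  rw [detp_eq, detp_eq, detp_eq, ← Finset.sum_sub_distrib, Finset.mul_sum]
  refine Finset.sum_congr rfl fun i _ => ?_
  ring

lemma detp_coord (b : OrthonormalBasis (Fin (m + 1)) ℝ (EuclideanSpace ℝ (Fin (m + 1))))
    (v : Fin (m + 1) → EuclideanSpace ℝ (Fin (m + 1))) :
    detp (fun i => coord b (v i)) = detc v * Matrix.det (Matrix.of fun k j => b j k) := by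
  unfold detp detc
  rw [← Matrix.det_mul]
  congr 1
  ext i j
  rw [Matrix.mul_apply]
  simp only [Matrix.of_apply]
  have h : (Fin.cons (coord b (v i)).1 (coord b (v i)).2 : Fin (m + 1) → ℝ) j = ⟪b j, v i⟫ := by
    refine Fin.cases ?_ (fun k => ?_) j
    · rw [Fin.cons_zero, coord_fst]
    · rw [Fin.cons_succ, coord_snd]
  rw [h, PiLp.inner_apply]
  refine Finset.sum_congr rfl fun k _ => ?_
  simp

lemma det_basis_sq (b : OrthonormalBasis (Fin (m + 1)) ℝ (EuclideanSpace ℝ (Fin (m + 1)))) :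
    Matrix.det (Matrix.of fun (k j : Fin (m + 1)) => b j k) ^ 2 = 1 := by
  set B : Matrix (Fin (m + 1)) (Fin (m + 1)) ℝ := Matrix.of fun k j => b j k with hB
  have h1 : B.transpose * B = 1 := by
    ext i j
    rw [Matrix.mul_apply]
    have h2 : ∑ k, B.transpose i k * B k j = ⟪b i, b j⟫ := by
      rw [PiLp.inner_apply]
      refine Finset.sum_congr rfl fun k _ => ?_
      simp [hB, mul_comm]
    rw [h2, b.inner_eq_ite, Matrix.one_apply]
  have h3 := congrArg Matrix.det h1
  rw [Matrix.det_mul, Matrix.det_transpose, Matrix.det_one] at h3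
  rw [sq]; exact h3

lemma abs_detp_coord (b : OrthonormalBasis (Fin (m + 1)) ℝ (EuclideanSpace ℝ (Fin (m + 1))))
    (v : Fin (m + 1) → EuclideanSpace ℝ (Fin (m + 1))) :
    |detp (fun i => coord b (v i))| = |detc v| := by
  rw [detp_coord, abs_mul]
  have h := det_basis_sq b
  have h2 : |Matrix.det (Matrix.of fun (k j : Fin (m + 1)) => b j k)| = 1 := by
    rw [← sq_eq_sq₀ (abs_nonneg _) zero_le_one, sq_abs, h, one_pow]
  rw [h2, mul_one]

/-- all determinants of tuples in `K` are bounded by `D` -/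
def DetLe (K : Set (EuclideanSpace ℝ (Fin (m + 1)))) (D : ℝ) : Prop :=
  ∀ v : Fin (m + 1) → EuclideanSpace ℝ (Fin (m + 1)), (∀ i, v i ∈ K) → |detc v| ≤ D

/-- Steiner symmetral in an orthonormal basis -/
def StE (b : OrthonormalBasis (Fin (m + 1)) ℝ (EuclideanSpace ℝ (Fin (m + 1))))
    (K : Set (EuclideanSpace ℝ (Fin (m + 1)))) : Set (EuclideanSpace ℝ (Fin (m + 1))) :=
  (coord b).symm '' St (coord b '' K)

variable {b : OrthonormalBasis (Fin (m + 1)) ℝ (EuclideanSpace ℝ (Fin (m + 1)))}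

lemma mem_StE {K : Set (EuclideanSpace ℝ (Fin (m + 1)))} {z : EuclideanSpace ℝ (Fin (m + 1))} :
    z ∈ StE b K ↔ ∃ x ∈ K, ∃ y ∈ K, (coord b x).2 = (coord b z).2 ∧ (coord b y).2 = (coord b z).2 ∧
      (coord b z).1 = ((coord b x).1 - (coord b y).1) / 2 := by
  constructor
  · rintro ⟨p, ⟨a, c, ⟨x, hx, hxe⟩, ⟨y, hy, hye⟩, hac⟩, rfl⟩
    refine ⟨x, hx, y, hy, ?_, ?_, ?_⟩
    · rw [hxe, (coord b).apply_symm_apply]
    · rw [hye, (coord b).apply_symm_apply]
    · rw [hxe, hye, (coord b).apply_symm_apply]; exact hac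
  · rintro ⟨x, hx, y, hy, h1, h2, h3⟩
    refine ⟨coord b z, ⟨(coord b x).1, (coord b y).1, ⟨x, hx, ?_⟩, ⟨y, hy, ?_⟩, h3⟩, by simp⟩
    · rw [← h1]
    · rw [← h2]

lemma coord_StE {K : Set (EuclideanSpace ℝ (Fin (m + 1)))} :
    coord b '' StE b K = St (coord b '' K) := by
  rw [StE, image_image]; simp

lemma StE_compact {K : Set (EuclideanSpace ℝ (Fin (m + 1)))} (hK : IsCompact K) :
    IsCompact (StE b K) :=
  (St_compact (hK.image (coord b).continuous)).image (coord b).symm.continuous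

lemma StE_convex {K : Set (EuclideanSpace ℝ (Fin (m + 1)))} (hK : Convex ℝ K) :
    Convex ℝ (StE b K) :=
  (St_convex (hK.linear_image (coord b).toLinearEquiv.toLinearMap)).linear_image
    (coord b).symm.toLinearEquiv.toLinearMap

lemma StE_nonempty {K : Set (EuclideanSpace ℝ (Fin (m + 1)))} (hK : K.Nonempty) :
    (StE b K).Nonempty := (St_nonempty (hK.image _)).image _

lemma volume_StE {K : Set (EuclideanSpace ℝ (Fin (m + 1)))} (hK : IsCompact K)
    (hKc : Convex ℝ K) : volume (StE b K) = volume K := by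
  rw [← volume_coord_image b, coord_StE, volume_St (hK.image (coord b).continuous)
    (hKc.linear_image (coord b).toLinearEquiv.toLinearMap), volume_coord_image]

lemma StE_symm {K : Set (EuclideanSpace ℝ (Fin (m + 1)))} (hK : ∀ x ∈ K, -x ∈ K) :
    ∀ x ∈ StE b K, -x ∈ StE b K := by
  intro z hz
  rw [mem_StE] at hz ⊢
  obtain ⟨x, hx, y, hy, h1, h2, h3⟩ := hz
  refine ⟨-x, hK x hx, -y, hK y hy, ?_, ?_, ?_⟩
  · simp [h1]
  · simp [h2]
  · simp [h3]; ring

lemma StE_subset_ball {K : Set (EuclideanSpace ℝ (Fin (m + 1)))} {R : ℝ}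
    (hK : K ⊆ closedBall 0 R) : StE b K ⊆ closedBall 0 R := by
  intro z hz
  rw [mem_StE] at hz
  obtain ⟨x, hx, y, hy, hxz, hyz, h3⟩ := hz
  have h1 := hK hx
  have h2 := hK hy
  rw [mem_closedBall_zero_iff] at h1 h2 ⊢
  have hR : 0 ≤ R := (norm_nonneg _).trans h1
  have e1 := norm_sq_coord b x
  have e2 := norm_sq_coord b y
  have e3 := norm_sq_coord b z
  rw [hxz] at e1
  rw [hyz] at e2
  rw [← sq_le_sq₀ (norm_nonneg _) hR, e3, h3]
  have h3 : ‖x‖ ^ 2 ≤ R ^ 2 := by gcongr
  have h4 : ‖y‖ ^ 2 ≤ R ^ 2 := by gcongr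
  nlinarith [sq_nonneg ((coord b x).1 + (coord b y).1)]

/-- the two tuples above a tuple of the symmetral -/
lemma detc_split (b : OrthonormalBasis (Fin (m + 1)) ℝ (EuclideanSpace ℝ (Fin (m + 1))))
    {v x y : Fin (m + 1) → EuclideanSpace ℝ (Fin (m + 1))}
    (h : ∀ i, (coord b (x i)).2 = (coord b (v i)).2 ∧ (coord b (y i)).2 = (coord b (v i)).2 ∧
      (coord b (v i)).1 = ((coord b (x i)).1 - (coord b (y i)).1) / 2) :
    detc x - detc y = 2 * detc v := by
  have h1 := detp_coord b x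
  have h2 := detp_coord b y
  have h3 := detp_coord b v
  set B := Matrix.det (Matrix.of fun (k j : Fin (m + 1)) => b j k) with hB
  have hB0 : B ≠ 0 := by
    intro h0
    have := det_basis_sq b
    rw [← hB, h0] at this
    norm_num at this
  have key := detp_sub (fun i => (coord b (x i)).1) (fun i => (coord b (y i)).1)
    (fun i => (coord b (v i)).2)
  have e1 : (fun i => ((coord b (x i)).1, (coord b (v i)).2)) = fun i => coord b (x i) := by
    funext i; rw [← (h i).1]
  have e2 : (fun i => ((coord b (y i)).1, (coord b (v i)).2)) = fun i => coord b (y i) := by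
    funext i; rw [← (h i).2.1]
  have e3 : (fun i => (((coord b (x i)).1 - (coord b (y i)).1) / 2, (coord b (v i)).2))
      = fun i => coord b (v i) := by
    funext i; rw [← (h i).2.2]
  rw [e1, e2, e3, h1, h2, h3] at key
  apply mul_right_cancel₀ hB0
  linarith

lemma DetLe_StE {K : Set (EuclideanSpace ℝ (Fin (m + 1)))} {D : ℝ} (hK : DetLe K D) :
    DetLe (StE b K) D := by
  intro v hv
  choose x hx y hy h using fun i => mem_StE.1 (hv i)
  have h1 := detc_split b h
  have h2 := abs_le.1 (hK x hx)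
  have h3 := abs_le.1 (hK y hy)
  rw [abs_le]
  constructor <;> linarith

lemma continuous_detc : Continuous (detc (m := m)) := by
  unfold detc
  refine Continuous.matrix_det ?_
  fun_prop

end Pool.Agent.R751.Mass
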