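import Pool.Agent.R751.MassA

set_option autoImplicit false
open MeasureTheory Set Module Filter Topology Metric TopologicalSpace
open scoped ENNReal RealInnerProductSpace

namespace Pool.Agent.R751.Mass

open Pool.Agent.Helper481.RH

variable {m : ℕ}

/-- the class in which the second moment is minimised -/
def ClsD (m : ℕ) (R : ℝ) (V : ℝ≥0∞) (D : ℝ) :
    Set (NonemptyCompacts (EuclideanSpace ℝ (Fin (m + 1)))) :=
  {L | (L : Set (EuclideanSpace ℝ (Fin (m + 1)))) ⊆ closedBall 0 R ∧ Convex ℝ (L : Set (EuclideanSpace ℝ (Fin (m + 1)))) ∧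
    V ≤ volume (L : Set (EuclideanSpace ℝ (Fin (m + 1)))) ∧
    DetLe (L : Set (EuclideanSpace ℝ (Fin (m + 1)))) D}

theorem exists_minD {R : ℝ} {V : ℝ≥0∞} {D : ℝ} (hne : (ClsD m R V D).Nonempty) :
    ∃ L ∈ ClsD m R V D, ∀ M ∈ ClsD m R V D,
      mom (L : Set (EuclideanSpace ℝ (Fin (m + 1)))) ≤ mom (M : Set (EuclideanSpace ℝ (Fin (m + 1)))) := by
  set S : Set ℝ≥0∞ := (fun M : NonemptyCompacts (EuclideanSpace ℝ (Fin (m + 1))) =>
    mom (M : Set (EuclideanSpace ℝ (Fin (m + 1))))) '' ClsD m R V D with hS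
  have hSne : S.Nonempty := hne.image _
  obtain ⟨u, -, hu, huS⟩ := exists_seq_tendsto_sInf hSne (OrderBot.bddBelow S)
  choose L hL hLu using huS
  have hcpt : IsCompact {M : NonemptyCompacts (EuclideanSpace ℝ (Fin (m + 1))) |
      (M : Set (EuclideanSpace ℝ (Fin (m + 1)))) ⊆ closedBall (0 : EuclideanSpace ℝ (Fin (m + 1))) R} :=
    NonemptyCompacts.isCompact_subsets_of_isCompact (isCompact_closedBall 0 R)
  obtain ⟨K, hK, φ, hφ, hlim⟩ := hcpt.tendsto_subseq (x := L) (fun n => (hL n).1)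
  have hdist : Tendsto (fun n => dist (L (φ n)) K) atTop (𝓝 0) := by
    have := tendsto_iff_dist_tendsto_zero.1 hlim
    exact this
  have hfin : ∀ n, hausdorffEDist (L (φ n) : Set (EuclideanSpace ℝ (Fin (m + 1)))) K ≠ ⊤ :=
    fun n => hausdorffEDist_ne_top_of_nonempty_of_bounded (L (φ n)).nonempty K.nonempty
      (L (φ n)).isCompact.isBounded K.isCompact.isBounded
  have happ : ∀ δ : ℝ, 0 < δ → ∀ᶠ n in atTop,
      (∀ x ∈ (K : Set (EuclideanSpace ℝ (Fin (m + 1)))), ∃ y ∈ (L (φ n) : Set (EuclideanSpace ℝ (Fin (m + 1)))),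
      dist x y ≤ δ) ∧ (∀ y ∈ (L (φ n) : Set (EuclideanSpace ℝ (Fin (m + 1)))), ∃ x ∈ (K : Set (EuclideanSpace ℝ (Fin (m + 1)))), dist x y ≤ δ) := by
    intro δ hδ
    filter_upwards [hdist.eventually_lt_const hδ] with n hn
    rw [NonemptyCompacts.dist_eq] at hn
    constructor
    · intro x hx
      obtain ⟨y, hy, h⟩ := exists_dist_lt_of_hausdorffDist_lt' hx hn (hfin n)
      exact ⟨y, hy, by rw [dist_comm]; exact h.le⟩
    · intro y hy
      obtain ⟨x, hx, h⟩ := exists_dist_lt_of_hausdorffDist_lt hy hn (hfin n)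
      exact ⟨x, hx, by rw [dist_comm]; exact h.le⟩
  have hKcl : IsClosed (K : Set (EuclideanSpace ℝ (Fin (m + 1)))) := K.isCompact.isClosed
  have hKconv : Convex ℝ (K : Set (EuclideanSpace ℝ (Fin (m + 1)))) := by
    intro x hx y hy a b ha hb hab
    rw [← hKcl.closure_eq, Metric.mem_closure_iff]
    intro ε hε
    obtain ⟨n, h1, h2⟩ := (happ (ε / 4) (by positivity)).exists
    obtain ⟨x', hx', hxx⟩ := h1 x hx
    obtain ⟨y', hy', hyy⟩ := h1 y hy
    obtain ⟨z, hz, hzz⟩ := h2 _ ((hL (φ n)).2.1 hx' hy' ha hb hab)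
    refine ⟨z, hz, ?_⟩
    have h3 : dist (a • x + b • y) (a • x' + b • y') ≤ ε / 4 + ε / 4 := by
      refine (dist_add_add_le _ _ _ _).trans ?_
      rw [dist_smul₀, dist_smul₀, Real.norm_eq_abs, Real.norm_eq_abs, abs_of_nonneg ha,
        abs_of_nonneg hb]
      have ha1 : a ≤ 1 := by linarith
      have hb1 : b ≤ 1 := by linarith
      have := dist_nonneg (x := x) (y := x')
      have := dist_nonneg (x := y) (y := y')
      nlinarith
    have h4 := dist_triangle (a • x + b • y) (a • x' + b • y') z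
    rw [dist_comm (a • x' + b • y') z] at h4
    linarith
  have hVK : V ≤ volume (K : Set (EuclideanSpace ℝ (Fin (m + 1)))) := by
    have ht := (tendsto_measure_cthickening_of_isCompact
      (μ := (volume : Measure (EuclideanSpace ℝ (Fin (m + 1)))))
      K.isCompact).mono_left (nhdsWithin_le_nhds (s := Ioi 0))
    refine ge_of_tendsto ht ?_
    filter_upwards [self_mem_nhdsWithin] with r hr
    obtain ⟨n, h1, h2⟩ := (happ r hr).exists
    refine (hL (φ n)).2.2.1.trans (measure_mono fun y hy => ?_)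
    obtain ⟨x, hx, hxy⟩ := h2 y hy
    exact mem_cthickening_of_dist_le y x r _ hx (by rw [dist_comm]; exact hxy)
  -- the determinant property
  have hKD : DetLe (K : Set (EuclideanSpace ℝ (Fin (m + 1)))) D := by
    intro v hv
    have hp : ∀ n, ∀ i, ∃ x' ∈ (L (φ n) : Set (EuclideanSpace ℝ (Fin (m + 1)))),
        dist (v i) x' ≤ infDist (v i) (L (φ n)) := by
      intro n i
      obtain ⟨x', hx', e1⟩ := (L (φ n)).isCompact.exists_infDist_eq_dist (L (φ n)).nonempty (v i)
      exact ⟨x', hx', e1.ge⟩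
    choose x' hx' hxd using hp
    have hx'lim : Tendsto x' atTop (𝓝 v) := by
      rw [tendsto_pi_nhds]
      intro i
      rw [tendsto_iff_dist_tendsto_zero]
      rw [Metric.tendsto_nhds]
      intro δ hδ
      filter_upwards [happ (δ / 2) (by positivity)] with n hn
      obtain ⟨y, hy, hd⟩ := hn.1 (v i) (hv i)
      have h3 := infDist_le_dist_of_mem (x := v i) hy
      rw [Real.dist_eq, sub_zero, abs_of_nonneg dist_nonneg, dist_comm]
      have := hxd n i
      linarith
    have h1 : Tendsto (fun n => |detc (x' n)|) atTop (𝓝 |detc v|) :=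
      ((continuous_abs.comp continuous_detc).tendsto v).comp hx'lim
    exact le_of_tendsto h1 (Eventually.of_forall fun n => (hL (φ n)).2.2.2 (x' n) (hx' n))
  refine ⟨K, ⟨hK, hKconv, hVK, hKD⟩, fun M hM => ?_⟩
  have hev : ∀ z ∈ interior (K : Set (EuclideanSpace ℝ (Fin (m + 1)))), ∀ᶠ n in atTop,
      z ∈ (L (φ n) : Set (EuclideanSpace ℝ (Fin (m + 1)))) := by
    intro z hz
    obtain ⟨r, hr, hrs⟩ := Metric.mem_nhds_iff.1 (mem_interior_iff_mem_nhds.1 hz)
    filter_upwards [happ (r / 8) (by positivity)] with n hn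
    exact mem_of_close (L (φ n)).isCompact (hL (φ n)).2.1 (L (φ n)).nonempty (δ' := r / 2)
      (by positivity) (by linarith) hn.1 ((closedBall_subset_ball (by linarith)).trans hrs)
  have hF := lintegral_le_liminf hKconv
    (fun n => (L (φ n)).isCompact.measurableSet) hev
    (f := fun x => ENNReal.ofReal (‖x‖ ^ 2)) (by fun_prop)
  have hlimM : Tendsto (fun n => mom (L (φ n) : Set (EuclideanSpace ℝ (Fin (m + 1))))) atTop
      (𝓝 (sInf S)) := by
    have h1 : Tendsto (fun n => u (φ n)) atTop (𝓝 (sInf S)) := hu.comp hφ.tendsto_atTop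
    refine h1.congr fun n => ?_
    exact (hLu (φ n)).symm
  have h2 : mom (K : Set (EuclideanSpace ℝ (Fin (m + 1)))) ≤ sInf S := by
    refine hF.trans (le_of_eq ?_)
    exact hlimM.liminf_eq
  exact h2.trans (sInf_le ⟨M, hM, rfl⟩)

/-- a minimiser is symmetric with respect to all hyperplanes through the origin -/
lemma min_symmD {R : ℝ} {V : ℝ≥0∞} {D : ℝ} (hV : V ≠ 0)
    {L : NonemptyCompacts (EuclideanSpace ℝ (Fin (m + 1)))}
    (hL : L ∈ ClsD m R V D)
    (hmin : ∀ M ∈ ClsD m R V D,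
      mom (L : Set (EuclideanSpace ℝ (Fin (m + 1)))) ≤ mom (M : Set (EuclideanSpace ℝ (Fin (m + 1)))))
    {v : EuclideanSpace ℝ (Fin (m + 1))} (hv : ‖v‖ = 1) :
    ∀ x ∈ L, x - (2 * ⟪v, x⟫) • v ∈ L := by
  obtain ⟨b, hb⟩ := exists_basis hv
  obtain ⟨hLR, hLc, hLV, hLD⟩ := hL
  let M : NonemptyCompacts (EuclideanSpace ℝ (Fin (m + 1))) :=
    ⟨⟨StE b (L : Set (EuclideanSpace ℝ (Fin (m + 1)))), StE_compact L.isCompact⟩, StE_nonempty L.nonempty⟩
  have hMdef : (M : Set (EuclideanSpace ℝ (Fin (m + 1)))) = StE b (L : Set (EuclideanSpace ℝ (Fin (m + 1)))) := rfl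
  have hM : M ∈ ClsD m R V D := by
    refine ⟨StE_subset_ball hLR, StE_convex hLc, ?_, DetLe_StE hLD⟩
    rw [hMdef, volume_StE L.isCompact hLc]
    exact hLV
  have h1 := hmin M hM
  set K : Set (ℝ × (Fin m → ℝ)) := coord b '' (L : Set (EuclideanSpace ℝ (Fin (m + 1)))) with hKdef
  have hK : IsCompact K := L.isCompact.image (coord b).continuous
  have hKc : Convex ℝ K := hLc.linear_image (coord b).toLinearEquiv.toLinearMap
  have hcM : coord b '' (M : Set (EuclideanSpace ℝ (Fin (m + 1)))) = St K := by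
    rw [hMdef, coord_StE]
  have hmomL : mom (L : Set (EuclideanSpace ℝ (Fin (m + 1)))) = ∫⁻ p in K, wt p := by
    rw [hKdef, lintegral_coord_image]
    simp only [wt_coord]
    rfl
  have hmomM : mom (M : Set (EuclideanSpace ℝ (Fin (m + 1)))) = ∫⁻ p in St K, wt p := by
    rw [← hcM, lintegral_coord_image]
    simp only [wt_coord]
    rfl
  rw [hmomL, hmomM] at h1
  have hint : (interior K).Nonempty := by
    apply interior_coord_nonempty
    apply interior_nonempty_of_volume hLc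
    intro h0
    rw [h0] at hLV
    exact hV (le_antisymm hLV zero_le)
  have hfin : ∫⁻ p in K, wt p ≠ ∞ := by
    have hcont : Continuous (fun p : ℝ × (Fin m → ℝ) => p.1 ^ 2 + ∑ i, p.2 i ^ 2) := by fun_prop
    have h3 : IntegrableOn (fun p : ℝ × (Fin m → ℝ) => p.1 ^ 2 + ∑ i, p.2 i ^ 2) K volume :=
      hcont.continuousOn.integrableOn_compact hK
    have h4 := h3.lintegral_lt_top
    exact h4.ne
  have hsym := moment_eq hK hKc hint hfin h1
  intro x hx
  obtain ⟨y, hy, hye⟩ := hsym (coord b x) ⟨x, hx, rfl⟩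
  have : y = x - (2 * ⟪v, x⟫) • v := by
    apply (coord b).injective
    rw [hye, map_sub, map_smul, ← hb, coord_basis, ← coord_fst]
    refine Prod.ext ?_ ?_
    · simp; ring
    · simp
  rw [← this]; exact hy

/-- the determinant of a multiple of the standard basis -/
lemma detc_std (ρ : ℝ) :
    detc (fun i : Fin (m + 1) => ρ • EuclideanSpace.basisFun (Fin (m + 1)) ℝ i) = ρ ^ (m + 1) := by
  unfold detc
  have : (Matrix.of fun (i j : Fin (m + 1)) =>
      (ρ • EuclideanSpace.basisFun (Fin (m + 1)) ℝ i) j) = ρ • (1 : Matrix _ _ ℝ) := by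
    ext i j
    simp [Matrix.one_apply, eq_comm]
  rw [this, Matrix.det_smul]
  simp

/-- the volume of a convex body is at most `κ` times the largest determinant -/
theorem volume_le {K : Set (EuclideanSpace ℝ (Fin (m + 1)))} (hK : IsCompact K)
    (hKc : Convex ℝ K) {D : ℝ} (hD : DetLe K D) :
    volume K ≤ ENNReal.ofReal D * kap (m + 1) := by
  by_cases hv : volume K = 0
  · rw [hv]; exact zero_le
  have hne : K.Nonempty := by
    by_contra h
    rw [not_nonempty_iff_eq_empty] at h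
    exact hv (by rw [h]; simp)
  obtain ⟨R, hR⟩ := hK.isBounded.subset_closedBall 0
  have hcls : (ClsD m R (volume K) D).Nonempty := ⟨⟨⟨K, hK⟩, hne⟩, hR, hKc, le_rfl, hD⟩
  obtain ⟨L, hL, hmin⟩ := exists_minD hcls
  have hsym := fun v hv' => min_symmD hv hL hmin (v := v) hv'
  obtain ⟨hLR, hLc, hLV, hLD⟩ := hL
  obtain ⟨ρ, hρ, hball⟩ := eq_ball L.isCompact hLc L.nonempty hsym
  rw [hball] at hLV hLD
  have h1 := hLD (fun i => ρ • EuclideanSpace.basisFun (Fin (m + 1)) ℝ i) (fun i => by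
    rw [mem_closedBall_zero_iff, norm_smul, (EuclideanSpace.basisFun (Fin (m + 1)) ℝ).norm_eq_one,
      Real.norm_eq_abs, abs_of_nonneg hρ, mul_one])
  rw [detc_std] at h1
  rw [volume_closedBall_eq _ hρ] at hLV
  refine hLV.trans ?_
  gcongr
  exact (le_abs_self _).trans h1

end Pool.Agent.R751.Mass
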