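import Pool.Agent.R751.MassB

set_option autoImplicit false
open MeasureTheory Set Module Filter Topology Metric TopologicalSpace
open scoped ENNReal RealInnerProductSpace

namespace Pool.Agent.R751.Mass

open Pool.Agent.Helper481.RH

variable {m : ℕ}

/-- the determinant as an alternating map -/
noncomputable def detA (m : ℕ) :
    (EuclideanSpace ℝ (Fin (m + 1))) [⋀^Fin (m + 1)]→ₗ[ℝ] ℝ :=
  Matrix.detRowAlternating.compLinearMap
    (WithLp.linearEquiv 2 ℝ (Fin (m + 1) → ℝ)).toLinearMap

lemma detc_eq (v : Fin (m + 1) → EuclideanSpace ℝ (Fin (m + 1))) : detc v = detA m v := rfl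

/-- the determinant as a linear function of one vector -/
noncomputable def detL (v : Fin (m + 1) → EuclideanSpace ℝ (Fin (m + 1))) (j : Fin (m + 1)) :
    EuclideanSpace ℝ (Fin (m + 1)) →ₗ[ℝ] ℝ :=
  (detA m).toMultilinearMap.toLinearMap v j

lemma detL_apply (v : Fin (m + 1) → EuclideanSpace ℝ (Fin (m + 1))) (j : Fin (m + 1))
    (z : EuclideanSpace ℝ (Fin (m + 1))) : detL v j z = detc (Function.update v j z) := rfl

lemma DetLe_convexHull {S : Set (EuclideanSpace ℝ (Fin (m + 1)))} {D : ℝ} (hS : DetLe S D) :
    DetLe (convexHull ℝ S) D := by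
  have key : ∀ j : ℕ, j ≤ m + 1 → ∀ v : Fin (m + 1) → EuclideanSpace ℝ (Fin (m + 1)),
      (∀ i : Fin (m + 1), (i : ℕ) < j → v i ∈ convexHull ℝ S) →
      (∀ i : Fin (m + 1), j ≤ (i : ℕ) → v i ∈ S) → |detc v| ≤ D := by
    intro j
    induction j with
    | zero =>
      intro _ v _ h2
      exact hS v fun i => h2 i (Nat.zero_le _)
    | succ j ih =>
      intro hj v h1 h2
      have hjlt : j < m + 1 := hj
      set J : Fin (m + 1) := ⟨j, hjlt⟩ with hJ
      set T : Set (EuclideanSpace ℝ (Fin (m + 1))) := {z | |detL v J z| ≤ D} with hT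
      have hTc : Convex ℝ T := by
        have e : T = (detL v J) ⁻¹' (Icc (-D) D) := by
          ext z; simp only [hT, mem_ofPred_eq, mem_preimage, mem_Icc, abs_le]
        rw [e]
        exact (convex_Icc _ _).linear_preimage _
      have hST : S ⊆ T := by
        intro z hz
        rw [hT, mem_ofPred_eq, detL_apply]
        apply ih (by omega)
        · intro i hi
          have hne : i ≠ J := by
            intro h; rw [h, hJ] at hi; exact absurd hi (lt_irrefl _)
          rw [Function.update_of_ne hne]
          exact h1 i (by omega)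
        · intro i hi
          by_cases hne : i = J
          · rw [hne, Function.update_self]; exact hz
          · rw [Function.update_of_ne hne]
            apply h2
            have : (i : ℕ) ≠ j := fun h => hne (Fin.ext h)
            omega
      have h3 := convexHull_min hST hTc (h1 J (by rw [hJ]; exact Nat.lt_succ_self _))
      rw [hT, mem_ofPred_eq, detL_apply, Function.update_eq_self] at h3
      exact h3
  intro v hv
  exact key (m + 1) le_rfl v (fun i _ => hv i) (fun i hi => absurd i.2 (not_lt.2 hi))

/-- swapping two vectors does not change the absolute value of the determinant -/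
lemma abs_detc_swap (v : Fin (m + 1) → EuclideanSpace ℝ (Fin (m + 1))) (i j : Fin (m + 1)) :
    |detc (v ∘ Equiv.swap i j)| = |detc v| := by
  by_cases h : i = j
  · subst h; simp
  · rw [detc_eq, detc_eq, AlternatingMap.map_swap _ _ h, abs_neg]

/-- every boundary point of an extremal body is part of an extremal tuple -/
theorem exists_tuple {N : Set (EuclideanSpace ℝ (Fin (m + 1)))} (hm : 1 ≤ m)
    (hN : IsCompact N) (hNc : Convex ℝ N) (hNs : ∀ x ∈ N, -x ∈ N) {D : ℝ} (hD0 : 0 < D)
    (hD : DetLe N D) (hV : ENNReal.ofReal D * kap (m + 1) ≤ volume N)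
    {z : EuclideanSpace ℝ (Fin (m + 1))} (hz : z ∈ N) (hzb : ∀ t : ℝ, 1 < t → t • z ∉ N) :
    ∃ v : Fin (m + 1) → EuclideanSpace ℝ (Fin (m + 1)), v 0 = z ∧ (∀ i, v i ∈ N) ∧ detc v = D := by
  by_contra hcon
  push Not at hcon
  -- all determinants with first vector z are smaller than D
  have h1 : ∀ v : Fin (m + 1) → EuclideanSpace ℝ (Fin (m + 1)), v 0 = z → (∀ i, v i ∈ N) →
      |detc v| < D := by
    intro v hv0 hv
    refine lt_of_le_of_ne (hD v hv) fun h => ?_
    rcases abs_choice (detc v) with h2 | h2
    · exact hcon v hv0 hv (by rw [← h2, h])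
    · have hi : (⟨1, by omega⟩ : Fin (m + 1)) ≠ 0 := by
        intro h; simp [Fin.ext_iff] at h
      refine hcon (Function.update v ⟨1, by omega⟩ (-(v ⟨1, by omega⟩))) ?_ ?_ ?_
      · rw [Function.update_of_ne hi.symm]; exact hv0
      · intro i
        by_cases hi1 : i = ⟨1, by omega⟩
        · rw [hi1, Function.update_self]; exact hNs _ (hv _)
        · rw [Function.update_of_ne hi1]; exact hv i
      · rw [detc_eq, AlternatingMap.map_update_neg, Function.update_eq_self, ← detc_eq, ← h2, h]
  -- the maximum q
  have hC : IsCompact {v : Fin (m + 1) → EuclideanSpace ℝ (Fin (m + 1)) |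
      v 0 = z ∧ ∀ i, v i ∈ N} := by
    have e : {v : Fin (m + 1) → EuclideanSpace ℝ (Fin (m + 1)) | v 0 = z ∧ ∀ i, v i ∈ N}
        = (Set.univ.pi fun _ => N) ∩ {v | v 0 = z} := by
      ext v; simp only [mem_ofPred_eq, mem_inter_iff, Set.mem_univ_pi]; tauto
    rw [e]
    exact (isCompact_univ_pi fun _ => hN).inter_right
      (isClosed_eq (continuous_apply 0) continuous_const)
  have hCne : {v : Fin (m + 1) → EuclideanSpace ℝ (Fin (m + 1)) |
      v 0 = z ∧ ∀ i, v i ∈ N}.Nonempty := ⟨fun _ => z, rfl, fun _ => hz⟩
  obtain ⟨v0, hv0, hmax⟩ := hC.exists_isMaxOn hCne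
    (f := fun v => |detc v|) (continuous_abs.comp continuous_detc).continuousOn
  set q := |detc v0| with hq
  have hqD : q < D := h1 v0 hv0.1 hv0.2
  have hq0 : 0 ≤ q := abs_nonneg _
  obtain ⟨ε, hε, hεq⟩ : ∃ ε : ℝ, 0 < ε ∧ (1 + ε) * q ≤ D := by
    refine ⟨(D - q) / (D + 1), div_pos (by linarith) (by linarith), ?_⟩
    have h2 : (D - q) / (D + 1) * q ≤ D - q := by
      rw [div_mul_eq_mul_div, div_le_iff₀ (by linarith)]
      nlinarith
    linarith
  have h2 : ∀ (j : Fin (m + 1)) (v : Fin (m + 1) → EuclideanSpace ℝ (Fin (m + 1))), v j = z →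
      (∀ i, v i ∈ N) → |detc v| ≤ q := by
    intro j v hvj hv
    rw [← abs_detc_swap v 0 j]
    exact hmax ⟨by simp [hvj], fun i => hv _⟩
  set p := (1 + ε) • z with hp
  have hpN : p ∉ N := hzb (1 + ε) (by linarith)
  have hS : DetLe (N ∪ {p}) D := by
    intro v hv
    by_cases hall : ∀ i, v i ∈ N
    · exact hD v hall
    · push Not at hall
      obtain ⟨i, hi⟩ := hall
      have hip : v i = p := by
        rcases hv i with h | h
        · exact absurd h hi
        · exact h
      by_cases hoth : ∀ k, k ≠ i → v k ∈ N
      · have e : v = Function.update (Function.update v i z) i ((1 + ε) • z) := by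
          rw [Function.update_idem, ← hp, ← hip, Function.update_eq_self]
        rw [e, detc_eq, AlternatingMap.map_update_smul, Function.update_idem, ← detc_eq,
          smul_eq_mul, abs_mul, abs_of_pos (by linarith : (0:ℝ) < 1 + ε)]
        refine le_trans ?_ hεq
        refine mul_le_mul_of_nonneg_left ?_ (by linarith)
        apply h2 i _ (Function.update_self _ _ _)
        intro k
        by_cases hk : k = i
        · rw [hk, Function.update_self]; exact hz
        · rw [Function.update_of_ne hk]; exact hoth k hk
      · push Not at hoth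
        obtain ⟨k, hki, hk⟩ := hoth
        have hkp : v k = p := by
          rcases hv k with h | h
          · exact absurd h hk
          · exact h
        have h0 : detc v = 0 := by
          rw [detc_eq]
          exact (detA m).map_eq_zero_of_eq v (by rw [hkp, hip]) hki
        rw [h0, abs_zero]; exact hD0.le
  have hS' := DetLe_convexHull hS
  set N' := convexHull ℝ (N ∪ {p}) with hN'
  have hN'c : IsCompact N' := by
    apply isCompact_convexHull_union hN isCompact_singleton hNc (convex_singleton p)
  have hN'conv : Convex ℝ N' := convex_convexHull ℝ _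
  have hvol := volume_le hN'c hN'conv hS'
  have hNN' : N ⊆ N' := subset_union_left.trans (subset_convexHull ℝ _)
  have hpN' : p ∈ N' := subset_convexHull ℝ _ (Or.inr rfl)
  have hkap : 0 < kap (m + 1) := by
    unfold kap
    exact measure_closedBall_pos _ _ zero_lt_one
  have hNpos : volume N ≠ 0 := by
    intro h0
    rw [h0] at hV
    have : ENNReal.ofReal D * kap (m + 1) ≠ 0 :=
      mul_ne_zero (by simpa using hD0) hkap.ne'
    exact this (le_antisymm hV zero_le)
  have hint : (interior N').Nonempty :=
    (interior_nonempty_of_volume hNc hNpos).mono (interior_mono hNN')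
  obtain ⟨r, hr, hrN⟩ : ∃ r > 0, ball p r ⊆ Nᶜ :=
    Metric.isOpen_iff.1 hN.isClosed.isOpen_compl p hpN
  have hcl : p ∈ closure (interior N') := by
    rw [hN'conv.closure_interior_eq_closure_of_nonempty_interior hint]
    exact subset_closure hpN'
  have hne : (ball p r ∩ interior N').Nonempty :=
    mem_closure_iff.1 hcl _ isOpen_ball (mem_ball_self hr)
  have hpos : 0 < volume (ball p r ∩ interior N') :=
    (isOpen_ball.inter isOpen_interior).measure_pos _ hne
  have hdisj : Disjoint N (ball p r ∩ interior N') := by
    rw [Set.disjoint_left]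
    intro x hx hx2
    exact hrN hx2.1 hx
  have hsum : volume N + volume (ball p r ∩ interior N') ≤ volume N' := by
    rw [← measure_union hdisj (isOpen_ball.inter isOpen_interior).measurableSet]
    refine measure_mono (union_subset hNN' ?_)
    exact inter_subset_right.trans interior_subset
  have hlt : volume N < volume N + volume (ball p r ∩ interior N') :=
    ENNReal.lt_add_right hN.measure_lt_top.ne hpos.ne'
  exact absurd (hlt.trans_le (hsum.trans (hvol.trans hV))) (lt_irrefl _)

end Pool.Agent.R751.Mass
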