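import Pool.Agent.R751.MassC

set_option autoImplicit false
open MeasureTheory Set Module Filter Topology Metric TopologicalSpace
open scoped ENNReal RealInnerProductSpace

namespace Pool.Agent.R751.Mass

open Pool.Agent.Helper481.RH

variable {m : ℕ}

/-- geometric step: the symmetral of two boundary points is a boundary point -/
lemma mid_boundary {K : Set (EuclideanSpace ℝ (Fin (m + 1)))} (hKc : Convex ℝ K)
    {x y : EuclideanSpace ℝ (Fin (m + 1))} (hx : x ∈ K) (hy : y ∈ K)
    (hxb : ∀ t : ℝ, 1 < t → t • x ∉ K) (hyb : ∀ t : ℝ, 1 < t → t • y ∉ K)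
    {X Y : EuclideanSpace ℝ (Fin (m + 1))} (hX : X ∈ K) (hY : Y ∈ K) {t : ℝ} (ht : 1 < t)
    {e : EuclideanSpace ℝ (Fin (m + 1))} {l δ : ℝ} (hl : 0 < l) (hxy : x - y = l • e)
    (hXx : t • (x - δ • e) = X) (hYy : t • (y - δ • e) = Y) : False := by
  have ht0 : 0 < t := by linarith
  rcases lt_trichotomy δ 0 with hδ | hδ | hδ
  · -- x lies between X' and y
    set μ := -δ with hμ
    have hμ0 : 0 < μ := by linarith
    -- x = λ X' + (1-λ) y with λ = l/(l+μ)
    set c := (l / (l + μ)) / t + (μ / (l + μ)) with hc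
    have hlm : 0 < l + μ := by linarith
    have hA : 0 < l / (l + μ) := by positivity
    have hB : 0 < μ / (l + μ) := by positivity
    have hAB : l / (l + μ) + μ / (l + μ) = 1 := by field_simp
    have hc1 : c < 1 := by
      have : (l / (l + μ)) / t < l / (l + μ) := div_lt_self hA ht
      linarith
    have hc0 : 0 < c := by positivity
    have hcomb : (l / (l + μ)) / t / c + (μ / (l + μ)) / c = 1 := by
      rw [← add_div, ← hc, div_self hc0.ne']
    have hmem := hKc hX hy (a := (l / (l + μ)) / t / c) (b := (μ / (l + μ)) / c)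
      (by positivity) (by positivity) hcomb
    apply hxb (1 / c) (by rw [lt_div_iff₀ hc0]; linarith)
    convert hmem using 1
    rw [← hXx]
    have hy' : y = x - l • e := by rw [← hxy]; abel
    rw [hy']
    have e1 : (l / (l + μ) / t / c) • t • (x - δ • e) = (l / (l + μ) / c) • (x - δ • e) := by
      rw [smul_smul]; congr 1; field_simp
    rw [e1]
    have e2 : (l / (l + μ) / c) • (x - δ • e) + (μ / (l + μ) / c) • (x - l • e)
        = ((l / (l + μ) + μ / (l + μ)) / c) • x
          + ((μ * l / (l + μ) - μ * l / (l + μ)) / c) • e := by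
      rw [show δ = -μ by rw [hμ]; ring]
      module
    rw [e2, hAB, sub_self, zero_div, zero_smul, add_zero]
  · rw [hδ, zero_smul, sub_zero] at hXx
    exact hxb t ht (hXx ▸ hX)
  · -- y lies between Y' and x
    set c := (l / (l + δ)) / t + (δ / (l + δ)) with hc
    have hlm : 0 < l + δ := by linarith
    have hA : 0 < l / (l + δ) := by positivity
    have hB : 0 < δ / (l + δ) := by positivity
    have hAB : l / (l + δ) + δ / (l + δ) = 1 := by field_simp
    have hc1 : c < 1 := by
      have : (l / (l + δ)) / t < l / (l + δ) := div_lt_self hA ht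
      linarith
    have hc0 : 0 < c := by positivity
    have hcomb : (l / (l + δ)) / t / c + (δ / (l + δ)) / c = 1 := by
      rw [← add_div, ← hc, div_self hc0.ne']
    have hmem := hKc hY hx (a := (l / (l + δ)) / t / c) (b := (δ / (l + δ)) / c)
      (by positivity) (by positivity) hcomb
    apply hyb (1 / c) (by rw [lt_div_iff₀ hc0]; linarith)
    convert hmem using 1
    rw [← hYy]
    have hx' : x = y + l • e := by rw [← hxy]; abel
    rw [hx']
    have e1 : (l / (l + δ) / t / c) • t • (y - δ • e) = (l / (l + δ) / c) • (y - δ • e) := by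
      rw [smul_smul]; congr 1; field_simp
    rw [e1]
    have e2 : (l / (l + δ) / c) • (y - δ • e) + (δ / (l + δ) / c) • (y + l • e)
        = ((l / (l + δ) + δ / (l + δ)) / c) • y
          + ((δ * l / (l + δ) - δ * l / (l + δ)) / c) • e := by
      module
    rw [e2, hAB, sub_self, zero_div, zero_smul, add_zero]

/-- the symmetry of support functionals of an extremal body -/
theorem exists_dual {K : Set (EuclideanSpace ℝ (Fin (m + 1)))} (hm : 1 ≤ m)
    (hK : IsCompact K) (hKc : Convex ℝ K) (hKs : ∀ x ∈ K, -x ∈ K) {D : ℝ} (hD0 : 0 < D)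
    (hD : DetLe K D) (hV : ENNReal.ofReal D * kap (m + 1) ≤ volume K)
    {x y : EuclideanSpace ℝ (Fin (m + 1))} (hx : x ∈ K) (hy : y ∈ K) (hxy : x ≠ y)
    (hxb : ∀ t : ℝ, 1 < t → t • x ∉ K) (hyb : ∀ t : ℝ, 1 < t → t • y ∉ K) :
    ∃ ξ η : EuclideanSpace ℝ (Fin (m + 1)) →ₗ[ℝ] ℝ, ξ x = 1 ∧ η y = 1 ∧ (∀ z ∈ K, ξ z ≤ 1) ∧
      (∀ z ∈ K, η z ≤ 1) ∧ ξ y = η x := by
  have hl : 0 < ‖x - y‖ := norm_pos_iff.2 (sub_ne_zero.2 hxy)
  obtain ⟨b, hb⟩ := exists_basis (m := m) (v := (‖x - y‖)⁻¹ • (x - y)) (by
    rw [norm_smul, norm_inv, norm_norm, inv_mul_cancel₀ hl.ne'])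
  have hxyb : x - y = ‖x - y‖ • b 0 := by
    rw [hb, smul_smul, mul_inv_cancel₀ hl.ne', one_smul]
  set l := ‖x - y‖ with hldef
  have hcb : coord b (b 0) = (1, 0) := coord_basis b
  have hcxy : coord b x - coord b y = (l, 0) := by
    rw [← map_sub, hxyb, map_smul, hcb]; simp
  have h2 : (coord b y).2 = (coord b x).2 := by
    have := congrArg Prod.snd hcxy
    simp only [Prod.snd_sub] at this
    exact (sub_eq_zero.1 this).symm
  have h1 : (coord b x).1 - (coord b y).1 = l := by
    have := congrArg Prod.fst hcxy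
    simpa using this
  set z : EuclideanSpace ℝ (Fin (m + 1)) :=
    (coord b).symm (((coord b x).1 - (coord b y).1) / 2, (coord b x).2) with hz
  have hcz : coord b z = (((coord b x).1 - (coord b y).1) / 2, (coord b x).2) := by
    rw [hz, (coord b).apply_symm_apply]
  have hzN : z ∈ StE b K := by
    rw [mem_StE]
    exact ⟨x, hx, y, hy, by rw [hcz], by rw [hcz, h2], by rw [hcz]⟩
  have hzb : ∀ t : ℝ, 1 < t → t • z ∉ StE b K := by
    intro t ht hmem
    rw [mem_StE] at hmem
    obtain ⟨X, hX, Y, hY, e1, e2, e3⟩ := hmem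
    rw [map_smul, hcz] at e1 e2 e3
    simp only [Prod.smul_snd, Prod.smul_fst, smul_eq_mul] at e1 e2 e3
    have ht0 : 0 < t := by linarith
    set δ := (coord b x).1 - (coord b X).1 / t with hδ
    refine mid_boundary hKc hx hy hxb hyb hX hY ht hl hxyb (δ := δ) ?_ ?_
    · apply (coord b).injective
      rw [map_smul, map_sub, map_smul, hcb]
      refine Prod.ext ?_ ?_
      · simp only [Prod.smul_fst, Prod.fst_sub, smul_eq_mul, mul_one, hδ]
        field_simp
        ring
      · simp only [Prod.smul_snd, Prod.snd_sub, smul_zero, sub_zero, e1]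
    · apply (coord b).injective
      rw [map_smul, map_sub, map_smul, hcb]
      refine Prod.ext ?_ ?_
      · simp only [Prod.smul_fst, Prod.fst_sub, smul_eq_mul, mul_one, hδ]
        field_simp
        linarith
      · simp only [Prod.smul_snd, Prod.snd_sub, smul_zero, sub_zero, h2, e2]
  obtain ⟨v, hv0, hv, hvD⟩ := exists_tuple hm (StE_compact hK) (StE_convex hKc) (StE_symm hKs)
    hD0 (DetLe_StE hD) (by rw [volume_StE hK hKc]; exact hV) hzN hzb
  choose X' hX' Y' hY' h using fun i => mem_StE.1 (hv i)
  set X := Function.update X' 0 x with hXdef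
  set Y := Function.update Y' 0 y with hYdef
  have hXK : ∀ i, X i ∈ K := by
    intro i
    by_cases hi : i = 0
    · rw [hi, hXdef, Function.update_self]; exact hx
    · rw [hXdef, Function.update_of_ne hi]; exact hX' i
  have hYK : ∀ i, Y i ∈ K := by
    intro i
    by_cases hi : i = 0
    · rw [hi, hYdef, Function.update_self]; exact hy
    · rw [hYdef, Function.update_of_ne hi]; exact hY' i
  have hsplit : ∀ i, (coord b (X i)).2 = (coord b (v i)).2 ∧ (coord b (Y i)).2 = (coord b (v i)).2 ∧
      (coord b (v i)).1 = ((coord b (X i)).1 - (coord b (Y i)).1) / 2 := by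
    intro i
    by_cases hi : i = 0
    · rw [hi, hXdef, hYdef, Function.update_self, Function.update_self, hv0, hcz]
      exact ⟨rfl, h2, rfl⟩
    · rw [hXdef, hYdef, Function.update_of_ne hi, Function.update_of_ne hi]; exact h i
  have hs1 := detc_split b hsplit
  have hX1 := abs_le.1 (hD X hXK)
  have hY1 := abs_le.1 (hD Y hYK)
  have hXD : detc X = D := by linarith
  have hYD : detc Y = -D := by linarith
  -- the value on the direction
  have hdir : detL X 0 (b 0) = detL Y 0 (b 0) := by
    rw [detL_apply, detL_apply]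
    have hs2 := detc_split b (v := Function.update v 0 0) (x := Function.update X 0 (b 0))
      (y := Function.update Y 0 (b 0)) (by
        intro i
        by_cases hi : i = 0
        · rw [hi, Function.update_self, Function.update_self, Function.update_self, hcb]
          simp
        · rw [Function.update_of_ne hi, Function.update_of_ne hi, Function.update_of_ne hi]
          exact hsplit i)
    have h0 : detc (Function.update v 0 0) = 0 := by
      rw [detc_eq]
      exact (detA m).map_coord_zero 0 (Function.update_self _ _ _)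
    rw [h0, mul_zero] at hs2
    linarith
  have hXL : ∀ w ∈ K, |detL X 0 w| ≤ D := by
    intro w hw
    rw [detL_apply]
    apply hD
    intro i
    by_cases hi : i = 0
    · rw [hi, Function.update_self]; exact hw
    · rw [Function.update_of_ne hi]; exact hXK i
  have hYL : ∀ w ∈ K, |detL Y 0 w| ≤ D := by
    intro w hw
    rw [detL_apply]
    apply hD
    intro i
    by_cases hi : i = 0
    · rw [hi, Function.update_self]; exact hw
    · rw [Function.update_of_ne hi]; exact hYK i
  have hXx : detL X 0 x = D := by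
    rw [detL_apply, hXdef, Function.update_idem, ← hXdef, hXD]
  have hYy : detL Y 0 y = -D := by
    rw [detL_apply, hYdef, Function.update_idem, ← hYdef, hYD]
  have e1 : detL X 0 x - detL X 0 y = l * detL X 0 (b 0) := by
    rw [← map_sub, hxyb, map_smul, smul_eq_mul]
  have e2 : detL Y 0 x - detL Y 0 y = l * detL Y 0 (b 0) := by
    rw [← map_sub, hxyb, map_smul, smul_eq_mul]
  refine ⟨D⁻¹ • detL X 0, -(D⁻¹ • detL Y 0), ?_, ?_, ?_, ?_, ?_⟩
  · simp only [LinearMap.smul_apply, smul_eq_mul, hXx]
    exact inv_mul_cancel₀ hD0.ne'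
  · simp only [LinearMap.neg_apply, LinearMap.smul_apply, smul_eq_mul, hYy]
    field_simp
  · intro w hw
    simp only [LinearMap.smul_apply, smul_eq_mul]
    rw [inv_mul_le_iff₀ hD0, mul_one]
    exact (le_abs_self _).trans (hXL w hw)
  · intro w hw
    simp only [LinearMap.neg_apply, LinearMap.smul_apply, smul_eq_mul]
    rw [← mul_neg, inv_mul_le_iff₀ hD0, mul_one]
    exact (neg_le_abs _).trans (hYL w hw)
  · simp only [LinearMap.neg_apply, LinearMap.smul_apply, smul_eq_mul]
    rw [hdir] at e1
    have : detL X 0 y = - detL Y 0 x := by linarith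
    rw [this]; ring

end Pool.Agent.R751.Mass
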