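import Pool.Agent.R751.MassD

set_option autoImplicit false
open MeasureTheory Set Module Filter Topology Metric TopologicalSpace
open scoped ENNReal RealInnerProductSpace

namespace Pool.Agent.R751.Mass

/-- a seminorm which is a norm satisfying the parallelogram law is Euclidean -/
lemma exists_equiv {V : Type*} [AddCommGroup V] [Module ℝ V] [FiniteDimensional ℝ V] {n : ℕ}
    (hn : finrank ℝ V = n) (p : Seminorm ℝ V) (hp : ∀ x, p x = 0 → x = 0)
    (hpar : ∀ x y, p (x + y) ^ 2 + p (x - y) ^ 2 = 2 * (p x ^ 2 + p y ^ 2)) :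
    ∃ e : V ≃ₗ[ℝ] EuclideanSpace ℝ (Fin n), ∀ x, ‖e x‖ = p x := by
  let N : AddGroupNorm V :=
    { toFun := p
      map_zero' := map_zero p
      add_le' := map_add_le_add p
      neg' := map_neg_eq_map p
      eq_zero_of_map_eq_zero' := hp }
  let i1 : NormedAddCommGroup V := AddGroupNorm.toNormedAddCommGroup N
  have hnorm : ∀ x : V, ‖x‖ = p x := fun x => rfl
  let i2 : NormedSpace ℝ V :=
    { norm_smul_le := fun a x => by
        rw [hnorm, hnorm, map_smul_eq_mul] }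
  let i3 : InnerProductSpace ℝ V := InnerProductSpace.ofNorm ℝ (fun x y => by
    simp only [hnorm]
    have := hpar x y
    nlinarith)
  let b := (stdOrthonormalBasis ℝ V).reindex (finCongr hn)
  refine ⟨b.repr.toLinearEquiv, fun x => ?_⟩
  exact b.repr.norm_map x

variable {m : ℕ}

section
variable {K : Set (EuclideanSpace ℝ (Fin (m + 1)))}

lemma gauge_hat (hK0 : K ∈ 𝓝 (0 : EuclideanSpace ℝ (Fin (m + 1)))) (hKb : Bornology.IsBounded K)
    {x : EuclideanSpace ℝ (Fin (m + 1))} (hx : x ≠ 0) : 0 < gauge K x :=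
  (gauge_pos (absorbent_nhds_zero hK0) ((NormedSpace.isVonNBounded_iff ℝ).2 hKb)).2 hx

lemma gauge_hom {c : ℝ} (hc : 0 ≤ c) (x : EuclideanSpace ℝ (Fin (m + 1))) :
    gauge K (c • x) = c * gauge K x := by
  rw [gauge_smul_of_nonneg hc, smul_eq_mul]

lemma mem_iff_gauge (hK : IsCompact K) (hKc : Convex ℝ K)
    (hK0 : K ∈ 𝓝 (0 : EuclideanSpace ℝ (Fin (m + 1)))) {x : EuclideanSpace ℝ (Fin (m + 1))} :
    x ∈ K ↔ gauge K x ≤ 1 := by
  rw [gauge_le_one_iff_mem_closure hKc hK0, hK.isClosed.closure_eq]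

/-- the normalised vector is a boundary vector -/
lemma hat_mem (hK : IsCompact K) (hKc : Convex ℝ K)
    (hK0 : K ∈ 𝓝 (0 : EuclideanSpace ℝ (Fin (m + 1)))) {x : EuclideanSpace ℝ (Fin (m + 1))}
    (hx : x ≠ 0) : (gauge K x)⁻¹ • x ∈ K ∧ ∀ t : ℝ, 1 < t → t • ((gauge K x)⁻¹ • x) ∉ K := by
  have hg := gauge_hat hK0 hK.isBounded hx
  have h1 : gauge K ((gauge K x)⁻¹ • x) = 1 := by
    rw [gauge_hom (inv_nonneg.2 hg.le), inv_mul_cancel₀ hg.ne']
  refine ⟨(mem_iff_gauge hK hKc hK0).2 h1.le, fun t ht hmem => ?_⟩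
  rw [mem_iff_gauge hK hKc hK0, gauge_hom (by linarith), h1] at hmem
  linarith

/-- a functional bounded by one on the body is bounded by the gauge -/
lemma le_gauge (hK : IsCompact K) (hKc : Convex ℝ K)
    (hK0 : K ∈ 𝓝 (0 : EuclideanSpace ℝ (Fin (m + 1))))
    {ξ : EuclideanSpace ℝ (Fin (m + 1)) →ₗ[ℝ] ℝ} (hξ : ∀ z ∈ K, ξ z ≤ 1)
    (z : EuclideanSpace ℝ (Fin (m + 1))) : ξ z ≤ gauge K z := by
  by_cases hz : z = 0
  · rw [hz, map_zero, gauge_zero]
  · have hg := gauge_hat hK0 hK.isBounded hz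
    have h1 := hξ _ (hat_mem hK hKc hK0 hz).1
    rw [map_smul, smul_eq_mul, inv_mul_le_iff₀ hg, mul_one] at h1
    exact h1

/-- uniqueness of the support functional at a point of differentiability -/
lemma fderiv_unique {x : EuclideanSpace ℝ (Fin (m + 1))} (hd : DifferentiableAt ℝ (gauge K) x)
    {ξ : EuclideanSpace ℝ (Fin (m + 1)) →ₗ[ℝ] ℝ} (hξ : ∀ z, ξ z ≤ gauge K z)
    (hx : ξ x = gauge K x) (z : EuclideanSpace ℝ (Fin (m + 1))) :
    fderiv ℝ (gauge K) x z = ξ z := by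
  set L := LinearMap.toContinuousLinearMap ξ with hL
  have h1 : IsLocalMin (fun z => gauge K z - L z) x := by
    refine Filter.Eventually.of_forall fun z => ?_
    have h2 : L x = gauge K x := hx
    have h3 : L z ≤ gauge K z := hξ z
    simp only [h2, sub_self]
    linarith
  have h2 := h1.fderiv_eq_zero
  rw [fderiv_fun_sub hd L.differentiableAt, L.fderiv, sub_eq_zero] at h2
  rw [h2]; rfl

/-- the dual pair property -/
def DualPair (K : Set (EuclideanSpace ℝ (Fin (m + 1)))) : Prop :=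
  ∀ x ∈ K, ∀ y ∈ K, x ≠ y → (∀ t : ℝ, 1 < t → t • x ∉ K) → (∀ t : ℝ, 1 < t → t • y ∉ K) →
    ∃ ξ η : EuclideanSpace ℝ (Fin (m + 1)) →ₗ[ℝ] ℝ, ξ x = 1 ∧ η y = 1 ∧ (∀ z ∈ K, ξ z ≤ 1) ∧
      (∀ z ∈ K, η z ≤ 1) ∧ ξ y = η x

/-- smooth vectors -/
def Smo (K : Set (EuclideanSpace ℝ (Fin (m + 1)))) (x : EuclideanSpace ℝ (Fin (m + 1))) : Prop :=
  x ≠ 0 ∧ DifferentiableAt ℝ (gauge K) x

lemma hat_neg_ne {x : EuclideanSpace ℝ (Fin (m + 1))} (hx : x ≠ 0)
    (c : ℝ) (hc : 0 < c) : c • x ≠ -(c • x) := by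
  intro h
  have h1 : (2 * c) • x = 0 := by
    have : c • x + c • x = 0 := by nth_rewrite 1 [h]; simp
    rw [two_mul, add_smul]; exact this
  rcases smul_eq_zero.1 h1 with h2 | h2
  · linarith
  · exact hx h2

/-- the derivative at a smooth vector is a support functional -/
lemma support_fderiv (hK : IsCompact K) (hKc : Convex ℝ K) (hKs : ∀ x ∈ K, -x ∈ K)
    (hK0 : K ∈ 𝓝 (0 : EuclideanSpace ℝ (Fin (m + 1)))) (hP : DualPair K)
    {x : EuclideanSpace ℝ (Fin (m + 1))} (hx : Smo K x) :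
    fderiv ℝ (gauge K) x x = gauge K x ∧ ∀ z, fderiv ℝ (gauge K) x z ≤ gauge K z := by
  have hg := gauge_hat hK0 hK.isBounded hx.1
  obtain ⟨h1, h2⟩ := hat_mem hK hKc hK0 hx.1
  obtain ⟨ξ, η, e1, -, e3, -, -⟩ := hP _ h1 _ (hKs _ h1) (hat_neg_ne hx.1 _ (inv_pos.2 hg)) h2
    (fun t ht hmem => h2 t ht (by
      have := hKs _ hmem
      rwa [smul_neg, neg_neg] at this))
  have h3 : ξ x = gauge K x := by
    rw [map_smul, smul_eq_mul, inv_mul_eq_one₀ hg.ne'] at e1
    exact e1.symm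
  have h4 := le_gauge hK hKc hK0 e3
  have h5 := fderiv_unique hx.2 h4 h3
  exact ⟨by rw [h5, h3], fun z => by rw [h5]; exact h4 z⟩

/-- symmetry of the duality map -/
lemma dual_symm (hK : IsCompact K) (hKc : Convex ℝ K) (hKs : ∀ x ∈ K, -x ∈ K)
    (hK0 : K ∈ 𝓝 (0 : EuclideanSpace ℝ (Fin (m + 1)))) (hP : DualPair K)
    {x y : EuclideanSpace ℝ (Fin (m + 1))} (hx : Smo K x) (hy : Smo K y) :
    gauge K x * fderiv ℝ (gauge K) x y = gauge K y * fderiv ℝ (gauge K) y x := by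
  have hgx := gauge_hat hK0 hK.isBounded hx.1
  have hgy := gauge_hat hK0 hK.isBounded hy.1
  by_cases hxy : (gauge K x)⁻¹ • x = (gauge K y)⁻¹ • y
  · have hyx : y = (gauge K y / gauge K x) • x := by
      rw [div_eq_mul_inv, mul_smul, hxy, smul_smul, mul_inv_cancel₀ hgy.ne', one_smul]
    obtain ⟨hs1, hs2⟩ := support_fderiv hK hKc hKs hK0 hP hx
    have h1 : fderiv ℝ (gauge K) x y = gauge K y := by
      nth_rewrite 1 [hyx]
      rw [map_smul, smul_eq_mul, hs1]
      field_simp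
    have h2 := fderiv_unique hy.2 (ξ := (fderiv ℝ (gauge K) x).toLinearMap) hs2 h1 x
    have h3 : fderiv ℝ (gauge K) y x = gauge K x := by rw [h2]; exact hs1
    rw [h1, h3, mul_comm]
  · obtain ⟨h1, h2⟩ := hat_mem hK hKc hK0 hx.1
    obtain ⟨h3, h4⟩ := hat_mem hK hKc hK0 hy.1
    obtain ⟨ξ, η, e1, e2, e3, e4, e5⟩ := hP _ h1 _ h3 hxy h2 h4
    have f1 : ξ x = gauge K x := by
      rw [map_smul, smul_eq_mul, inv_mul_eq_one₀ hgx.ne'] at e1
      exact e1.symm
    have f2 : η y = gauge K y := by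
      rw [map_smul, smul_eq_mul, inv_mul_eq_one₀ hgy.ne'] at e2
      exact e2.symm
    rw [fderiv_unique hx.2 (le_gauge hK hKc hK0 e3) f1,
      fderiv_unique hy.2 (le_gauge hK hKc hK0 e4) f2]
    rw [map_smul, map_smul, smul_eq_mul, smul_eq_mul] at e5
    field_simp at e5
    linarith

/-- almost all vectors are smooth -/
lemma ae_smo (hKc : Convex ℝ K) (hK0 : K ∈ 𝓝 (0 : EuclideanSpace ℝ (Fin (m + 1)))) :
    ∀ᵐ x ∂(volume : Measure (EuclideanSpace ℝ (Fin (m + 1)))), Smo K x := by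
  obtain ⟨C, hC⟩ := hKc.lipschitz_gauge hK0
  have h1 : ∀ᵐ x ∂(volume : Measure (EuclideanSpace ℝ (Fin (m + 1)))), x ≠ 0 := by
    have : volume ({0} : Set (EuclideanSpace ℝ (Fin (m + 1)))) = 0 := measure_singleton 0
    exact measure_eq_zero_iff_ae_notMem.1 this
  filter_upwards [h1, hC.ae_differentiableAt] with x hx1 hx2
  exact ⟨hx1, hx2⟩

/-- additivity of the duality map on smooth vectors -/
lemma dual_add (hK : IsCompact K) (hKc : Convex ℝ K) (hKs : ∀ x ∈ K, -x ∈ K)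
    (hK0 : K ∈ 𝓝 (0 : EuclideanSpace ℝ (Fin (m + 1)))) (hP : DualPair K)
    {x y : EuclideanSpace ℝ (Fin (m + 1))} (hx : Smo K x) (hy : Smo K y) (hxy : Smo K (x + y))
    (z : EuclideanSpace ℝ (Fin (m + 1))) :
    gauge K (x + y) * fderiv ℝ (gauge K) (x + y) z
      = gauge K x * fderiv ℝ (gauge K) x z + gauge K y * fderiv ℝ (gauge K) y z := by
  have hdense := Measure.dense_of_ae (ae_smo hKc hK0)
  have h1 : Continuous fun z => gauge K (x + y) * fderiv ℝ (gauge K) (x + y) z := by fun_prop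
  have h2 : Continuous fun z => gauge K x * fderiv ℝ (gauge K) x z
      + gauge K y * fderiv ℝ (gauge K) y z := by fun_prop
  refine congrFun (h1.ext_on hdense h2 ?_) z
  intro z hz
  change gauge K (x + y) * fderiv ℝ (gauge K) (x + y) z = gauge K x * fderiv ℝ (gauge K) x z
      + gauge K y * fderiv ℝ (gauge K) y z
  rw [dual_symm hK hKc hKs hK0 hP hxy hz, dual_symm hK hKc hKs hK0 hP hx hz,
    dual_symm hK hKc hKs hK0 hP hy hz, map_add, mul_add]

lemma gauge_symm (hKs : ∀ x ∈ K, -x ∈ K) (x : EuclideanSpace ℝ (Fin (m + 1))) :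
    gauge K (-x) = gauge K x := gauge_neg hKs x

lemma smo_neg (hKs : ∀ x ∈ K, -x ∈ K) {x : EuclideanSpace ℝ (Fin (m + 1))} (hx : Smo K x) :
    Smo K (-x) := by
  refine ⟨neg_ne_zero.2 hx.1, ?_⟩
  have h1 : DifferentiableAt ℝ (fun y => gauge K (-y)) (-x) := by
    have h2 : DifferentiableAt ℝ (gauge K) (-(-x)) := by rw [neg_neg]; exact hx.2
    exact DifferentiableAt.comp (f := fun y : EuclideanSpace ℝ (Fin (m + 1)) => -y) (-x) h2
      (by fun_prop)
  simpa only [gauge_symm hKs] using h1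

lemma fderiv_neg' (hK : IsCompact K) (hKc : Convex ℝ K) (hKs : ∀ x ∈ K, -x ∈ K)
    (hK0 : K ∈ 𝓝 (0 : EuclideanSpace ℝ (Fin (m + 1)))) (hP : DualPair K)
    {x : EuclideanSpace ℝ (Fin (m + 1))} (hx : Smo K x) (z : EuclideanSpace ℝ (Fin (m + 1))) :
    fderiv ℝ (gauge K) (-x) z = - fderiv ℝ (gauge K) x z := by
  obtain ⟨h1, h2⟩ := support_fderiv hK hKc hKs hK0 hP hx
  have h3 := fderiv_unique (smo_neg hKs hx).2 (ξ := -(fderiv ℝ (gauge K) x).toLinearMap)
    (fun w => by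
      have := h2 (-w)
      rw [gauge_symm hKs, map_neg] at this
      exact this) (by
      rw [gauge_symm hKs, ← h1]
      simp) z
  rw [h3]; rfl

/-- the parallelogram law for the gauge -/
theorem parallelogram (hK : IsCompact K) (hKc : Convex ℝ K) (hKs : ∀ x ∈ K, -x ∈ K)
    (hK0 : K ∈ 𝓝 (0 : EuclideanSpace ℝ (Fin (m + 1)))) (hP : DualPair K)
    (x y : EuclideanSpace ℝ (Fin (m + 1))) :
    gauge K (x + y) ^ 2 + gauge K (x - y) ^ 2 = 2 * (gauge K x ^ 2 + gauge K y ^ 2) := by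
  have hcont : Continuous (gauge K) := continuous_gauge hKc hK0
  have hS := ae_smo hKc hK0
  have hdense := Measure.dense_of_ae hS
  -- the law for smooth quadruples
  have key : ∀ x y : EuclideanSpace ℝ (Fin (m + 1)), Smo K x → Smo K y → Smo K (x + y) →
      Smo K (x - y) →
      gauge K (x + y) ^ 2 + gauge K (x - y) ^ 2 = 2 * (gauge K x ^ 2 + gauge K y ^ 2) := by
    intro x y hx hy hxy hxy'
    have e1 := (support_fderiv hK hKc hKs hK0 hP hxy).1
    have e2 := (support_fderiv hK hKc hKs hK0 hP hxy').1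
    have e3 := (support_fderiv hK hKc hKs hK0 hP hx).1
    have e4 := (support_fderiv hK hKc hKs hK0 hP hy).1
    have f1 := dual_add hK hKc hKs hK0 hP hx hy hxy (x + y)
    have hny := smo_neg hKs hy
    have hxy'' : Smo K (x + -y) := by rw [← sub_eq_add_neg]; exact hxy'
    have f2 := dual_add hK hKc hKs hK0 hP hx hny hxy'' (x - y)
    rw [← sub_eq_add_neg, gauge_symm hKs, fderiv_neg' hK hKc hKs hK0 hP hy] at f2
    rw [e1, map_add, map_add, e3, e4] at f1
    rw [e2, map_sub, map_sub, e3, e4] at f2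
    linear_combination f1 + f2
  -- fixed smooth x
  have h1 : ∀ x, Smo K x → ∀ y,
      gauge K (x + y) ^ 2 + gauge K (x - y) ^ 2 = 2 * (gauge K x ^ 2 + gauge K y ^ 2) := by
    intro x hx y
    have hae : ∀ᵐ y ∂(volume : Measure (EuclideanSpace ℝ (Fin (m + 1)))),
        Smo K y ∧ Smo K (x + y) ∧ Smo K (x - y) := by
      have a1 := (measurePreserving_add_left (volume : Measure (EuclideanSpace ℝ (Fin (m + 1))))
        x).quasiMeasurePreserving.ae hS
      have a2 := (Measure.measurePreserving_sub_left (volume : Measure (EuclideanSpace ℝ (Fin (m + 1))))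
        x).quasiMeasurePreserving.ae hS
      filter_upwards [hS, a1, a2] with y b1 b2 b3
      exact ⟨b1, b2, b3⟩
    have hd := Measure.dense_of_ae hae
    have c1 : Continuous fun y => gauge K (x + y) ^ 2 + gauge K (x - y) ^ 2 := by fun_prop
    have c2 : Continuous fun y => 2 * (gauge K x ^ 2 + gauge K y ^ 2) := by fun_prop
    refine congrFun (c1.ext_on hd c2 ?_) y
    intro y hy
    exact key x y hx hy.1 hy.2.1 hy.2.2
  have c1 : Continuous fun x => gauge K (x + y) ^ 2 + gauge K (x - y) ^ 2 := by fun_prop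
  have c2 : Continuous fun x => 2 * (gauge K x ^ 2 + gauge K y ^ 2) := by fun_prop
  refine congrFun (c1.ext_on hdense c2 ?_) x
  intro x hx
  exact h1 x hx y

/-- a body with the dual pair property is an ellipsoid -/
theorem ellipsoid_of_dual (hK : IsCompact K) (hKc : Convex ℝ K) (hKs : ∀ x ∈ K, -x ∈ K)
    (hK0 : K ∈ 𝓝 (0 : EuclideanSpace ℝ (Fin (m + 1)))) (hP : DualPair K) :
    ∃ e : EuclideanSpace ℝ (Fin (m + 1)) ≃ₗ[ℝ] EuclideanSpace ℝ (Fin (m + 1)),
      K = e '' closedBall 0 1 := by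
  let p : Seminorm ℝ (EuclideanSpace ℝ (Fin (m + 1))) :=
    Seminorm.of (gauge K) (fun x y => gauge_add_le hKc (absorbent_nhds_zero hK0) x y)
      (fun a x => by
        rw [Real.norm_eq_abs]
        rcases le_total 0 a with h | h
        · rw [abs_of_nonneg h, gauge_hom h]
        · rw [abs_of_nonpos h, ← gauge_hom (neg_nonneg.2 h), ← gauge_symm hKs, neg_smul])
  have hp : ∀ x, p x = gauge K x := fun x => rfl
  obtain ⟨e, he⟩ := exists_equiv (V := EuclideanSpace ℝ (Fin (m + 1))) (n := m + 1) (by simp) p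
    (fun x hx => by
      by_contra hne
      exact absurd hx (gauge_hat hK0 hK.isBounded hne).ne')
    (fun x y => by
      simp only [hp]
      exact parallelogram hK hKc hKs hK0 hP x y)
  refine ⟨e.symm, ?_⟩
  ext x
  rw [mem_iff_gauge hK hKc hK0, ← hp, ← he]
  constructor
  · intro h
    exact ⟨e x, by rw [mem_closedBall_zero_iff]; exact h, by simp⟩
  · rintro ⟨w, hw, rfl⟩
    rw [mem_closedBall_zero_iff] at hw
    simpa using hw

end

end Pool.Agent.R751.Mass
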