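import Pool.Agent.R751.MassE

set_option autoImplicit false
open MeasureTheory Set Module Filter Topology Metric TopologicalSpace
open scoped ENNReal RealInnerProductSpace

namespace Pool.Agent.R751.Mass

open Pool.Agent.Helper481.RH

variable {m : ℕ}

/-- Hadamard's inequality for `detc` -/
lemma detc_basis (v : Fin (m + 1) → EuclideanSpace ℝ (Fin (m + 1))) :
    detc v = (EuclideanSpace.basisFun (Fin (m + 1)) ℝ).toBasis.det v := by
  rw [Basis.det_apply, ← Matrix.det_transpose]
  unfold detc
  congr 1

lemma abs_detc_le (v : Fin (m + 1) → EuclideanSpace ℝ (Fin (m + 1))) :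
    |detc v| ≤ ∏ i, ‖v i‖ := by
  have : Fact (finrank ℝ (EuclideanSpace ℝ (Fin (m + 1))) = m + 1) := ⟨by simp⟩
  let o : Orientation ℝ (EuclideanSpace ℝ (Fin (m + 1))) (Fin (m + 1)) :=
    (EuclideanSpace.basisFun (Fin (m + 1)) ℝ).toBasis.orientation
  rw [detc_basis, ← o.volumeForm_robust' (EuclideanSpace.basisFun (Fin (m + 1)) ℝ)]
  exact o.abs_volumeForm_apply_le v

lemma detc_comp (f : EuclideanSpace ℝ (Fin (m + 1)) →ₗ[ℝ] EuclideanSpace ℝ (Fin (m + 1)))
    (v : Fin (m + 1) → EuclideanSpace ℝ (Fin (m + 1))) :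
    detc (fun i => f (v i)) = LinearMap.det f * detc v := by
  rw [detc_basis, detc_basis]
  exact Basis.det_comp _ f v

lemma detc_ne_zero_iff (v : Fin (m + 1) → EuclideanSpace ℝ (Fin (m + 1))) :
    detc v ≠ 0 ↔ LinearIndependent ℝ v := by
  constructor
  · intro h
    by_contra hcon
    exact h (by rw [detc_eq]; exact (detA m).map_linearDependent v hcon)
  · intro h
    rw [detc_basis]
    have hb := (Module.Basis.is_basis_iff_det (EuclideanSpace.basisFun (Fin (m + 1)) ℝ).toBasis (v := v)).1
      ⟨h, by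
        have := h.span_eq_top_of_card_eq_finrank (by simp)
        exact this⟩
    exact hb.ne_zero

/-- the linear map sending the standard basis to `v` -/
noncomputable def linv (v : Fin (m + 1) → EuclideanSpace ℝ (Fin (m + 1))) :
    EuclideanSpace ℝ (Fin (m + 1)) →ₗ[ℝ] EuclideanSpace ℝ (Fin (m + 1)) :=
  (EuclideanSpace.basisFun (Fin (m + 1)) ℝ).toBasis.constr ℝ v

lemma linv_apply (v : Fin (m + 1) → EuclideanSpace ℝ (Fin (m + 1)))
    (x : EuclideanSpace ℝ (Fin (m + 1))) : linv v x = ∑ i, x i • v i := by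
  unfold linv
  rw [Basis.constr_apply_fintype]
  simp

lemma det_linv (v : Fin (m + 1) → EuclideanSpace ℝ (Fin (m + 1))) :
    LinearMap.det (linv v) = detc v := by
  have h := detc_comp (linv v) (fun i => EuclideanSpace.basisFun (Fin (m + 1)) ℝ i)
  have h1 : detc (fun i => EuclideanSpace.basisFun (Fin (m + 1)) ℝ i) = 1 := by
    have := detc_std (m := m) 1
    simpa using this
  have h2 : (fun i => linv v (EuclideanSpace.basisFun (Fin (m + 1)) ℝ i)) = v := by
    funext i
    unfold linv
    have := (EuclideanSpace.basisFun (Fin (m + 1)) ℝ).toBasis.constr_basis ℝ v i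
    simpa using this
  rw [h1, h2, mul_one] at h
  exact h.symm

/-- the standard cross-polytope -/
def stdCross (m : ℕ) : Set (EuclideanSpace ℝ (Fin (m + 1))) := {x | ∑ i, |x i| ≤ 1}

lemma volume_stdCross (m : ℕ) :
    volume (stdCross m) = ENNReal.ofReal (2 ^ (m + 1) / (m + 1).factorial) := by
  have h1 := volume_sum_rpow_le (ι := Fin (m + 1)) (le_refl (1:ℝ)) 1
  have h2 : {x : Fin (m + 1) → ℝ | (∑ i, |x i| ^ (1:ℝ)) ^ (1 / (1:ℝ)) ≤ 1}
      = {x : Fin (m + 1) → ℝ | ∑ i, |x i| ≤ 1} := by
    ext x; simp
  rw [h2] at h1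
  have h3 : (WithLp.ofLp : EuclideanSpace ℝ (Fin (m + 1)) → Fin (m + 1) → ℝ) ⁻¹'
      {x : Fin (m + 1) → ℝ | ∑ i, |x i| ≤ 1} = stdCross m := rfl
  have hcl : IsClosed {x : Fin (m + 1) → ℝ | ∑ i, |x i| ≤ 1} :=
    isClosed_le (by fun_prop) continuous_const
  rw [← h3, (PiLp.volume_preserving_ofLp (Fin (m + 1))).measure_preimage
    hcl.measurableSet.nullMeasurableSet, h1]
  simp only [Fintype.card_fin, ENNReal.ofReal_one, one_pow, one_mul, div_one]
  congr 2
  · rw [show (1:ℝ) + 1 = 2 by norm_num, Real.Gamma_two, mul_one]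
  · have := Real.Gamma_nat_eq_factorial (m + 1)
    exact_mod_cast this

lemma cross_eq (v : Fin (m + 1) → EuclideanSpace ℝ (Fin (m + 1))) :
    convexHull ℝ (Set.range v ∪ Set.range (fun i => -v i)) = linv v '' stdCross m := by
  apply Subset.antisymm
  · apply convexHull_min
    · rintro _ (⟨i, rfl⟩ | ⟨i, rfl⟩)
      · refine ⟨EuclideanSpace.basisFun (Fin (m + 1)) ℝ i, ?_, ?_⟩
        · simp only [stdCross, mem_ofPred_eq, EuclideanSpace.basisFun_apply]
          rw [Finset.sum_eq_single i]
          · simp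
          · intro j _ hj; simp [hj]
          · simp
        · rw [linv_apply, Finset.sum_eq_single i]
          · simp
          · intro j _ hj; simp [hj]
          · simp
      · refine ⟨-EuclideanSpace.basisFun (Fin (m + 1)) ℝ i, ?_, ?_⟩
        · simp only [stdCross, mem_ofPred_eq, EuclideanSpace.basisFun_apply]
          rw [Finset.sum_eq_single i]
          · simp
          · intro j _ hj; simp [hj]
          · simp
        · rw [map_neg, linv_apply, Finset.sum_eq_single i]
          · simp
          · intro j _ hj; simp [hj]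
          · simp
    · have hc : Convex ℝ (stdCross m) := by
        intro x hx y hy a b ha hb hab
        simp only [stdCross, mem_ofPred_eq] at hx hy ⊢
        calc ∑ i, |(a • x + b • y) i| ≤ ∑ i, (a * |x i| + b * |y i|) := by
              refine Finset.sum_le_sum fun i _ => ?_
              have e : (a • x + b • y) i = a * x i + b * y i := by simp
              rw [e]
              refine (abs_add_le _ _).trans ?_
              rw [abs_mul, abs_mul, abs_of_nonneg ha, abs_of_nonneg hb]
          _ = a * ∑ i, |x i| + b * ∑ i, |y i| := by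
              rw [Finset.sum_add_distrib, Finset.mul_sum, Finset.mul_sum]
          _ ≤ a * 1 + b * 1 := by gcongr
          _ = 1 := by linarith
      exact hc.linear_image _
  · rintro _ ⟨x, hx, rfl⟩
    rw [linv_apply]
    set C := convexHull ℝ (Set.range v ∪ Set.range (fun i => -v i)) with hC
    have hCc : Convex ℝ C := convex_convexHull ℝ _
    have hp : ∀ i, v i ∈ C := fun i => subset_convexHull ℝ _ (Or.inl ⟨i, rfl⟩)
    have hn : ∀ i, -v i ∈ C := fun i => subset_convexHull ℝ _ (Or.inr ⟨i, rfl⟩)
    have h0 : (0 : EuclideanSpace ℝ (Fin (m + 1))) ∈ C := by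
      have := hCc (hp 0) (hn 0) (a := 1 / 2) (b := 1 / 2) (by norm_num) (by norm_num) (by norm_num)
      convert this using 1
      module
    set σ := ∑ i, |x i| with hσ
    have hσ1 : σ ≤ 1 := hx
    have hσ0 : 0 ≤ σ := Finset.sum_nonneg fun i _ => abs_nonneg _
    rcases hσ0.eq_or_lt with h | h
    · have : ∀ i, x i = 0 := by
        intro i
        have := (Finset.sum_eq_zero_iff_of_nonneg (fun i _ => abs_nonneg (x i))).1 h.symm i
          (Finset.mem_univ i)
        exact abs_eq_zero.1 this
      simp only [this, zero_smul, Finset.sum_const_zero]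
      exact h0
    · have h1 : ∑ i, (|x i| / σ) • (if 0 ≤ x i then v i else -v i) ∈ C := by
        apply hCc.sum_mem
        · intro i _; positivity
        · rw [← Finset.sum_div, ← hσ, div_self h.ne']
        · intro i _
          split_ifs
          · exact hp i
          · exact hn i
      have h2 := hCc.smul_mem_of_zero_mem h0 h1 (t := σ) ⟨hσ0, hσ1⟩
      convert h2 using 1
      rw [Finset.smul_sum]
      refine Finset.sum_congr rfl fun i _ => ?_
      rw [smul_smul, mul_div_cancel₀ _ h.ne']
      split_ifs with hi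
      · rw [abs_of_nonneg hi]
      · rw [abs_of_neg (not_le.1 hi)]; simp

theorem volume_cross (v : Fin (m + 1) → EuclideanSpace ℝ (Fin (m + 1))) :
    (volume (convexHull ℝ (Set.range v ∪ Set.range (fun i => -v i)))).toReal
      = 2 ^ (m + 1) / (m + 1).factorial * |detc v| := by
  rw [cross_eq, Measure.addHaar_image_linearMap, det_linv, volume_stdCross,
    ENNReal.toReal_mul, ENNReal.toReal_ofReal (abs_nonneg _), ENNReal.toReal_ofReal (by positivity),
    mul_comm]

/-- a symmetric convex body contains a neighbourhood of the origin -/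
lemma mem_nhds_zero {K : Set (EuclideanSpace ℝ (Fin (m + 1)))} (hKc : Convex ℝ K)
    (hKs : ∀ x ∈ K, -x ∈ K) (hint : (interior K).Nonempty) :
    K ∈ 𝓝 (0 : EuclideanSpace ℝ (Fin (m + 1))) := by
  obtain ⟨x, hx⟩ := hint
  rw [← mem_interior_iff_mem_nhds]
  have h1 : -x ∈ interior K := by
    have h2 : -(interior K) ⊆ K := by
      intro z hz
      have := hKs _ (interior_subset hz)
      rwa [neg_neg] at this
    have h3 : -(interior K) ⊆ interior K := interior_maximal h2 (isOpen_interior.neg)
    exact h3 (by simpa using hx)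
  have h4 := hKc.interior hx h1 (a := 1 / 2) (b := 1 / 2) (by norm_num) (by norm_num) (by norm_num)
  convert h4 using 1
  module

/-- existence of a maximal tuple -/
lemma exists_maxdet {K : Set (EuclideanSpace ℝ (Fin (m + 1)))} (hK : IsCompact K)
    (hKc : Convex ℝ K) (hKs : ∀ x ∈ K, -x ∈ K) (hint : (interior K).Nonempty) :
    ∃ v : Fin (m + 1) → EuclideanSpace ℝ (Fin (m + 1)), (∀ i, v i ∈ K) ∧ 0 < |detc v| ∧
      DetLe K |detc v| := by
  have hC : IsCompact (Set.univ.pi fun _ : Fin (m + 1) => K) := isCompact_univ_pi fun _ => hK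
  have h0 := mem_nhds_zero hKc hKs hint
  obtain ⟨r, hr, hrK⟩ := Metric.mem_nhds_iff.1 h0
  have hne : (Set.univ.pi fun _ : Fin (m + 1) => K).Nonempty :=
    ⟨fun _ => 0, fun _ _ => mem_of_mem_nhds h0⟩
  obtain ⟨v, hv, hmax⟩ := hC.exists_isMaxOn hne
    (f := fun v => |detc v|) (continuous_abs.comp continuous_detc).continuousOn
  refine ⟨v, fun i => hv i (mem_univ i), ?_, fun w hw => hmax (fun i _ => hw i)⟩
  have h1 : |detc (fun i => (r / 2) • EuclideanSpace.basisFun (Fin (m + 1)) ℝ i)| ≤ |detc v| := by
    apply hmax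
    intro i _
    apply hrK
    rw [mem_ball_zero_iff, norm_smul, (EuclideanSpace.basisFun (Fin (m + 1)) ℝ).norm_eq_one,
      Real.norm_eq_abs, abs_of_pos (by positivity), mul_one]
    linarith
  rw [detc_std] at h1
  refine lt_of_lt_of_le ?_ h1
  positivity

end Pool.Agent.R751.Mass
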