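import Mathlib

set_option autoImplicit false

/-!
# Monochromatic cups and caps: the greedy labelling argument

`X`, `Y` are arbitrary real functions on a type `α` (coordinates), `sl X Y u v` the slope of `uv`.
-/

namespace Pool.Agent.R751.Mono

open Finset

variable {α : Type*}

/-- slope -/
noncomputable def sl (X Y : α → ℝ) (u v : α) : ℝ := (Y v - Y u) / (X v - X u)

lemma sl_neg (X Y : α → ℝ) (u v : α) : sl X (fun p => - Y p) u v = - sl X Y u v := by
  unfold sl; rw [← neg_div]; congr 1; ring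

lemma sl_mediant {X Y : α → ℝ} {q u v : α} (h1 : X q < X u) (h2 : X u < X v)
    (h : sl X Y q u < sl X Y u v) : sl X Y q v < sl X Y u v := by
  unfold sl at *
  have a : 0 < X u - X q := by linarith
  have b : 0 < X v - X u := by linarith
  have c : 0 < X v - X q := by linarith
  rw [div_lt_div_iff₀ a b] at h
  rw [div_lt_div_iff₀ c b]
  nlinarith

/-- `Q` is a `κ`-coloured cup (w.r.t. `Y`) with last point `u`, attached to all points of `S`. -/
structure Att (X Y : α → ℝ) (col : α → α → Bool) (κ : Bool) (Q : Finset α) (u : α)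
    (S : Finset α) : Prop where
  mem : u ∈ Q
  last : ∀ q ∈ Q, q ≠ u → X q < X u
  mono : ∀ q ∈ Q, ∀ q' ∈ Q, q ≠ q' → col q q' = κ
  cup : ∀ q ∈ Q, ∀ q' ∈ Q, ∀ q'' ∈ Q, X q < X q' → X q' < X q'' → sl X Y q q' < sl X Y q' q''
  left : ∀ q ∈ Q, ∀ s ∈ S, X q < X s
  colS : ∀ q ∈ Q, ∀ s ∈ S, col q s = κ
  cupS : ∀ q ∈ Q, ∀ q' ∈ Q, X q < X q' → ∀ s ∈ S, sl X Y q q' < sl X Y q' s

lemma Att.subset {X Y : α → ℝ} {col : α → α → Bool} {κ : Bool} {Q : Finset α} {u : α}
    {S S' : Finset α} (h : Att X Y col κ Q u S) (hS : S' ⊆ S) : Att X Y col κ Q u S' where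
  mem := h.mem
  last := h.last
  mono := h.mono
  cup := h.cup
  left := fun q hq s hs => h.left q hq s (hS hs)
  colS := fun q hq s hs => h.colS q hq s (hS hs)
  cupS := fun q hq q' hq' hx s hs => h.cupS q hq q' hq' hx s (hS hs)

variable [DecidableEq α]

/-- Extending an attached cup by a point `v` of `S`. -/
lemma Att.extend {X Y : α → ℝ} {col : α → α → Bool} (hsym : ∀ a b, col a b = col b a)
    {κ : Bool} {Q : Finset α} {u : α}
    {S S' : Finset α} (h : Att X Y col κ Q u S) {v : α} (hv : v ∈ S) (hS : S' ⊆ S)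
    (hvS : ∀ s ∈ S', X v < X s) (hcol : ∀ s ∈ S', col v s = κ)
    (hsl : ∀ s ∈ S', sl X Y u v < sl X Y v s) :
    Att X Y col κ (insert v Q) v S' where
  mem := mem_insert_self _ _
  last := by
    intro q hq hne
    rcases mem_insert.1 hq with h1 | h1
    · exact absurd h1 hne
    · exact h.left q h1 v hv
  mono := by
    intro q hq q' hq' hne
    rcases mem_insert.1 hq with h1 | h1 <;> rcases mem_insert.1 hq' with h2 | h2
    · exact absurd (h1.trans h2.symm) hne
    · rw [hsym, h1]; exact h.colS q' h2 _ hv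
    · rw [h2]; exact h.colS q h1 _ hv
    · exact h.mono q h1 q' h2 hne
  cup := by
    intro q hq q' hq' q'' hq'' e1 e2
    rcases mem_insert.1 hq'' with h3 | h3
    · rw [h3] at e2 ⊢
      rcases mem_insert.1 hq' with h2 | h2
      · rw [h2] at e2; exact absurd e2 (lt_irrefl _)
      · rcases mem_insert.1 hq with h1 | h1
        · rw [h1] at e1; exact absurd (e1.trans e2) (lt_irrefl _)
        · exact h.cupS q h1 q' h2 e1 _ hv
    · rcases mem_insert.1 hq' with h2 | h2
      · rw [h2] at e2; exact absurd e2 (not_lt.2 (h.left q'' h3 _ hv).le)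
      · rcases mem_insert.1 hq with h1 | h1
        · rw [h1] at e1; exact absurd (h.left q' h2 _ hv) (not_lt.2 e1.le)
        · exact h.cup q h1 q' h2 q'' h3 e1 e2
  left := by
    intro q hq s hs
    rcases mem_insert.1 hq with h1 | h1
    · rw [h1]; exact hvS s hs
    · exact h.left q h1 s (hS hs)
  colS := by
    intro q hq s hs
    rcases mem_insert.1 hq with h1 | h1
    · rw [h1]; exact hcol s hs
    · exact h.colS q h1 s (hS hs)
  cupS := by
    intro q hq q' hq' e1 s hs
    rcases mem_insert.1 hq' with h2 | h2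
    · rw [h2] at e1 ⊢
      rcases mem_insert.1 hq with h1 | h1
      · rw [h1] at e1; exact absurd e1 (lt_irrefl _)
      · by_cases hqu : q = u
        · rw [hqu]; exact hsl s hs
        · have hq1 : X q < X u := h.last q h1 hqu
          have h4 : sl X Y q u < sl X Y u v := h.cupS q h1 u h.mem hq1 v hv
          have h5 : X u < X v := h.left u h.mem v hv
          exact (sl_mediant hq1 h5 h4).trans (hsl s hs)
    · rcases mem_insert.1 hq with h1 | h1
      · rw [h1] at e1; exact absurd (h.left q' h2 _ hv) (not_lt.2 e1.le)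
      · exact h.cupS q h1 q' h2 e1 s (hS hs)

omit [DecidableEq α] in
/-- A single point attached to `S'`. -/
lemma Att.single {X Y : α → ℝ} {col : α → α → Bool} {κ : Bool} {v : α} {S' : Finset α}
    (hvS : ∀ s ∈ S', X v < X s) (hcol : ∀ s ∈ S', col v s = κ) :
    Att X Y col κ {v} v S' where
  mem := mem_singleton_self _
  last := by intro q hq hne; exact absurd (mem_singleton.1 hq) hne
  mono := by
    intro q hq q' hq' hne
    rw [mem_singleton.1 hq, mem_singleton.1 hq'] at hne
    exact absurd rfl hne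
  cup := by
    intro q hq q' hq' q'' _ h1
    rw [mem_singleton.1 hq, mem_singleton.1 hq'] at h1
    exact absurd h1 (lt_irrefl _)
  left := by intro q hq s hs; rw [mem_singleton.1 hq]; exact hvS s hs
  colS := by intro q hq s hs; rw [mem_singleton.1 hq]; exact hcol s hs
  cupS := by
    intro q hq q' hq' h1
    rw [mem_singleton.1 hq, mem_singleton.1 hq'] at h1
    exact absurd h1 (lt_irrefl _)

/-- A monochromatic cup w.r.t. `Y`. -/
def MonoCup (X Y : α → ℝ) (col : α → α → Bool) (κ : Bool) (Q : Finset α) : Prop :=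
  (∀ q ∈ Q, ∀ q' ∈ Q, q ≠ q' → col q q' = κ) ∧
    ∀ q ∈ Q, ∀ q' ∈ Q, ∀ q'' ∈ Q, X q < X q' → X q' < X q'' → sl X Y q q' < sl X Y q' q''

/-- the sign-adjusted height -/
def sgY (Y : α → ℝ) (b : Bool) : α → ℝ := fun p => if b then Y p else - Y p

lemma sl_sgY (X Y : α → ℝ) (b : Bool) (u v : α) :
    sl X (sgY Y b) u v = if b then sl X Y u v else - sl X Y u v := by
  cases b
  · exact (sl_neg X Y u v).trans (by simp)
  · simp only [if_true]; rfl

/-- the label part: `b = true` is the cup size, `b = false` the cap size -/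
def pr (l : Bool × ℕ × ℕ) (b : Bool) : ℕ := if b then l.2.1 else l.2.2

/-- The state of the greedy procedure. -/
def St (X Y : α → ℝ) (col : α → α → Bool) (D : Finset (Bool × ℕ × ℕ)) (S : Finset α) : Prop :=
  ∃ w : Bool × ℕ × ℕ → α, ∀ l ∈ D, ∀ b : Bool,
    ∃ Q : Finset α, Att X (sgY Y b) col l.1 Q (w l) S ∧ Q.card = pr l b

/-- label of `s` seen from `v` -/
noncomputable def lb (X Y : α → ℝ) (col : α → α → Bool) (D : Finset (Bool × ℕ × ℕ))
    (w : Bool × ℕ × ℕ → α) (v s : α) (b : Bool) : ℕ :=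
  1 + (D.filter (fun l => l.1 = col v s ∧ sl X (sgY Y b) (w l) v < sl X (sgY Y b) v s)).sup
    (fun l => pr l b)

noncomputable def lab (X Y : α → ℝ) (col : α → α → Bool) (D : Finset (Bool × ℕ × ℕ))
    (w : Bool × ℕ × ℕ → α) (v s : α) : Bool × ℕ × ℕ :=
  (col v s, lb X Y col D w v s true, lb X Y col D w v s false)

omit [DecidableEq α] in
lemma pr_lab (X Y : α → ℝ) (col : α → α → Bool) (D : Finset (Bool × ℕ × ℕ))
    (w : Bool × ℕ × ℕ → α) (v s : α) (b : Bool) :
    pr (lab X Y col D w v s) b = lb X Y col D w v s b := by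
  cases b <;> simp [pr, lab]

/-- box of admissible labels -/
def box (m : ℕ) : Finset (Bool × ℕ × ℕ) := univ ×ˢ (Finset.Icc 1 m ×ˢ Finset.Icc 1 m)

lemma card_box (m : ℕ) : (box m).card = 2 * m ^ 2 := by
  simp [box, sq]

lemma mem_box {m : ℕ} {l : Bool × ℕ × ℕ} : l ∈ box m ↔ ∀ b, 1 ≤ pr l b ∧ pr l b ≤ m := by
  simp [box, pr]
  tauto

end Pool.Agent.R751.Mono
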