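import Pool.Agent.R751.MonoA

set_option autoImplicit false

namespace Pool.Agent.R751.Mono

open Finset

variable {α : Type*} [DecidableEq α]

/-- The state of the greedy procedure inside `P`. -/
def StP (X Y : α → ℝ) (col : α → α → Bool) (P : Finset α) (w : Bool × ℕ × ℕ → α)
    (D : Finset (Bool × ℕ × ℕ)) (S : Finset α) : Prop :=
  ∀ l ∈ D, ∀ b : Bool,
    ∃ Q : Finset α, Q ⊆ P ∧ Att X (sgY Y b) col l.1 Q (w l) S ∧ Q.card = pr l b

omit [DecidableEq α] in
lemma lb_mono {X Y : α → ℝ} {col : α → α → Bool} {D : Finset (Bool × ℕ × ℕ)}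
    {w : Bool × ℕ × ℕ → α} {v s s' : α} {b : Bool} (hc : col v s = col v s')
    (h : sl X (sgY Y b) v s ≤ sl X (sgY Y b) v s') :
    lb X Y col D w v s b ≤ lb X Y col D w v s' b := by
  unfold lb
  refine Nat.add_le_add_left (Finset.sup_mono ?_) 1
  intro l hl
  rw [mem_filter] at hl ⊢
  exact ⟨hl.1, hl.2.1.trans hc, hl.2.2.trans_le h⟩

/-- either the label is `1`, or it is realised by an element of `D` -/
lemma lb_cases {X Y : α → ℝ} {col : α → α → Bool} {D : Finset (Bool × ℕ × ℕ)}
    {w : Bool × ℕ × ℕ → α} (v s : α) (b : Bool) :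
    lb X Y col D w v s b = 1 ∨ ∃ l ∈ D, l.1 = col v s ∧
      sl X (sgY Y b) (w l) v < sl X (sgY Y b) v s ∧ lb X Y col D w v s b = 1 + pr l b := by
  by_cases hne : (D.filter (fun l => l.1 = col v s ∧
      sl X (sgY Y b) (w l) v < sl X (sgY Y b) v s)).Nonempty
  · right
    obtain ⟨l, hl, he⟩ := Finset.exists_mem_eq_sup _ hne (fun l => pr l b)
    rw [mem_filter] at hl
    exact ⟨l, hl.1, hl.2.1, hl.2.2, by unfold lb; rw [he]⟩
  · left
    rw [not_nonempty_iff_eq_empty] at hne
    unfold lb
    rw [hne]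
    simp

section step

variable {X Y : α → ℝ} {col : α → α → Bool} (hsym : ∀ a b, col a b = col b a)
  {P : Finset α} {m : ℕ} (hm : 1 ≤ m)
  (hgen : ∀ u ∈ P, ∀ v ∈ P, ∀ w ∈ P, X u < X v → X v < X w → sl X Y u v ≠ sl X Y v w)
  (hno : ∀ b κ Q, Q ⊆ P → Q.card = m + 2 → ¬ MonoCup X (sgY Y b) col κ Q)
  {D : Finset (Bool × ℕ × ℕ)} {w : Bool × ℕ × ℕ → α} {S : Finset α}
  (hD : D ⊆ box m) (hSP : S ⊆ P) (hSt : StP X Y col P w D S) {v : α} (hv : v ∈ S)

include hsym hm hno hD hSP hSt hv

lemma lab_mem_box {s : α} (hs : s ∈ S) (hvs : X v < X s) :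
    lab X Y col D w v s ∈ box m := by
  rw [mem_box]
  intro b
  rw [pr_lab]
  refine ⟨by unfold lb; omega, ?_⟩
  by_contra hcon
  rw [not_le] at hcon
  rcases lb_cases (X := X) (Y := Y) (col := col) (D := D) (w := w) v s b with h1 | ⟨l, hl, hc, hsl, he⟩
  · omega
  · have hlm := ((mem_box.1 (hD hl)) b).2
    obtain ⟨Q, hQP, hA, hcard⟩ := hSt l hl b
    have hA1 : Att X (sgY Y b) col l.1 (insert v Q) v {s} := by
      refine hA.extend hsym hv (by simpa using hs) ?_ ?_ ?_
      · intro t ht; rw [mem_singleton.1 ht]; exact hvs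
      · intro t ht; rw [mem_singleton.1 ht]; exact hc.symm
      · intro t ht; rw [mem_singleton.1 ht]; exact hsl
    have hA2 : Att X (sgY Y b) col l.1 (insert s (insert v Q)) s ∅ := by
      refine hA1.extend hsym (mem_singleton_self s) (empty_subset _) ?_ ?_ ?_ <;>
      · intro t ht; exact absurd ht (notMem_empty _)
    have hvQ : v ∉ Q := fun h => absurd (hA.left v h v hv) (lt_irrefl _)
    have hsQ : s ∉ insert v Q := fun h => absurd (hA1.left s h s (mem_singleton_self s)) (lt_irrefl _)
    refine hno b l.1 (insert s (insert v Q)) ?_ ?_ ⟨hA2.mono, hA2.cup⟩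
    · intro t ht
      rcases mem_insert.1 ht with rfl | ht
      · exact hSP hs
      · rcases mem_insert.1 ht with h1 | ht
        · rw [h1]; exact hSP hv
        · exact hQP ht
    · rw [card_insert_of_notMem hsQ, card_insert_of_notMem hvQ, hcard]
      omega

omit hsym hm hno hD in
include hgen in
lemma lab_notMem {s : α} (hs : s ∈ S) (hvs : X v < X s) :
    lab X Y col D w v s ∉ D := by
  intro hl
  obtain ⟨Q, hQP, hA, hcard⟩ := hSt _ hl true
  have hwP := hQP hA.mem
  have hwv := hA.left _ hA.mem v hv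
  have hne := hgen _ hwP v (hSP hv) s (hSP hs) hwv hvs
  have key : ∀ b, sl X (sgY Y b) (w (lab X Y col D w v s)) v < sl X (sgY Y b) v s → False := by
    intro b hlt
    have h1 : pr (lab X Y col D w v s) b ≤ (D.filter (fun l => l.1 = col v s ∧
        sl X (sgY Y b) (w l) v < sl X (sgY Y b) v s)).sup (fun l => pr l b) :=
      Finset.le_sup (f := fun l => pr l b) (mem_filter.2 ⟨hl, rfl, hlt⟩)
    have h2 := pr_lab X Y col D w v s b
    unfold lb at h2
    omega
  rcases lt_or_gt_of_ne hne with h | h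
  · exact key true (by rw [sl_sgY, sl_sgY]; simpa using h)
  · exact key false (by rw [sl_sgY, sl_sgY]; simpa using h)

omit hm hno hSt in
lemma dummy : True := trivial

/-- The new state on a fibre of the label map. -/
lemma fibre_state {F : Finset α} (hF : F ⊆ S) (hvF : ∀ s ∈ F, X v < X s)
    {l' : Bool × ℕ × ℕ} (hl' : l' ∉ D) (hFl : ∀ s ∈ F, lab X Y col D w v s = l')
    (hne : F.Nonempty) :
    StP X Y col P (Function.update w l' v) (insert l' D) F := by
  intro l hl b
  by_cases hll : l = l'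
  · subst hll
    rw [Function.update_self]
    obtain ⟨s0, hs0, hmin⟩ := F.exists_min_image (fun s => sl X (sgY Y b) v s) hne
    have hcol : ∀ s ∈ F, col v s = l.1 := fun s hs => congrArg Prod.fst (hFl s hs)
    have hpr : lb X Y col D w v s0 b = pr l b := by rw [← pr_lab, hFl s0 hs0]
    rcases lb_cases (X := X) (Y := Y) (col := col) (D := D) (w := w) v s0 b with
      h1 | ⟨k, hk, hc, hsl, he⟩
    · refine ⟨{v}, by simpa using hSP hv, Att.single hvF hcol, ?_⟩
      rw [card_singleton, ← hpr, h1]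
    · obtain ⟨Q, hQP, hA, hcard⟩ := hSt k hk b
      have hk1 : k.1 = l.1 := hc.trans (hcol s0 hs0)
      rw [hk1] at hA
      have hvQ : v ∉ Q := fun h => absurd (hA.left v h v hv) (lt_irrefl _)
      refine ⟨insert v Q, ?_, hA.extend hsym hv hF hvF hcol ?_, ?_⟩
      · intro t ht
        rcases mem_insert.1 ht with h1 | ht
        · rw [h1]; exact hSP hv
        · exact hQP ht
      · intro s hs
        exact hsl.trans_le (hmin s hs)
      · rw [card_insert_of_notMem hvQ, hcard, ← hpr, he, add_comm]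
  · have hlD : l ∈ D := (mem_insert.1 hl).resolve_left hll
    rw [Function.update_of_ne hll]
    obtain ⟨Q, hQP, hA, hcard⟩ := hSt l hlD b
    exact ⟨Q, hQP, hA.subset hF, hcard⟩

/-- The number of labels occurring in one step. -/
lemma card_labels (hvS : ∀ s ∈ S.erase v, X v < X s) :
    ((S.erase v).image (lab X Y col D w v)).card ≤ 4 * m - 2 := by
  have hbox : ∀ s ∈ S.erase v, lab X Y col D w v s ∈ box m := fun s hs =>
    lab_mem_box hsym hm hno hD hSP hSt hv (mem_of_mem_erase hs) (hvS s hs)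
  have hT : ((univ : Finset Bool) ×ˢ (Finset.Icc 1 (2 * m - 1))).card = 4 * m - 2 := by
    rw [card_product, Nat.card_Icc, card_univ, Fintype.card_bool]; omega
  rw [← hT]
  refine Finset.card_le_card_of_injOn (fun l => (l.1, m + l.2.1 - l.2.2)) ?_ ?_
  · intro l hl
    obtain ⟨s, hs, rfl⟩ := mem_image.1 (mem_coe.1 hl)
    have h1 := (mem_box.1 (hbox s hs)) true
    have h2 := (mem_box.1 (hbox s hs)) false
    simp only [pr, if_true, Bool.false_eq_true, if_false] at h1 h2
    simp only [coe_product, Set.mem_prod, coe_univ, Set.mem_univ, true_and, coe_Icc, Set.mem_Icc]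
    omega
  · intro l hl k hk he
    obtain ⟨s, hs, rfl⟩ := mem_image.1 (mem_coe.1 hl)
    obtain ⟨t, ht, rfl⟩ := mem_image.1 (mem_coe.1 hk)
    have a1 := (mem_box.1 (hbox s hs)) true
    have a2 := (mem_box.1 (hbox s hs)) false
    have b1 := (mem_box.1 (hbox t ht)) true
    have b2 := (mem_box.1 (hbox t ht)) false
    simp only [pr_lab] at a1 a2 b1 b2
    have hc : col v s = col v t := congrArg Prod.fst he
    have he2 : m + lb X Y col D w v s true - lb X Y col D w v s false =
      m + lb X Y col D w v t true - lb X Y col D w v t false := congrArg Prod.snd he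
    rcases le_total (sl X Y v s) (sl X Y v t) with h | h
    · have c1 := lb_mono (D := D) (w := w) (b := true) (X := X) (Y := Y) hc
        (by rw [sl_sgY, sl_sgY]; simpa using h)
      have c2 := lb_mono (D := D) (w := w) (b := false) (X := X) (Y := Y) hc.symm
        (by rw [sl_sgY, sl_sgY]; simpa using h)
      unfold lab
      rw [hc]
      have d1 : lb X Y col D w v s true = lb X Y col D w v t true := by omega
      have d2 : lb X Y col D w v s false = lb X Y col D w v t false := by omega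
      rw [d1, d2]
    · have c1 := lb_mono (D := D) (w := w) (b := true) (X := X) (Y := Y) hc.symm
        (by rw [sl_sgY, sl_sgY]; simpa using h)
      have c2 := lb_mono (D := D) (w := w) (b := false) (X := X) (Y := Y) hc
        (by rw [sl_sgY, sl_sgY]; simpa using h)
      unfold lab
      rw [hc]
      have d1 : lb X Y col D w v s true = lb X Y col D w v t true := by omega
      have d2 : lb X Y col D w v s false = lb X Y col D w v t false := by omega
      rw [d1, d2]

end step

/-- **Main bound.** -/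
theorem main_bound {X Y : α → ℝ} {col : α → α → Bool} (hsym : ∀ a b, col a b = col b a)
    {P : Finset α} {m : ℕ} (hm : 1 ≤ m)
    (hX : ∀ a ∈ P, ∀ b ∈ P, X a = X b → a = b)
    (hgen : ∀ u ∈ P, ∀ v ∈ P, ∀ w ∈ P, X u < X v → X v < X w → sl X Y u v ≠ sl X Y v w)
    (hno : ∀ b κ Q, Q ⊆ P → Q.card = m + 2 → ¬ MonoCup X (sgY Y b) col κ Q) :
    ∀ j : ℕ, ∀ (D : Finset (Bool × ℕ × ℕ)) (w : Bool × ℕ × ℕ → α) (S : Finset α),
      D ⊆ box m → (box m \ D).card ≤ j → S ⊆ P → StP X Y col P w D S →
      S.card ≤ (4 * m - 1) ^ j := by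
  intro j
  induction j with
  | zero =>
    intro D w S hD hj hSP hSt
    rw [pow_zero]
    by_contra hcon
    rw [not_le] at hcon
    have hne : S.Nonempty := card_pos.1 (by omega)
    obtain ⟨v, hv, hmin⟩ := S.exists_min_image X hne
    obtain ⟨s, hs, hsv⟩ := exists_mem_ne hcon v
    have hvs : X v < X s := lt_of_le_of_ne (hmin s hs) fun h => hsv (hX v (hSP hv) s (hSP hs) h).symm
    have h1 := lab_mem_box hsym hm hno hD hSP hSt hv hs hvs
    have h2 := lab_notMem hgen hSP hSt hv hs hvs
    have h3 : lab X Y col D w v s ∈ box m \ D := mem_sdiff.2 ⟨h1, h2⟩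
    have := card_pos.2 ⟨_, h3⟩
    omega
  | succ j ih =>
    intro D w S hD hj hSP hSt
    rcases S.eq_empty_or_nonempty with rfl | hne
    · simp
    obtain ⟨v, hv, hmin⟩ := S.exists_min_image X hne
    have hvS : ∀ s ∈ S.erase v, X v < X s := by
      intro s hs
      rw [mem_erase] at hs
      exact lt_of_le_of_ne (hmin s hs.2) fun h => hs.1 (hX v (hSP hv) s (hSP hs.2) h).symm
    have hL := card_labels hsym hm hno hD hSP hSt hv hvS
    have hfib : ∀ l ∈ (S.erase v).image (lab X Y col D w v),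
        ((S.erase v).filter (fun x => lab X Y col D w v x = l)).card ≤ (4 * m - 1) ^ j := by
      intro l hl
      obtain ⟨s, hs, hsl⟩ := mem_image.1 hl
      have hsS := mem_of_mem_erase hs
      have h1 := lab_mem_box hsym hm hno hD hSP hSt hv hsS (hvS s hs)
      have h2 := lab_notMem hgen hSP hSt hv hsS (hvS s hs)
      rw [hsl] at h1 h2
      have hFS : (S.erase v).filter (fun x => lab X Y col D w v x = l) ⊆ S :=
        (filter_subset _ _).trans (erase_subset _ _)
      refine ih (insert l D) (Function.update w l v) _ ?_ ?_ (hFS.trans hSP) ?_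
      · exact insert_subset h1 hD
      · have h3 : box m \ insert l D = (box m \ D).erase l := by
          ext x; simp only [mem_sdiff, mem_insert, mem_erase]; tauto
        rw [h3, card_erase_of_mem (mem_sdiff.2 ⟨h1, h2⟩)]
        omega
      · refine fibre_state hsym hm hno hD hSP hSt hv hFS ?_ h2 ?_ ?_
        · intro t ht; exact hvS t (mem_filter.1 ht).1
        · intro t ht; exact (mem_filter.1 ht).2
        · exact ⟨s, mem_filter.2 ⟨hs, hsl⟩⟩
    have h4 := card_le_mul_card_image (S.erase v) ((4 * m - 1) ^ j) hfib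
    have h5 : S.card = (S.erase v).card + 1 := (card_erase_add_one hv).symm
    have h6 : 1 ≤ (4 * m - 1) ^ j := Nat.one_le_pow _ _ (by omega)
    have h7 : (4 * m - 1) ^ j * ((S.erase v).image (lab X Y col D w v)).card ≤
        (4 * m - 1) ^ j * (4 * m - 2) := Nat.mul_le_mul_left _ hL
    have h8 : (4 * m - 1) ^ (j + 1) = (4 * m - 1) ^ j * (4 * m - 2) + (4 * m - 1) ^ j := by
      obtain ⟨k, hk⟩ : ∃ k, 4 * m - 1 = k + 1 := ⟨4 * m - 2, by omega⟩
      have hk' : 4 * m - 2 = k := by omega
      rw [hk, hk', pow_succ]; ring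
    omega

/-- The bound on `P` itself. -/
theorem card_bound {X Y : α → ℝ} {col : α → α → Bool} (hsym : ∀ a b, col a b = col b a)
    {P : Finset α} {m : ℕ} (hm : 1 ≤ m)
    (hX : ∀ a ∈ P, ∀ b ∈ P, X a = X b → a = b)
    (hgen : ∀ u ∈ P, ∀ v ∈ P, ∀ w ∈ P, X u < X v → X v < X w → sl X Y u v ≠ sl X Y v w)
    (hno : ∀ b κ Q, Q ⊆ P → Q.card = m + 2 → ¬ MonoCup X (sgY Y b) col κ Q) :
    P.card ≤ (4 * m - 1) ^ (2 * m ^ 2) := by
  rcases P.eq_empty_or_nonempty with rfl | ⟨x, hx⟩
  · simp
  · refine main_bound hsym hm hX hgen hno (2 * m ^ 2) ∅ (fun _ => x) P (empty_subset _) ?_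
      (Subset.refl _) ?_
    · rw [sdiff_empty, card_box]
    · intro l hl; exact absurd hl (notMem_empty _)

end Pool.Agent.R751.Mono
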