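import Pool.Agent.R751.MonoB

set_option autoImplicit false

namespace Pool.Agent.R751.Mono

open Finset

/-- sheared first coordinate -/
def XX (t : ℝ) (p : ℝ × ℝ) : ℝ := p.1 + t * p.2

def YY (p : ℝ × ℝ) : ℝ := p.2

lemma exists_shear (P : Finset (ℝ × ℝ)) : ∃ t : ℝ, ∀ a ∈ P, ∀ b ∈ P, XX t a = XX t b → a = b := by
  classical
  obtain ⟨t, ht⟩ := Infinite.exists_notMem_finset
    ((P ×ˢ P).image (fun q : (ℝ × ℝ) × (ℝ × ℝ) => -(q.1.1 - q.2.1) / (q.1.2 - q.2.2)))
  refine ⟨t, fun a ha b hb hab => ?_⟩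
  unfold XX at hab
  by_cases h2 : a.2 = b.2
  · rw [h2] at hab
    exact Prod.ext (by linarith) h2
  · exfalso
    apply ht
    rw [mem_image]
    refine ⟨(a, b), mem_product.2 ⟨ha, hb⟩, ?_⟩
    have h3 : a.2 - b.2 ≠ 0 := sub_ne_zero.2 h2
    simp only
    rw [div_eq_iff h3]
    linarith

lemma collinear_of_sl {t : ℝ} {u v w : ℝ × ℝ} (h1 : XX t u < XX t v) (h2 : XX t v < XX t w)
    (h : sl (XX t) YY u v = sl (XX t) YY v w) : Collinear ℝ {u, v, w} := by
  have a : XX t v - XX t u ≠ 0 := by linarith [h1] |> ne_of_gt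
  have b : XX t w - XX t v ≠ 0 := by linarith [h2] |> ne_of_gt
  set μ := sl (XX t) YY u v with hμ
  have e1 : YY v - YY u = μ * (XX t v - XX t u) := by
    rw [hμ]; unfold sl; field_simp
  have e2 : YY w - YY v = μ * (XX t w - XX t v) := by
    rw [h]; unfold sl; field_simp
  rw [collinear_iff_of_mem (p₀ := u) (by simp)]
  refine ⟨(1 - t * μ, μ), ?_⟩
  unfold YY at e1 e2
  intro p hp
  rcases hp with rfl | rfl | rfl
  · exact ⟨0, by simp⟩
  · refine ⟨XX t p - XX t u, ?_⟩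
    unfold XX at *
    ext
    · simp only [vadd_eq_add, Prod.fst_add, Prod.smul_fst, smul_eq_mul]
      linear_combination (-t) * e1
    · simp only [vadd_eq_add, Prod.snd_add, Prod.smul_snd, smul_eq_mul]
      linear_combination e1
  · refine ⟨XX t p - XX t u, ?_⟩
    unfold XX at *
    ext
    · simp only [vadd_eq_add, Prod.fst_add, Prod.smul_fst, smul_eq_mul]
      linear_combination (-t) * e1 + (-t) * e2
    · simp only [vadd_eq_add, Prod.snd_add, Prod.smul_snd, smul_eq_mul]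
      linear_combination e1 + e2

/-- the linear functional whose strict minimum is attained at `q` -/
lemma notMem_hull {t : ℝ} {b : Bool} {Q : Finset (ℝ × ℝ)}
    (hinj : ∀ a ∈ Q, ∀ d ∈ Q, XX t a = XX t d → a = d)
    (hcup : ∀ q ∈ Q, ∀ q' ∈ Q, ∀ q'' ∈ Q, XX t q < XX t q' → XX t q' < XX t q'' →
      sl (XX t) (sgY YY b) q q' < sl (XX t) (sgY YY b) q' q'') {q : ℝ × ℝ} (hq : q ∈ Q) :
    q ∉ convexHull ℝ ((Q : Set (ℝ × ℝ)) \ {q}) := by
  classical
  obtain ⟨μ, h1, h2⟩ := Order.exists_between_finsets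
    ((Q.filter (fun r => XX t r < XX t q)).image (fun r => sl (XX t) (sgY YY b) r q))
    ((Q.filter (fun r => XX t q < XX t r)).image (fun r => sl (XX t) (sgY YY b) q r)) (by
      intro x hx y hy
      obtain ⟨r, hr, rfl⟩ := mem_image.1 hx
      obtain ⟨r', hr', rfl⟩ := mem_image.1 hy
      rw [mem_filter] at hr hr'
      exact hcup r hr.1 q hq r' hr'.1 hr.2 hr'.2)
  set f : ℝ × ℝ → ℝ := fun p => sgY YY b p - μ * XX t p with hf
  have hlin : ∀ x y : ℝ × ℝ, ∀ α β : ℝ, f (α • x + β • y) = α * f x + β * f y := by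
    intro x y α β
    simp only [hf, sgY, YY, XX, Prod.fst_add, Prod.snd_add, Prod.smul_fst, Prod.smul_snd,
      smul_eq_mul]
    cases b <;> simp <;> ring
  have hsub : ((Q : Set (ℝ × ℝ)) \ {q}) ⊆ {x | f q < f x} := by
    rintro r ⟨hr, hrq⟩
    have hr' : r ∈ Q := hr
    have hne : XX t r ≠ XX t q := fun h => hrq (hinj r hr' q hq h)
    rcases lt_or_gt_of_ne hne with h | h
    · have h3 := h1 (sl (XX t) (sgY YY b) r q) (mem_image.2 ⟨r, mem_filter.2 ⟨hr', h⟩, rfl⟩)
      unfold sl at h3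
      rw [div_lt_iff₀ (by linarith)] at h3
      simp only [hf, Set.mem_ofPred_eq]
      linarith
    · have h3 := h2 (sl (XX t) (sgY YY b) q r) (mem_image.2 ⟨r, mem_filter.2 ⟨hr', h⟩, rfl⟩)
      unfold sl at h3
      rw [lt_div_iff₀ (by linarith)] at h3
      simp only [hf, Set.mem_ofPred_eq]
      linarith
  have hconv : Convex ℝ {x | f q < f x} := by
    intro x hx y hy α β hα hβ hαβ
    simp only [Set.mem_ofPred_eq] at hx hy ⊢
    rw [hlin]
    rcases hα.eq_or_lt with h0 | h0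
    · have : β = 1 := by linarith
      rw [← h0, this]; linarith
    · have h3 : α * f q < α * f x := mul_lt_mul_of_pos_left hx h0
      have h4 : β * f q ≤ β * f y := mul_le_mul_of_nonneg_left hy.le hβ
      have h5 : f q = α * f q + β * f q := by rw [← add_mul, hαβ, one_mul]
      linarith
  intro hmem
  have h := convexHull_min hsub hconv hmem
  exact lt_irrefl (f q) h

lemma convexIndependent_of_cup {t : ℝ} {b : Bool} {Q : Finset (ℝ × ℝ)}
    (hinj : ∀ a ∈ Q, ∀ d ∈ Q, XX t a = XX t d → a = d)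
    (hcup : ∀ q ∈ Q, ∀ q' ∈ Q, ∀ q'' ∈ Q, XX t q < XX t q' → XX t q' < XX t q'' →
      sl (XX t) (sgY YY b) q q' < sl (XX t) (sgY YY b) q' q'') :
    ConvexIndependent ℝ (fun x : Q => (x : ℝ × ℝ)) :=
  (convexIndependent_set_iff_notMem_convexHull_sdiff (s := (Q : Set (ℝ × ℝ)))).2
    fun _ hq => notMem_hull hinj hcup hq

end Pool.Agent.R751.Mono
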