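import Pool.Agent.R751.Area2

set_option autoImplicit false
open MeasureTheory Set Module
open scoped ENNReal Pointwise

namespace Pool.Agent.R751

/-! ### plane regions -/

instance instHaarP2 : (μH[(2:ℝ)] : Measure P2).IsAddHaarMeasure := by
  have := MeasureTheory.isAddHaarMeasure_hausdorffMeasure (E := P2)
  simpa using this

/-- lines are null sets -/
lemma line_null (α β c : ℝ) (h : α ≠ 0 ∨ β ≠ 0) :
    (μH[(2:ℝ)] : Measure P2) {y | α * y 0 + β * y 1 = c} = 0 := by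
  let f : P2 →ₗ[ℝ] ℝ :=
    { toFun := fun y => α * y 0 + β * y 1
      map_add' := fun x y => by simp only [PiLp.add_apply]; ring
      map_smul' := fun r x => by simp only [PiLp.smul_apply, smul_eq_mul, RingHom.id_apply]; ring }
  have hker : (μH[(2:ℝ)] : Measure P2) (LinearMap.ker f : Set P2) = 0 := by
    apply Measure.addHaar_submodule
    intro htop
    rw [LinearMap.ker_eq_top] at htop
    rcases h with h | h
    · have : f (EuclideanSpace.single 0 1) = 0 := by rw [htop]; rfl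
      simp [f] at this
      exact h this
    · have : f (EuclideanSpace.single 1 1) = 0 := by rw [htop]; rfl
      simp [f] at this
      exact h this
  rcases Set.eq_empty_or_nonempty {y : P2 | α * y 0 + β * y 1 = c} with he | ⟨x0, hx0⟩
  · rw [he, measure_empty]
  · have : {y : P2 | α * y 0 + β * y 1 = c} = (fun y => -x0 + y) ⁻¹' (LinearMap.ker f : Set P2) := by
      ext y
      simp only [mem_ofPred_eq, mem_preimage, SetLike.mem_coe, LinearMap.mem_ker, map_add, map_neg]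
      have h1 : f x0 = c := hx0
      have h2 : f y = α * y 0 + β * y 1 := rfl
      rw [h1, h2]
      constructor <;> intro h3 <;> linarith
    rw [this, measure_preimage_add]
    exact hker

/-- closed triangle -/
def Tri (r : ℝ) : Set P2 := {y | 0 ≤ y 0 ∧ 0 ≤ y 1 ∧ y 0 + y 1 ≤ r}

/-- open triangle -/
def TriO (r : ℝ) : Set P2 := {y | 0 < y 0 ∧ 0 < y 1 ∧ y 0 + y 1 < r}

lemma Tri_closed (r : ℝ) : IsClosed (Tri r) := by
  have h0 : IsClosed {y : P2 | 0 ≤ y 0} := isClosed_le continuous_const (by fun_prop)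
  have h1 : IsClosed {y : P2 | 0 ≤ y 1} := isClosed_le continuous_const (by fun_prop)
  have h2 : IsClosed {y : P2 | y 0 + y 1 ≤ r} := isClosed_le (by fun_prop) continuous_const
  exact h0.inter (h1.inter h2)

lemma TriO_open (r : ℝ) : IsOpen (TriO r) := by
  have h0 : IsOpen {y : P2 | 0 < y 0} := isOpen_lt continuous_const (by fun_prop)
  have h1 : IsOpen {y : P2 | 0 < y 1} := isOpen_lt continuous_const (by fun_prop)
  have h2 : IsOpen {y : P2 | y 0 + y 1 < r} := isOpen_lt (by fun_prop) continuous_const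
  exact h0.inter (h1.inter h2)

lemma meas_Tri {r : ℝ} (hr : 0 < r) :
    (μH[(2:ℝ)] : Measure P2) (Tri r) = ENNReal.ofReal (r ^ 2) * μH[(2:ℝ)] (Tri 1) := by
  have h1 : Tri r = r • Tri 1 := by
    ext y
    rw [mem_smul_set_iff_inv_smul_mem₀ hr.ne']
    simp only [Tri, mem_ofPred_eq, PiLp.smul_apply, smul_eq_mul]
    rw [← mul_add]
    have hr' : 0 < r⁻¹ := inv_pos.2 hr
    rw [mul_nonneg_iff_of_pos_left hr', mul_nonneg_iff_of_pos_left hr', inv_mul_le_iff₀ hr, mul_one]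
  rw [h1, Measure.addHaar_smul]
  simp

lemma meas_TriO (r : ℝ) : (μH[(2:ℝ)] : Measure P2) (TriO r) = μH[(2:ℝ)] (Tri r) := by
  apply le_antisymm
  · exact measure_mono fun y hy => ⟨hy.1.le, hy.2.1.le, hy.2.2.le⟩
  · have hsub : Tri r ⊆ TriO r ∪ ({y | 1 * y 0 + 0 * y 1 = 0} ∪ ({y | 0 * y 0 + 1 * y 1 = 0} ∪
        {y | 1 * y 0 + 1 * y 1 = r})) := by
      rintro y ⟨h0, h1, h2⟩
      rcases h0.eq_or_lt with h | h
      · right; left; simp [← h]
      rcases h1.eq_or_lt with h' | h'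
      · right; right; left; simp [← h']
      rcases h2.eq_or_lt with h'' | h''
      · right; right; right; simp [← h'']
      · left; exact ⟨h, h', h''⟩
    refine (measure_mono hsub).trans ((measure_union_le _ _).trans ?_)
    have hz : (μH[(2:ℝ)] : Measure P2) ({y | 1 * y 0 + 0 * y 1 = 0} ∪ ({y | 0 * y 0 + 1 * y 1 = 0} ∪
        {y | 1 * y 0 + 1 * y 1 = r})) = 0 := by
      rw [measure_union_null_iff, measure_union_null_iff]
      exact ⟨line_null _ _ _ (Or.inl one_ne_zero), line_null _ _ _ (Or.inr one_ne_zero),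
        line_null _ _ _ (Or.inl one_ne_zero)⟩
    rw [hz, add_zero]

/-- the hexagonal face -/
def Hex : Set P2 := {y | 0 ≤ y 0 ∧ 0 ≤ y 1 ∧ 5 ≤ y 0 + y 1 ∧ y 0 + y 1 ≤ 13 ∧ y 0 ≤ 8 ∧ y 1 ≤ 8}

lemma Tri_fin (r : ℝ) : (μH[(2:ℝ)] : Measure P2) (Tri r) ≠ ⊤ := by
  have hb : Bornology.IsBounded (Tri r) := by
    refine (Metric.isBounded_iff_subset_closedBall 0).2 ⟨|r| + |r|, fun y hy => ?_⟩
    obtain ⟨h0, h1, h2⟩ := hy
    rw [mem_closedBall_zero_iff]
    have h3 : ‖y‖ ^ 2 ≤ (|r| + |r|) ^ 2 := by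
      rw [norm_sq2]
      have := le_abs_self r
      nlinarith
    exact (abs_le_of_sq_le_sq' h3 (by positivity)).2
  exact (Metric.isCompact_of_isClosed_isBounded (Tri_closed r) hb).measure_lt_top.ne

lemma meas_Hex : (μH[(2:ℝ)] : Measure P2) Hex + 75 * μH[(2:ℝ)] (Tri 1) ≤ 169 * μH[(2:ℝ)] (Tri 1) := by
  -- three open corner triangles
  let v1 : P2 := !₂[8, 0]
  let v2 : P2 := !₂[0, 8]
  have hc : ∀ v : P2, (μH[(2:ℝ)] : Measure P2) ((fun y => v + y) '' TriO 5) = 25 * μH[(2:ℝ)] (Tri 1) := by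
    intro v
    rw [image_add_left, measure_preimage_add, meas_TriO, meas_Tri (by norm_num)]
    norm_num
  have hm : ∀ v : P2, MeasurableSet ((fun y => v + y) '' TriO 5) := by
    intro v
    have : IsOpen ((fun y => v + y) '' TriO 5) := (Homeomorph.addLeft v).isOpenMap _ (TriO_open 5)
    exact this.measurableSet
  set D1 := (fun y => v1 + y) '' TriO 5 with hD1
  set D2 := (fun y => v2 + y) '' TriO 5 with hD2
  set D3 := (fun y => (0:P2) + y) '' TriO 5 with hD3
  have p1 : ∀ y ∈ D1, 8 < y 0 ∧ 0 < y 1 ∧ y 0 + y 1 < 13 := by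
    rintro _ ⟨z, ⟨h0, h1, h2⟩, rfl⟩
    simp [v1]
    refine ⟨h0, h1, by linarith⟩
  have p2 : ∀ y ∈ D2, 0 < y 0 ∧ 8 < y 1 ∧ y 0 + y 1 < 13 := by
    rintro _ ⟨z, ⟨h0, h1, h2⟩, rfl⟩
    simp [v2]
    refine ⟨h0, h1, by linarith⟩
  have p3 : ∀ y ∈ D3, 0 < y 0 ∧ 0 < y 1 ∧ y 0 + y 1 < 5 := by
    rintro _ ⟨z, ⟨h0, h1, h2⟩, rfl⟩
    simp
    exact ⟨h0, h1, h2⟩
  have d1 : Disjoint Hex D1 := by
    rw [Set.disjoint_left]
    rintro y ⟨a, b, c, d, e, f⟩ hy
    have := p1 y hy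
    linarith
  have d2 : Disjoint (Hex ∪ D1) D2 := by
    rw [Set.disjoint_left]
    rintro y (⟨a, b, c, d, e, f⟩ | hy1) hy
    · have := p2 y hy
      linarith
    · have := p2 y hy
      have := p1 y hy1
      linarith
  have d3 : Disjoint (Hex ∪ D1 ∪ D2) D3 := by
    rw [Set.disjoint_left]
    rintro y ((⟨a, b, c, d, e, f⟩ | hy1) | hy1) hy
    · have := p3 y hy
      linarith
    · have := p3 y hy
      have := p1 y hy1
      linarith
    · have := p3 y hy
      have := p2 y hy1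
      linarith
  have hsub : Hex ∪ D1 ∪ D2 ∪ D3 ⊆ Tri 13 := by
    rintro y (((⟨a, b, c, d, e, f⟩ | hy1) | hy1) | hy1)
    · exact ⟨a, b, d⟩
    · have := p1 y hy1
      exact ⟨by linarith, by linarith, by linarith⟩
    · have := p2 y hy1
      exact ⟨by linarith, by linarith, by linarith⟩
    · have := p3 y hy1
      exact ⟨by linarith, by linarith, by linarith⟩
  have h1 := measure_mono (μ := (μH[(2:ℝ)] : Measure P2)) hsub
  rw [measure_union d3 (hm _), measure_union d2 (hm _), measure_union d1 (hm _), hc, hc, hc,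
    meas_Tri (r := 13) (by norm_num)] at h1
  calc _ = (μH[(2:ℝ)] : Measure P2) Hex + 25 * μH[2] (Tri 1) + 25 * μH[2] (Tri 1) + 25 * μH[2] (Tri 1) := by
        ring
    _ ≤ _ := h1
    _ = _ := by norm_num

/-- the square face -/
def Sq : Set P2 := {y | |y 0| + |y 1| ≤ 5}

lemma meas_Sq : (μH[(2:ℝ)] : Measure P2) Sq ≤ 100 * μH[(2:ℝ)] (Tri 1) := by
  let F : ℝ → ℝ → P2 →ₗ[ℝ] P2 := fun a b =>
    { toFun := fun y => !₂[a * y 0, b * y 1]
      map_add' := fun x y => by ext i; fin_cases i <;> simp [mul_add]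
      map_smul' := fun r x => by ext i; fin_cases i <;> simp <;> ring }
  have hdet : ∀ a b : ℝ, LinearMap.det (F a b) = a * b := by
    intro a b
    rw [← LinearMap.det_toMatrix (EuclideanSpace.basisFun (Fin 2) ℝ).toBasis, Matrix.det_fin_two]
    simp [LinearMap.toMatrix_apply, F]
  have hF : ∀ a b : ℝ, |a * b| = 1 → (μH[(2:ℝ)] : Measure P2) (F a b '' Tri 5) = 25 * μH[(2:ℝ)] (Tri 1) := by
    intro a b hab
    rw [Measure.addHaar_image_linearMap, hdet, hab, meas_Tri (by norm_num)]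
    norm_num
  have hsub : Sq ⊆ (F 1 1 '' Tri 5 ∪ F 1 (-1) '' Tri 5) ∪ (F (-1) 1 '' Tri 5 ∪ F (-1) (-1) '' Tri 5) := by
    intro y hy
    have hy' : |y 0| + |y 1| ≤ 5 := hy
    have hmem : (!₂[|y 0|, |y 1|] : P2) ∈ Tri 5 := ⟨abs_nonneg _, abs_nonneg _, hy'⟩
    rcases abs_cases (y 0) with ⟨h0, _⟩ | ⟨h0, _⟩ <;> rcases abs_cases (y 1) with ⟨h1, _⟩ | ⟨h1, _⟩
    · left; left
      refine ⟨_, hmem, ?_⟩
      ext i; fin_cases i <;> simp [F, h0, h1]
    · left; right
      refine ⟨_, hmem, ?_⟩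
      ext i; fin_cases i <;> simp [F, h0, h1]
    · right; left
      refine ⟨_, hmem, ?_⟩
      ext i; fin_cases i <;> simp [F, h0, h1]
    · right; right
      refine ⟨_, hmem, ?_⟩
      ext i; fin_cases i <;> simp [F, h0, h1]
  refine (measure_mono hsub).trans ((measure_union_le _ _).trans
    ((add_le_add (measure_union_le _ _) (measure_union_le _ _)).trans ?_))
  rw [hF 1 1 (by norm_num), hF 1 (-1) (by norm_num), hF (-1) 1 (by norm_num),
    hF (-1) (-1) (by norm_num)]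
  apply le_of_eq
  ring

end Pool.Agent.R751
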