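import Pool.Agent.R751.Octa

set_option autoImplicit false
open MeasureTheory Set Module
open scoped ENNReal Pointwise

namespace Pool.Agent.R751

/-- a sign -/
def sg (b : Bool) : ℝ := if b then 1 else -1

lemma sg_sq (b : Bool) : sg b * sg b = 1 := by cases b <;> simp [sg]

lemma sg_ne (b : Bool) : sg b ≠ 0 := by cases b <;> simp [sg]

lemma exists_sg (x : ℝ) : ∃ b, x = sg b * |x| := by
  rcases abs_cases x with ⟨h, _⟩ | ⟨h, _⟩
  · exact ⟨true, by simp [sg, h]⟩
  · exact ⟨false, by simp [sg, h]⟩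

lemma sg_inj_of_pos {b c : Bool} {x : ℝ} (h1 : 0 < sg b * x) (h2 : 0 < sg c * x) : b = c := by
  cases b <;> cases c <;> simp [sg] at h1 h2 ⊢ <;> linarith

/-- basis vectors -/
noncomputable abbrev ee (i : Fin 3) : R3 := EuclideanSpace.single i 1

/-- the `ℓ₁` norm -/
def n1 (x : R3) : ℝ := |x 0| + |x 1| + |x 2|

/-- the octahedron -/
def OctL : Set R3 := {x | n1 x ≤ 12}

/-- the truncated octahedron -/
def OctK : Set R3 := {x | n1 x ≤ 13 ∧ |x 0| ≤ 8 ∧ |x 1| ≤ 8 ∧ |x 2| ≤ 8}

lemma n1_cont : Continuous n1 := by unfold n1; fun_prop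

/-- a piece of the plane through `p` with directions `g`, `h` -/
noncomputable def piece (p g h : R3) (G : Set P2) : Set R3 := (fun y => p + par g h y) '' G

lemma li_map {g h : R3} (hli : LinearIndependent ℝ ![g, h]) (A : R3 ≃ᵃ[ℝ] R3) :
    LinearIndependent ℝ ![A.linear g, A.linear h] := by
  have h1 := hli.map' A.linear.toLinearMap A.linear.ker
  have h2 : (A.linear.toLinearMap ∘ ![g, h] : Fin 2 → R3) = ![A.linear g, A.linear h] := by
    ext i
    fin_cases i <;> rfl
  rw [← h2]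
  exact h1

lemma meas_piece (A : R3 ≃ᵃ[ℝ] R3) {p g h : R3} (hli : LinearIndependent ℝ ![g, h]) (G : Set P2) :
    μH[(2:ℝ)] (A '' piece p g h G) =
      ENNReal.ofReal ‖cr (A.linear g) (A.linear h)‖ * μH[(2:ℝ)] G := by
  have h1 : A '' piece p g h G = (fun z => A p + z) '' (par (A.linear g) (A.linear h) '' G) := by
    rw [piece, image_image, image_image]
    refine image_congr fun y _ => ?_
    have h2 : A (p + par g h y) = A.linear (par g h y) + A p := by
      have := A.map_vadd p (par g h y)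
      rw [vadd_eq_add, vadd_eq_add] at this
      rw [add_comm p, this]
    rw [h2, add_comm]
    congr 1
    rw [par_apply, par_apply, map_add, map_smul, map_smul]
  have h3 : Isometry (fun z : R3 => A p + z) := (IsometryEquiv.addLeft (A p)).isometry
  rw [h1, h3.hausdorffMeasure_image (Or.inl (by norm_num)), hausdorff_par _ _ (li_map hli A)]

lemma li_face (a b c : Bool) :
    LinearIndependent ℝ ![sg b • ee 1 - sg a • ee 0, sg c • ee 2 - sg a • ee 0] := by
  rw [LinearIndependent.pair_iff]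
  intro s t hst
  have h1 := congrArg (fun x : R3 => x 1) hst
  have h2 := congrArg (fun x : R3 => x 2) hst
  simp [sg_ne] at h1 h2
  exact ⟨h1, h2⟩

lemma li_std (i j : Fin 3) (hij : i ≠ j) : LinearIndependent ℝ ![ee i, ee j] := by
  rw [LinearIndependent.pair_iff]
  intro s t hst
  have h1 := congrArg (fun x : R3 => x i) hst
  have h2 := congrArg (fun x : R3 => x j) hst
  simp [hij, hij.symm] at h1 h2
  exact ⟨h1, h2⟩

/-- a triangular or hexagonal face -/
noncomputable def face (ρ : ℝ) (G : Set P2) (s : Bool × Bool × Bool) : Set R3 :=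
  piece ((ρ * sg s.1) • ee 0) (sg s.2.1 • ee 1 - sg s.1 • ee 0) (sg s.2.2 • ee 2 - sg s.1 • ee 0) G

/-- coordinates of the points of a face -/
lemma mem_face {ρ : ℝ} {G : Set P2} {s : Bool × Bool × Bool} {x : R3} (hx : x ∈ face ρ G s) :
    ∃ y ∈ G, x 0 = sg s.1 * (ρ - y 0 - y 1) ∧ x 1 = sg s.2.1 * y 0 ∧ x 2 = sg s.2.2 * y 1 := by
  obtain ⟨y, hy, rfl⟩ := hx
  refine ⟨y, hy, ?_, ?_, ?_⟩ <;> simp [par_apply] <;> ring

lemma face_mem {ρ : ℝ} {G : Set P2} {s : Bool × Bool × Bool} {x : R3} {y : P2} (hy : y ∈ G)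
    (h0 : x 0 = sg s.1 * (ρ - y 0 - y 1)) (h1 : x 1 = sg s.2.1 * y 0)
    (h2 : x 2 = sg s.2.2 * y 1) : x ∈ face ρ G s := by
  refine ⟨y, hy, ?_⟩
  ext i
  fin_cases i
  · simp [par_apply, h0]; ring
  · simp [par_apply, h1]; ring
  · simp [par_apply, h2]; ring

/-- the frontier of the truncated octahedron is covered by hexagons and squares -/
lemma frontier_OctK : frontier OctK ⊆ (⋃ s, face 13 Hex s) ∪
    ((⋃ b, piece ((8 * sg b) • ee 0) (ee 1) (ee 2) Sq) ∪
      ((⋃ b, piece ((8 * sg b) • ee 1) (ee 2) (ee 0) Sq) ∪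
        (⋃ b, piece ((8 * sg b) • ee 2) (ee 0) (ee 1) Sq))) := by
  intro x hx
  have hcl : IsClosed OctK := by
    have h0 : IsClosed {x : R3 | n1 x ≤ 13} := isClosed_le n1_cont continuous_const
    have h1 : IsClosed {x : R3 | |x 0| ≤ 8} := isClosed_le (by fun_prop) continuous_const
    have h2 : IsClosed {x : R3 | |x 1| ≤ 8} := isClosed_le (by fun_prop) continuous_const
    have h3 : IsClosed {x : R3 | |x 2| ≤ 8} := isClosed_le (by fun_prop) continuous_const
    exact h0.inter (h1.inter (h2.inter h3))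
  have hxK : x ∈ OctK := hcl.frontier_subset hx
  obtain ⟨k, k0, k1, k2⟩ := hxK
  have k' : |x 0| + |x 1| + |x 2| ≤ 13 := k
  have hnot : ¬ (n1 x < 13 ∧ |x 0| < 8 ∧ |x 1| < 8 ∧ |x 2| < 8) := by
    intro hc
    have hop : IsOpen {x : R3 | n1 x < 13 ∧ |x 0| < 8 ∧ |x 1| < 8 ∧ |x 2| < 8} := by
      have h0 : IsOpen {x : R3 | n1 x < 13} := isOpen_lt n1_cont continuous_const
      have h1 : IsOpen {x : R3 | |x 0| < 8} := isOpen_lt (by fun_prop) continuous_const
      have h2 : IsOpen {x : R3 | |x 1| < 8} := isOpen_lt (by fun_prop) continuous_const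
      have h3 : IsOpen {x : R3 | |x 2| < 8} := isOpen_lt (by fun_prop) continuous_const
      exact h0.inter (h1.inter (h2.inter h3))
    have hint : x ∈ interior OctK :=
      mem_interior.2 ⟨_, fun z hz => ⟨hz.1.le, hz.2.1.le, hz.2.2.1.le, hz.2.2.2.le⟩, hop, hc⟩
    exact hx.2 hint
  obtain ⟨a, ha⟩ := exists_sg (x 0)
  obtain ⟨b, hb⟩ := exists_sg (x 1)
  obtain ⟨c, hc⟩ := exists_sg (x 2)
  by_cases h13 : n1 x = 13
  · left
    have h13' : |x 0| + |x 1| + |x 2| = 13 := h13
    refine mem_iUnion.2 ⟨(a, b, c), face_mem (y := !₂[|x 1|, |x 2|]) ?_ ?_ ?_ ?_⟩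
    · refine ⟨abs_nonneg _, abs_nonneg _, ?_, ?_, k1, k2⟩
      · change 5 ≤ |x 1| + |x 2|
        linarith
      · change |x 1| + |x 2| ≤ 13
        linarith [abs_nonneg (x 0)]
    · change x 0 = sg a * (13 - |x 1| - |x 2|)
      rw [show 13 - |x 1| - |x 2| = |x 0| by linarith]
      exact ha
    · exact hb
    · exact hc
  have hlt : n1 x < 13 := lt_of_le_of_ne k h13
  right
  by_cases h0 : |x 0| < 8
  · right
    by_cases h1 : |x 1| < 8
    · right
      have h2 : |x 2| = 8 := by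
        by_contra hne
        exact hnot ⟨hlt, h0, h1, lt_of_le_of_ne k2 hne⟩
      refine mem_iUnion.2 ⟨c, !₂[x 0, x 1], ?_, ?_⟩
      · change |x 0| + |x 1| ≤ 5
        linarith
      · rw [h2] at hc
        ext i
        fin_cases i <;> simp [par_apply]
        linarith
    · left
      have h1' : |x 1| = 8 := le_antisymm k1 (not_lt.1 h1)
      refine mem_iUnion.2 ⟨b, !₂[x 2, x 0], ?_, ?_⟩
      · change |x 2| + |x 0| ≤ 5
        linarith
      · rw [h1'] at hb
        ext i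
        fin_cases i <;> simp [par_apply]
        linarith
  · left
    have h0' : |x 0| = 8 := le_antisymm k0 (not_lt.1 h0)
    refine mem_iUnion.2 ⟨a, !₂[x 1, x 2], ?_, ?_⟩
    · change |x 1| + |x 2| ≤ 5
      linarith
    · rw [h0'] at ha
      ext i
      fin_cases i <;> simp [par_apply]
      linarith

/-- the open triangles lie on the frontier of the octahedron -/
lemma face_sub_OctL (s : Bool × Bool × Bool) : face 12 (TriO 12) s ⊆ frontier OctL := by
  intro x hx
  obtain ⟨y, ⟨y0, y1, y2⟩, h0, h1, h2⟩ := mem_face hx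
  have hn : n1 x = 12 := by
    unfold n1
    rw [h0, h1, h2, abs_mul, abs_mul, abs_mul]
    have : ∀ b, |sg b| = 1 := fun b => by cases b <;> simp [sg]
    rw [this, this, this, abs_of_pos (by linarith : 0 < 12 - y 0 - y 1), abs_of_pos y0, abs_of_pos y1]
    ring
  refine ⟨subset_closure (show n1 x ≤ 12 from hn.le), fun hint => ?_⟩
  have hcont : ContinuousAt (fun t : ℝ => t • x) 1 := by fun_prop
  have hmem : ∀ᶠ t in nhds (1:ℝ), t • x ∈ OctL := by
    apply hcont
    change OctL ∈ nhds ((1:ℝ) • x)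
    rw [one_smul]
    exact mem_interior_iff_mem_nhds.1 hint
  have hmem2 : ∀ᶠ t in nhdsWithin (1:ℝ) (Ioi 1), t • x ∈ OctL := nhdsWithin_le_nhds hmem
  obtain ⟨t, ht1, ht2⟩ := (hmem2.and self_mem_nhdsWithin).exists
  have ht3 : (1:ℝ) < t := ht2
  have h4 : n1 (t • x) = t * n1 x := by
    unfold n1
    simp only [PiLp.smul_apply, smul_eq_mul, abs_mul, abs_of_pos (by linarith : 0 < t)]
    ring
  have h5 : n1 (t • x) ≤ 12 := ht1
  rw [h4, hn] at h5
  linarith

lemma face_disjoint : Pairwise (Function.onFun Disjoint fun s => face 12 (TriO 12) s) := by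
  intro s s' hs
  rw [Function.onFun, Set.disjoint_left]
  intro x hx hx'
  apply hs
  obtain ⟨y, ⟨y0, y1, y2⟩, h0, h1, h2⟩ := mem_face hx
  obtain ⟨z, ⟨z0, z1, z2⟩, g0, g1, g2⟩ := mem_face hx'
  have q : ∀ (b : Bool) (u v : ℝ), u = sg b * v → 0 < v → 0 < sg b * u := by
    intro b u v hu hv
    rw [hu, ← mul_assoc, sg_sq, one_mul]
    exact hv
  have a0 := sg_inj_of_pos (q _ _ _ h0 (by linarith)) (q _ _ _ g0 (by linarith))
  have a1 := sg_inj_of_pos (q _ _ _ h1 y0) (q _ _ _ g1 z0)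
  have a2 := sg_inj_of_pos (q _ _ _ h2 y1) (q _ _ _ g2 z1)
  exact Prod.ext a0 (Prod.ext a1 a2)

lemma face_measurable (s : Bool × Bool × Bool) : MeasurableSet (face 12 (TriO 12) s) := by
  have h : face 12 (TriO 12) s =
      {x | 0 < sg s.1 * x 0} ∩ ({x | 0 < sg s.2.1 * x 1} ∩ ({x | 0 < sg s.2.2 * x 2} ∩
        {x | sg s.1 * x 0 + sg s.2.1 * x 1 + sg s.2.2 * x 2 = 12})) := by
    ext x
    constructor
    · intro hx
      obtain ⟨y, ⟨y0, y1, y2⟩, h0, h1, h2⟩ := mem_face hx
      simp only [mem_inter_iff, mem_ofPred_eq, h0, h1, h2, ← mul_assoc, sg_sq, one_mul]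
      exact ⟨by linarith, y0, y1, by ring⟩
    · rintro ⟨h0, h1, h2, h3⟩
      simp only [mem_ofPred_eq] at h0 h1 h2 h3
      have q : ∀ (b : Bool) (u : ℝ), u = sg b * (sg b * u) := fun b u => by
        rw [← mul_assoc, sg_sq, one_mul]
      refine face_mem (y := !₂[sg s.2.1 * x 1, sg s.2.2 * x 2]) ?_ ?_ ?_ ?_
      · refine ⟨h1, h2, ?_⟩
        change sg s.2.1 * x 1 + sg s.2.2 * x 2 < 12
        linarith
      · change x 0 = sg s.1 * (12 - sg s.2.1 * x 1 - sg s.2.2 * x 2)
        rw [show 12 - sg s.2.1 * x 1 - sg s.2.2 * x 2 = sg s.1 * x 0 by linarith]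
        exact q _ _
      · exact q _ _
      · exact q _ _
  rw [h]
  have m0 : MeasurableSet {x : R3 | 0 < sg s.1 * x 0} :=
    (isOpen_lt continuous_const (by fun_prop)).measurableSet
  have m1 : MeasurableSet {x : R3 | 0 < sg s.2.1 * x 1} :=
    (isOpen_lt continuous_const (by fun_prop)).measurableSet
  have m2 : MeasurableSet {x : R3 | 0 < sg s.2.2 * x 2} :=
    (isOpen_lt continuous_const (by fun_prop)).measurableSet
  have m3 : MeasurableSet {x : R3 | sg s.1 * x 0 + sg s.2.1 * x 1 + sg s.2.2 * x 2 = 12} :=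
    (isClosed_eq (by fun_prop) continuous_const).measurableSet
  exact m0.inter (m1.inter (m2.inter m3))

end Pool.Agent.R751
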