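import Pool.Agent.R751.OctaB

set_option autoImplicit false
open MeasureTheory Set Module
open scoped ENNReal Pointwise

namespace Pool.Agent.R751

/-- the cofactor vectors of a linear map -/
noncomputable def W0 (B : R3 →ₗ[ℝ] R3) : R3 := cr (B (ee 1)) (B (ee 2))
/-- the cofactor vectors of a linear map -/
noncomputable def W1 (B : R3 →ₗ[ℝ] R3) : R3 := cr (B (ee 2)) (B (ee 0))
/-- the cofactor vectors of a linear map -/
noncomputable def W2 (B : R3 →ₗ[ℝ] R3) : R3 := cr (B (ee 0)) (B (ee 1))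

lemma cr_face (x y z : R3) (a b c : ℝ) :
    cr (b • y - a • x) (c • z - a • x) =
      (b * c) • cr y z + (a * c) • cr z x + (a * b) • cr x y := by
  ext i
  fin_cases i <;> simp [cr] <;> ring

lemma norm_cr_face (B : R3 →ₗ[ℝ] R3) (a b c : Bool) :
    ‖cr (B (sg b • ee 1 - sg a • ee 0)) (B (sg c • ee 2 - sg a • ee 0))‖ =
      ‖sg a • W0 B + sg b • W1 B + sg c • W2 B‖ := by
  rw [map_sub, map_sub, map_smul, map_smul, map_smul, cr_face]
  cases a <;> cases b <;> cases c <;> simp only [sg, W0, W1, W2] <;>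
    norm_num <;> first | rfl | (rw [← norm_neg]; congr 1; abel)

/-- Hlawka's inequality for the eight facets -/
lemma sum_faces (B : R3 →ₗ[ℝ] R3) :
    4 * (‖W0 B‖ + ‖W1 B‖ + ‖W2 B‖) ≤
      ∑ s : Bool × Bool × Bool, ‖sg s.1 • W0 B + sg s.2.1 • W1 B + sg s.2.2 • W2 B‖ := by
  simp only [Fintype.sum_prod_type, Fintype.sum_bool, sg]
  norm_num
  have h := hlawka (W0 B + W1 B + W2 B) (W0 B - W1 B - W2 B) (-W0 B + W1 B - W2 B)
    (-W0 B - W1 B + W2 B) (by abel)
  rw [show W0 B + W1 B + W2 B + (W0 B - W1 B - W2 B) = (2:ℝ) • W0 B by module,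
    show W0 B + W1 B + W2 B + (-W0 B + W1 B - W2 B) = (2:ℝ) • W1 B by module,
    show W0 B + W1 B + W2 B + (-W0 B - W1 B + W2 B) = (2:ℝ) • W2 B by module,
    norm_smul, norm_smul, norm_smul, Real.norm_eq_abs, abs_two] at h
  have e1 : ‖-W0 B + -W1 B + -W2 B‖ = ‖W0 B + W1 B + W2 B‖ := by
    rw [← norm_neg]; congr 1; abel
  have e2 : ‖W0 B + -W1 B + -W2 B‖ = ‖W0 B - W1 B - W2 B‖ := by
    congr 1
  have e3 : ‖-W0 B + W1 B + W2 B‖ = ‖W0 B - W1 B - W2 B‖ := by
    rw [← norm_neg]; congr 1; abel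
  have e4 : ‖-W0 B + W1 B + -W2 B‖ = ‖-W0 B + W1 B - W2 B‖ := by
    congr 1
  have e5 : ‖W0 B + -W1 B + W2 B‖ = ‖-W0 B + W1 B - W2 B‖ := by
    rw [← norm_neg]; congr 1; abel
  have e6 : ‖-W0 B + -W1 B + W2 B‖ = ‖-W0 B - W1 B + W2 B‖ := by
    congr 1
  have e7 : ‖W0 B + W1 B + -W2 B‖ = ‖-W0 B - W1 B + W2 B‖ := by
    rw [← norm_neg]; congr 1; abel
  rw [e1, e2, e3, e4, e5, e6, e7]
  linarith

/-- an affine automorphism as a homeomorphism -/
noncomputable def hom (A : R3 ≃ᵃ[ℝ] R3) : R3 ≃ₜ R3 :=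
  (AffineEquiv.toContinuousAffineEquiv A).toHomeomorph

lemma hom_coe (A : R3 ≃ᵃ[ℝ] R3) : (hom A : R3 → R3) = A := rfl

lemma frontier_image (A : R3 ≃ᵃ[ℝ] R3) (S : Set R3) : frontier (A '' S) = A '' frontier S := by
  have := (hom A).image_frontier S
  rw [hom_coe] at this
  exact this.symm

lemma meas_Hex' : (μH[(2:ℝ)] : Measure P2) Hex ≤ 94 * μH[(2:ℝ)] (Tri 1) := by
  have h := meas_Hex
  have hT := Tri_fin 1
  have h2 : (μH[(2:ℝ)] : Measure P2) Hex + 75 * μH[(2:ℝ)] (Tri 1) ≤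
      94 * μH[(2:ℝ)] (Tri 1) + 75 * μH[(2:ℝ)] (Tri 1) := by
    refine h.trans (le_of_eq ?_)
    rw [← add_mul]
    norm_num
  exact (ENNReal.add_le_add_iff_right (ENNReal.mul_ne_top (by norm_num) hT)).1 h2

/-- Every affine image of the octahedron has larger surface than that of the truncated
octahedron. -/
lemma area_ineq (A : R3 ≃ᵃ[ℝ] R3) :
    μH[(2:ℝ)] (frontier (A '' OctK)) ≤ μH[(2:ℝ)] (frontier (A '' OctL)) := by
  set B : R3 →ₗ[ℝ] R3 := A.linear.toLinearMap with hB
  set T := (μH[(2:ℝ)] : Measure P2) (Tri 1) with hT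
  set j : Bool × Bool × Bool → ℝ := fun s => ‖sg s.1 • W0 B + sg s.2.1 • W1 B + sg s.2.2 • W2 B‖
    with hj
  have hface : ∀ (ρ : ℝ) (G : Set P2) (s : Bool × Bool × Bool), μH[(2:ℝ)] (A '' face ρ G s) =
      ENNReal.ofReal (j s) * μH[(2:ℝ)] G := by
    intro ρ G s
    rw [face, meas_piece A (li_face s.1 s.2.1 s.2.2)]
    congr 2
    exact norm_cr_face B s.1 s.2.1 s.2.2
  have hup : μH[(2:ℝ)] (frontier (A '' OctK)) ≤
      (∑ s, ENNReal.ofReal (j s) * (94 * T)) +
        ((∑ _b : Bool, ENNReal.ofReal ‖W0 B‖ * (100 * T)) +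
          ((∑ _b : Bool, ENNReal.ofReal ‖W1 B‖ * (100 * T)) +
            (∑ _b : Bool, ENNReal.ofReal ‖W2 B‖ * (100 * T)))) := by
    rw [frontier_image]
    refine (measure_mono (image_mono frontier_OctK)).trans ?_
    rw [image_union, image_union, image_union, image_iUnion, image_iUnion, image_iUnion,
      image_iUnion]
    refine (measure_union_le _ _).trans (add_le_add ?_ ((measure_union_le _ _).trans
      (add_le_add ?_ ((measure_union_le _ _).trans (add_le_add ?_ ?_)))))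
    · refine (measure_iUnion_fintype_le _ _).trans (Finset.sum_le_sum fun s _ => ?_)
      rw [hface]
      gcongr
      exact meas_Hex'
    · refine (measure_iUnion_fintype_le _ _).trans (Finset.sum_le_sum fun s _ => ?_)
      rw [meas_piece A (li_std 1 2 (by decide))]
      exact mul_le_mul_right meas_Sq _
    · refine (measure_iUnion_fintype_le _ _).trans (Finset.sum_le_sum fun s _ => ?_)
      rw [meas_piece A (li_std 2 0 (by decide))]
      exact mul_le_mul_right meas_Sq _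
    · refine (measure_iUnion_fintype_le _ _).trans (Finset.sum_le_sum fun s _ => ?_)
      rw [meas_piece A (li_std 0 1 (by decide))]
      exact mul_le_mul_right meas_Sq _
  have hlow : (∑ s, ENNReal.ofReal (j s) * (144 * T)) ≤ μH[(2:ℝ)] (frontier (A '' OctL)) := by
    rw [frontier_image]
    have hsub : (⋃ s, A '' face 12 (TriO 12) s) ⊆ A '' frontier OctL := by
      rw [← image_iUnion]
      exact image_mono (iUnion_subset face_sub_OctL)
    refine le_trans (le_of_eq ?_) (measure_mono hsub)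
    rw [measure_iUnion, tsum_fintype]
    · refine Finset.sum_congr rfl fun s _ => ?_
      rw [hface, meas_TriO, meas_Tri (by norm_num), ← hT]
      norm_num
    · intro s s' hs
      exact (Set.disjoint_image_iff A.injective).2 (face_disjoint hs)
    · intro s
      have := ((hom A).measurableEmbedding.measurableSet_image).2 (face_measurable s)
      rwa [hom_coe] at this
  refine hup.trans (le_trans ?_ hlow)
  have hj0 : ∀ s, 0 ≤ j s := fun s => norm_nonneg _
  have e1 : ∀ c : ℝ≥0∞, (∑ s, ENNReal.ofReal (j s) * (c * T)) = ENNReal.ofReal (∑ s, j s) * (c * T) := by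
    intro c
    rw [ENNReal.ofReal_sum_of_nonneg (fun s _ => hj0 s), Finset.sum_mul]
  rw [e1, e1]
  simp only [Finset.sum_const, Finset.card_univ, Fintype.card_bool, nsmul_eq_mul, Nat.cast_ofNat]
  have h4 := sum_faces B
  have e2 : ENNReal.ofReal (∑ s, j s) * (94 * T) + (2 * (ENNReal.ofReal ‖W0 B‖ * (100 * T)) +
      (2 * (ENNReal.ofReal ‖W1 B‖ * (100 * T)) + 2 * (ENNReal.ofReal ‖W2 B‖ * (100 * T)))) =
      ENNReal.ofReal ((∑ s, j s) * 94 + 200 * (‖W0 B‖ + ‖W1 B‖ + ‖W2 B‖)) * T := by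
    rw [ENNReal.ofReal_add (by positivity) (by positivity), ENNReal.ofReal_mul (by positivity),
      ENNReal.ofReal_mul (by positivity), ENNReal.ofReal_add (by positivity) (by positivity),
      ENNReal.ofReal_add (by positivity) (by positivity)]
    simp only [ENNReal.ofReal_ofNat]
    ring
  have e3 : ENNReal.ofReal (∑ s, j s) * (144 * T) = ENNReal.ofReal ((∑ s, j s) * 144) * T := by
    rw [ENNReal.ofReal_mul (by positivity), ENNReal.ofReal_ofNat]
    ring
  rw [e2, e3]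
  refine mul_le_mul_left (ENNReal.ofReal_le_ofReal ?_) T
  change 4 * (‖W0 B‖ + ‖W1 B‖ + ‖W2 B‖) ≤ ∑ s, j s at h4
  linarith

/-! ### volumes -/

lemma n1_smul (r : ℝ) (x : R3) : n1 (r • x) = |r| * n1 x := by
  unfold n1
  simp only [PiLp.smul_apply, smul_eq_mul, abs_mul]
  ring

lemma vol_n1 {r : ℝ} (hr : 0 < r) :
    volume {x : R3 | n1 x ≤ r} = ENNReal.ofReal (r ^ 3) * volume {x : R3 | n1 x ≤ 1} := by
  have h1 : {x : R3 | n1 x ≤ r} = r • {x : R3 | n1 x ≤ 1} := by
    ext y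
    rw [mem_smul_set_iff_inv_smul_mem₀ hr.ne']
    simp only [mem_ofPred_eq]
    rw [n1_smul, abs_inv, abs_of_pos hr, inv_mul_le_iff₀ hr, mul_one]
  rw [h1, Measure.addHaar_smul]
  simp [abs_of_pos hr]

lemma n1_compact (r : ℝ) : IsCompact {x : R3 | n1 x ≤ r} := by
  refine Metric.isCompact_of_isClosed_isBounded (isClosed_le n1_cont continuous_const) ?_
  refine (Metric.isBounded_iff_subset_closedBall 0).2 ⟨|r|, fun x hx => ?_⟩
  have hx' : |x 0| + |x 1| + |x 2| ≤ r := hx
  rw [mem_closedBall_zero_iff]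
  have h3 : ‖x‖ ^ 2 ≤ |r| ^ 2 := by
    rw [norm_sq3]
    have := le_abs_self r
    have a0 := abs_nonneg (x 0)
    have a1 := abs_nonneg (x 1)
    have a2 := abs_nonneg (x 2)
    rw [← sq_abs (x 0), ← sq_abs (x 1), ← sq_abs (x 2)]
    nlinarith [mul_nonneg a0 a1, mul_nonneg a1 a2, mul_nonneg a0 a2]
  exact (abs_le_of_sq_le_sq' h3 (by positivity)).2

/-- the two caps cut off at `x_i = 8` and `x_i = -8` -/
lemma caps (i : Fin 3) : volume {x : R3 | n1 x ≤ 13 ∧ 8 < x i} + volume {x : R3 | n1 x ≤ 13 ∧ x i < -8} ≤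
    volume {x : R3 | n1 x ≤ 5} := by
  have key : ∀ x : R3, ∀ s : ℝ, n1 x = |x i| + (n1 x - |x i|) := fun x s => by ring
  have hn : ∀ (x : R3) (c : ℝ), n1 (x - c • ee i) = n1 x - |x i| + |x i - c| := by
    intro x c
    unfold n1
    fin_cases i <;> simp <;> ring
  have h1 : volume {x : R3 | n1 x ≤ 13 ∧ 8 < x i} ≤ volume {x : R3 | n1 x ≤ 5 ∧ 0 < x i} := by
    have hsub : {x : R3 | n1 x ≤ 13 ∧ 8 < x i} ⊆
        (fun x => -((8:ℝ) • ee i) + x) ⁻¹' {x : R3 | n1 x ≤ 5 ∧ 0 < x i} := by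
      rintro x ⟨hx, hxi⟩
      have e : -((8:ℝ) • ee i) + x = x - (8:ℝ) • ee i := by abel
      change n1 (-((8:ℝ) • ee i) + x) ≤ 5 ∧ 0 < (-((8:ℝ) • ee i) + x) i
      rw [e, hn]
      constructor
      · rw [abs_of_pos (by linarith : 0 < x i), abs_of_pos (by linarith : 0 < x i - 8)]
        linarith
      · simp
        exact hxi
    refine (measure_mono hsub).trans ?_
    rw [measure_preimage_add]
  have h2 : volume {x : R3 | n1 x ≤ 13 ∧ x i < -8} ≤ volume {x : R3 | n1 x ≤ 5 ∧ x i < 0} := by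
    have hsub : {x : R3 | n1 x ≤ 13 ∧ x i < -8} ⊆
        (fun x => -((-8:ℝ) • ee i) + x) ⁻¹' {x : R3 | n1 x ≤ 5 ∧ x i < 0} := by
      rintro x ⟨hx, hxi⟩
      have e : -((-8:ℝ) • ee i) + x = x - (-8:ℝ) • ee i := by abel
      change n1 (-((-8:ℝ) • ee i) + x) ≤ 5 ∧ (-((-8:ℝ) • ee i) + x) i < 0
      rw [e, hn]
      constructor
      · rw [abs_of_neg (by linarith : x i < 0), abs_of_neg (by linarith : x i - (-8) < 0)]
        linarith
      · simp
        linarith
    refine (measure_mono hsub).trans ?_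
    rw [measure_preimage_add]
  refine (add_le_add h1 h2).trans ?_
  have hm : MeasurableSet {x : R3 | n1 x ≤ 5 ∧ x i < 0} :=
    ((isClosed_le n1_cont continuous_const).measurableSet).inter
      (isOpen_lt (show Continuous fun x : R3 => x i by fun_prop) continuous_const).measurableSet
  rw [← measure_union _ hm]
  · apply measure_mono
    rintro x (hx | hx)
    · exact hx.1
    · exact hx.1
  · rw [Set.disjoint_left]
    rintro x hx hx'
    exact absurd hx.2 (not_lt.2 hx'.2.le)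

lemma vol_ineq : volume OctL < volume OctK := by
  set V := volume {x : R3 | n1 x ≤ 1} with hV
  have hV0 : V ≠ 0 := by
    have hop : IsOpen {x : R3 | n1 x < 1} := isOpen_lt n1_cont continuous_const
    have hne : ({x : R3 | n1 x < 1}).Nonempty := ⟨0, by simp [n1]⟩
    have h1 := hop.measure_pos volume hne
    exact (h1.trans_le (measure_mono fun x hx => (show n1 x < 1 from hx).le)).ne'
  have hVt : V ≠ ⊤ := (n1_compact 1).measure_lt_top.ne
  have h12 : volume OctL = 1728 * V := by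
    rw [OctL, vol_n1 (by norm_num), ← hV]
    norm_num
  have h13 : volume {x : R3 | n1 x ≤ 13} = 2197 * V := by
    rw [vol_n1 (by norm_num), ← hV]
    norm_num
  have h5 : volume {x : R3 | n1 x ≤ 5} = 125 * V := by
    rw [vol_n1 (by norm_num), ← hV]
    norm_num
  have hcov : {x : R3 | n1 x ≤ 13} ⊆ OctK ∪
      (({x : R3 | n1 x ≤ 13 ∧ 8 < x 0} ∪ {x : R3 | n1 x ≤ 13 ∧ x 0 < -8}) ∪
      (({x : R3 | n1 x ≤ 13 ∧ 8 < x 1} ∪ {x : R3 | n1 x ≤ 13 ∧ x 1 < -8}) ∪
      ({x : R3 | n1 x ≤ 13 ∧ 8 < x 2} ∪ {x : R3 | n1 x ≤ 13 ∧ x 2 < -8}))) := by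
    intro x hx
    have q : ∀ i, ¬ |x i| ≤ 8 → x ∈ {x : R3 | n1 x ≤ 13 ∧ 8 < x i} ∪ {x : R3 | n1 x ≤ 13 ∧ x i < -8} := by
      intro i hi
      rw [abs_le, not_and_or, not_le, not_le] at hi
      rcases hi with hi | hi
      · right; exact ⟨hx, hi⟩
      · left; exact ⟨hx, hi⟩
    by_cases h0 : |x 0| ≤ 8
    · by_cases h1 : |x 1| ≤ 8
      · by_cases h2 : |x 2| ≤ 8
        · left; exact ⟨hx, h0, h1, h2⟩
        · right; right; right; exact q 2 h2
      · right; right; left; exact q 1 h1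
    · right; left; exact q 0 h0
  have hle : 2197 * V ≤ volume OctK + 375 * V := by
    rw [← h13]
    refine (measure_mono hcov).trans ((measure_union_le _ _).trans (add_le_add le_rfl ?_))
    refine (measure_union_le _ _).trans ((add_le_add ((measure_union_le _ _).trans (caps 0))
      ((measure_union_le _ _).trans (add_le_add ((measure_union_le _ _).trans (caps 1))
        ((measure_union_le _ _).trans (caps 2))))).trans ?_)
    rw [h5]
    apply le_of_eq
    ring
  rw [h12]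
  by_contra hc
  push Not at hc
  have h6 : 2197 * V ≤ 1728 * V + 375 * V := hle.trans (add_le_add hc le_rfl)
  rw [← add_mul] at h6
  have h7 := (ENNReal.mul_le_mul_iff_left hV0 hVt).1 h6
  norm_num at h7

end Pool.Agent.R751
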