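import Mathlib

/-!
# Random permanents over finite fields, part A

The permanent of a list of columns on a finite set of rows, defined by the expansion along the
first column, and its basic properties.
-/

namespace Pool.Agent.R751.Perm

open Finset

variable {F : Type*} [Field F] {α : Type*} [DecidableEq α]

/-- The permanent of the columns in the list `l` on the set `S` of rows (expansion along the
first column). It is `0` when the number of columns is not the number of rows. -/
def perF : List (α → F) → Finset α → F
  | [], S => if S = ∅ then 1 else 0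
  | c :: l, S => ∑ x ∈ S, c x * perF l (S.erase x)

theorem perF_nil (S : Finset α) : perF ([] : List (α → F)) S = if S = ∅ then 1 else 0 := rfl

theorem perF_cons (c : α → F) (l : List (α → F)) (S : Finset α) :
    perF (c :: l) S = ∑ x ∈ S, c x * perF l (S.erase x) := rfl

theorem perF_add (x y : α → F) (l : List (α → F)) (S : Finset α) :
    perF ((x + y) :: l) S = perF (x :: l) S + perF (y :: l) S := by
  simp only [perF_cons, Pi.add_apply, add_mul, sum_add_distrib]

theorem perF_smul (t : F) (x : α → F) (l : List (α → F)) (S : Finset α) :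
    perF ((t • x) :: l) S = t * perF (x :: l) S := by
  simp only [perF_cons, Pi.smul_apply, smul_eq_mul, mul_sum, mul_assoc]

theorem perF_zero (l : List (α → F)) (S : Finset α) :
    perF ((0 : α → F) :: l) S = 0 := by
  simp [perF_cons]

theorem perF_sub (x y : α → F) (l : List (α → F)) (S : Finset α) :
    perF ((x - y) :: l) S = perF (x :: l) S - perF (y :: l) S := by
  simp only [perF_cons, Pi.sub_apply, sub_mul, sum_sub_distrib]

theorem perF_cons_cons (x y : α → F) (l : List (α → F)) (S : Finset α) :
    perF (x :: y :: l) S
      = ∑ a ∈ S, ∑ b ∈ S, if a = b then 0 else x a * y b * perF l ((S.erase a).erase b) := by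
  rw [perF_cons]
  refine sum_congr rfl fun a ha => ?_
  rw [perF_cons, mul_sum]
  rw [← Finset.sum_erase_add S _ ha]
  rw [if_pos rfl, add_zero]
  refine sum_congr rfl fun b hb => ?_
  rw [if_neg (Finset.ne_of_mem_erase hb).symm]
  ring

theorem perF_swap (x y : α → F) (l : List (α → F)) (S : Finset α) :
    perF (x :: y :: l) S = perF (y :: x :: l) S := by
  rw [perF_cons_cons, perF_cons_cons, sum_comm]
  refine sum_congr rfl fun a _ => sum_congr rfl fun b _ => ?_
  by_cases h : a = b
  · rw [if_pos h.symm, if_pos h]
  · rw [if_neg (Ne.symm h), if_neg h, Finset.erase_right_comm]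
    ring

theorem perF_perm {l l' : List (α → F)} (h : l.Perm l') (S : Finset α) :
    perF l S = perF l' S := by
  induction h generalizing S with
  | nil => rfl
  | cons x _ ih =>
    rw [perF_cons, perF_cons]
    exact sum_congr rfl fun a _ => by rw [ih]
  | swap x y l => exact perF_swap y x l S
  | trans _ _ ih1 ih2 => rw [ih1, ih2]

theorem perF_single (a : α) (l : List (α → F)) (S : Finset α) :
    perF (Pi.single a 1 :: l) S = if a ∈ S then perF l (S.erase a) else 0 := by
  rw [perF_cons]
  have : ∀ x ∈ S, (Pi.single a (1 : F) : α → F) x * perF l (S.erase x)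
      = if x = a then perF l (S.erase a) else 0 := by
    intro x _
    by_cases h : x = a
    · subst h; simp
    · simp [h]
  rw [sum_congr rfl this, Finset.sum_ite_eq' S a]

theorem perF_single_single (a : α) (l : List (α → F)) (S : Finset α) :
    perF (Pi.single a 1 :: Pi.single a 1 :: l) S = 0 := by
  rw [perF_single]
  split_ifs with h
  · rw [perF_single, if_neg (Finset.notMem_erase a S)]
  · rfl

/-- Only the entries in the rows of `S` matter. -/
theorem perF_map_congr (φ : (α → F) → (α → F)) :
    ∀ (l : List (α → F)) (S : Finset α),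
      (∀ c : α → F, ∀ x ∈ S, φ c x = c x) → perF (l.map φ) S = perF l S
  | [], S, _ => rfl
  | c :: l, S, h => by
    rw [List.map_cons, perF_cons, perF_cons]
    refine sum_congr rfl fun x hx => ?_
    rw [h c x hx, perF_map_congr φ l (S.erase x)
      (fun c y hy => h c y (Finset.mem_of_mem_erase hy))]

/-- Subtract the entry in row `i` from the entry in row `j`. -/
def mrg (i j : α) (c : α → F) : α → F := c - Pi.single j (c i)

theorem mrg_apply_ne {i j x : α} (h : x ≠ j) (c : α → F) : mrg i j c x = c x := by
  simp [mrg, Pi.single_eq_of_ne h]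

theorem mrg_apply_self (i j : α) (c : α → F) : mrg i j c j = c j - c i := by
  simp [mrg]

theorem perF_mrg_aux (i j : α) (hij : i ≠ j) :
    ∀ (l : List (α → F)) (S : Finset α), i ∈ S → j ∈ S →
      perF (l.map (mrg i j)) (S.erase i) = perF l (S.erase i) - perF l (S.erase j)
  | [], S, hi, hj => by
    have h1 : (S.erase i) ≠ ∅ := by
      intro h
      have : j ∈ S.erase i := Finset.mem_erase.2 ⟨hij.symm, hj⟩
      rw [h] at this
      simp at this
    have h2 : (S.erase j) ≠ ∅ := by
      intro h
      have : i ∈ S.erase j := Finset.mem_erase.2 ⟨hij, hi⟩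
      rw [h] at this
      simp at this
    simp [perF_nil, h1, h2]
  | c :: l, S, hi, hj => by
    have hji : j ∈ S.erase i := Finset.mem_erase.2 ⟨hij.symm, hj⟩
    have hij' : i ∈ S.erase j := Finset.mem_erase.2 ⟨hij, hi⟩
    rw [List.map_cons, perF_cons, perF_cons, perF_cons]
    rw [← Finset.sum_erase_add _ _ hji, ← Finset.sum_erase_add _ _ hji,
      ← Finset.sum_erase_add _ _ hij', Finset.erase_right_comm (a := j) (b := i)]
    have h1 : ∀ x ∈ (S.erase i).erase j,
        mrg i j c x * perF (l.map (mrg i j)) ((S.erase i).erase x)
        = c x * perF l ((S.erase i).erase x) - c x * perF l ((S.erase j).erase x) := by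
      intro x hx
      have hxj : x ≠ j := Finset.ne_of_mem_erase hx
      have hxi : x ≠ i := Finset.ne_of_mem_erase (Finset.mem_of_mem_erase hx)
      have hS : i ∈ S.erase x := Finset.mem_erase.2 ⟨hxi.symm, hi⟩
      have hS' : j ∈ S.erase x := Finset.mem_erase.2 ⟨hxj.symm, hj⟩
      rw [mrg_apply_ne hxj, Finset.erase_right_comm (a := i) (b := x),
        perF_mrg_aux i j hij l (S.erase x) hS hS',
        Finset.erase_right_comm (a := x) (b := j)]
      ring
    rw [sum_congr rfl h1, sum_sub_distrib, mrg_apply_self]
    have h2 : perF (l.map (mrg i j)) ((S.erase i).erase j) = perF l ((S.erase i).erase j) := by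
      apply perF_map_congr
      intro c x hx
      exact mrg_apply_ne (Finset.ne_of_mem_erase hx) c
    rw [h2]
    ring

/-- A column `e_i - e_j` merges the rows `i` and `j`. -/
theorem perF_mrg {i j : α} (hij : i ≠ j) (l : List (α → F)) {S : Finset α} (hi : i ∈ S)
    (hj : j ∈ S) :
    perF ((Pi.single i 1 - Pi.single j 1) :: l) S = perF (l.map (mrg i j)) (S.erase i) := by
  rw [perF_sub, perF_single, perF_single, if_pos hi, if_pos hj, perF_mrg_aux i j hij l S hi hj]

theorem mrg_bijective {i j : α} (hij : i ≠ j) :
    Function.Bijective (mrg i j : (α → F) → (α → F)) := by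
  refine Function.bijective_iff_has_inverse.2 ⟨fun c => c + Pi.single j (c i), ?_, ?_⟩
  · intro c
    have : mrg i j c i = c i := mrg_apply_ne hij c
    show mrg i j c + Pi.single j (mrg i j c i) = c
    rw [this, mrg]; simp
  · intro c
    show (c + (Pi.single j (c i) : α → F)) - Pi.single j ((c + (Pi.single j (c i) : α → F)) i) = c
    have h2 : (c + (Pi.single j (c i) : α → F)) i = c i := by
      simp [Pi.single_eq_of_ne hij]
    rw [h2]; simp

theorem mrg_single_of_ne {i j a : α} (h : a ≠ i) :
    mrg i j (Pi.single a 1 : α → F) = Pi.single a 1 := by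
  rw [mrg, Pi.single_eq_of_ne h.symm]; simp

theorem mrg_sub (i j : α) (c d : α → F) : mrg i j (c - d) = mrg i j c - mrg i j d := by
  simp only [mrg, Pi.sub_apply, Pi.single_sub]; abel

/-- Restriction of the columns along an embedding of the rows. -/
theorem perF_map_embed {β : Type*} [DecidableEq β] (f : β ↪ α) :
    ∀ (l : List (α → F)) (T : Finset β),
      perF (l.map (fun c => c ∘ f)) T = perF l (T.map f)
  | [], T => by simp [perF_nil]
  | c :: l, T => by
    rw [List.map_cons, perF_cons, perF_cons, Finset.sum_map]
    refine sum_congr rfl fun x hx => ?_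
    rw [perF_map_embed f l (T.erase x), Finset.map_erase]
    rfl

/-- The value at a linear combination of the unit vectors. -/
theorem perF_cons_eq_sum [Fintype α] (x : α → F) (l : List (α → F)) (S : Finset α) :
    perF (x :: l) S = ∑ a, x a * perF (Pi.single a 1 :: l) S := by
  rw [perF_cons]
  simp only [perF_single, mul_ite, mul_zero]
  rw [Finset.sum_ite_mem, Finset.univ_inter]

end Pool.Agent.R751.Perm
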