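import Pool.Agent.R751.PermA

/-!
# Random permanents over finite fields, part B

Averages over finite types and over lists of a given length.
-/

namespace Pool.Agent.R751.Perm

open Finset

/-- The average of a real function on a finite type. -/
noncomputable def av {V : Type*} [Fintype V] (f : V → ℝ) : ℝ := (∑ x, f x) / Fintype.card V

/-- The indicator of a proposition. -/
noncomputable def ind (P : Prop) : ℝ := by classical exact if P then 1 else 0

theorem ind_true {P : Prop} (h : P) : ind P = 1 := by simp [ind, h]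
theorem ind_false {P : Prop} (h : ¬ P) : ind P = 0 := by simp [ind, h]
theorem ind_nonneg (P : Prop) : 0 ≤ ind P := by
  by_cases h : P
  · rw [ind_true h]; norm_num
  · rw [ind_false h]
theorem ind_le_one (P : Prop) : ind P ≤ 1 := by
  by_cases h : P
  · rw [ind_true h]
  · rw [ind_false h]; norm_num
theorem ind_congr {P Q : Prop} (h : P ↔ Q) : ind P = ind Q := by rw [propext h]

section av
variable {V W : Type*} [Fintype V] [Fintype W]

theorem av_const [Nonempty V] (c : ℝ) : av (fun _ : V => c) = c := by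
  have : (Fintype.card V : ℝ) ≠ 0 := by exact_mod_cast Fintype.card_ne_zero
  simp only [av, sum_const, card_univ, nsmul_eq_mul]
  field_simp

theorem av_add (f g : V → ℝ) : av (fun x => f x + g x) = av f + av g := by
  simp only [av, sum_add_distrib, add_div]

theorem av_mul (c : ℝ) (f : V → ℝ) : av (fun x => c * f x) = c * av f := by
  simp only [av, ← mul_sum, mul_div_assoc]

theorem av_mono {f g : V → ℝ} (h : ∀ x, f x ≤ g x) : av f ≤ av g := by
  unfold av
  exact div_le_div_of_nonneg_right (sum_le_sum fun x _ => h x) (Nat.cast_nonneg _)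

theorem av_nonneg {f : V → ℝ} (h : ∀ x, 0 ≤ f x) : 0 ≤ av f := by
  unfold av
  exact div_nonneg (sum_nonneg fun x _ => h x) (Nat.cast_nonneg _)

theorem av_comm (f : V → W → ℝ) :
    av (fun x => av (fun y => f x y)) = av (fun y => av (fun x => f x y)) := by
  simp only [av, ← sum_div]
  rw [sum_comm, div_div, div_div, mul_comm]

theorem av_bij (e : V → W) (he : Function.Bijective e) (f : W → ℝ) :
    av (fun x => f (e x)) = av f := by
  unfold av
  rw [Fintype.card_of_bijective he, Function.Bijective.sum_comp he f]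

theorem av_ind (s : Finset V) : av (fun x => ind (x ∈ s)) = (#s : ℝ) / Fintype.card V := by
  unfold av
  congr 1
  classical
  rw [sum_congr rfl (fun x _ => by
    show ind (x ∈ s) = if x ∈ s then (1 : ℝ) else 0
    by_cases h : x ∈ s
    · rw [ind_true h, if_pos h]
    · rw [ind_false h, if_neg h])]
  rw [Finset.sum_ite_mem, univ_inter]
  simp

/-- Averages are invariant under surjective homomorphisms. -/
theorem av_hom {V W : Type*} [Fintype V] [Fintype W] [AddGroup V] [AddGroup W]
    (φ : V →+ W) (hφ : Function.Surjective φ) (h : W → ℝ) :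
    av (fun x => h (φ x)) = av h := by
  classical
  have hK : ∀ y : W, #{x : V | φ x = y} = #{x : V | φ x = 0} := by
    intro y
    exact AddMonoidHom.card_fiber_eq_of_mem_range φ (hφ y) (hφ 0)
  have h1 : ∑ x : V, h (φ x) = (#{x : V | φ x = 0} : ℝ) * ∑ y, h y := by
    rw [← Finset.sum_fiberwise_of_maps_to (s := (univ : Finset V)) (t := (univ : Finset W))
      (g := φ) (fun x _ => mem_univ _), mul_sum]
    refine sum_congr rfl fun y _ => ?_
    rw [← hK y, sum_congr rfl (g := fun _ => h y)]
    · simp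
    · intro x hx
      rw [(mem_filter.1 hx).2]
  have h2 : (Fintype.card V : ℝ) = (#{x : V | φ x = 0} : ℝ) * Fintype.card W := by
    have : Fintype.card V = ∑ y : W, #{x : V | φ x = y} := by
      rw [← card_univ, Finset.card_eq_sum_card_fiberwise (f := φ) (t := univ)]
      intro x _; simp
    rw [this]
    push_cast
    rw [sum_congr rfl (fun y _ => by rw [hK y])]
    simp [mul_comm]
  have h3 : (#{x : V | φ x = 0} : ℝ) ≠ 0 := by
    have : (0 : V) ∈ ({x : V | φ x = 0} : Finset V) := by simp
    exact_mod_cast (Finset.card_ne_zero_of_mem this)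
  unfold av
  rw [h1, h2, mul_div_mul_left _ _ h3]

end av

/-- The average of `Φ` over the lists of length `k`. -/
noncomputable def EL {V : Type*} [Fintype V] : ℕ → (List V → ℝ) → ℝ
  | 0, Φ => Φ []
  | k + 1, Φ => av fun x => EL k fun l => Φ (x :: l)

section EL
variable {V W : Type*} [Fintype V] [Fintype W]

theorem EL_zero (Φ : List V → ℝ) : EL 0 Φ = Φ [] := rfl
theorem EL_succ (k : ℕ) (Φ : List V → ℝ) :
    EL (k + 1) Φ = av fun x => EL k fun l => Φ (x :: l) := rfl

theorem EL_mono : ∀ (k : ℕ) {Φ Ψ : List V → ℝ}, (∀ l, l.length = k → Φ l ≤ Ψ l) →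
    EL k Φ ≤ EL k Ψ
  | 0, _, _, h => h [] rfl
  | k + 1, _, _, h => av_mono fun x => EL_mono k fun l hl => h (x :: l) (by simp [hl])

theorem EL_congr (k : ℕ) {Φ Ψ : List V → ℝ} (h : ∀ l, l.length = k → Φ l = Ψ l) :
    EL k Φ = EL k Ψ :=
  le_antisymm (EL_mono k fun l hl => (h l hl).le) (EL_mono k fun l hl => (h l hl).ge)

theorem EL_const [Nonempty V] : ∀ (k : ℕ) (c : ℝ), EL k (fun _ : List V => c) = c
  | 0, _ => rfl
  | k + 1, c => by rw [EL_succ, EL_const k c, av_const]

theorem EL_add : ∀ (k : ℕ) (Φ Ψ : List V → ℝ), EL k (fun l => Φ l + Ψ l) = EL k Φ + EL k Ψ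
  | 0, _, _ => rfl
  | k + 1, Φ, Ψ => by
    simp only [EL_succ]
    rw [← av_add]
    congr 1
    funext x
    exact EL_add k _ _

theorem EL_mul : ∀ (k : ℕ) (c : ℝ) (Φ : List V → ℝ), EL k (fun l => c * Φ l) = c * EL k Φ
  | 0, _, _ => rfl
  | k + 1, c, Φ => by
    simp only [EL_succ]
    rw [← av_mul]
    congr 1
    funext x
    exact EL_mul k c _

theorem av_EL_comm : ∀ (m : ℕ) (Ψ : W → List V → ℝ),
    av (fun x => EL m (fun l => Ψ x l)) = EL m (fun l => av (fun x => Ψ x l))
  | 0, _ => rfl
  | m + 1, Ψ => by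
    simp only [EL_succ]
    rw [av_comm]
    congr 1
    funext y
    exact av_EL_comm m _

theorem EL_comm : ∀ (k m : ℕ) (Φ : List V → List W → ℝ),
    EL k (fun l => EL m (fun l' => Φ l l')) = EL m (fun l' => EL k (fun l => Φ l l'))
  | 0, _, _ => rfl
  | k + 1, m, Φ => by
    simp only [EL_succ]
    rw [← av_EL_comm]
    congr 1
    funext x
    exact EL_comm k m _

theorem EL_succ' (k : ℕ) (Φ : List V → ℝ) :
    EL (k + 1) Φ = EL k fun l => av fun x => Φ (x :: l) := by
  rw [EL_succ, av_EL_comm]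

theorem EL_map {φ : V → W} (hφ : ∀ h : W → ℝ, av (fun x => h (φ x)) = av h) :
    ∀ (k : ℕ) (Φ : List W → ℝ), EL k (fun l => Φ (l.map φ)) = EL k Φ
  | 0, _ => rfl
  | k + 1, Φ => by
    simp only [EL_succ, List.map_cons]
    rw [← hφ]
    congr 1
    funext x
    exact EL_map hφ k (fun l => Φ (φ x :: l))

theorem EL_nonneg (k : ℕ) {Φ : List V → ℝ} (h : ∀ l, l.length = k → 0 ≤ Φ l) [Nonempty V] :
    0 ≤ EL k Φ := by
  have := EL_mono k (Φ := fun _ => 0) (Ψ := Φ) h
  rwa [EL_const] at this

theorem EL_le_one (k : ℕ) {Φ : List V → ℝ} (h : ∀ l, l.length = k → Φ l ≤ 1) [Nonempty V] :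
    EL k Φ ≤ 1 := by
  have := EL_mono k (Φ := Φ) (Ψ := fun _ => 1) h
  rwa [EL_const] at this

end EL

end Pool.Agent.R751.Perm
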