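import Pool.Agent.R751.PermB

/-!
# Random permanents over finite fields, part C

Symmetric multilinear forms vanishing on repeated unit vectors, and the key inequality.
-/

namespace Pool.Agent.R751.Perm

open Finset

variable {F : Type*} [Field F] {α : Type*} [DecidableEq α]

/-- `Q` is symmetric, linear in each argument, and vanishes when a unit vector is repeated. -/
structure Form (Q : List (α → F) → F) : Prop where
  perm : ∀ l l', l.Perm l' → Q l = Q l'
  add : ∀ x y l, Q ((x + y) :: l) = Q (x :: l) + Q (y :: l)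
  smul : ∀ (t : F) x l, Q ((t • x) :: l) = t * Q (x :: l)
  rep : ∀ a l, Q (Pi.single a 1 :: Pi.single a 1 :: l) = 0

theorem Form.cons {Q : List (α → F) → F} (h : Form Q) (x : α → F) :
    Form (fun l => Q (x :: l)) where
  perm l l' hl := h.perm _ _ (hl.cons x)
  add a b l := by
    show Q (x :: (a + b) :: l) = Q (x :: a :: l) + Q (x :: b :: l)
    rw [h.perm _ _ (List.Perm.swap (a + b) x l), h.add, h.perm _ _ (List.Perm.swap x a l),
      h.perm _ _ (List.Perm.swap x b l)]
  smul t a l := by
    show Q (x :: (t • a) :: l) = t * Q (x :: a :: l)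
    rw [h.perm _ _ (List.Perm.swap (t • a) x l), h.smul, h.perm _ _ (List.Perm.swap x a l)]
  rep a l := by
    show Q (x :: Pi.single a 1 :: Pi.single a 1 :: l) = 0
    rw [h.perm _ (Pi.single a 1 :: Pi.single a 1 :: x :: l), h.rep]
    exact ((List.Perm.swap _ _ _).trans ((List.Perm.swap _ _ _).cons _))

theorem Form.zero {Q : List (α → F) → F} (h : Form Q) (l : List (α → F)) :
    Q (0 :: l) = 0 := by
  have := h.smul 0 0 l
  rw [smul_zero, zero_mul] at this
  exact this

theorem Form.sub {Q : List (α → F) → F} (h : Form Q) (x y : α → F) (l : List (α → F)) :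
    Q ((x - y) :: l) = Q (x :: l) - Q (y :: l) := by
  have h1 := h.add (x - y) y l
  rw [sub_add_cancel] at h1
  rw [h1]; ring

theorem Form.of_perF (c : List (α → F)) (S : Finset α) :
    Form (fun l => perF (l ++ c) S) where
  perm _ _ hl := perF_perm (hl.append_right c) S
  add x y l := perF_add x y (l ++ c) S
  smul t x l := perF_smul t x (l ++ c) S
  rep a l := perF_single_single a (l ++ c) S

/-- The difference of two unit vectors. -/
def df (p : α × α) : α → F := Pi.single p.1 1 - Pi.single p.2 1

section g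
variable [Fintype F]

/-- The normalised indicator of `0`: `1` at `0` and `-1 / (q - 1)` elsewhere. -/
noncomputable def g (x : F) : ℝ :=
  ((Fintype.card F : ℝ) * ind (x = 0) - 1) / ((Fintype.card F : ℝ) - 1)

theorem q_gt : (1 : ℝ) < Fintype.card F := by exact_mod_cast Fintype.one_lt_card

theorem g_zero : g (0 : F) = 1 := by
  have := q_gt (F := F)
  unfold g
  rw [ind_true rfl, mul_one]
  exact div_self (by linarith)

theorem g_le_one (x : F) : g x ≤ 1 := by
  have h1 := q_gt (F := F)
  unfold g
  rw [div_le_one (by linarith)]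
  have := ind_le_one (x = 0)
  nlinarith

/-- Positivity. -/
theorem g_pos {ι : Type*} [Fintype ι] (r : ι → F) :
    0 ≤ av (fun p : ι × ι => g (r p.1 - r p.2)) := by
  classical
  have h1 := q_gt (F := F)
  unfold av
  apply div_nonneg _ (Nat.cast_nonneg _)
  unfold g
  rw [← sum_div]
  apply div_nonneg _ (by linarith)
  rw [sum_sub_distrib, ← mul_sum]
  have e1 : ∑ p : ι × ι, ind (r p.1 - r p.2 = 0) = ∑ v : F, ((#{i : ι | r i = v} : ℕ) : ℝ) ^ 2 := by
    have e2 : ∀ p : ι × ι, ind (r p.1 - r p.2 = 0)
        = ∑ v : F, (if r p.1 = v then (1 : ℝ) else 0) * (if r p.2 = v then (1 : ℝ) else 0) := by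
      intro p
      have : ∀ v : F, (if r p.1 = v then (1 : ℝ) else 0) * (if r p.2 = v then (1 : ℝ) else 0)
          = if r p.1 = v then (if r p.2 = v then (1 : ℝ) else 0) else 0 := by
        intro v; split_ifs <;> simp
      simp only [this]
      rw [Finset.sum_ite_eq univ (r p.1), if_pos (mem_univ _)]
      by_cases h : r p.2 = r p.1
      · rw [if_pos h, ind_true (by rw [h, sub_self])]
      · rw [if_neg h, ind_false (fun hh => h (sub_eq_zero.1 hh).symm)]
    rw [sum_congr rfl (fun p _ => e2 p), sum_comm]
    refine sum_congr rfl fun v _ => ?_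
    rw [Fintype.sum_prod_type, sq]
    have e6 := Finset.sum_mul_sum (univ : Finset ι) (univ : Finset ι)
      (fun x => if r x = v then (1 : ℝ) else 0) (fun x => if r x = v then (1 : ℝ) else 0)
    refine e6.symm.trans ?_
    simp
  have e3 : ((∑ v : F, (#{i : ι | r i = v} : ℝ)) ^ 2)
      ≤ (Fintype.card F : ℝ) * ∑ v : F, ((#{i : ι | r i = v} : ℕ) : ℝ) ^ 2 := by
    have := sq_sum_le_card_mul_sum_sq (s := (univ : Finset F))
      (f := fun v => (#{i : ι | r i = v} : ℝ))
    simpa using this
  have e4 : ∑ v : F, (#{i : ι | r i = v} : ℝ) = Fintype.card ι := by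
    have : Fintype.card ι = ∑ v : F, #{i : ι | r i = v} := by
      rw [← card_univ, Finset.card_eq_sum_card_fiberwise (f := r) (t := univ)]
      intro x _; simp
    rw [this]; push_cast; rfl
  rw [e1]
  rw [e4] at e3
  have e5 : ∑ _p : ι × ι, (1 : ℝ) = (Fintype.card ι : ℝ) ^ 2 := by
    simp [sq]
  rw [e5]
  linarith

/-- The average of `g` over a linear functional. -/
theorem g_lin [Fintype α] {φ : (α → F) → F} (hadd : ∀ x y, φ (x + y) = φ x + φ y)
    (hsmul : ∀ (t : F) x, φ (t • x) = t * φ x) :
    av (fun x => g (φ x)) = ind (∀ x, φ x = 0) := by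
  classical
  by_cases h : ∀ x, φ x = 0
  · rw [ind_true h]
    simp only [h, g_zero]
    exact av_const 1
  · rw [ind_false h]
    push Not at h
    obtain ⟨x₀, hx₀⟩ := h
    have h0 : φ 0 = 0 := by have := hsmul 0 0; simpa using this
    let ψ : (α → F) →+ F := ⟨⟨φ, h0⟩, hadd⟩
    have hs : Function.Surjective ψ := by
      intro v
      refine ⟨(v / φ x₀) • x₀, ?_⟩
      show φ _ = v
      rw [hsmul]; field_simp
    have := av_hom ψ hs (fun v => g v)
    show av (fun x => g (ψ x)) = 0
    rw [this]
    unfold av g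
    rw [← sum_div, sum_sub_distrib, ← mul_sum]
    have e1 : ∑ v : F, ind (v = 0) = 1 := by
      rw [Finset.sum_eq_single (0 : F)]
      · exact ind_true rfl
      · intro b _ hb; exact ind_false hb
      · intro h; exact absurd (mem_univ _) h
    rw [e1]
    simp

end g

section key
variable [Fintype F] [Fintype α]

theorem Form.nonneg (μ : ℕ) : ∀ {Q : List (α → F) → F}, Form Q →
    0 ≤ EL (μ + 1) (fun p : List (α × α) => g (Q (p.map df))) := by
  induction μ with
  | zero =>
    intro Q h
    rw [EL_succ]
    have : ∀ x : α × α, EL 0 (fun l : List (α × α) => g (Q ((x :: l).map df)))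
        = g (Q [Pi.single x.1 1] - Q [Pi.single x.2 1]) := by
      intro x
      rw [EL_zero]
      show g (Q [df x]) = _
      rw [df, h.sub]
    simp only [this]
    exact g_pos (fun a : α => Q [Pi.single a 1])
  | succ μ ih =>
    intro Q h
    rw [EL_succ]
    apply av_nonneg
    intro x
    have h2 := ih (h.cons (df x))
    simp only [List.map_cons]
    exact h2

theorem Form.pairs (μ : ℕ) {Q : List (α → F) → F} (h : Form Q) [Nonempty α]
    (P : Finset (α × α)) (hP : ∀ p ∈ P, ∀ l, l.length = μ + 1 → Q (df p :: l) = 0) :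
    (#P : ℝ) / (Fintype.card α : ℝ) ^ 2
      ≤ EL (μ + 2) (fun p : List (α × α) => g (Q (p.map df))) := by
  have h1 : (#P : ℝ) / (Fintype.card α : ℝ) ^ 2 = av (fun p => ind (p ∈ P)) := by
    rw [av_ind, Fintype.card_prod]; push_cast; rw [sq]
  rw [h1, EL_succ]
  apply av_mono
  intro x
  by_cases hx : x ∈ P
  · rw [ind_true hx]
    rw [EL_congr (μ + 1) (Ψ := fun _ => 1), EL_const]
    intro l hl
    rw [List.map_cons, hP x hx _ (by simpa using hl), g_zero]
  · rw [ind_false hx]
    have h2 := Form.nonneg μ (h.cons (df x))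
    simp only [List.map_cons]
    exact h2

end key

end Pool.Agent.R751.Perm
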