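import Pool.Agent.R751.PermC

/-!
# Random permanents over finite fields, part D

The two counting facts: few isotropic vectors, and the size of the kernel.
-/

namespace Pool.Agent.R751.Perm

open Finset Polynomial

variable {F : Type*} [Field F] [Fintype F] {α : Type*} [DecidableEq α] [Fintype α]

/-- A quadratic polynomial with nonzero leading coefficient has at most two roots. -/
theorem card_quad_le [DecidableEq F] (a b c : F) (ha : a ≠ 0) :
    #{t : F | c + t * b + t ^ 2 * a = 0} ≤ 2 := by
  classical
  set p : F[X] := C a * X ^ 2 + C b * X + C c with hp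
  have hdeg : p.natDegree = 2 := Polynomial.natDegree_quadratic ha
  have hp0 : p ≠ 0 := by
    intro h
    rw [h] at hdeg
    simp at hdeg
  have hsub : ({t : F | c + t * b + t ^ 2 * a = 0} : Finset F) ⊆ p.roots.toFinset := by
    intro t ht
    rw [mem_filter] at ht
    rw [Multiset.mem_toFinset, mem_roots hp0, IsRoot.def, hp]
    simp only [eval_add, eval_mul, eval_C, eval_pow, eval_X]
    rw [← ht.2]; ring
  calc #{t : F | c + t * b + t ^ 2 * a = 0} ≤ #p.roots.toFinset := card_le_card hsub
    _ ≤ Multiset.card p.roots := Multiset.toFinset_card_le _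
    _ ≤ p.natDegree := p.card_roots'
    _ = 2 := hdeg

/-- A nonzero symmetric bilinear form in odd characteristic has few isotropic vectors. -/
theorem card_iso_le [DecidableEq F] (hodd : (2 : F) ≠ 0) {h : (α → F) → (α → F) → F}
    (hs : ∀ x y, h x y = h y x) (hadd : ∀ x y z, h (x + y) z = h x z + h y z)
    (hsmul : ∀ (t : F) x y, h (t • x) y = t * h x y) (hne : ∃ x y, h x y ≠ 0) :
    #{y : α → F | h y y = 0} * Fintype.card F ≤ 2 * Fintype.card (α → F) := by
  classical
  have hadd' : ∀ x y z, h z (x + y) = h z x + h z y := by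
    intro x y z; rw [hs, hadd, hs x z, hs y z]
  have hsmul' : ∀ (t : F) x y, h y (t • x) = t * h y x := by
    intro t x y; rw [hs, hsmul, hs]
  obtain ⟨v, hv⟩ : ∃ v, h v v ≠ 0 := by
    by_contra hcon
    push Not at hcon
    obtain ⟨x, y, hxy⟩ := hne
    have h1 := hcon (x + y)
    rw [hadd, hadd', hadd', hcon x, hcon y, hs y x] at h1
    have h2 : (2 : F) * h x y = 0 := by linear_combination h1
    rcases mul_eq_zero.1 h2 with h3 | h3
    · exact hodd h3
    · exact hxy h3
  set Z : Finset (α → F) := {y : α → F | h y y = 0} with hZ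
  have e1 : ∑ t : F, ∑ y : α → F, (if y + t • v ∈ Z then 1 else 0) = #Z * Fintype.card F := by
    have : ∀ t : F, ∑ y : α → F, (if y + t • v ∈ Z then 1 else 0) = #Z := by
      intro t
      have := Equiv.sum_comp (Equiv.addRight (t • v))
        (fun y : α → F => if y ∈ Z then (1 : ℕ) else 0)
      simp only [Equiv.coe_addRight] at this
      refine this.trans ?_
      rw [Finset.sum_ite_mem, univ_inter]
      simp
    rw [sum_congr rfl (fun t _ => this t)]
    simp [mul_comm]
  rw [← e1, sum_comm]
  have e2 : ∀ y : α → F, ∑ t : F, (if y + t • v ∈ Z then 1 else 0) ≤ 2 := by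
    intro y
    have : ∑ t : F, (if y + t • v ∈ Z then 1 else 0)
        = #{t : F | h y y + t * (2 * h y v) + t ^ 2 * h v v = 0} := by
      rw [Finset.card_filter]
      refine sum_congr rfl fun t _ => ?_
      have : (y + t • v ∈ Z) ↔ (h y y + t * (2 * h y v) + t ^ 2 * h v v = 0) := by
        rw [hZ, mem_filter]
        simp only [mem_univ, true_and]
        rw [hadd, hadd', hadd', hsmul, hsmul', hsmul', hsmul, hs v y]
        constructor
        · intro hh; rw [← hh]; ring
        · intro hh; rw [← hh]; ring
      by_cases hh : y + t • v ∈ Z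
      · rw [if_pos hh, if_pos (this.1 hh)]
      · rw [if_neg hh, if_neg (fun h' => hh (this.2 h'))]
    rw [this]
    exact card_quad_le _ _ _ hv
  calc ∑ y : α → F, ∑ t : F, (if y + t • v ∈ Z then 1 else 0) ≤ ∑ _y : α → F, 2 :=
        sum_le_sum fun y _ => e2 y
    _ = 2 * Fintype.card (α → F) := by simp [mul_comm]

theorem key_aux {K Z P V q n : ℝ} (hV : 0 < V) (hq : 0 < q) (hn : 0 < n) (hP : 0 ≤ P)
    (_hZ : 0 ≤ Z) (h1 : n ^ 2 * K ≤ Z * P) (h2 : Z * q ≤ 2 * V) :
    K / V ≤ 2 / q * (P / n ^ 2) := by
  rw [div_mul_div_comm, div_le_div_iff₀ hV (by positivity)]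
  calc K * (q * n ^ 2) = (n ^ 2 * K) * q := by ring
    _ ≤ (Z * P) * q := mul_le_mul_of_nonneg_right h1 hq.le
    _ = (Z * q) * P := by ring
    _ ≤ (2 * V) * P := mul_le_mul_of_nonneg_right h2 hP
    _ = 2 * P * V := by ring

/-- The key inequality: for a form `Q` of arity `μ + 2`, the probability that a random vector is
in the kernel is controlled by the box average. -/
theorem Form.key (hodd : (2 : F) ≠ 0) [Nonempty α] (μ : ℕ) {Q : List (α → F) → F}
    (h : Form Q) :
    av (fun x : α → F => ind (∀ l, l.length = μ + 1 → Q (x :: l) = 0))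
      ≤ (2 / Fintype.card F : ℝ) * EL (μ + 2) (fun p : List (α × α) => g (Q (p.map df)))
        + (1 - 2 / Fintype.card F : ℝ) * ind (∀ l, l.length = μ + 2 → Q l = 0) := by
  classical
  by_cases hQ : ∀ l, l.length = μ + 2 → Q l = 0
  · rw [ind_true hQ]
    have e1 : EL (μ + 2) (fun p : List (α × α) => g (Q (p.map df))) = 1 := by
      rw [EL_congr (μ + 2) (Ψ := fun _ => 1), EL_const]
      intro l hl
      rw [hQ _ (by simpa using hl), g_zero]
    rw [e1]
    have e2 : av (fun x : α → F => ind (∀ l, l.length = μ + 1 → Q (x :: l) = 0)) ≤ 1 := by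
      rw [← av_const (V := α → F) (1 : ℝ)]
      exact av_mono fun x => ind_le_one _
    linarith
  · rw [ind_false hQ, mul_zero, add_zero]
    set K : Finset (α → F) := {x : α → F | ∀ l, l.length = μ + 1 → Q (x :: l) = 0} with hK
    have memK : ∀ x, x ∈ K ↔ ∀ l, l.length = μ + 1 → Q (x :: l) = 0 := by
      intro x; rw [hK, mem_filter]; simp
    set Z : Finset (α → F) := {x : α → F | ∀ l, l.length = μ → Q (x :: x :: l) = 0} with hZ
    have memZ : ∀ x, x ∈ Z ↔ ∀ l, l.length = μ → Q (x :: x :: l) = 0 := by
      intro x; rw [hZ, mem_filter]; simp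
    set P : Finset (α × α) := {p : α × α | (df p : α → F) ∈ K} with hP
    have memP : ∀ p, p ∈ P ↔ (df p : α → F) ∈ K := by
      intro x; rw [hP, mem_filter]; simp
    have hKsub : ∀ x ∈ K, ∀ y ∈ K, x - y ∈ K := by
      intro x hx y hy
      rw [memK] at *
      intro l hl
      rw [h.sub, hx l hl, hy l hl, sub_zero]
    have h0K : (0 : α → F) ∈ K := by
      rw [memK]; intro l _; exact h.zero l
    -- few isotropic vectors
    have hZc : #Z * Fintype.card F ≤ 2 * Fintype.card (α → F) := by
      push Not at hQ
      obtain ⟨l₀, hl₀, hQ₀⟩ := hQ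
      obtain ⟨x₀, y₀, w, rfl⟩ : ∃ x₀ y₀ w, l₀ = x₀ :: y₀ :: w := by
        match l₀, hl₀ with
        | x :: y :: w, _ => exact ⟨x, y, w, rfl⟩
      have hw : w.length = μ := by simpa using hl₀
      have := card_iso_le (α := α) hodd (h := fun x y => Q (x :: y :: w))
        (fun x y => h.perm _ _ (List.Perm.swap _ _ _))
        (fun x y z => h.add x y _) (fun t x y => h.smul t x _) ⟨x₀, y₀, hQ₀⟩
      refine le_trans (Nat.mul_le_mul_right _ (card_le_card ?_)) this
      intro x hx
      rw [memZ] at hx
      rw [mem_filter]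
      exact ⟨mem_univ _, hx w hw⟩
    -- Cauchy-Schwarz
    let f : (α → F) → ℕ := fun y => #{i : α | y - Pi.single i 1 ∈ K}
    have hf1 : ∑ y : α → F, f y = Fintype.card α * #K := by
      have e1 : ∀ y : α → F, f y = ∑ i : α, if y - Pi.single i 1 ∈ K then 1 else 0 := by
        intro y; exact Finset.card_filter _ _
      rw [sum_congr rfl (fun y _ => e1 y), sum_comm]
      have e2 : ∀ i : α, ∑ y : α → F, (if y - Pi.single i 1 ∈ K then 1 else 0) = #K := by
        intro i
        have := (Equiv.subRight (Pi.single i 1 : α → F)).sum_comp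
          (fun y : α → F => if y ∈ K then 1 else 0)
        simp only [Equiv.subRight_apply] at this
        rw [this, Finset.sum_ite_mem, univ_inter]
        simp
      rw [sum_congr rfl (fun i _ => e2 i)]
      simp
    have hf2 : ∑ y : α → F, f y ^ 2 ≤ #P * #K := by
      have e1 : ∀ y : α → F, f y ^ 2
          = ∑ p : α × α, if y - Pi.single p.1 1 ∈ K ∧ y - Pi.single p.2 1 ∈ K then 1 else 0 := by
        intro y
        have : f y = ∑ i : α, if y - Pi.single i 1 ∈ K then 1 else 0 := Finset.card_filter _ _
        rw [sq, this, Finset.sum_mul_sum, Fintype.sum_prod_type]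
        refine sum_congr rfl fun i _ => sum_congr rfl fun j _ => ?_
        by_cases h1 : y - Pi.single i 1 ∈ K <;> by_cases h2 : y - Pi.single j 1 ∈ K <;>
          simp [h1, h2]
      rw [sum_congr rfl (fun y _ => e1 y), sum_comm]
      have e2 : ∀ p : α × α, ∑ y : α → F,
          (if y - Pi.single p.1 1 ∈ K ∧ y - Pi.single p.2 1 ∈ K then 1 else 0)
          ≤ if p ∈ P then #K else 0 := by
        intro p
        by_cases hp : p ∈ P
        · rw [if_pos hp]
          have := (Equiv.subRight (Pi.single p.1 1 : α → F)).sum_comp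
            (fun y : α → F => if y ∈ K then 1 else 0)
          simp only [Equiv.subRight_apply] at this
          rw [Finset.sum_ite_mem, univ_inter] at this
          calc ∑ y : α → F, (if y - Pi.single p.1 1 ∈ K ∧ y - Pi.single p.2 1 ∈ K then 1 else 0)
              ≤ ∑ y : α → F, (if y - Pi.single p.1 1 ∈ K then 1 else 0) := by
                apply sum_le_sum
                intro y _
                split_ifs with h1 h2 h2
                · exact le_refl _
                · exact absurd h1.1 h2
                · exact Nat.zero_le _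
                · exact le_refl _
            _ = ∑ x ∈ K, 1 := this
            _ = #K := by simp
        · rw [if_neg hp]
          apply le_of_eq
          apply sum_eq_zero
          intro y _
          rw [if_neg]
          rintro ⟨h1, h2⟩
          apply hp
          rw [memP]
          have := hKsub _ h2 _ h1
          have e : (y - Pi.single p.2 1 - (y - Pi.single p.1 1) : α → F) = df p := by
            rw [df]; abel
          rwa [e] at this
      calc _ ≤ ∑ p : α × α, (if p ∈ P then #K else 0) := sum_le_sum fun p _ => e2 p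
        _ = #P * #K := by rw [Finset.sum_ite_mem, univ_inter]; simp
    have hsupp : ∀ y, f y ≠ 0 → y ∈ Z := by
      intro y hy
      obtain ⟨i, hi⟩ := Finset.card_pos.1 (Nat.pos_of_ne_zero hy)
      have hi' : y - Pi.single i 1 ∈ K := (mem_filter.1 hi).2
      rw [memK] at hi'
      rw [memZ]
      intro l hl
      have e1 : Q (y :: y :: l) = Q (Pi.single i 1 :: y :: l) := by
        have := hi' (y :: l) (by simp [hl])
        rw [h.sub] at this
        exact sub_eq_zero.1 this
      have e2 : Q (y :: Pi.single i 1 :: l) = Q (Pi.single i 1 :: Pi.single i 1 :: l) := by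
        have := hi' (Pi.single i 1 :: l) (by simp [hl])
        rw [h.sub] at this
        exact sub_eq_zero.1 this
      rw [e1, h.perm _ _ (List.Perm.swap _ _ _), e2, h.rep]
    have hcs : (Fintype.card α * #K) ^ 2 ≤ #Z * (#P * #K) := by
      have e1 : ∑ y : α → F, f y = ∑ y ∈ Z, f y := by
        symm
        apply Finset.sum_subset (subset_univ _)
        intro y _ hy
        by_contra hh
        exact hy (hsupp y hh)
      rw [← hf1, e1]
      calc (∑ y ∈ Z, f y) ^ 2 ≤ #Z * ∑ y ∈ Z, f y ^ 2 := sq_sum_le_card_mul_sum_sq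
        _ ≤ #Z * ∑ y : α → F, f y ^ 2 := by
            apply Nat.mul_le_mul_left
            exact Finset.sum_le_sum_of_subset (subset_univ _)
        _ ≤ #Z * (#P * #K) := Nat.mul_le_mul_left _ hf2
    have hKpos : 0 < #K := Finset.card_pos.2 ⟨0, h0K⟩
    have hcs' : Fintype.card α ^ 2 * #K ≤ #Z * #P := by
      have : (Fintype.card α ^ 2 * #K) * #K ≤ (#Z * #P) * #K := by
        calc (Fintype.card α ^ 2 * #K) * #K = (Fintype.card α * #K) ^ 2 := by ring
          _ ≤ #Z * (#P * #K) := hcs
          _ = _ := by ring
      exact Nat.le_of_mul_le_mul_right this hKpos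
    -- conclusion
    have hav : av (fun x : α → F => ind (∀ l, l.length = μ + 1 → Q (x :: l) = 0))
        = (#K : ℝ) / Fintype.card (α → F) := by
      rw [← av_ind]
      congr 1
      funext x
      exact ind_congr (memK x).symm
    rw [hav]
    have hpairs := Form.pairs μ h P (fun p hp => (memK _).1 ((memP p).1 hp))
    have hn : (0 : ℝ) < Fintype.card α := by exact_mod_cast Fintype.card_pos
    have hV : (0 : ℝ) < Fintype.card (α → F) := by exact_mod_cast Fintype.card_pos
    have hq : (0 : ℝ) < Fintype.card F := by exact_mod_cast Fintype.card_pos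
    have h1 : ((Fintype.card α : ℝ) ^ 2 * #K) ≤ #Z * #P := by exact_mod_cast hcs'
    have h2 : (#Z : ℝ) * Fintype.card F ≤ 2 * Fintype.card (α → F) := by exact_mod_cast hZc
    refine le_trans (key_aux hV hq hn (Nat.cast_nonneg _) (Nat.cast_nonneg _) h1 h2) ?_
    exact mul_le_mul_of_nonneg_left hpairs (by positivity)

end Pool.Agent.R751.Perm
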