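import Pool.Agent.R751.PermD

/-!
# Random permanents over finite fields, part E

The size of the kernel, and the recursive inequality.
-/

namespace Pool.Agent.R751.Perm

open Finset

variable {F : Type*} [Field F] {α : Type*} [DecidableEq α]

theorem Form.expand [Fintype α] {Q : List (α → F) → F} (h : Form Q) (x : α → F)
    (l : List (α → F)) :
    Q (x :: l) = ∑ a, x a * Q (Pi.single a 1 :: l) := by
  let φ : (α → F) →ₗ[F] F :=
    { toFun := fun x => Q (x :: l)
      map_add' := fun x y => h.add x y l
      map_smul' := fun t x => by simpa using h.smul t x l }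
  have h1 : φ x = φ (∑ a, Pi.single a (x a)) := by rw [Finset.univ_sum_single]
  have h2 : ∀ a, φ (Pi.single a (x a)) = x a * Q (Pi.single a 1 :: l) := by
    intro a
    have : (Pi.single a (x a) : α → F) = x a • Pi.single a 1 := by
      rw [← Pi.single_smul, smul_eq_mul, mul_one]
    rw [this, map_smul]
    rfl
  show φ x = _
  rw [h1, map_sum]
  exact sum_congr rfl fun a _ => h2 a

/-- The unit vectors of a list of indices. -/
def ev (L : List α) : List (α → F) := L.map (fun a => Pi.single a 1)

theorem ev_cons (a : α) (L : List α) : (ev (a :: L) : List (α → F)) = Pi.single a 1 :: ev L := rfl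

theorem ev_length (L : List α) : (ev L : List (α → F)).length = L.length := by simp [ev]

theorem Form.exists_basis [Fintype α] : ∀ (M : ℕ) {Q : List (α → F) → F}, Form Q →
    (∃ l, l.length = M ∧ Q l ≠ 0) → ∃ L : List α, L.length = M ∧ Q (ev L) ≠ 0
  | 0, Q, _, ⟨l, hl, hQ⟩ => by
    have : l = [] := List.length_eq_zero_iff.1 hl
    subst this
    exact ⟨[], rfl, hQ⟩
  | M + 1, Q, h, ⟨l, hl, hQ⟩ => by
    match l, hl with
    | x :: l', hl' =>
      have hl'' : l'.length = M := by simpa using hl'
      obtain ⟨L, hL, hL'⟩ := Form.exists_basis M (h.cons x) ⟨l', hl'', hQ⟩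
      have : ∃ a, Q (Pi.single a 1 :: ev L) ≠ 0 := by
        by_contra hcon
        push Not at hcon
        apply hL'
        show Q (x :: ev L) = 0
        rw [h.expand]
        exact sum_eq_zero fun a _ => by rw [hcon a, mul_zero]
      obtain ⟨a, ha⟩ := this
      exact ⟨a :: L, by simp [hL], ha⟩

theorem Form.zero_of_mem {Q : List (α → F) → F} (h : Form Q) {a : α} {L : List α}
    (ha : a ∈ L) : Q (Pi.single a 1 :: ev L) = 0 := by
  have h1 : L.Perm (a :: L.erase a) := List.perm_cons_erase ha
  have h2 : (ev L : List (α → F)).Perm (Pi.single a 1 :: ev (L.erase a)) := h1.map _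
  rw [h.perm _ _ (h2.cons _), h.rep]

theorem Form.nodup {Q : List (α → F) → F} (h : Form Q) {L : List α} (hL : Q (ev L) ≠ 0) :
    L.Nodup := by
  rw [List.nodup_iff_sublist]
  intro a hsub
  obtain ⟨l, hl⟩ := hsub.exists_perm_append
  have : (ev L : List (α → F)).Perm (Pi.single a 1 :: Pi.single a 1 :: ev l) := hl.map _
  apply hL
  rw [h.perm _ _ this, h.rep]

/-- The kernel of a nonzero form of arity `μ + 1` has codimension at least `μ + 1`. -/
theorem Form.ker_le [Fintype F] [Fintype α] (μ : ℕ) {Q : List (α → F) → F} (h : Form Q)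
    (hQ : ¬ ∀ l, l.length = μ + 1 → Q l = 0) :
    av (fun x : α → F => ind (∀ l, l.length = μ → Q (x :: l) = 0))
      ≤ (1 / Fintype.card F : ℝ) ^ (μ + 1) := by
  classical
  push Not at hQ
  obtain ⟨L, hL, hQL⟩ := h.exists_basis (μ + 1) hQ
  have hnd := h.nodup hQL
  set K : Finset (α → F) := {x : α → F | ∀ l, l.length = μ → Q (x :: l) = 0} with hK
  have memK : ∀ x, x ∈ K ↔ ∀ l, l.length = μ → Q (x :: l) = 0 := by
    intro x; rw [hK, mem_filter]; simp
  have hinj : Function.Injective
      (fun (x : K) (b : {b : α // b ∉ L.toFinset}) => (x : α → F) b) := by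
    intro x y hxy
    have hd : ∀ b, b ∉ L → (x : α → F) b - (y : α → F) b = 0 := by
      intro b hb
      have := congrFun hxy ⟨b, by simpa using hb⟩
      exact sub_eq_zero.2 this
    apply Subtype.ext
    funext a
    by_cases ha : a ∈ L
    · have h1 : Q (((x : α → F) - y) :: ev (L.erase a)) = 0 := by
        have e1 := (memK _).1 x.2 (ev (L.erase a)) (by
          rw [ev_length, List.length_erase_of_mem ha, hL]; rfl)
        have e2 := (memK _).1 y.2 (ev (L.erase a)) (by
          rw [ev_length, List.length_erase_of_mem ha, hL]; rfl)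
        rw [h.sub, e1, e2, sub_zero]
      rw [h.expand, Finset.sum_eq_single a] at h1
      · have e3 : Q (Pi.single a 1 :: ev (L.erase a)) = Q (ev L) := by
          have : L.Perm (a :: L.erase a) := List.perm_cons_erase ha
          have h2 : (ev L : List (α → F)).Perm (Pi.single a 1 :: ev (L.erase a)) := this.map _
          exact (h.perm _ _ h2).symm
        rw [e3] at h1
        rcases mul_eq_zero.1 h1 with h4 | h4
        · exact sub_eq_zero.1 h4
        · exact absurd h4 hQL
      · intro b _ hb
        by_cases hbL : b ∈ L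
        · rw [h.zero_of_mem ((List.mem_erase_of_ne hb).2 hbL), mul_zero]
        · rw [Pi.sub_apply, hd b hbL, zero_mul]
      · intro hh; exact absurd (mem_univ _) hh
    · exact sub_eq_zero.1 (hd a ha)
  have hcard : #K ≤ Fintype.card F ^ (Fintype.card α - (μ + 1)) := by
    have h1 := Fintype.card_le_of_injective _ hinj
    rw [Fintype.card_coe, Fintype.card_fun] at h1
    have h2 : Fintype.card {b : α // b ∉ L.toFinset} = Fintype.card α - (μ + 1) := by
      rw [Fintype.card_of_subtype (L.toFinsetᶜ) (by intro x; simp), Finset.card_compl,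
        List.toFinset_card_of_nodup hnd, hL]
    rwa [h2] at h1
  have hle : μ + 1 ≤ Fintype.card α := by
    rw [← hL, ← List.toFinset_card_of_nodup hnd]
    exact Finset.card_le_univ _
  have hav : av (fun x : α → F => ind (∀ l, l.length = μ → Q (x :: l) = 0))
      = (#K : ℝ) / Fintype.card (α → F) := by
    rw [← av_ind]
    congr 1
    funext x
    exact ind_congr (memK x).symm
  rw [hav, Fintype.card_fun]
  have hq : (0 : ℝ) < Fintype.card F := by exact_mod_cast Fintype.card_pos
  have h3 : (#K : ℝ) ≤ (Fintype.card F : ℝ) ^ (Fintype.card α - (μ + 1)) := by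
    exact_mod_cast hcard
  push_cast
  rw [div_le_iff₀ (by positivity), one_div, inv_pow]
  refine le_trans h3 (le_of_eq ?_)
  obtain ⟨r, hr⟩ := Nat.exists_eq_add_of_le hle
  rw [hr, Nat.add_sub_cancel_left]
  field_simp
  ring

theorem perF_ev : ∀ (L : List α), L.Nodup → perF (ev L : List (α → F)) L.toFinset = 1
  | [], _ => by simp [ev, perF]
  | a :: L, h => by
    rw [List.nodup_cons] at h
    rw [ev_cons, perF_single, if_pos (by simp), List.toFinset_cons,
      Finset.erase_insert (by simpa using h.1), perF_ev L h.2]

section rec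
variable [Fintype F]

variable (F) in
/-- The probability that `k` random columns have no nonzero partial permanent. -/
noncomputable def ZZ (α : Type*) [DecidableEq α] [Fintype α] (k m : ℕ) : ℝ :=
  EL k (fun c : List (α → F) => ind (∀ l, l.length = m → perF (l ++ c) univ = 0))

variable (F) in
/-- The bias of the permanent of order `k`. -/
noncomputable def AA (k : ℕ) : ℝ :=
  EL k (fun c : List (Fin k → F) => g (perF c univ))

theorem ZZ_succ [Fintype α] (k m : ℕ) :
    ZZ F α (k + 1) m = EL k (fun c : List (α → F) => av (fun x : α → F =>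
      ind (∀ l, l.length = m → perF ((x :: l) ++ c) univ = 0))) := by
  rw [ZZ, EL_succ']
  apply EL_congr
  intro c _
  congr 1
  funext x
  apply ind_congr
  constructor
  · intro h l hl
    rw [← h l hl]
    exact perF_perm List.perm_middle.symm _
  · intro h l hl
    rw [← h l hl]
    exact perF_perm List.perm_middle _

theorem ZZ_nonneg [Fintype α] (k m : ℕ) : 0 ≤ ZZ F α k m :=
  EL_nonneg k fun _ _ => ind_nonneg _

theorem ZZ_le [Fintype α] : ∀ (k m : ℕ), Fintype.card α = k + m →
    ZZ F α k m ≤ (1 / Fintype.card F : ℝ) ^ m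
  | 0, m, hc => by
    have hq : (0 : ℝ) < Fintype.card F := by exact_mod_cast Fintype.card_pos
    rw [ZZ, EL_zero, ind_false]
    · positivity
    · intro h
      have := h (ev (univ : Finset α).toList) (by rw [ev_length]; simp [hc])
      rw [List.append_nil] at this
      have h2 := perF_ev (F := F) (univ : Finset α).toList (Finset.nodup_toList _)
      rw [Finset.toList_toFinset] at h2
      rw [this] at h2
      exact zero_ne_one h2
  | k + 1, m, hc => by
    have hq : (2 : ℝ) ≤ Fintype.card F := by exact_mod_cast Fintype.one_lt_card (α := F)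
    have hq0 : (0 : ℝ) < Fintype.card F := by linarith
    have ih := ZZ_le k (m + 1) (by omega)
    have h1 : ZZ F α (k + 1) m ≤ ZZ F α k (m + 1) + (1 / Fintype.card F : ℝ) ^ (m + 1) := by
      rw [ZZ_succ, ZZ]
      have : EL k (fun _ : List (α → F) => (1 / Fintype.card F : ℝ) ^ (m + 1))
          = (1 / Fintype.card F : ℝ) ^ (m + 1) := EL_const _ _
      rw [← this, ← EL_add]
      apply EL_mono
      intro c _
      by_cases hz : ∀ l, l.length = m + 1 → perF (l ++ c) univ = 0
      · rw [ind_true hz]
        have : av (fun x : α → F => ind (∀ l, l.length = m → perF ((x :: l) ++ c) univ = 0))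
            ≤ 1 := by
          rw [← av_const (V := α → F) (1 : ℝ)]
          exact av_mono fun x => ind_le_one _
        have h0 : 0 ≤ (1 / Fintype.card F : ℝ) ^ (m + 1) := by positivity
        linarith
      · rw [ind_false hz, zero_add]
        exact Form.ker_le m (Form.of_perF c univ) hz
    refine le_trans h1 (le_trans (add_le_add_left ih _) ?_)
    have h2 : (1 / Fintype.card F : ℝ) ≤ 1 / 2 := one_div_le_one_div_of_le (by norm_num) hq
    have h3 : 0 ≤ (1 / Fintype.card F : ℝ) ^ m := by positivity
    rw [pow_succ]
    nlinarith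

theorem ZZ_rec [Fintype α] [Nonempty α] (hodd : (2 : F) ≠ 0) (k μ : ℕ) :
    ZZ F α (k + 1) (μ + 1)
      ≤ (2 / Fintype.card F : ℝ) * EL k (fun c : List (α → F) =>
          EL (μ + 2) (fun p : List (α × α) => g (perF (p.map df ++ c) univ)))
        + (1 - 2 / Fintype.card F : ℝ) * ZZ F α k (μ + 2) := by
  rw [ZZ_succ, ZZ, ← EL_mul, ← EL_mul, ← EL_add]
  apply EL_mono
  intro c _
  exact Form.key hodd μ (Form.of_perF c univ)

theorem AA_succ (k : ℕ) : AA F (k + 1) = ZZ F (Fin (k + 1)) k 1 := by
  rw [AA, ZZ, EL_succ']
  apply EL_congr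
  intro c _
  rw [g_lin (φ := fun x => perF (x :: c) univ) (fun x y => perF_add x y c univ)
    (fun t x => perF_smul t x c univ)]
  apply ind_congr
  constructor
  · intro h l hl
    obtain ⟨x, rfl⟩ := List.length_eq_one_iff.1 hl
    exact h x
  · intro h x
    exact h [x] rfl

theorem AA_nonneg (k : ℕ) : 0 ≤ AA F (k + 1) := by rw [AA_succ]; exact ZZ_nonneg _ _

/-- The bias only depends on the number of rows. -/
theorem bias_eq [Fintype α] {k : ℕ} (S : Finset α) (hS : #S = k) :
    EL k (fun c : List (α → F) => g (perF c S)) = AA F k := by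
  classical
  let f : Fin k ↪ α :=
    (Finset.equivFinOfCardEq hS).symm.toEmbedding.trans (Function.Embedding.subtype _)
  have hf : univ.map f = S := by
    ext x
    rw [mem_map]
    constructor
    · rintro ⟨i, _, rfl⟩
      exact ((Finset.equivFinOfCardEq hS).symm i).2
    · intro hx
      refine ⟨Finset.equivFinOfCardEq hS ⟨x, hx⟩, mem_univ _, ?_⟩
      simp [f]
  have h1 : ∀ c : List (α → F), g (perF c S) = g (perF (c.map (fun c => c ∘ f)) univ) := by
    intro c
    rw [perF_map_embed, hf]
  simp only [h1]
  rw [AA]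
  have h2 : ∀ h : (Fin k → F) → ℝ, av (fun x : α → F => h (x ∘ f)) = av h := by
    intro h
    let φ : (α → F) →+ (Fin k → F) :=
      { toFun := fun c => c ∘ f
        map_zero' := rfl
        map_add' := fun _ _ => rfl }
    exact av_hom φ (f.injective.surjective_comp_right) h
  exact EL_map h2 k (fun l => g (perF l univ))

/-- The pairs of indices can be used to merge rows one after the other. -/
def good : Finset α → List (α × α) → Prop
  | _, [] => True
  | S, p :: l => p.1 ∈ S ∧ p.2 ∈ S ∧ p.1 ≠ p.2 ∧ good (S.erase p.1) l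

theorem good_mem : ∀ (l : List (α × α)) (S : Finset α), good S l →
    ∀ x ∈ l, x.1 ∈ S ∧ x.2 ∈ S
  | [], _, _, x, hx => by simp at hx
  | p :: l, S, h, x, hx => by
    rw [List.mem_cons] at hx
    rcases hx with rfl | hx
    · exact ⟨h.1, h.2.1⟩
    · have := good_mem l _ h.2.2.2 x hx
      exact ⟨mem_of_mem_erase this.1, mem_of_mem_erase this.2⟩

theorem good_eq [Fintype α] (k : ℕ) : ∀ (p : List (α × α)) (S : Finset α), good S p →
    #S = k + p.length →
    EL k (fun c : List (α → F) => g (perF (p.map df ++ c) S)) = AA F k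
  | [], S, _, hS => by
    simp only [List.map_nil, List.nil_append]
    exact bias_eq S (by simpa using hS)
  | x :: p, S, h, hS => by
    obtain ⟨h1, h2, h3, h4⟩ := h
    have e1 : ∀ c : List (α → F), g (perF ((x :: p).map df ++ c) S)
        = g (perF (p.map df ++ c.map (mrg x.1 x.2)) (S.erase x.1)) := by
      intro c
      have e2 : (p.map df : List (α → F)).map (mrg x.1 x.2) = p.map df := by
        rw [List.map_map]
        apply List.map_congr_left
        intro y hy
        have := good_mem p _ h4 y hy
        show mrg x.1 x.2 (df y) = df y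
        rw [df, mrg_sub, mrg_single_of_ne (ne_of_mem_erase this.1),
          mrg_single_of_ne (ne_of_mem_erase this.2)]
      rw [List.map_cons, List.cons_append, df, perF_mrg h3 _ h1 h2, List.map_append, e2]
    simp only [e1]
    rw [EL_map (fun h => av_bij _ (mrg_bijective h3) h) k
      (fun c => g (perF (p.map df ++ c) (S.erase x.1)))]
    apply good_eq k p _ h4
    rw [card_erase_of_mem h1, hS, List.length_cons]
    omega

end rec

end Pool.Agent.R751.Perm
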