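import Pool.Agent.R751.PermE

/-!
# Random permanents over finite fields, part F

Bad tuples, the final inequality, and the limit.
-/

namespace Pool.Agent.R751.Perm

open Finset Filter Topology

theorem av_prod {V W : Type*} [Fintype V] [Fintype W] (f : V → W → ℝ) :
    av (fun x : V × W => f x.1 x.2) = av (fun x => av (fun y => f x y)) := by
  unfold av
  rw [Fintype.sum_prod_type, Fintype.card_prod, ← sum_div, div_div]
  push_cast
  rw [mul_comm]

section bad
variable {α : Type*} [DecidableEq α] [Fintype α]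

theorem av_notMem (S : Finset α) :
    av (fun x : α => ind (x ∉ S)) = ((Fintype.card α - #S : ℕ) : ℝ) / Fintype.card α := by
  rw [← Finset.card_compl, ← av_ind]
  congr 1
  funext x
  exact ind_congr (by simp)

theorem bad_le [Nonempty α] : ∀ (m : ℕ) (S : Finset α), m ≤ #S →
    EL m (fun p : List (α × α) => ind (¬ good S p))
      ≤ (m * (2 * (Fintype.card α - #S : ℕ) + 2 * m) : ℝ) / Fintype.card α
  | 0, S, _ => by
    rw [EL_zero, ind_false (by simp [good])]
    simp
  | m + 1, S, hm => by
    have hn : (0 : ℝ) < Fintype.card α := by exact_mod_cast Fintype.card_pos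
    set r : ℕ := Fintype.card α - #S with hr
    have hSle : #S ≤ Fintype.card α := Finset.card_le_univ S
    rw [EL_succ]
    have h1 : ∀ x : α × α, EL m (fun l : List (α × α) => ind (¬ good S (x :: l)))
        ≤ (ind (x.1 ∉ S) + ind (x.2 ∉ S) + ind (x.1 = x.2))
          + (m * (2 * (r + 1 : ℕ) + 2 * m) : ℝ) / Fintype.card α := by
      intro x
      have h0 : (0 : ℝ) ≤ (m * (2 * (r + 1 : ℕ) + 2 * m) : ℝ) / Fintype.card α := by positivity
      have n1 := ind_nonneg (x.1 ∉ S)
      have n2 := ind_nonneg (x.2 ∉ S)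
      have n3 := ind_nonneg (x.1 = x.2)
      have hle1 : EL m (fun l : List (α × α) => ind (¬ good S (x :: l))) ≤ 1 :=
        EL_le_one m fun _ _ => ind_le_one _
      by_cases c1 : x.1 ∉ S
      · rw [ind_true c1]; linarith
      · by_cases c2 : x.2 ∉ S
        · rw [ind_true c2]; linarith
        · by_cases c3 : x.1 = x.2
          · rw [ind_true c3]; linarith
          · push Not at c1 c2
            have e1 : ∀ l : List (α × α), ind (¬ good S (x :: l))
                = ind (¬ good (S.erase x.1) l) := by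
              intro l
              apply ind_congr
              simp only [good, c1, c2, c3, ne_eq, not_false_eq_true, true_and]
            simp only [e1]
            have ih := bad_le m (S.erase x.1) (by rw [card_erase_of_mem c1]; omega)
            have e2 : Fintype.card α - #(S.erase x.1) = r + 1 := by
              rw [card_erase_of_mem c1]
              omega
            rw [e2] at ih
            linarith
    refine le_trans (av_mono h1) ?_
    rw [av_add, av_const, av_add, av_add]
    have a1 : av (fun x : α × α => ind (x.1 ∉ S)) = (r : ℝ) / Fintype.card α := by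
      rw [av_prod (fun x _ => ind (x ∉ S))]
      simp only [av_const]
      exact av_notMem S
    have a2 : av (fun x : α × α => ind (x.2 ∉ S)) = (r : ℝ) / Fintype.card α := by
      rw [av_prod (fun _ y => ind (y ∉ S))]
      rw [av_const]
      exact av_notMem S
    have a3 : av (fun x : α × α => ind (x.1 = x.2)) = 1 / Fintype.card α := by
      rw [av_prod (fun x y => ind (x = y))]
      have : ∀ x : α, av (fun y => ind (x = y)) = 1 / Fintype.card α := by
        intro x
        have := av_ind ({x} : Finset α)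
        rw [card_singleton, Nat.cast_one] at this
        rw [← this]
        congr 1
        funext y
        exact ind_congr (by rw [mem_singleton]; exact eq_comm)
      simp only [this]
      exact av_const _
    rw [a1, a2, a3, ← add_div, ← add_div, ← add_div]
    apply div_le_div_of_nonneg_right _ hn.le
    push_cast
    nlinarith

end bad

section final
variable {F : Type*} [Field F] [Fintype F]

/-- The average of the box statistic. -/
theorem box_le {α : Type*} [DecidableEq α] [Fintype α] [Nonempty α] (k m : ℕ)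
    (hc : Fintype.card α = (k + 1) + m) :
    EL (k + 1) (fun c : List (α → F) =>
      EL m (fun p : List (α × α) => g (perF (p.map df ++ c) univ)))
      ≤ AA F (k + 1) + (m * (2 * m) : ℝ) / Fintype.card α := by
  rw [EL_comm]
  have h1 : ∀ p : List (α × α), p.length = m →
      EL (k + 1) (fun c : List (α → F) => g (perF (p.map df ++ c) univ))
        ≤ AA F (k + 1) + ind (¬ good univ p) := by
    intro p hp
    by_cases hg : good univ p
    · rw [ind_false (by simpa using hg), add_zero]
      apply le_of_eq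
      apply good_eq (k + 1) p univ hg
      rw [card_univ, hc, hp]
    · rw [ind_true hg]
      have := AA_nonneg (F := F) k
      have h2 : EL (k + 1) (fun c : List (α → F) => g (perF (p.map df ++ c) univ)) ≤ 1 :=
        EL_le_one (k + 1) fun _ _ => g_le_one _
      linarith
  refine le_trans (EL_mono m h1) ?_
  rw [EL_add, EL_const]
  have := bad_le (α := α) m univ (by rw [card_univ, hc]; omega)
  rw [card_univ, Nat.sub_self, Nat.cast_zero, mul_zero, zero_add] at this
  linarith

/-- The recursive inequality. -/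
theorem main_rec (hodd : (2 : F) ≠ 0) (n μ : ℕ) (hn : μ + 3 ≤ n) :
    ZZ F (Fin n) (n - (μ + 1)) (μ + 1)
      ≤ (2 / Fintype.card F : ℝ) * (AA F (n - (μ + 2))
          + ((μ + 2 : ℕ) * (2 * (μ + 2 : ℕ)) : ℝ) / n)
        + (1 - 2 / Fintype.card F : ℝ) * ZZ F (Fin n) (n - (μ + 2)) (μ + 2) := by
  have : Nonempty (Fin n) := ⟨⟨0, by omega⟩⟩
  obtain ⟨k, rfl⟩ : ∃ k, n = (k + 1) + (μ + 2) := ⟨n - (μ + 3), by omega⟩
  have e1 : (k + 1) + (μ + 2) - (μ + 1) = (k + 1) + 1 := by omega
  have e2 : (k + 1) + (μ + 2) - (μ + 2) = k + 1 := by omega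
  rw [e1, e2]
  refine le_trans (ZZ_rec hodd (k + 1) μ) ?_
  have hq : (0 : ℝ) ≤ 2 / Fintype.card F := by positivity
  have := box_le (F := F) (α := Fin ((k + 1) + (μ + 2))) k (μ + 2) (by simp)
  rw [Fintype.card_fin] at this
  have h3 := mul_le_mul_of_nonneg_left this hq
  linarith

/-- The abstract limit argument. -/
theorem limit_zero {A : ℕ → ℝ} {Z : ℕ → ℕ → ℝ} {κ r : ℝ} (hκ0 : 0 < κ) (hκ1 : κ < 1)
    (hr0 : 0 ≤ r) (hr1 : r < 1) (e : ℕ → ℝ)
    (hA0 : ∀ n, 1 ≤ n → 0 ≤ A n) (hA1 : ∀ n, A n ≤ 1)
    (hAZ : ∀ n, 1 ≤ n → A n = Z n 1)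
    (hZ : ∀ n m, m ≤ n → Z n m ≤ r ^ m)
    (hrec : ∀ n μ, μ + 3 ≤ n → Z n (μ + 1) ≤ κ * (A (n - (μ + 2)) + e μ / n)
      + (1 - κ) * Z n (μ + 2)) :
    Tendsto A atTop (𝓝 0) := by
  have hbdd : IsBoundedUnder (· ≤ ·) atTop A := isBoundedUnder_of ⟨1, hA1⟩
  have hbdd' : IsBoundedUnder (· ≥ ·) atTop A :=
    ⟨0, by rw [eventually_map]; exact (eventually_ge_atTop 1).mono hA0⟩
  set L := limsup A atTop with hL
  have hcob : IsCoboundedUnder (· ≤ ·) atTop A := hbdd'.isCoboundedUnder_le
  have h1κ : 0 < 1 - κ := by linarith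
  -- the main estimate
  have hmain : ∀ (M : ℕ) (δ : ℝ), 0 < δ →
      L ≤ (L + 2 * δ) * (1 - (1 - κ) ^ M) + (1 - κ) ^ M * r ^ (M + 1) := by
    intro M δ hδ
    have hev1 : ∀ᶠ n in atTop, A n < L + δ :=
      eventually_lt_of_limsup_lt (by linarith) hbdd
    obtain ⟨N, hN⟩ := eventually_atTop.1 hev1
    have hev2 : ∀ μ, ∀ᶠ n : ℕ in atTop, e μ / n < δ := by
      intro μ
      have : Tendsto (fun n : ℕ => e μ / n) atTop (𝓝 0) := tendsto_const_div_atTop_nhds_zero_nat _
      exact this.eventually_lt_const hδ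
    have hev3 : ∀ᶠ n : ℕ in atTop, ∀ μ ∈ Finset.range M, e μ / n < δ := by
      rw [Filter.eventually_all_finset]
      intro μ _
      exact hev2 μ
    apply limsup_le_of_le hcob
    filter_upwards [hev3, eventually_ge_atTop (N + M + 3)] with n hn3 hn
    have hind : ∀ j, j ≤ M → Z n 1 ≤ (L + 2 * δ) * (1 - (1 - κ) ^ j)
        + (1 - κ) ^ j * Z n (j + 1) := by
      intro j
      induction j with
      | zero => intro _; simp
      | succ j ih =>
        intro hj
        have h1 := ih (by omega)
        have h2 := hrec n j (by omega)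
        have h3 : A (n - (j + 2)) < L + δ := hN _ (by omega)
        have h4 := hn3 j (Finset.mem_range.2 (by omega))
        have h5 : Z n (j + 1) ≤ κ * (L + 2 * δ) + (1 - κ) * Z n (j + 2) := by
          refine le_trans h2 ?_
          have := mul_le_mul_of_nonneg_left (show A (n - (j + 2)) + e j / n ≤ L + 2 * δ by linarith)
            hκ0.le
          linarith
        have h6 := mul_le_mul_of_nonneg_left h5 (pow_nonneg h1κ.le j)
        refine le_trans h1 ?_
        calc (L + 2 * δ) * (1 - (1 - κ) ^ j) + (1 - κ) ^ j * Z n (j + 1)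
            ≤ (L + 2 * δ) * (1 - (1 - κ) ^ j)
              + (1 - κ) ^ j * (κ * (L + 2 * δ) + (1 - κ) * Z n (j + 2)) := by linarith
          _ = (L + 2 * δ) * (1 - (1 - κ) ^ (j + 1)) + (1 - κ) ^ (j + 1) * Z n (j + 1 + 1) := by
              ring
    rw [hAZ n (by omega)]
    refine le_trans (hind M le_rfl) ?_
    have := mul_le_mul_of_nonneg_left (hZ n (M + 1) (by omega)) (pow_nonneg h1κ.le M)
    linarith
  have hL2 : ∀ M : ℕ, L ≤ r ^ (M + 1) := by
    intro M
    have hρ : 0 < (1 - κ) ^ M := pow_pos h1κ M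
    have hρ1 : (1 - κ) ^ M ≤ 1 := pow_le_one₀ h1κ.le (by linarith)
    by_contra hcon
    push Not at hcon
    have hd : 0 < (1 - κ) ^ M * (L - r ^ (M + 1)) / 4 := by
      have : 0 < L - r ^ (M + 1) := by linarith
      positivity
    have := hmain M _ hd
    set d := (1 - κ) ^ M * (L - r ^ (M + 1)) / 4 with hdd
    have h1 : 2 * d * (1 - (1 - κ) ^ M) ≤ 2 * d := by nlinarith
    have h2 : (1 - κ) ^ M * (L - r ^ (M + 1)) = 4 * d := by rw [hdd]; ring
    nlinarith
  have hL3 : L ≤ 0 := by
    have h1 : Tendsto (fun M : ℕ => r ^ (M + 1)) atTop (𝓝 0) :=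
      (tendsto_pow_atTop_nhds_zero_of_lt_one hr0 hr1).comp (tendsto_add_atTop_nat 1)
    exact ge_of_tendsto' h1 hL2
  refine tendsto_order.2 ⟨fun a ha => ?_, fun a ha => ?_⟩
  · filter_upwards [eventually_ge_atTop 1] with n hn
    exact lt_of_lt_of_le ha (hA0 n hn)
  · exact eventually_lt_of_limsup_lt (lt_of_le_of_lt hL3 ha) hbdd

theorem AA_tendsto (hodd : (2 : F) ≠ 0) : Tendsto (AA F) atTop (𝓝 0) := by
  have hq3 : 2 < Fintype.card F := by
    have h1 := Fintype.one_lt_card (α := F)
    rcases Nat.lt_or_ge 2 (Fintype.card F) with h | h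
    · exact h
    · exfalso
      have h2 : Fintype.card F = 2 := le_antisymm h h1
      have h3 : ((Fintype.card F : ℕ) : F) = 0 := by
        exact FiniteField.cast_card_eq_zero F
      rw [h2] at h3
      exact hodd (by exact_mod_cast h3)
  have hq : (2 : ℝ) < Fintype.card F := by exact_mod_cast hq3
  have hq0 : (0 : ℝ) < Fintype.card F := by linarith
  refine limit_zero (A := AA F) (Z := fun n m => ZZ F (Fin n) (n - m) m)
    (κ := 2 / Fintype.card F) (r := 1 / Fintype.card F)
    (by positivity) (by rw [div_lt_one hq0]; exact hq) (by positivity)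
    (by rw [div_lt_one hq0]; linarith)
    (fun μ => ((μ + 2 : ℕ) * (2 * (μ + 2 : ℕ)) : ℝ)) ?_ ?_ ?_ ?_ ?_
  · intro n hn
    obtain ⟨k, rfl⟩ := Nat.exists_eq_add_of_le' hn
    exact AA_nonneg k
  · intro n
    exact EL_le_one n fun _ _ => g_le_one _
  · intro n hn
    obtain ⟨k, rfl⟩ := Nat.exists_eq_add_of_le' hn
    rw [AA_succ]
    rfl
  · intro n m hm
    exact ZZ_le _ _ (by rw [Fintype.card_fin]; omega)
  · intro n μ hn
    exact main_rec hodd n μ hn

end final

end Pool.Agent.R751.Perm
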