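import Pool.Agent.R751.PermF

/-!
# Random permanents over finite fields, part G

The number of matrices with a given permanent.
-/

namespace Pool.Agent.R751.Perm

open Finset Filter Topology

/-- The expansion of `perF` over injections. -/
theorem perF_ofFn {F : Type*} [Field F] {α : Type*} [DecidableEq α] [Fintype α] :
    ∀ (k : ℕ) (f : Fin k → (α → F)) (S : Finset α),
      perF (List.ofFn f) S = ∑ e : Fin k → α,
        if Function.Injective e ∧ univ.image e = S then ∏ i, f i (e i) else 0
  | 0, f, S => by
    rw [List.ofFn_zero, perF_nil, Fintype.sum_unique]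
    have h1 : Function.Injective (default : Fin 0 → α) := fun i => i.elim0
    have h2 : (univ : Finset (Fin 0)).image (default : Fin 0 → α) = ∅ := by simp
    rw [h2]
    simp only [h1, true_and, Finset.univ_eq_empty, Finset.prod_empty]
    by_cases h : S = ∅
    · rw [if_pos h, if_pos h.symm]
    · rw [if_neg h, if_neg (fun hh => h hh.symm)]
  | k + 1, f, S => by
    rw [List.ofFn_succ, perF_cons]
    rw [← Equiv.sum_comp (Fin.consEquiv (fun _ : Fin (k + 1) => α)), Fintype.sum_prod_type]
    have hx : ∀ x : α, (∑ y : Fin k → α,
        if Function.Injective ((Fin.consEquiv (fun _ : Fin (k + 1) => α)) (x, y)) ∧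
          univ.image ((Fin.consEquiv (fun _ : Fin (k + 1) => α)) (x, y)) = S
        then ∏ i, f i ((Fin.consEquiv (fun _ : Fin (k + 1) => α)) (x, y) i) else 0)
        = if x ∈ S then f 0 x * perF (List.ofFn fun i : Fin k => f i.succ) (S.erase x) else 0 := by
      intro x
      have key : ∀ y : Fin k → α,
          (Function.Injective (Fin.cons x y : Fin (k + 1) → α) ∧
            univ.image (Fin.cons x y : Fin (k + 1) → α) = S)
          ↔ (x ∈ S ∧ Function.Injective y ∧ univ.image y = S.erase x) := by
        intro y
        have himg : univ.image (Fin.cons x y : Fin (k + 1) → α) = insert x (univ.image y) := by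
          ext a
          simp only [mem_image, mem_univ, true_and, mem_insert, Fin.exists_fin_succ,
            Fin.cons_zero, Fin.cons_succ]
          constructor
          · rintro (h | h)
            · exact Or.inl h.symm
            · exact Or.inr h
          · rintro (h | h)
            · exact Or.inl h.symm
            · exact Or.inr h
        rw [Fin.cons_injective_iff, himg]
        constructor
        · rintro ⟨⟨h1, h2⟩, h3⟩
          have h4 : x ∉ univ.image y := by
            intro h
            apply h1
            obtain ⟨i, _, hi⟩ := mem_image.1 h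
            exact ⟨i, hi⟩
          refine ⟨?_, h2, ?_⟩
          · rw [← h3]; exact mem_insert_self _ _
          · rw [← h3, erase_insert h4]
        · rintro ⟨h1, h2, h3⟩
          refine ⟨⟨?_, h2⟩, ?_⟩
          · rintro ⟨i, hi⟩
            have : x ∈ univ.image y := mem_image.2 ⟨i, mem_univ _, hi⟩
            rw [h3] at this
            exact (notMem_erase _ _) this
          · rw [h3, insert_erase h1]
      have e1 : ∀ y : Fin k → α,
          (if Function.Injective ((Fin.consEquiv (fun _ : Fin (k + 1) => α)) (x, y)) ∧
            univ.image ((Fin.consEquiv (fun _ : Fin (k + 1) => α)) (x, y)) = S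
          then ∏ i, f i ((Fin.consEquiv (fun _ : Fin (k + 1) => α)) (x, y) i) else 0)
          = if x ∈ S then (f 0 x * if Function.Injective y ∧ univ.image y = S.erase x
              then ∏ i, f (Fin.succ i) (y i) else 0) else 0 := by
        intro y
        have hc : (Fin.consEquiv (fun _ : Fin (k + 1) => α)) (x, y)
            = (Fin.cons x y : Fin (k + 1) → α) := rfl
        rw [hc]
        by_cases hxS : x ∈ S
        · rw [if_pos hxS]
          by_cases hy : Function.Injective y ∧ univ.image y = S.erase x
          · rw [if_pos ((key y).2 ⟨hxS, hy⟩), if_pos hy, Fin.prod_univ_succ]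
            simp
          · rw [if_neg (fun h => hy ((key y).1 h).2), if_neg hy, mul_zero]
        · rw [if_neg hxS, if_neg (fun h => hxS ((key y).1 h).1)]
      rw [sum_congr rfl (fun y _ => e1 y)]
      by_cases hxS : x ∈ S
      · simp only [if_pos hxS]
        rw [perF_ofFn k (fun i : Fin k => f i.succ) (S.erase x), mul_sum]
      · simp only [if_neg hxS]
        exact sum_const_zero
    rw [sum_congr rfl (fun x _ => hx x), Finset.sum_ite_mem, univ_inter]

theorem perF_eq_permanent {F : Type*} [Field F] (n : ℕ) (f : Fin n → (Fin n → F)) :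
    perF (List.ofFn f) univ = (Matrix.of f).permanent := by
  rw [perF_ofFn, ← Matrix.permanent_transpose, Matrix.permanent]
  have h1 : ∀ e : Fin n → Fin n, (if Function.Injective e ∧ univ.image e = univ
      then ∏ i, f i (e i) else 0) = if Function.Bijective e then ∏ i, f i (e i) else 0 := by
    intro e
    by_cases h : Function.Injective e
    · have hb : Function.Bijective e := Finite.injective_iff_bijective.1 h
      have hi : univ.image e = univ := Finset.image_univ_of_surjective hb.2
      rw [if_pos ⟨h, hi⟩, if_pos hb]
    · rw [if_neg (fun hh => h hh.1), if_neg (fun hh => h hh.1)]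
  rw [sum_congr rfl (fun e _ => h1 e), ← sum_filter]
  exact Finset.sum_bij (fun p h ↦ Equiv.ofBijective p (mem_filter.1 h).2) (fun _ _ ↦ mem_univ _)
      (fun _ _ _ _ h ↦ by injection h)
      (fun b _ ↦ ⟨b, mem_filter.2 ⟨mem_univ _, b.bijective⟩, Equiv.coe_fn_injective rfl⟩)
      fun _ _ ↦ rfl

theorem EL_ofFn {V : Type*} [Fintype V] : ∀ (n : ℕ) (Φ : List V → ℝ),
    EL n Φ = av (fun f : Fin n → V => Φ (List.ofFn f))
  | 0, Φ => by
    rw [EL_zero]
    simp only [List.ofFn_zero]
    exact (av_const _).symm
  | n + 1, Φ => by
    rw [EL_succ]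
    have h1 : ∀ x : V, EL n (fun l => Φ (x :: l))
        = av (fun f : Fin n → V => Φ (x :: List.ofFn f)) := fun x => EL_ofFn n _
    simp only [h1]
    rw [← av_prod (fun (x : V) (f : Fin n → V) => Φ (x :: List.ofFn f)),
      ← av_bij _ (Fin.consEquiv (fun _ : Fin (n + 1) => V)).bijective]
    congr 1
    funext x
    show Φ (x.1 :: List.ofFn x.2) = Φ (List.ofFn (Fin.cons x.1 x.2 : Fin (n + 1) → V))
    rw [List.ofFn_cons]

/-- The proportion of matrices with permanent `v`. -/
theorem prop_eq {F : Type*} [Field F] [Fintype F] (n : ℕ) (v : F) :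
    (Nat.card {A : Matrix (Fin n) (Fin n) F // A.permanent = v} : ℝ)
      / (Nat.card F : ℝ) ^ (n ^ 2)
      = EL n (fun c : List (Fin n → F) => ind (perF c univ = v)) := by
  classical
  rw [EL_ofFn]
  simp only [perF_eq_permanent]
  have h1 : (fun f : Fin n → (Fin n → F) => ind ((Matrix.of f).permanent = v))
      = fun f => ind (f ∈ ({f : Fin n → (Fin n → F) | (Matrix.of f).permanent = v} :
        Finset (Fin n → (Fin n → F)))) := by
    funext f
    exact ind_congr (by simp)
  rw [h1, av_ind]
  congr 1
  · congr 1
    rw [Nat.card_eq_fintype_card, Fintype.card_subtype]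
    rfl
  · rw [Nat.card_eq_fintype_card, Fintype.card_fun, Fintype.card_fun, Fintype.card_fin]
    push_cast
    rw [← pow_mul, sq]

theorem prop_succ {F : Type*} [Field F] [Fintype F] (k : ℕ) (v : F) :
    EL (k + 1) (fun c : List (Fin (k + 1) → F) => ind (perF c univ = v))
      = 1 / (Fintype.card F : ℝ) + (ind (v = 0) - 1 / (Fintype.card F : ℝ)) * AA F (k + 1) := by
  classical
  rw [AA_succ, ZZ, EL_succ', ← EL_mul]
  have hc : EL k (fun _ : List (Fin (k + 1) → F) => 1 / (Fintype.card F : ℝ))
      = 1 / (Fintype.card F : ℝ) := EL_const _ _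
  rw [← hc, ← EL_add]
  apply EL_congr
  intro c _
  have hz : ind (∀ l : List (Fin (k + 1) → F), l.length = 1 → perF (l ++ c) univ = 0)
      = ind (∀ x : Fin (k + 1) → F, perF (x :: c) univ = 0) := by
    apply ind_congr
    constructor
    · intro h x
      exact h [x] rfl
    · intro h l hl
      obtain ⟨x, rfl⟩ := List.length_eq_one_iff.1 hl
      exact h x
  rw [hz, hc]
  by_cases h : ∀ x : Fin (k + 1) → F, perF (x :: c) univ = 0
  · rw [ind_true h]
    have : ∀ x : Fin (k + 1) → F, ind (perF (x :: c) univ = v) = ind (v = 0) := by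
      intro x
      rw [h x]
      exact ind_congr eq_comm
    simp only [this]
    rw [av_const]; ring
  · rw [ind_false h, mul_zero, add_zero]
    push Not at h
    obtain ⟨x₀, hx₀⟩ := h
    let ψ : (Fin (k + 1) → F) →+ F :=
      { toFun := fun x => perF (x :: c) univ
        map_zero' := perF_zero c univ
        map_add' := fun x y => perF_add x y c univ }
    have hs : Function.Surjective ψ := by
      intro w
      refine ⟨(w / perF (x₀ :: c) univ) • x₀, ?_⟩
      show perF _ _ = w
      rw [perF_smul]; field_simp
    have := av_hom ψ hs (fun w => ind (w = v))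
    refine this.trans ?_
    have h2 := av_ind ({v} : Finset F)
    rw [card_singleton, Nat.cast_one] at h2
    rw [← h2]
    congr 1
    funext w
    exact ind_congr (by rw [mem_singleton])

/-- **Main theorem.** Over a finite field of odd cardinality the permanent of a uniformly random
`n × n` matrix becomes equidistributed as `n → ∞`. -/
theorem permanent_equidistributed (F : Type*) [Field F] [Finite F] (hF : Odd (Nat.card F))
    (v : F) :
    Tendsto (fun n : ℕ =>
      (Nat.card {A : Matrix (Fin n) (Fin n) F // A.permanent = v} : ℝ)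
        / (Nat.card F : ℝ) ^ (n ^ 2))
      atTop (𝓝 (1 / (Nat.card F : ℝ))) := by
  have := Fintype.ofFinite F
  have h2 : (2 : F) ≠ 0 := by
    intro h
    have h3 : ringChar F ∣ 2 := ringChar.dvd (by exact_mod_cast h)
    have h4 : ringChar F = 2 := by
      rcases (Nat.dvd_prime Nat.prime_two).1 h3 with h5 | h5
      · exfalso
        have := CharP.char_ne_one F (ringChar F)
        exact this h5
      · exact h5
    have h5 := FiniteField.even_card_iff_char_two.1 h4
    rw [Nat.card_eq_fintype_card, Nat.odd_iff] at hF
    omega
  have h1 := AA_tendsto (F := F) h2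
  have h3 : Tendsto (fun n => 1 / (Fintype.card F : ℝ)
      + (ind (v = 0) - 1 / (Fintype.card F : ℝ)) * AA F n) atTop
      (𝓝 (1 / (Fintype.card F : ℝ) + (ind (v = 0) - 1 / (Fintype.card F : ℝ)) * 0)) :=
    tendsto_const_nhds.add (tendsto_const_nhds.mul h1)
  rw [mul_zero, add_zero] at h3
  rw [Nat.card_eq_fintype_card (α := F)]
  refine Tendsto.congr' ?_ h3
  filter_upwards [eventually_ge_atTop 1] with n hn
  obtain ⟨k, rfl⟩ := Nat.exists_eq_add_of_le' hn
  rw [← prop_succ, ← prop_eq, Nat.card_eq_fintype_card (α := F)]

end Pool.Agent.R751.Perm
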