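import Pool.Agent.R751.BoxLemmas

set_option autoImplicit false
open MeasureTheory Set
open scoped Pointwise

namespace Pool.Agent.R751

/-- Euclidean three-space -/
abbrev E3 := EuclideanSpace ℝ (Fin 3)

lemma vol_Box3 (b : OrthonormalBasis (Fin 3) ℝ E3) (l0 l1 l2 u0 u1 u2 : ℝ)
    (h0 : l0 ≤ u0) (h1 : l1 ≤ u1) (h2 : l2 ≤ u2) :
    (volume (Box b ![l0, l1, l2] ![u0, u1, u2])).toReal = (u0 - l0) * (u1 - l1) * (u2 - l2) := by
  rw [volume_Box_toReal, Fin.prod_univ_three]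
  · simp
  · intro i
    fin_cases i <;> simp [h0, h1, h2]

lemma mem_Box3 (b : OrthonormalBasis (Fin 3) ℝ E3) (l0 l1 l2 u0 u1 u2 : ℝ) (x : E3) :
    x ∈ Box b ![l0, l1, l2] ![u0, u1, u2] ↔
      inner ℝ (b 0) x ∈ Icc l0 u0 ∧ inner ℝ (b 1) x ∈ Icc l1 u1 ∧ inner ℝ (b 2) x ∈ Icc l2 u2 := by
  constructor
  · intro h
    exact ⟨h 0, h 1, h 2⟩
  · rintro ⟨h0, h1, h2⟩ i
    fin_cases i
    · exact h0
    · exact h1
    · exact h2

lemma inner_b (b : OrthonormalBasis (Fin 3) ℝ E3) (i j : Fin 3) :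
    inner ℝ (b i) (b j) = if i = j then (1:ℝ) else 0 :=
  (orthonormal_iff_ite.1 b.orthonormal) i j

lemma T_sub_Box0 (b : OrthonormalBasis (Fin 3) ℝ E3) {M : Set E3} {l0 l1 l2 u0 u1 u2 : ℝ}
    (hM : M ⊆ Box b ![l0, l1, l2] ![u0, u1, u2]) (h : ℝ) :
    T M (b 0) h ⊆ Box b ![l0, l1, l2] ![u0 + h, u1, u2] := by
  rintro x ⟨m, hm, s, hs, rfl⟩
  have h1 := (mem_Box3 b _ _ _ _ _ _ m).1 (hM hm)
  rw [mem_Box3]
  simp only [inner_add_right, inner_smul_right, inner_b]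
  obtain ⟨⟨a1, a2⟩, ⟨a3, a4⟩, ⟨a5, a6⟩⟩ := h1
  obtain ⟨s1, s2⟩ := hs
  refine ⟨⟨?_, ?_⟩, ⟨?_, ?_⟩, ⟨?_, ?_⟩⟩ <;> simp <;> linarith

lemma T_sub_Box1 (b : OrthonormalBasis (Fin 3) ℝ E3) {M : Set E3} {l0 l1 l2 u0 u1 u2 : ℝ}
    (hM : M ⊆ Box b ![l0, l1, l2] ![u0, u1, u2]) (h : ℝ) :
    T M (b 1) h ⊆ Box b ![l0, l1, l2] ![u0, u1 + h, u2] := by
  rintro x ⟨m, hm, s, hs, rfl⟩
  have h1 := (mem_Box3 b _ _ _ _ _ _ m).1 (hM hm)
  rw [mem_Box3]
  simp only [inner_add_right, inner_smul_right, inner_b]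
  obtain ⟨⟨a1, a2⟩, ⟨a3, a4⟩, ⟨a5, a6⟩⟩ := h1
  obtain ⟨s1, s2⟩ := hs
  refine ⟨⟨?_, ?_⟩, ⟨?_, ?_⟩, ⟨?_, ?_⟩⟩ <;> simp <;> linarith

lemma T_sub_Box2 (b : OrthonormalBasis (Fin 3) ℝ E3) {M : Set E3} {l0 l1 l2 u0 u1 u2 : ℝ}
    (hM : M ⊆ Box b ![l0, l1, l2] ![u0, u1, u2]) (h : ℝ) :
    T M (b 2) h ⊆ Box b ![l0, l1, l2] ![u0, u1, u2 + h] := by
  rintro x ⟨m, hm, s, hs, rfl⟩
  have h1 := (mem_Box3 b _ _ _ _ _ _ m).1 (hM hm)
  rw [mem_Box3]
  simp only [inner_add_right, inner_smul_right, inner_b]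
  obtain ⟨⟨a1, a2⟩, ⟨a3, a4⟩, ⟨a5, a6⟩⟩ := h1
  obtain ⟨s1, s2⟩ := hs
  refine ⟨⟨?_, ?_⟩, ⟨?_, ?_⟩, ⟨?_, ?_⟩⟩ <;> simp <;> linarith

lemma vol_mono_real {M N : Set E3} (h : M ⊆ N) (hN : IsCompact N) :
    (volume M).toReal ≤ (volume N).toReal :=
  ENNReal.toReal_mono hN.measure_lt_top.ne (measure_mono h)

/-- a ball is contained in a cube -/
lemma ball_sub (b : OrthonormalBasis (Fin 3) ℝ E3) (P : Set E3) {t : ℝ} :
    P + Metric.closedBall (0 : E3) t ⊆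
      (fun x => (-t) • b 0 + ((-t) • b 1 + (-t) • b 2) + x) ''
        T (T (T P (b 2) (2 * t)) (b 0) (2 * t)) (b 1) (2 * t) := by
  rintro z ⟨x, hx, y, hy, rfl⟩
  rw [Metric.mem_closedBall, dist_zero_right] at hy
  have hb : ∀ i, -t ≤ inner ℝ (b i) y ∧ inner ℝ (b i) y ≤ t := by
    intro i
    rw [← abs_le]
    refine (abs_real_inner_le_norm _ _).trans ?_
    rw [b.orthonormal.1 i, one_mul]
    exact hy
  have hsum : y = inner ℝ (b 0) y • b 0 + inner ℝ (b 1) y • b 1 + inner ℝ (b 2) y • b 2 := by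
    conv_lhs => rw [← b.sum_repr' y]
    rw [Fin.sum_univ_three]
  refine ⟨x + (inner ℝ (b 2) y + t) • b 2 + (inner ℝ (b 0) y + t) • b 0 +
      (inner ℝ (b 1) y + t) • b 1, ?_, ?_⟩
  · refine ⟨_, ⟨_, ⟨x, hx, _, ⟨?_, ?_⟩, rfl⟩, _, ⟨?_, ?_⟩, rfl⟩, _, ⟨?_, ?_⟩, rfl⟩
    · linarith [(hb 2).1]
    · linarith [(hb 2).2]
    · linarith [(hb 0).1]
    · linarith [(hb 0).2]
    · linarith [(hb 1).1]
    · linarith [(hb 1).2]
  · change (-t) • b 0 + ((-t) • b 1 + (-t) • b 2) + (x + (inner ℝ (b 2) y + t) • b 2 +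
      (inner ℝ (b 0) y + t) • b 0 + (inner ℝ (b 1) y + t) • b 1) = x + y
    conv_rhs => rw [hsum]
    module

lemma planar_upper (b : OrthonormalBasis (Fin 3) ℝ E3) {P : Set E3} (hPc : IsCompact P)
    (hP : Convex ℝ P) {R t : ℝ} (hR : 0 ≤ R) (ht : 0 < t)
    (hPb : P ⊆ Box b ![-R, -R, 0] ![R, R, 0]) :
    (volume (P + Metric.closedBall (0 : E3) t)).toReal ≤
      2 * t * slope P (b 2) + 16 * R * t ^ 2 + 8 * t ^ 3 := by
  have ht2 : 0 ≤ 2 * t := by linarith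
  have hP0 : (volume P).toReal = 0 := by
    have h1 := vol_mono_real hPb (Box_compact _ _ _)
    rw [vol_Box3 b _ _ _ _ _ _ (by linarith) (by linarith) le_rfl] at h1
    have h2 : 0 ≤ (volume P).toReal := ENNReal.toReal_nonneg
    linarith
  set N0 := T P (b 2) (2 * t) with hN0
  set N1 := T N0 (b 0) (2 * t) with hN1
  have c0 : IsCompact N0 := T_compact hPc _ _
  have v0 : Convex ℝ N0 := T_convex hP _ _
  have c1 : IsCompact N1 := T_compact c0 _ _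
  have v1 : Convex ℝ N1 := T_convex v0 _ _
  have e0 : (volume N0).toReal = 2 * t * slope P (b 2) := by
    have := G_eq hPc hP (b 2) ht2
    rw [hP0, zero_add] at this
    exact this
  have e1 : (volume N1).toReal = (volume N0).toReal + 2 * t * slope N0 (b 0) := G_eq c0 v0 (b 0) ht2
  have e2 : (volume (T N1 (b 1) (2 * t))).toReal = (volume N1).toReal + 2 * t * slope N1 (b 1) :=
    G_eq c1 v1 (b 1) ht2
  have b0 : N0 ⊆ Box b ![-R, -R, 0] ![R, R, 0 + 2 * t] := T_sub_Box2 b hPb _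
  have b1 : N1 ⊆ Box b ![-R, -R, 0] ![R + 2 * t, R, 0 + 2 * t] := T_sub_Box0 b b0 _
  have s0 : slope N0 (b 0) ≤ 4 * R * t := by
    refine slope_le c0 v0 _ (α := 2 * R * (2 * R) * (2 * t)) fun h hh => ?_
    refine (vol_mono_real (T_sub_Box0 b b0 h) (Box_compact _ _ _)).trans ?_
    rw [vol_Box3 b _ _ _ _ _ _ (by linarith) (by linarith) (by linarith)]
    nlinarith
  have s1 : slope N1 (b 1) ≤ (2 * R + 2 * t) * (2 * t) := by
    refine slope_le c1 v1 _ (α := (2 * R + 2 * t) * (2 * R) * (2 * t)) fun h hh => ?_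
    refine (vol_mono_real (T_sub_Box1 b b1 h) (Box_compact _ _ _)).trans ?_
    rw [vol_Box3 b _ _ _ _ _ _ (by linarith) (by linarith) (by linarith)]
    nlinarith
  have h3 : (volume (P + Metric.closedBall (0 : E3) t)).toReal ≤
      (volume (T N1 (b 1) (2 * t))).toReal := by
    refine ENNReal.toReal_mono (T_vol_ne_top c1 _ _) ((measure_mono (ball_sub b P)).trans ?_)
    rw [image_add_left, measure_preimage_add]
  rw [e2, e1, e0] at h3
  have h4 : 2 * t * slope N0 (b 0) ≤ 2 * t * (4 * R * t) := mul_le_mul_of_nonneg_left s0 ht2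
  have h5 : 2 * t * slope N1 (b 1) ≤ 2 * t * ((2 * R + 2 * t) * (2 * t)) :=
    mul_le_mul_of_nonneg_left s1 ht2
  nlinarith

lemma planar_lower (b : OrthonormalBasis (Fin 3) ℝ E3) {P : Set E3} (hPc : IsCompact P)
    (hP : Convex ℝ P) {R r t : ℝ} (hR : 0 ≤ R) (hr : 0 ≤ r) (ht : 0 < t)
    (hPb : P ⊆ Box b ![-R, -R, 0] ![R, R, 0])
    (hPr : ∀ β ∈ Icc (-r) r, β • b 1 ∈ P) :
    2 * t * slope P (b 2) + 2 * r * t ^ 2 ≤
      (volume (P + Metric.closedBall (0 : E3) t)).toReal := by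
  have ht2 : 0 ≤ 2 * t := by linarith
  have hP0 : (volume P).toReal = 0 := by
    have h1 := vol_mono_real hPb (Box_compact _ _ _)
    rw [vol_Box3 b _ _ _ _ _ _ (by linarith) (by linarith) le_rfl] at h1
    have h2 : 0 ≤ (volume P).toReal := ENNReal.toReal_nonneg
    linarith
  have hflat : ∀ x ∈ P, inner ℝ (b 2) x = 0 := by
    intro x hx
    have h1 := ((mem_Box3 b _ _ _ _ _ _ x).1 (hPb hx)).2.2
    exact le_antisymm h1.2 h1.1
  -- the three translated sets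
  set X1 : Set E3 := (fun x => (-t) • b 2 + x) '' T P (b 2) (2 * t) with hX1
  set X3 : Set E3 := (fun x => (-(t/2)) • b 2 + x) '' T P (b 2) t with hX3
  set X2 : Set E3 := (fun x => (-(t/2)) • b 0 + (-(t/2)) • b 2 + x) '' T (T P (b 2) t) (b 0) t with hX2
  have c3 : IsCompact (T P (b 2) t) := T_compact hPc _ _
  have v3 : Convex ℝ (T P (b 2) t) := T_convex hP _ _
  have m1 : MeasurableSet X1 := ((T_compact hPc _ _).image (by fun_prop)).measurableSet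
  have m2 : MeasurableSet X2 := ((T_compact c3 _ _).image (by fun_prop)).measurableSet
  have e1 : (volume X1).toReal = 2 * t * slope P (b 2) := by
    have h1 := G_eq hPc hP (b 2) ht2
    rw [hP0, zero_add] at h1
    rw [hX1, G_translate]
    exact h1
  have e3 : (volume X3).toReal = t * slope P (b 2) := by
    have h1 := G_eq hPc hP (b 2) ht.le
    rw [hP0, zero_add] at h1
    rw [hX3, G_translate]
    exact h1
  have e2 : (volume X2).toReal = t * slope P (b 2) + t * slope (T P (b 2) t) (b 0) := by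
    have h1 := G_eq c3 v3 (b 0) ht.le
    have h2 := G_eq hPc hP (b 2) ht.le
    rw [hP0, zero_add] at h2
    rw [hX2, G_translate]
    change (volume (T P (b 2) t)).toReal = _ at h2
    rw [h2] at h1
    exact h1
  have s2 : 2 * r * t ≤ slope (T P (b 2) t) (b 0) := by
    refine le_slope c3 v3 _ (α := 0) fun h hh => ?_
    have hsub : Box b ![0, -r, 0] ![h, r, t] ⊆ T (T P (b 2) t) (b 0) h := by
      intro x hx
      obtain ⟨h0, h1, h2⟩ := (mem_Box3 b _ _ _ _ _ _ x).1 hx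
      refine ⟨_, ⟨_, hPr _ h1, _, h2, rfl⟩, _, h0, ?_⟩
      conv_lhs => rw [← b.sum_repr' x]
      rw [Fin.sum_univ_three]
      module
    have h1 := vol_mono_real hsub (T_compact c3 _ _)
    rw [vol_Box3 b _ _ _ _ _ _ hh (by linarith) ht.le] at h1
    change _ ≤ G (T P (b 2) t) (b 0) h at h1
    linarith
  have hsub1 : X1 ⊆ P + Metric.closedBall (0 : E3) t := by
    rintro _ ⟨_, ⟨x, hx, s, hs, rfl⟩, rfl⟩
    refine ⟨x, hx, (s - t) • b 2, ?_, ?_⟩
    · rw [Metric.mem_closedBall, dist_zero_right, norm_smul, b.orthonormal.1 2, mul_one,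
        Real.norm_eq_abs, abs_le]
      constructor <;> linarith [hs.1, hs.2]
    · change x + (s - t) • b 2 = (-t) • b 2 + (x + s • b 2)
      module
  have hsub2 : X2 ⊆ P + Metric.closedBall (0 : E3) t := by
    rintro _ ⟨_, ⟨_, ⟨x, hx, s, hs, rfl⟩, s', hs', rfl⟩, rfl⟩
    refine ⟨x, hx, (s - t/2) • b 2 + (s' - t/2) • b 0, ?_, ?_⟩
    · rw [Metric.mem_closedBall, dist_zero_right]
      refine (norm_add_le _ _).trans ?_
      rw [norm_smul, norm_smul, b.orthonormal.1 2, b.orthonormal.1 0, mul_one, mul_one,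
        Real.norm_eq_abs, Real.norm_eq_abs]
      have h1 : |s - t/2| ≤ t/2 := by rw [abs_le]; constructor <;> linarith [hs.1, hs.2]
      have h2 : |s' - t/2| ≤ t/2 := by rw [abs_le]; constructor <;> linarith [hs'.1, hs'.2]
      linarith
    · change x + ((s - t/2) • b 2 + (s' - t/2) • b 0) =
        (-(t/2)) • b 0 + (-(t/2)) • b 2 + (x + s • b 2 + s' • b 0)
      module
  have hinter : X1 ∩ X2 ⊆ X3 := by
    rintro _ ⟨⟨_, ⟨x, hx, s, hs, rfl⟩, rfl⟩, ⟨_, ⟨_, ⟨y, hy, σ, hσ, rfl⟩, σ', hσ', rfl⟩, he⟩⟩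
    have he' : (-(t/2)) • b 0 + (-(t/2)) • b 2 + (y + σ • b 2 + σ' • b 0) =
      (-t) • b 2 + (x + s • b 2) := he
    have h1 := congrArg (fun z => inner ℝ (b 2) z) he'
    simp only [inner_add_right, inner_smul_right, inner_b, hflat x hx, hflat y hy] at h1
    simp at h1
    refine ⟨_, ⟨x, hx, s - t/2, ⟨by linarith [hσ.1], by linarith [hσ.2]⟩, rfl⟩, ?_⟩
    change (-(t/2)) • b 2 + (x + (s - t/2) • b 2) = (-t) • b 2 + (x + s • b 2)
    module
  have hfin : volume (P + Metric.closedBall (0 : E3) t) ≠ ⊤ :=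
    (hPc.add (isCompact_closedBall _ _)).measure_lt_top.ne
  have hX1f : volume X1 ≠ ⊤ := ((T_compact hPc _ _).image (by fun_prop)).measure_lt_top.ne
  have hX2f : volume X2 ≠ ⊤ := ((T_compact c3 _ _).image (by fun_prop)).measure_lt_top.ne
  have hX3f : volume X3 ≠ ⊤ := (c3.image (by fun_prop)).measure_lt_top.ne
  have h6 : volume X1 + volume X2 ≤ volume (P + Metric.closedBall (0 : E3) t) + volume X3 := by
    rw [← measure_union_add_inter X1 m2]
    exact add_le_add (measure_mono (union_subset hsub1 hsub2)) (measure_mono hinter)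
  have h7 := ENNReal.toReal_mono (ENNReal.add_ne_top.2 ⟨hfin, hX3f⟩) h6
  rw [ENNReal.toReal_add hX1f hX2f, ENNReal.toReal_add hfin hX3f, e1, e2, e3] at h7
  have h8 : t * (2 * r * t) ≤ t * slope (T P (b 2) t) (b 0) := mul_le_mul_of_nonneg_left s2 ht.le
  nlinarith

end Pool.Agent.R751
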