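import Pool.Agent.R751.PlateA

set_option autoImplicit false
open MeasureTheory Set
open scoped Pointwise

namespace Pool.Agent.R751

/-- the standard frame -/
noncomputable abbrev std3 : OrthonormalBasis (Fin 3) ℝ E3 := EuclideanSpace.basisFun (Fin 3) ℝ

/-- the plate -/
def plate (ε : ℝ) : Set E3 := Box std3 ![-1, -1, -ε] ![1, 1, ε]

lemma inner_std (i : Fin 3) (x : E3) : inner ℝ (std3 i) x = x i := by
  simp [std3, EuclideanSpace.inner_single_left]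

lemma mem_plate {ε : ℝ} {x : E3} :
    x ∈ plate ε ↔ |x 0| ≤ 1 ∧ |x 1| ≤ 1 ∧ |x 2| ≤ ε := by
  rw [plate, mem_Box3]
  simp only [inner_std, abs_le]
  rfl

lemma plate_vol {ε : ℝ} (hε : 0 ≤ ε) : (volume (plate ε)).toReal = 8 * ε := by
  rw [plate, vol_Box3 _ _ _ _ _ _ _ (by norm_num) (by norm_num) (by linarith)]
  ring

lemma plate_norm {ε : ℝ} (hε : 0 ≤ ε) (hε1 : ε ≤ 1) {x : E3} (hx : x ∈ plate ε) : ‖x‖ ≤ 2 := by
  obtain ⟨h0, h1, h2⟩ := mem_plate.1 hx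
  rw [EuclideanSpace.norm_eq]
  rw [Real.sqrt_le_left (by norm_num), Fin.sum_univ_three]
  simp only [Real.norm_eq_abs]
  have a0 := abs_nonneg (x 0)
  have a1 := abs_nonneg (x 1)
  have a2 := abs_nonneg (x 2)
  nlinarith

/-- the volume of a parallel body of the plate -/
lemma plate_upper {ε t : ℝ} (hε : 0 ≤ ε) (ht : 0 < t) :
    (volume (plate ε + Metric.closedBall (0 : E3) t)).toReal ≤
      8 * (1 + t) ^ 2 * (ε + t) := by
  have hsub : plate ε + Metric.closedBall (0 : E3) t ⊆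
      Box std3 ![-1 - t, -1 - t, -ε - t] ![1 + t, 1 + t, ε + t] := by
    rintro _ ⟨x, hx, y, hy, rfl⟩
    rw [Metric.mem_closedBall, dist_zero_right] at hy
    have hb : ∀ i, -t ≤ inner ℝ (std3 i) y ∧ inner ℝ (std3 i) y ≤ t := by
      intro i
      rw [← abs_le]
      refine (abs_real_inner_le_norm _ _).trans ?_
      rw [std3.orthonormal.1 i, one_mul]
      exact hy
    obtain ⟨⟨a1, a2⟩, ⟨a3, a4⟩, ⟨a5, a6⟩⟩ := (mem_Box3 _ _ _ _ _ _ _ x).1 hx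
    rw [mem_Box3]
    simp only [inner_add_right]
    refine ⟨⟨?_, ?_⟩, ⟨?_, ?_⟩, ⟨?_, ?_⟩⟩
    · linarith [(hb 0).1]
    · linarith [(hb 0).2]
    · linarith [(hb 1).1]
    · linarith [(hb 1).2]
    · linarith [(hb 2).1]
    · linarith [(hb 2).2]
  refine (vol_mono_real hsub (Box_compact _ _ _)).trans ?_
  rw [vol_Box3 _ _ _ _ _ _ _ (by linarith) (by linarith) (by linarith)]
  apply le_of_eq
  ring

lemma mem_parallel (b : OrthonormalBasis (Fin 3) ℝ E3) (l u : Fin 3 → ℝ) (i : Fin 3) {t : ℝ}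
    (ht : 0 ≤ t) (hlu : l i ≤ u i) {x : E3} (hx : ∀ j, j ≠ i → inner ℝ (b j) x ∈ Icc (l j) (u j))
    (hi : inner ℝ (b i) x ∈ Icc (l i - t) (u i + t)) :
    x ∈ Box b l u + Metric.closedBall (0 : E3) t := by
  set c := max (l i) (min (u i) (inner ℝ (b i) x)) with hc
  have hc1 : c ∈ Icc (l i) (u i) := ⟨le_max_left _ _, max_le hlu (min_le_left _ _)⟩
  have hc2 : |inner ℝ (b i) x - c| ≤ t := by
    obtain ⟨h1, h2⟩ := hi
    rw [abs_le]
    constructor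
    · have : c ≤ inner ℝ (b i) x + t := by
        refine max_le (by linarith) ((min_le_right _ _).trans (by linarith))
      linarith
    · have : inner ℝ (b i) x - t ≤ c := by
        rcases le_total (u i) (inner ℝ (b i) x) with h | h
        · rw [hc, min_eq_left h]
          exact le_trans (by linarith) (le_max_right _ _)
        · rw [hc, min_eq_right h]
          exact le_trans (by linarith) (le_max_right _ _)
      linarith
  refine ⟨x - (inner ℝ (b i) x - c) • b i, ?_, (inner ℝ (b i) x - c) • b i, ?_, by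
    change x - (inner ℝ (b i) x - c) • b i + (inner ℝ (b i) x - c) • b i = x
    abel⟩
  · intro j
    rw [inner_sub_right, inner_smul_right, inner_b]
    by_cases hj : j = i
    · subst hj
      simp only [if_true, mul_one, sub_sub_cancel]
      exact hc1
    · rw [if_neg hj, mul_zero, sub_zero]
      exact hx j hj
  · rw [Metric.mem_closedBall, dist_zero_right, norm_smul, b.orthonormal.1 i, mul_one]
    exact hc2

lemma plate_lower {ε t : ℝ} (hε : 0 ≤ ε) (ht : 0 < t) :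
    8 * ε + 2 * t * (4 + 8 * ε) ≤ (volume (plate ε + Metric.closedBall (0 : E3) t)).toReal := by
  set A0 : Set E3 := Box std3 ![-1 - t, -1, -ε] ![1 + t, 1, ε] with hA0
  set A1 : Set E3 := Box std3 ![-1, -1 - t, -ε] ![1, 1 + t, ε] with hA1
  set A2 : Set E3 := Box std3 ![-1, -1, -ε - t] ![1, 1, ε + t] with hA2
  have v0 : (volume A0).toReal = (2 + 2 * t) * 2 * (2 * ε) := by
    rw [hA0, vol_Box3 _ _ _ _ _ _ _ (by linarith) (by linarith) (by linarith)]; ring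
  have v1 : (volume A1).toReal = (2 + 2 * t) * 2 * (2 * ε) := by
    rw [hA1, vol_Box3 _ _ _ _ _ _ _ (by linarith) (by linarith) (by linarith)]; ring
  have v2 : (volume A2).toReal = 2 * 2 * (2 * ε + 2 * t) := by
    rw [hA2, vol_Box3 _ _ _ _ _ _ _ (by linarith) (by linarith) (by linarith)]; ring
  have vK := plate_vol hε
  set K := plate ε with hK
  set Q := K + Metric.closedBall (0 : E3) t with hQ
  have s0 : A0 ⊆ Q := by
    intro x hx
    obtain ⟨h0, h1, h2⟩ := (mem_Box3 _ _ _ _ _ _ _ x).1 hx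
    refine mem_parallel std3 _ _ 0 ht.le (by simp) ?_ h0
    intro j hj
    fin_cases j
    · exact absurd rfl hj
    · exact h1
    · exact h2
  have s1 : A1 ⊆ Q := by
    intro x hx
    obtain ⟨h0, h1, h2⟩ := (mem_Box3 _ _ _ _ _ _ _ x).1 hx
    refine mem_parallel std3 _ _ 1 ht.le (by simp) ?_ h1
    intro j hj
    fin_cases j
    · exact h0
    · exact absurd rfl hj
    · exact h2
  have s2 : A2 ⊆ Q := by
    intro x hx
    obtain ⟨h0, h1, h2⟩ := (mem_Box3 _ _ _ _ _ _ _ x).1 hx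
    refine mem_parallel std3 _ _ 2 ht.le (by simp; linarith) ?_ h2
    intro j hj
    fin_cases j
    · exact h0
    · exact h1
    · exact absurd rfl hj
  have k0 : K ⊆ A0 := by
    intro x hx
    obtain ⟨⟨a1, a2⟩, ⟨a3, a4⟩, ⟨a5, a6⟩⟩ := (mem_Box3 _ _ _ _ _ _ _ x).1 hx
    exact (mem_Box3 _ _ _ _ _ _ _ x).2 ⟨⟨by linarith, by linarith⟩, ⟨a3, a4⟩, ⟨a5, a6⟩⟩
  have k1 : K ⊆ A1 := by
    intro x hx
    obtain ⟨⟨a1, a2⟩, ⟨a3, a4⟩, ⟨a5, a6⟩⟩ := (mem_Box3 _ _ _ _ _ _ _ x).1 hx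
    exact (mem_Box3 _ _ _ _ _ _ _ x).2 ⟨⟨a1, a2⟩, ⟨by linarith, by linarith⟩, ⟨a5, a6⟩⟩
  have k2 : K ⊆ A2 := by
    intro x hx
    obtain ⟨⟨a1, a2⟩, ⟨a3, a4⟩, ⟨a5, a6⟩⟩ := (mem_Box3 _ _ _ _ _ _ _ x).1 hx
    exact (mem_Box3 _ _ _ _ _ _ _ x).2 ⟨⟨a1, a2⟩, ⟨a3, a4⟩, ⟨by linarith, by linarith⟩⟩
  have i01 : A0 ∩ A1 ⊆ K := by
    rintro x ⟨hx, hy⟩
    obtain ⟨⟨a1, a2⟩, ⟨a3, a4⟩, ⟨a5, a6⟩⟩ := (mem_Box3 _ _ _ _ _ _ _ x).1 hx
    obtain ⟨⟨c1, c2⟩, ⟨c3, c4⟩, ⟨c5, c6⟩⟩ := (mem_Box3 _ _ _ _ _ _ _ x).1 hy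
    exact (mem_Box3 _ _ _ _ _ _ _ x).2 ⟨⟨c1, c2⟩, ⟨a3, a4⟩, ⟨a5, a6⟩⟩
  have i2 : (A0 ∪ A1) ∩ A2 ⊆ K := by
    rintro x ⟨hx, hy⟩
    obtain ⟨⟨c1, c2⟩, ⟨c3, c4⟩, ⟨c5, c6⟩⟩ := (mem_Box3 _ _ _ _ _ _ _ x).1 hy
    rcases hx with hx | hx
    · obtain ⟨⟨a1, a2⟩, ⟨a3, a4⟩, ⟨a5, a6⟩⟩ := (mem_Box3 _ _ _ _ _ _ _ x).1 hx
      exact (mem_Box3 _ _ _ _ _ _ _ x).2 ⟨⟨c1, c2⟩, ⟨c3, c4⟩, ⟨a5, a6⟩⟩
    · obtain ⟨⟨a1, a2⟩, ⟨a3, a4⟩, ⟨a5, a6⟩⟩ := (mem_Box3 _ _ _ _ _ _ _ x).1 hx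
      exact (mem_Box3 _ _ _ _ _ _ _ x).2 ⟨⟨c1, c2⟩, ⟨c3, c4⟩, ⟨a5, a6⟩⟩
  have m1 : MeasurableSet A1 := (Box_compact _ _ _).measurableSet
  have m2 : MeasurableSet A2 := (Box_compact _ _ _).measurableSet
  have hQf : volume Q ≠ ⊤ := ((Box_compact _ _ _).add (isCompact_closedBall _ _)).measure_lt_top.ne
  have hKf : volume K ≠ ⊤ := (Box_compact _ _ _).measure_lt_top.ne
  have hA0f : volume A0 ≠ ⊤ := (Box_compact _ _ _).measure_lt_top.ne
  have hA1f : volume A1 ≠ ⊤ := (Box_compact _ _ _).measure_lt_top.ne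
  have hA2f : volume A2 ≠ ⊤ := (Box_compact _ _ _).measure_lt_top.ne
  have h1 : volume A0 + volume A1 + volume A2 ≤ volume Q + volume K + volume K := by
    rw [← measure_union_add_inter A0 m1, add_right_comm, ← measure_union_add_inter (A0 ∪ A1) m2]
    refine add_le_add (add_le_add (measure_mono ?_) (measure_mono i2)) (measure_mono i01)
    exact union_subset (union_subset s0 s1) s2
  have h2 := ENNReal.toReal_mono (by simp [ENNReal.add_eq_top, hQf, hKf]) h1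
  rw [ENNReal.toReal_add (by simp [ENNReal.add_eq_top, hA0f, hA1f]) hA2f,
    ENNReal.toReal_add hA0f hA1f, ENNReal.toReal_add (by simp [ENNReal.add_eq_top, hQf, hKf]) hKf,
    ENNReal.toReal_add hQf hKf, v0, v1, v2, vK] at h2
  linarith

end Pool.Agent.R751
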