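import Pool.Agent.R751.PlateB

set_option autoImplicit false
open MeasureTheory Set
open scoped Pointwise

namespace Pool.Agent.R751

/-- the orthogonal projection of `K` along `u` -/
def prj (u : E3) (K : Set E3) : Set E3 := (fun x : E3 => x - (inner ℝ u x) • u) '' K

lemma prj_compact (u : E3) {K : Set E3} (hK : IsCompact K) : IsCompact (prj u K) :=
  hK.image (by fun_prop)

lemma prj_convex (u : E3) {K : Set E3} (hK : Convex ℝ K) : Convex ℝ (prj u K) := by
  rintro _ ⟨x, hx, rfl⟩ _ ⟨y, hy, rfl⟩ a b ha hb hab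
  refine ⟨a • x + b • y, hK hx hy ha hb hab, ?_⟩
  simp only [inner_add_right, inner_smul_right]
  module

/-- projecting does not change the slope -/
lemma slope_prj {u : E3} (hu : ‖u‖ = 1) {K : Set E3} (hKc : IsCompact K) (hK : Convex ℝ K)
    {R : ℝ} (hR : 0 ≤ R) (hKR : ∀ x ∈ K, ‖x‖ ≤ R) : slope (prj u K) u = slope K u := by
  have hin : ∀ x ∈ K, |inner ℝ u x| ≤ R := by
    intro x hx
    refine (abs_real_inner_le_norm _ _).trans ?_
    rw [hu, one_mul]
    exact hKR x hx
  apply le_antisymm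
  · refine slope_le_slope (prj_compact u hKc) (prj_convex u hK) hKc hK u ((-R) • u) (2 * R)
      (by linarith) fun h hh => ?_
    rintro _ ⟨_, ⟨x, hx, rfl⟩, s, hs, rfl⟩
    have h1 := abs_le.1 (hin x hx)
    refine ⟨x + (s + R - inner ℝ u x) • u, ⟨x, hx, _, ⟨by linarith [hs.1], by linarith [hs.2]⟩, rfl⟩, ?_⟩
    change (-R) • u + (x + (s + R - inner ℝ u x) • u) = x - inner ℝ u x • u + s • u
    module
  · refine slope_le_slope hKc hK (prj_compact u hKc) (prj_convex u hK) u ((-R) • u) (2 * R)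
      (by linarith) fun h hh => ?_
    rintro _ ⟨x, hx, s, hs, rfl⟩
    have h1 := abs_le.1 (hin x hx)
    refine ⟨(x - inner ℝ u x • u) + (s + R + inner ℝ u x) • u,
      ⟨_, ⟨x, hx, rfl⟩, _, ⟨by linarith [hs.1], by linarith [hs.2]⟩, rfl⟩, ?_⟩
    change (-R) • u + (x - inner ℝ u x • u + (s + R + inner ℝ u x) • u) = x + s • u
    module

/-- a good frame for the direction `u` -/
lemma exists_frame {u : E3} (hu : ‖u‖ = 1) : ∃ (b : OrthonormalBasis (Fin 3) ℝ E3) (i : Fin 3)
    (q : ℝ), i ≠ 2 ∧ b 2 = u ∧ 0 < q ∧ 1 / 2 ≤ q ^ 2 ∧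
    q • b 0 = std3 i - (u i) • u := by
  have hsum : u 0 ^ 2 + u 1 ^ 2 + u 2 ^ 2 = 1 := by
    have h1 : ‖u‖ ^ 2 = ∑ i, ‖u i‖ ^ 2 := by
      rw [EuclideanSpace.norm_eq, Real.sq_sqrt (Finset.sum_nonneg fun i _ => by positivity)]
    rw [hu, Fin.sum_univ_three] at h1
    simp only [Real.norm_eq_abs, sq_abs] at h1
    linarith
  obtain ⟨i, hi, hi2⟩ : ∃ i : Fin 3, i ≠ 2 ∧ u i ^ 2 ≤ 1 / 2 := by
    by_cases h : u 0 ^ 2 ≤ 1 / 2
    · exact ⟨0, by decide, h⟩
    · refine ⟨1, by decide, ?_⟩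
      nlinarith [sq_nonneg (u 2)]
  set p : E3 := std3 i - (u i) • u with hp
  have hiu : inner ℝ (std3 i) u = u i := inner_std i u
  have hui : inner ℝ u (std3 i) = u i := by rw [real_inner_comm]; exact hiu
  have hpp : ‖p‖ ^ 2 = 1 - u i ^ 2 := by
    rw [← real_inner_self_eq_norm_sq, hp]
    simp only [inner_sub_left, inner_sub_right, inner_smul_left, inner_smul_right, hui, hiu,
      real_inner_self_eq_norm_sq, hu, std3.orthonormal.1 i]
    simp
    ring
  have hpu : inner ℝ p u = 0 := by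
    rw [hp, inner_sub_left, inner_smul_left, hiu, real_inner_self_eq_norm_sq, hu]
    simp
  have hp0 : 0 < ‖p‖ := by
    by_contra hc
    have : ‖p‖ = 0 := le_antisymm (not_lt.1 hc) (norm_nonneg _)
    rw [this] at hpp
    nlinarith
  set v : Fin 3 → E3 := ![(‖p‖)⁻¹ • p, 0, u] with hv
  have hon : Orthonormal ℝ (({0, 2} : Set (Fin 3)).domRestrict v) := by
    constructor
    · rintro ⟨j, hj⟩
      rcases hj with rfl | rfl
      · change ‖(‖p‖)⁻¹ • p‖ = 1
        rw [norm_smul, norm_inv, norm_norm, inv_mul_cancel₀ hp0.ne']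
      · exact hu
    · rintro ⟨j, hj⟩ ⟨k, hk⟩ hjk
      rcases hj with rfl | rfl <;> rcases hk with rfl | rfl
      · exact absurd rfl hjk
      · change inner ℝ ((‖p‖)⁻¹ • p) u = 0
        rw [inner_smul_left, hpu, mul_zero]
      · change inner ℝ u ((‖p‖)⁻¹ • p) = 0
        rw [inner_smul_right, real_inner_comm, hpu, mul_zero]
      · exact absurd rfl hjk
  obtain ⟨b, hb⟩ := hon.exists_orthonormalBasis_extension_of_card_eq (by simp)
  refine ⟨b, i, ‖p‖, hi, ?_, hp0, ?_, ?_⟩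
  · exact hb 2 (by simp)
  · rw [hpp]; linarith
  · rw [hb 0 (by simp)]
    change ‖p‖ • ((‖p‖)⁻¹ • p) = p
    rw [smul_smul, mul_inv_cancel₀ hp0.ne', one_smul]

lemma abs_coord_le (x : E3) (j : Fin 3) : |x j| ≤ ‖x‖ := by
  have := EuclideanSpace.norm_eq x
  rw [← inner_std]
  refine (abs_real_inner_le_norm _ _).trans ?_
  rw [std3.orthonormal.1 j, one_mul]

/-- the projection of the plate is contained in a square and contains a segment -/
lemma plate_prj {ε : ℝ} (hε : 0 ≤ ε) (hε1 : ε ≤ 1 / 2) {u : E3}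
    (b : OrthonormalBasis (Fin 3) ℝ E3) (hb : b 2 = u) :
    prj u (plate ε) ⊆ Box b ![-2, -2, 0] ![2, 2, 0] ∧
      ∀ β ∈ Icc (-ε) ε, β • b 1 ∈ prj u (plate ε) := by
  have hu : inner ℝ u u = (1:ℝ) := by rw [← hb, inner_b]; simp
  constructor
  · rintro _ ⟨k, hk, rfl⟩
    have hn := plate_norm hε (by linarith) hk
    have h0 : |inner ℝ (b 0) k| ≤ 2 := by
      refine (abs_real_inner_le_norm _ _).trans ?_
      rw [b.orthonormal.1 0, one_mul]; exact hn
    have h1 : |inner ℝ (b 1) k| ≤ 2 := by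
      refine (abs_real_inner_le_norm _ _).trans ?_
      rw [b.orthonormal.1 1, one_mul]; exact hn
    rw [mem_Box3]
    simp only [inner_sub_right, inner_smul_right]
    rw [← hb]
    simp only [inner_b]
    rw [abs_le] at h0 h1
    simp
    exact ⟨h0, h1⟩
  · intro β hβ
    refine ⟨β • b 1, ?_, ?_⟩
    · rw [mem_plate]
      have h : ∀ j, |(β • b 1) j| ≤ ε := by
        intro j
        refine (abs_coord_le _ j).trans ?_
        rw [norm_smul, b.orthonormal.1 1, mul_one]
        exact abs_le.2 hβ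
      exact ⟨(h 0).trans (by linarith), (h 1).trans (by linarith), h 2⟩
    · simp only [inner_smul_right]
      rw [← hb, inner_b]
      simp

/-- lower bound for the area of the projection -/
lemma plate_slope {ε : ℝ} (hε : 0 ≤ ε) (hε1 : ε ≤ 1 / 2) {u : E3}
    (b : OrthonormalBasis (Fin 3) ℝ E3) (i : Fin 3) (q : ℝ) (hi : i ≠ 2) (hb : b 2 = u)
    (hq : 0 < q) (hqb : q • b 0 = std3 i - (u i) • u) (hui : |u i| ≤ 1) :
    2 * ε * q ≤ slope (plate ε) u := by
  refine le_slope (Box_compact _ _ _) (Box_convex _ _ _) u (α := -(2 * ε * q)) fun h hh => ?_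
  change _ ≤ G (plate ε) u h
  rcases lt_or_ge h 1 with h1 | h1
  · have : 0 ≤ G (plate ε) u h := ENNReal.toReal_nonneg
    have h2 : 0 ≤ 2 * ε * q := by positivity
    nlinarith
  have hsub : Box b ![-(q / 2), -ε, 1 / 2] ![q / 2, ε, h - 1 / 2] ⊆ T (plate ε) u h := by
    intro x hx
    obtain ⟨⟨a1, a2⟩, a3, ⟨a5, a6⟩⟩ := (mem_Box3 _ _ _ _ _ _ _ x).1 hx
    set s := inner ℝ (b 0) x / q with hs
    have hsq : s * q = inner ℝ (b 0) x := div_mul_cancel₀ _ hq.ne'
    have hs1 : |s| ≤ 1 / 2 := by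
      rw [abs_le]
      constructor
      · rw [hs, le_div_iff₀ hq]; linarith
      · rw [hs, div_le_iff₀ hq]; linarith
    have hs2 : |s * u i| ≤ 1 / 2 := by
      rw [abs_mul]
      nlinarith [abs_nonneg s, abs_nonneg (u i)]
    refine ⟨s • std3 i + inner ℝ (b 1) x • b 1, ?_, inner ℝ (b 2) x - s * u i, ?_, ?_⟩
    · rw [mem_plate]
      have hbb : ∀ j, |(inner ℝ (b 1) x • b 1) j| ≤ ε := by
        intro j
        refine (abs_coord_le _ j).trans ?_
        rw [norm_smul, b.orthonormal.1 1, mul_one]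
        exact abs_le.2 a3
      have hss : ∀ j, |(s • std3 i) j| ≤ 1 / 2 := by
        intro j
        refine (abs_coord_le _ j).trans ?_
        rw [norm_smul, std3.orthonormal.1 i, mul_one]
        exact hs1
      have h20 : (s • std3 i) 2 = 0 := by
        rw [← inner_std, inner_smul_right, inner_b, if_neg (Ne.symm hi), mul_zero]
      refine ⟨?_, ?_, ?_⟩
      · change |(s • std3 i) 0 + (inner ℝ (b 1) x • b 1) 0| ≤ 1
        have := abs_add_le ((s • std3 i) 0) ((inner ℝ (b 1) x • b 1) 0)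
        linarith [hbb 0, hss 0]
      · change |(s • std3 i) 1 + (inner ℝ (b 1) x • b 1) 1| ≤ 1
        have := abs_add_le ((s • std3 i) 1) ((inner ℝ (b 1) x • b 1) 1)
        linarith [hbb 1, hss 1]
      · change |(s • std3 i) 2 + (inner ℝ (b 1) x • b 1) 2| ≤ ε
        rw [h20, zero_add]
        exact hbb 2
    · have := abs_le.1 hs2
      exact ⟨by linarith, by linarith⟩
    · conv_lhs => rw [← b.sum_repr' x]
      rw [Fin.sum_univ_three, ← hsq, mul_smul, hqb, hb]
      module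
  have h2 := vol_mono_real hsub (T_compact (Box_compact _ _ _) _ _)
  rw [vol_Box3 b _ _ _ _ _ _ (by linarith) (by linarith) (by linarith)] at h2
  change _ ≤ G (plate ε) u h at h2
  refine le_trans (le_of_eq ?_) h2
  ring

end Pool.Agent.R751
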