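import Mathlib

set_option autoImplicit false
open MeasureTheory SchwartzMap FourierTransform Set Filter Topology
open scoped ENNReal RealInnerProductSpace

namespace Pool.Agent.R751.RMB

variable {E : Type*} [NormedAddCommGroup E] [InnerProductSpace ℝ E] [FiniteDimensional ℝ E]
  [MeasurableSpace E] [BorelSpace E]

/-- the character `ξ ↦ exp (-2π i ⟨a, ξ⟩)` -/
noncomputable def ch (a : E) (ξ : E) : ℂ := (Real.fourierChar (-⟪a, ξ⟫) : ℂ)

omit [FiniteDimensional ℝ E] [MeasurableSpace E] [BorelSpace E] in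
lemma continuous_ch (a : E) : Continuous (ch a) := by
  unfold ch
  have := Real.continuous_fourierChar
  fun_prop

omit [FiniteDimensional ℝ E] [MeasurableSpace E] [BorelSpace E] in
lemma norm_ch (a ξ : E) : ‖ch a ξ‖ = 1 := by
  unfold ch
  exact Circle.norm_coe _

lemma memLp_ch (a : E) : MemLp (ch a) ⊤ (volume : Measure E) := by
  refine memLp_top_of_bound (continuous_ch a).aestronglyMeasurable 1 ?_
  exact Eventually.of_forall fun ξ => (norm_ch a ξ).le

/-- translation on `L²` -/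
noncomputable def tr (a : E) (F : Lp (α := E) ℂ 2 volume) : Lp (α := E) ℂ 2 volume :=
  Lp.compMeasurePreserving (fun x => x - a) (measurePreserving_sub_right volume a) F

/-- multiplication by a character on `L²` -/
noncomputable def mu (a : E) (F : Lp (α := E) ℂ 2 volume) : Lp (α := E) ℂ 2 volume :=
  ((memLp_ch a).toLp (ch a) : Lp (α := E) ℂ ⊤ volume) • F

lemma continuous_tr (a : E) : Continuous (tr a) :=
  (Lp.isometry_compMeasurePreserving (measurePreserving_sub_right volume a)).continuous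

lemma mu_ae (a : E) (F : Lp (α := E) ℂ 2 volume) :
    (mu a F : E → ℂ) =ᵐ[volume] fun ξ => ch a ξ * F ξ := by
  have h1 : (mu a F : E → ℂ) =ᵐ[volume]
      ((((memLp_ch a).toLp (ch a) : Lp (α := E) ℂ ⊤ volume) : E → ℂ)) • (F : E → ℂ) :=
    Lp.coeFn_lpSMul _ _
  filter_upwards [h1, (memLp_ch a).coeFn_toLp] with ξ h2 h3
  rw [h2, Pi.smul_apply', h3, smul_eq_mul]

lemma continuous_mu (a : E) : Continuous (mu a) := by
  refine Isometry.continuous ?_
  refine Isometry.of_dist_eq fun F G => ?_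
  rw [dist_eq_norm, dist_eq_norm, Lp.norm_def, Lp.norm_def]
  congr 1
  refine eLpNorm_congr_norm_ae ?_
  filter_upwards [Lp.coeFn_sub (mu a F) (mu a G), Lp.coeFn_sub F G, mu_ae a F, mu_ae a G]
    with ξ h1 h2 h3 h4
  rw [h1, h2, Pi.sub_apply, Pi.sub_apply, h3, h4, ← mul_sub, norm_mul, norm_ch, one_mul]

/-- the Fourier transform turns translations into characters -/
theorem fourier_tr (a : E) (F : Lp (α := E) ℂ 2 volume) : 𝓕 (tr a F) = mu a (𝓕 F) := by
  refine DenseRange.induction_on (p := fun F => 𝓕 (tr a F) = mu a (𝓕 F))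
    (SchwartzMap.denseRange_toLpCLM (F := ℂ) (E := E) (μ := volume) (p := 2)
      ENNReal.ofNat_ne_top) F ?_ ?_
  · apply isClosed_eq
    · exact (Lp.fourierTransformₗᵢ E ℂ).continuous.comp (continuous_tr a)
    · exact (continuous_mu a).comp (Lp.fourierTransformₗᵢ E ℂ).continuous
  · intro f
    have h1 : tr a (f.toLp 2) = (f.compSubConstCLM ℂ a).toLp 2 := rfl
    rw [toLpCLM_apply, h1, SchwartzMap.toLp_fourier_eq, SchwartzMap.toLp_fourier_eq]
    apply Lp.ext
    filter_upwards [mu_ae a ((𝓕 f).toLp 2), (𝓕 f).coeFn_toLp 2 volume,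
      (𝓕 (f.compSubConstCLM ℂ a)).coeFn_toLp 2 volume] with ξ h2 h3 h4
    rw [h2, h3, h4, SchwartzMap.fourier_coe, SchwartzMap.fourier_coe]
    have h5 := VectorFourier.fourierIntegral_comp_add_right Real.fourierChar
      (volume : Measure E) (innerₗ E) (f : E → ℂ) (-a)
    have h6 := congrFun h5 ξ
    have h7 : ((f : E → ℂ) ∘ fun v => v + -a) = (f.compSubConstCLM ℂ a : E → ℂ) := by
      funext v
      simp [sub_eq_add_neg]
    rw [h7] at h6
    have h8 : (innerₗ E) (-a) ξ = -⟪a, ξ⟫ := by simp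
    rw [h8] at h6
    exact h6

/-- Plancherel for differences of translates -/
theorem plancherel_tr (F : Lp (α := E) ℂ 2 volume) (a : E) :
    ∫⁻ x, ‖F (x - a) - F x‖ₑ ^ 2 = ∫⁻ ξ, ‖ch a ξ - 1‖ₑ ^ 2 * ‖(𝓕 F : Lp (α := E) ℂ 2 volume) ξ‖ₑ ^ 2 := by
  have h0 : ‖tr a F - F‖ = ‖mu a (𝓕 F) - 𝓕 F‖ := by
    rw [← fourier_tr, ← Lp.norm_fourier_eq (tr a F - F)]
    congr 1
    exact (Lp.fourierTransformₗᵢ E ℂ).map_sub _ _
  have h1 : eLpNorm (fun x => F (x - a) - F x) 2 volume
      = eLpNorm (fun ξ => (ch a ξ - 1) * (𝓕 F : Lp (α := E) ℂ 2 volume) ξ) 2 volume := by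
    have e1 : eLpNorm (fun x => F (x - a) - F x) 2 volume = eLpNorm (tr a F - F : Lp (α := E) ℂ 2 volume) 2 volume := by
      refine eLpNorm_congr_ae ?_
      filter_upwards [Lp.coeFn_sub (tr a F) F,
        Lp.coeFn_compMeasurePreserving F (measurePreserving_sub_right volume a)] with x h2 h3
      rw [h2, Pi.sub_apply]
      unfold tr
      rw [h3]; rfl
    have e2 : eLpNorm (fun ξ => (ch a ξ - 1) * (𝓕 F : Lp (α := E) ℂ 2 volume) ξ) 2 volume
        = eLpNorm (mu a (𝓕 F) - 𝓕 F : Lp (α := E) ℂ 2 volume) 2 volume := by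
      refine eLpNorm_congr_ae ?_
      filter_upwards [Lp.coeFn_sub (mu a (𝓕 F)) (𝓕 F), mu_ae a (𝓕 F)] with x h2 h3
      rw [h2, Pi.sub_apply, h3, sub_mul, one_mul]
    rw [e1, e2, ← ENNReal.toReal_eq_toReal_iff' (Lp.eLpNorm_ne_top _) (Lp.eLpNorm_ne_top _)]
    exact h0
  have h2 := congrArg (fun t : ℝ≥0∞ => t ^ (2:ℝ)) h1
  rw [eLpNorm_eq_lintegral_rpow_enorm_toReal (by norm_num) (by norm_num),
    eLpNorm_eq_lintegral_rpow_enorm_toReal (by norm_num) (by norm_num)] at h2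
  simp only [ENNReal.toReal_ofNat] at h2
  rw [← ENNReal.rpow_mul, ← ENNReal.rpow_mul] at h2
  norm_num at h2
  rw [h2]
  refine lintegral_congr fun ξ => ?_
  rw [mul_pow]

end Pool.Agent.R751.RMB
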