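import Pool.Agent.R751.RmA

set_option autoImplicit false
open MeasureTheory Set Filter Topology Metric
open scoped ENNReal RealInnerProductSpace Pointwise

namespace Pool.Agent.R751.RMB

variable {E : Type*} [NormedAddCommGroup E] [InnerProductSpace ℝ E] [FiniteDimensional ℝ E]
  [MeasurableSpace E] [BorelSpace E]

/-- radial function of a set -/
noncomputable def rad (M : Set E) (x : E) : ℝ := sSup {t : ℝ | 0 ≤ t ∧ t • x ∈ M}

/-- the set of parameters -/
lemma rad_translate (K : Set E) (y x : E) :
    rad ((fun z => z - y) '' K) x = sSup {t : ℝ | 0 ≤ t ∧ y + t • x ∈ K} := by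
  unfold rad
  congr 1
  ext t
  simp only [mem_ofPred_eq, mem_image]
  constructor
  · rintro ⟨h0, z, hz, h⟩
    refine ⟨h0, ?_⟩
    rw [← h]; simpa using hz
  · rintro ⟨h0, h⟩
    exact ⟨h0, _, h, by simp⟩

/-- the chord length from `y` in direction `x` -/
noncomputable def len (K : Set E) (x y : E) : ℝ := sSup {t : ℝ | 0 ≤ t ∧ y + t • x ∈ K}

omit [FiniteDimensional ℝ E] [MeasurableSpace E] [BorelSpace E] in
lemma bdd_len {K : Set E} (hK : IsCompact K) {x : E} (hx : x ≠ 0) (y : E) :
    BddAbove {t : ℝ | 0 ≤ t ∧ y + t • x ∈ K} := by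
  obtain ⟨R, hR⟩ := hK.isBounded.subset_closedBall 0
  refine ⟨(R + ‖y‖) / ‖x‖, ?_⟩
  rintro t ⟨h0, ht⟩
  have h1 := hR ht
  rw [mem_closedBall_zero_iff] at h1
  have hxp : 0 < ‖x‖ := norm_pos_iff.2 hx
  rw [le_div_iff₀ hxp]
  have h2 : ‖t • x‖ ≤ ‖y + t • x‖ + ‖y‖ := by
    have := norm_sub_le (y + t • x) y
    rwa [add_sub_cancel_left] at this
  rw [norm_smul, Real.norm_eq_abs, abs_of_nonneg h0] at h2
  linarith

omit [FiniteDimensional ℝ E] [MeasurableSpace E] [BorelSpace E] in
lemma le_len_iff {K : Set E} (hK : IsCompact K) (hKc : Convex ℝ K) {x : E} (hx : x ≠ 0) {y : E}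
    (hy : y ∈ K) {s : ℝ} (hs : 0 ≤ s) : s ≤ len K x y ↔ y + s • x ∈ K := by
  have hne : {t : ℝ | 0 ≤ t ∧ y + t • x ∈ K}.Nonempty := ⟨0, le_rfl, by simpa using hy⟩
  have hb := bdd_len hK hx y
  constructor
  · intro h
    have hcl : IsClosed {t : ℝ | 0 ≤ t ∧ y + t • x ∈ K} :=
      (isClosed_le continuous_const continuous_id).inter
        (hK.isClosed.preimage (by fun_prop : Continuous fun t : ℝ => y + t • x))
    have hm := hcl.csSup_mem hne hb
    obtain ⟨h0, h1⟩ := hm
    change 0 ≤ len K x y at h0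
    change y + len K x y • x ∈ K at h1
    rcases h0.eq_or_lt with h2 | h2
    · have : s = 0 := by linarith
      rw [this]; simpa using hy
    · have h3 := hKc hy h1 (a := 1 - s / len K x y) (b := s / len K x y)
        (by rw [sub_nonneg, div_le_one h2]; exact h) (by positivity) (by ring)
      convert h3 using 1
      rw [smul_add, smul_smul, div_mul_cancel₀ _ h2.ne', ← add_assoc, ← add_smul]
      congr 1
      rw [sub_add_cancel, one_smul]
  · intro h
    exact le_csSup hb ⟨hs, h⟩

omit [FiniteDimensional ℝ E] [MeasurableSpace E] [BorelSpace E] in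
lemma len_nonneg (K : Set E) (x y : E) : 0 ≤ len K x y :=
  Real.sSup_nonneg fun _ h => h.1

omit [FiniteDimensional ℝ E] [MeasurableSpace E] [BorelSpace E] in
lemma len_pos {K : Set E} (hK : IsCompact K) {x : E} (hx : x ≠ 0) {y : E}
    (hy : y ∈ interior K) : 0 < len K x y := by
  have h1 : Tendsto (fun t : ℝ => y + t • x) (𝓝 0) (𝓝 (y + (0:ℝ) • x)) :=
    (by fun_prop : Continuous fun t : ℝ => y + t • x).tendsto 0
  rw [zero_smul, add_zero] at h1
  have h2 := h1.eventually (mem_interior_iff_mem_nhds.1 hy)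
  obtain ⟨δ, hδ, h3⟩ := Metric.eventually_nhds_iff.1 h2
  have h4 : y + (δ / 2) • x ∈ K := h3 (by
    rw [Real.dist_eq, sub_zero, abs_of_pos (by positivity)]; linarith)
  have h5 := le_csSup (bdd_len hK hx y) (a := δ / 2) ⟨by positivity, h4⟩
  exact lt_of_lt_of_le (by positivity) h5

/-- measurability of the chord length on `K` -/
lemma measurable_len {K : Set E} (hK : IsCompact K) (hKc : Convex ℝ K) {x : E} (hx : x ≠ 0) :
    Measurable (K.indicator (len K x)) := by
  refine measurable_of_Ici fun s => ?_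
  rcases le_or_gt s 0 with hs | hs
  · have : K.indicator (len K x) ⁻¹' Ici s = univ := by
      ext y
      simp only [mem_preimage, mem_Ici, mem_univ, iff_true]
      exact hs.trans (indicator_nonneg (fun z _ => len_nonneg K x z) y)
    rw [this]; exact MeasurableSet.univ
  · have : K.indicator (len K x) ⁻¹' Ici s = K ∩ (fun y => y + s • x) ⁻¹' K := by
      ext y
      simp only [mem_preimage, mem_Ici, mem_inter_iff]
      by_cases hy : y ∈ K
      · rw [indicator_of_mem hy, le_len_iff hK hKc hx hy hs.le]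
        exact ⟨fun h => ⟨hy, h⟩, fun h => h.2⟩
      · rw [indicator_of_notMem hy]
        exact ⟨fun h => absurd h (not_le.2 hs), fun h => absurd h.1 hy⟩
    rw [this]
    exact (hK.isClosed.inter (hK.isClosed.preimage (by fun_prop))).measurableSet

/-- the volume of the part of `K` leaving `K` after a translation -/
noncomputable def out (K : Set E) (x : E) (s : ℝ) : ℝ≥0∞ := volume {y | y ∈ K ∧ y + s • x ∉ K}

lemma measurableSet_out {K : Set E} (hK : IsCompact K) (x : E) (s : ℝ) :
    MeasurableSet {y | y ∈ K ∧ y + s • x ∉ K} :=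
  hK.measurableSet.inter (hK.isClosed.preimage
    (by fun_prop : Continuous fun y : E => y + s • x)).measurableSet.compl

/-- one-dimensional integral -/
lemma lintegral_rpow {q r : ℝ} (hq : 0 < q) (hr : 0 < r) :
    ∫⁻ s in Ioi r, ENNReal.ofReal (s ^ (-1 - q)) = ENNReal.ofReal (r ^ (-q) / q) := by
  rw [← ofReal_integral_eq_lintegral_ofReal]
  · congr 1
    rw [integral_Ioi_rpow_of_lt (by linarith) hr]
    rw [show -1 - q + 1 = -q by ring]
    field_simp
  · exact integrableOn_Ioi_rpow_of_lt (by linarith) hr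
  · refine (ae_restrict_iff' measurableSet_Ioi).2 (Eventually.of_forall fun s hs => ?_)
    exact Real.rpow_nonneg (hr.le.trans (le_of_lt hs)) _

/-- the region of escape -/
def Reg (K : Set E) (x : E) : Set (ℝ × E) := {p | p.2 ∈ K ∧ p.2 + p.1 • x ∉ K}

lemma measurableSet_Reg {K : Set E} (hK : IsCompact K) (x : E) : MeasurableSet (Reg K x) := by
  refine (hK.isClosed.preimage continuous_snd).measurableSet.inter ?_
  exact (hK.isClosed.preimage
    (by fun_prop : Continuous fun p : ℝ × E => p.2 + p.1 • x)).measurableSet.compl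

/-- indicator of the region of escape -/
noncomputable def ir (K : Set E) (x : E) (s : ℝ) (y : E) : ℝ≥0∞ := (Reg K x).indicator 1 (s, y)

lemma ir_of_mem {K : Set E} {x : E} {s : ℝ} {y : E} (h : y ∈ K ∧ y + s • x ∉ K) :
    ir K x s y = 1 := by
  unfold ir
  rw [indicator_of_mem (show ((s, y) : ℝ × E) ∈ Reg K x from h)]; rfl

lemma ir_of_not {K : Set E} {x : E} {s : ℝ} {y : E} (h : ¬ (y ∈ K ∧ y + s • x ∉ K)) :
    ir K x s y = 0 := by
  unfold ir
  exact indicator_of_notMem (s := Reg K x) h _

lemma measurable_ir {K : Set E} (hK : IsCompact K) (x : E) :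
    Measurable fun p : ℝ × E => ir K x p.1 p.2 :=
  measurable_one.indicator (measurableSet_Reg hK x)

lemma lintegral_ir {K : Set E} (hK : IsCompact K) (x : E) (s : ℝ) :
    ∫⁻ y, ir K x s y = out K x s := by
  rw [out, ← lintegral_indicator_one (measurableSet_out hK x s)]
  rfl

/-- the layer cake formula -/
theorem layer {K : Set E} (hK : IsCompact K) (hKc : Convex ℝ K) {x : E} (hx : x ≠ 0)
    {q : ℝ} (hq : 0 < q) :
    ENNReal.ofReal q * ∫⁻ s in Ioi (0:ℝ), ENNReal.ofReal (s ^ (-1 - q)) * out K x s
      = ∫⁻ y in K, ENNReal.ofReal (len K x y ^ (-q)) := by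
  have h1 : ∫⁻ s in Ioi (0:ℝ), ENNReal.ofReal (s ^ (-1 - q)) * out K x s
      = ∫⁻ s in Ioi (0:ℝ), ∫⁻ y : E, ENNReal.ofReal (s ^ (-1 - q)) * ir K x s y := by
    refine lintegral_congr fun s => ?_
    have hm : Measurable (ir K x s) := (measurable_ir hK x).comp measurable_prodMk_left
    rw [lintegral_const_mul _ hm, lintegral_ir hK]
  rw [h1, lintegral_lintegral_swap]
  · have h2 : ∀ y : E, ∫⁻ s in Ioi (0:ℝ), ENNReal.ofReal (s ^ (-1 - q)) * ir K x s y
        = K.indicator (fun y => ∫⁻ s in Ioi (len K x y), ENNReal.ofReal (s ^ (-1 - q))) y := by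
      intro y
      by_cases hy : y ∈ K
      · rw [indicator_of_mem hy, ← lintegral_indicator measurableSet_Ioi,
          ← lintegral_indicator measurableSet_Ioi]
        refine lintegral_congr fun s => ?_
        by_cases hs : 0 < s
        · rw [indicator_of_mem (mem_Ioi.2 hs)]
          by_cases hm : y + s • x ∈ K
          · have h3 : s ∉ Ioi (len K x y) := by
              rw [mem_Ioi, not_lt]; exact (le_len_iff hK hKc hx hy hs.le).2 hm
            rw [indicator_of_notMem h3, ir_of_not (fun h => h.2 hm), mul_zero]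
          · have h3 : s ∈ Ioi (len K x y) := by
              rw [mem_Ioi, ← not_le]
              exact fun h => hm ((le_len_iff hK hKc hx hy hs.le).1 h)
            rw [indicator_of_mem h3, ir_of_mem ⟨hy, hm⟩, mul_one]
        · have h3 : s ∉ Ioi (0:ℝ) := hs
          have h4 : s ∉ Ioi (len K x y) := fun h =>
            hs (lt_of_le_of_lt (len_nonneg K x y) h)
          rw [indicator_of_notMem h3, indicator_of_notMem h4]
      · rw [indicator_of_notMem hy]
        have : ∀ s : ℝ, ir K x s y = 0 := fun s => ir_of_not (fun h => hy h.1)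
        simp [this]
    simp_rw [h2]
    rw [lintegral_indicator hK.measurableSet, ← lintegral_const_mul' _ _ ENNReal.ofReal_ne_top]
    have hfr : volume (frontier K) = 0 := hKc.addHaar_frontier volume
    refine setLIntegral_congr_fun_ae hK.measurableSet ?_
    have h3 : ∀ᵐ y ∂(volume : Measure E), y ∉ frontier K := measure_eq_zero_iff_ae_notMem.1 hfr
    filter_upwards [h3] with y hy hyK
    have hint : y ∈ interior K := by
      by_contra h
      exact hy ⟨subset_closure hyK, h⟩
    have hl := len_pos hK hx hint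
    rw [lintegral_rpow hq hl, ← ENNReal.ofReal_mul hq.le]
    congr 1
    field_simp
  · refine Measurable.aemeasurable ?_
    refine Measurable.mul ?_ (measurable_ir hK x)
    fun_prop

end Pool.Agent.R751.RMB
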