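import Pool.Agent.R751.RmB

set_option autoImplicit false
open MeasureTheory Set Filter Topology Metric FourierTransform
open scoped ENNReal RealInnerProductSpace Pointwise

namespace Pool.Agent.R751.RMB

variable {E : Type*} [NormedAddCommGroup E] [InnerProductSpace ℝ E] [FiniteDimensional ℝ E]
  [MeasurableSpace E] [BorelSpace E]

/-- the indicator of `K` in `L²` -/
lemma memLp_ind {K : Set E} (hK : IsCompact K) :
    MemLp (K.indicator (fun _ => (1:ℂ))) 2 (volume : Measure E) :=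
  memLp_indicator_const 2 hK.measurableSet 1 (Or.inr hK.measure_lt_top.ne)

/-- the two escape sets have the same volume -/
lemma volume_swap {K : Set E} (hK : IsCompact K) (v : E) :
    volume {y | y ∉ K ∧ y + v ∈ K} = volume {y | y ∈ K ∧ y + v ∉ K} := by
  set B : Set E := (fun y => y + v) ⁻¹' K with hB
  have hBm : MeasurableSet B := (hK.isClosed.preimage (by fun_prop)).measurableSet
  have hBv : volume B = volume K := measure_preimage_add_right volume v K
  have h1 : {y | y ∉ K ∧ y + v ∈ K} = B \ K := by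
    ext y; exact and_comm
  have h2 : {y | y ∈ K ∧ y + v ∉ K} = K \ B := rfl
  rw [h1, h2]
  have h3 : volume (B \ K) + volume (B ∩ K) = volume B := by
    rw [add_comm]; exact measure_inter_add_sdiff B hK.measurableSet
  have h4 : volume (K \ B) + volume (B ∩ K) = volume K := by
    rw [add_comm, inter_comm]; exact measure_inter_add_sdiff K hBm
  have h5 : volume (B ∩ K) ≠ ∞ := ((measure_mono inter_subset_right).trans_lt hK.measure_lt_top).ne
  rw [hBv, ← h4] at h3
  exact (ENNReal.add_left_inj h5).1 h3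

lemma two_out {K : Set E} (hK : IsCompact K) (x : E) (s : ℝ) :
    2 * out K x s = ∫⁻ y, ‖((memLp_ind hK).toLp _ : Lp (α := E) ℂ 2 volume) (y - (-(s • x)))
      - ((memLp_ind hK).toLp _ : Lp (α := E) ℂ 2 volume) y‖ₑ ^ 2 := by
  set F := ((memLp_ind hK).toLp _ : Lp (α := E) ℂ 2 volume) with hF
  have hF1 : (F : E → ℂ) =ᵐ[volume] K.indicator (fun _ => (1:ℂ)) := (memLp_ind hK).coeFn_toLp
  have hF2 : (fun y => F (y - (-(s • x)))) =ᵐ[volume]
      fun y => K.indicator (fun _ => (1:ℂ)) (y - (-(s • x))) :=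
    (measurePreserving_sub_right volume (-(s • x))).quasiMeasurePreserving.ae_eq_comp hF1
  have h1 : ∫⁻ y, ‖F (y - (-(s • x))) - F y‖ₑ ^ 2
      = ∫⁻ y, ({y | y ∈ K ∧ y + s • x ∉ K}.indicator 1 y + {y | y ∉ K ∧ y + s • x ∈ K}.indicator 1 y) := by
    refine lintegral_congr_ae ?_
    filter_upwards [hF1, hF2] with y h1 h2
    rw [h2, h1, sub_neg_eq_add]
    by_cases hy : y ∈ K <;> by_cases hy' : y + s • x ∈ K
    · rw [indicator_of_mem hy, indicator_of_mem hy', indicator_of_notMem (s := {y | y ∈ K ∧ y + s • x ∉ K})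
        (fun h => h.2 hy'), indicator_of_notMem (s := {y | y ∉ K ∧ y + s • x ∈ K}) (fun h => h.1 hy)]
      simp
    · rw [indicator_of_mem hy, indicator_of_notMem hy', indicator_of_mem (s := {y | y ∈ K ∧ y + s • x ∉ K})
        (⟨hy, hy'⟩), indicator_of_notMem (s := {y | y ∉ K ∧ y + s • x ∈ K}) (fun h => h.1 hy)]
      simp
    · rw [indicator_of_notMem hy, indicator_of_mem hy', indicator_of_notMem (s := {y | y ∈ K ∧ y + s • x ∉ K})
        (fun h => h.2 hy'), indicator_of_mem (s := {y | y ∉ K ∧ y + s • x ∈ K}) ⟨hy, hy'⟩]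
      simp
    · rw [indicator_of_notMem hy, indicator_of_notMem hy', indicator_of_notMem (s := {y | y ∈ K ∧ y + s • x ∉ K})
        (fun h => hy h.1), indicator_of_notMem (s := {y | y ∉ K ∧ y + s • x ∈ K}) (fun h => hy' h.2)]
      simp
  have hm2 : MeasurableSet {y | y ∉ K ∧ y + s • x ∈ K} :=
    hK.measurableSet.compl.inter (hK.isClosed.preimage
      (by fun_prop : Continuous fun y : E => y + s • x)).measurableSet
  rw [h1, lintegral_add_left (measurable_one.indicator (measurableSet_out hK x s)),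
    lintegral_indicator_one (measurableSet_out hK x s), lintegral_indicator_one hm2, volume_swap hK,
    two_mul]
  rfl

/-- the size of `exp (2π i t) - 1` -/
noncomputable def cf (t : ℝ) : ℝ≥0∞ := ‖(Real.fourierChar t : ℂ) - 1‖ₑ

lemma continuous_cf : Continuous cf := by
  unfold cf
  have := Real.continuous_fourierChar
  fun_prop

lemma measurable_cf : Measurable cf := continuous_cf.measurable

lemma cf_neg (t : ℝ) : cf (-t) = cf t := by
  unfold cf
  rw [← ofReal_norm, ← ofReal_norm]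
  congr 1
  rw [AddChar.map_neg_eq_inv, Circle.coe_inv_eq_conj]
  have : (starRingEnd ℂ) (Real.fourierChar t : ℂ) - 1 = (starRingEnd ℂ) ((Real.fourierChar t : ℂ) - 1) := by
    simp
  rw [this, RCLike.norm_conj]

lemma cf_zero : cf 0 = 0 := by
  unfold cf
  simp

/-- spectral formula for the escape volume -/
theorem out_spectral {K : Set E} (hK : IsCompact K) :
    ∃ G : E → ℂ, Measurable G ∧ ∀ (x : E) (s : ℝ), 2 * out K x s
      = ∫⁻ ξ, cf (s * ⟪x, ξ⟫) ^ 2 * ‖G ξ‖ₑ ^ 2 := by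
  set F := ((memLp_ind hK).toLp _ : Lp (α := E) ℂ 2 volume) with hF
  have hm := (Lp.aestronglyMeasurable (𝓕 F : Lp (α := E) ℂ 2 volume)).aemeasurable
  refine ⟨hm.mk _, hm.measurable_mk, fun x s => ?_⟩
  rw [two_out hK, plancherel_tr]
  refine lintegral_congr_ae ?_
  filter_upwards [hm.ae_eq_mk] with ξ h1
  rw [← h1]
  congr 3
  unfold ch
  rw [inner_neg_left, neg_neg, real_inner_smul_left]

/-- the constant -/
noncomputable def cst (q : ℝ) : ℝ≥0∞ :=
  ∫⁻ s in Ioi (0:ℝ), ENNReal.ofReal (s ^ (-1 - q)) * cf s ^ 2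

lemma scaling {q A : ℝ} (hA : 0 < A) :
    ∫⁻ s in Ioi (0:ℝ), ENNReal.ofReal (s ^ (-1 - q)) * cf (s * A) ^ 2
      = ENNReal.ofReal (A ^ q) * cst q := by
  set g : ℝ → ℝ≥0∞ := fun t => (Ioi (0:ℝ)).indicator
    (fun t => ENNReal.ofReal (t ^ (-1 - q)) * cf t ^ 2) t with hg
  have hgm : Measurable g := by
    refine Measurable.indicator ?_ measurableSet_Ioi
    have := measurable_cf
    fun_prop
  have h1 : cst q = ENNReal.ofReal A * ∫⁻ s, g (A * s) := by
    rw [cst, ← lintegral_indicator measurableSet_Ioi]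
    have h2 := Real.smul_map_volume_mul_left (a := A) hA.ne'
    have h3 : ∫⁻ t, g t = ∫⁻ t, g t ∂(ENNReal.ofReal |A| • Measure.map (A * ·) volume) := by
      rw [h2]
    rw [lintegral_smul_measure, lintegral_map hgm (by fun_prop), abs_of_pos hA] at h3
    exact h3
  rw [h1, ← lintegral_indicator measurableSet_Ioi, ← mul_assoc, ← ENNReal.ofReal_mul
    (by positivity), ← lintegral_const_mul' _ _ ENNReal.ofReal_ne_top]
  refine lintegral_congr fun s => ?_
  simp only [hg]
  by_cases hs : 0 < s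
  · have h2 : A * s ∈ Ioi (0:ℝ) := by rw [mem_Ioi]; positivity
    rw [indicator_of_mem (mem_Ioi.2 hs), indicator_of_mem h2, ← mul_assoc,
      ← ENNReal.ofReal_mul (by positivity), mul_comm s A]
    congr 2
    rw [Real.mul_rpow hA.le hs.le]
    have h3 : A ^ q * A * A ^ (-1 - q) = 1 := by
      nth_rewrite 2 [← Real.rpow_one A]
      rw [← Real.rpow_add hA, ← Real.rpow_add hA]
      rw [show q + 1 + (-1 - q) = 0 by ring, Real.rpow_zero]
    calc s ^ (-1 - q) = (A ^ q * A * A ^ (-1 - q)) * s ^ (-1 - q) := by rw [h3, one_mul]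
      _ = _ := by ring
  · have h2 : A * s ∉ Ioi (0:ℝ) := by
      rw [mem_Ioi, not_lt]; exact mul_nonpos_of_nonneg_of_nonpos hA.le (not_lt.1 hs)
    rw [indicator_of_notMem (show s ∉ Ioi (0:ℝ) from hs), indicator_of_notMem h2, mul_zero]

lemma scaling' {q : ℝ} (hq : 0 < q) (A : ℝ) :
    ∫⁻ s in Ioi (0:ℝ), ENNReal.ofReal (s ^ (-1 - q)) * cf (s * A) ^ 2
      = ENNReal.ofReal (|A| ^ q) * cst q := by
  rcases lt_trichotomy A 0 with h | h | h
  · have h1 := scaling (q := q) (A := -A) (by linarith)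
    rw [abs_of_neg h, ← h1]
    refine lintegral_congr fun s => ?_
    rw [mul_neg, cf_neg]
  · rw [h]
    simp [Real.zero_rpow hq.ne', cf_zero]
  · rw [abs_of_pos h]
    exact scaling h

/-- the spectral representation of the moment -/
theorem moment_spectral {K : Set E} (hK : IsCompact K) (hKc : Convex ℝ K) {q : ℝ} (hq : 0 < q) :
    ∃ ν : Measure E, ∀ x : E, x ≠ 0 → ∫⁻ y in K, ENNReal.ofReal (len K x y ^ (-q))
      = ∫⁻ ξ, ENNReal.ofReal (|⟪x, ξ⟫| ^ q) ∂ν := by
  obtain ⟨G, hG, h⟩ := out_spectral hK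
  refine ⟨volume.withDensity fun ξ => ENNReal.ofReal q * 2⁻¹ * cst q * ‖G ξ‖ₑ ^ 2, fun x hx => ?_⟩
  have hGm : Measurable fun ξ => ENNReal.ofReal q * 2⁻¹ * cst q * ‖G ξ‖ₑ ^ 2 :=
    (hG.enorm.pow_const 2).const_mul _
  have hin : Measurable fun ξ : E => ENNReal.ofReal (|⟪x, ξ⟫| ^ q) := by
    have : Measurable fun ξ : E => |⟪x, ξ⟫| := by
      refine Continuous.measurable ?_
      fun_prop
    exact (this.pow_const q).ennreal_ofReal
  rw [lintegral_withDensity_eq_lintegral_mul _ hGm hin, ← layer hK hKc hx hq]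
  have h1 : ∀ s, out K x s = 2⁻¹ * ∫⁻ ξ, cf (s * ⟪x, ξ⟫) ^ 2 * ‖G ξ‖ₑ ^ 2 := by
    intro s
    rw [← h x s, ← mul_assoc, ENNReal.inv_mul_cancel (by norm_num) (by norm_num), one_mul]
  have hch : Measurable fun p : ℝ × E => cf (p.1 * ⟪x, p.2⟫) :=
    measurable_cf.comp (by fun_prop : Continuous fun p : ℝ × E => p.1 * ⟪x, p.2⟫).measurable
  have h2 : ∫⁻ s in Ioi (0:ℝ), ENNReal.ofReal (s ^ (-1 - q)) * out K x s
      = ∫⁻ s in Ioi (0:ℝ), ∫⁻ ξ, 2⁻¹ * ‖G ξ‖ₑ ^ 2 * (ENNReal.ofReal (s ^ (-1 - q)) *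
        cf (s * ⟪x, ξ⟫) ^ 2) := by
    refine lintegral_congr fun s => ?_
    have hm : Measurable fun ξ : E => cf (s * ⟪x, ξ⟫) :=
      measurable_cf.comp (by fun_prop : Continuous fun ξ : E => s * ⟪x, ξ⟫).measurable
    have hm2 : Measurable fun ξ : E => cf (s * ⟪x, ξ⟫) ^ 2 * ‖G ξ‖ₑ ^ 2 :=
      (hm.pow_const 2).mul (hG.enorm.pow_const 2)
    rw [h1, ← mul_assoc, ← lintegral_const_mul _ hm2]
    refine lintegral_congr fun ξ => ?_
    ring
  rw [h2, lintegral_lintegral_swap]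
  · rw [← lintegral_const_mul' _ _ ENNReal.ofReal_ne_top]
    refine lintegral_congr fun ξ => ?_
    have hm : Measurable fun s : ℝ => ENNReal.ofReal (s ^ (-1 - q)) * cf (s * ⟪x, ξ⟫) ^ 2 := by
      have h3 : Measurable fun s : ℝ => cf (s * ⟪x, ξ⟫) :=
        measurable_cf.comp (by fun_prop : Continuous fun s : ℝ => s * ⟪x, ξ⟫).measurable
      exact ((measurable_id.pow_const (-1 - q)).ennreal_ofReal).mul (h3.pow_const 2)
    rw [lintegral_const_mul _ hm, scaling' hq, Pi.mul_apply]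
    ring
  · refine Measurable.aemeasurable ?_
    have h3 : Measurable fun p : ℝ × E => 2⁻¹ * ‖G p.2‖ₑ ^ 2 :=
      ((hG.comp measurable_snd).enorm.pow_const 2).const_mul _
    exact h3.mul (((measurable_fst.pow_const (-1 - q)).ennreal_ofReal).mul (hch.pow_const 2))

end Pool.Agent.R751.RMB
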