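import Pool.Agent.R751.RmC

set_option autoImplicit false
open MeasureTheory Set Filter Topology Metric Module
open scoped ENNReal RealInnerProductSpace Pointwise

namespace Pool.Agent.R751.RMB

variable {E : Type*} [NormedAddCommGroup E] [InnerProductSpace ℝ E] [FiniteDimensional ℝ E]
  [MeasurableSpace E] [BorelSpace E]

lemma out_le_volume (K : Set E) (x : E) (s : ℝ) : out K x s ≤ volume K :=
  measure_mono fun _ h => h.1

/-- the escape volume is at most linear in the length of the translation -/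
lemma out_le {K : Set E} (hK : IsCompact K) (hKc : Convex ℝ K) {z : E} {r : ℝ} (hr : 0 < r)
    (hz : closedBall z r ⊆ K) {x : E} (hx : x ≠ 0) {s : ℝ} (hs : 0 ≤ s) :
    out K x s ≤ ENNReal.ofReal (finrank ℝ E * (‖x‖ / r) * s) * volume K := by
  have hn : 1 ≤ finrank ℝ E := by
    have : Nontrivial E := ⟨⟨x, 0, hx⟩⟩
    exact finrank_pos
  have hn' : (1:ℝ) ≤ finrank ℝ E := by exact_mod_cast hn
  set t := s * ‖x‖ / r with ht
  have ht0 : 0 ≤ t := by positivity
  have hC : (finrank ℝ E : ℝ) * (‖x‖ / r) * s = finrank ℝ E * t := by rw [ht]; ring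
  rw [hC]
  rcases le_or_gt t 1 with ht1 | ht1
  · set Kt := AffineMap.homothety z (1 - t) '' K with hKt
    have hmem : ∀ k, AffineMap.homothety z (1 - t) k = (1 - t) • k + t • z := by
      intro k
      rw [AffineMap.homothety_apply, vsub_eq_sub, vadd_eq_add]
      module
    have hsub : Kt ⊆ K := by
      rintro _ ⟨k, hk, rfl⟩
      rw [hmem]
      exact hKc hk (hz (mem_closedBall_self hr.le)) (by linarith) ht0 (by ring)
    have hesc : {y | y ∈ K ∧ y + s • x ∉ K} ⊆ K \ Kt := by
      rintro y ⟨hy, hy'⟩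
      refine ⟨hy, ?_⟩
      rintro ⟨k, hk, rfl⟩
      apply hy'
      rw [hmem]
      rcases ht0.eq_or_lt with h0 | h0
      · have h1 : s * ‖x‖ = 0 := by
          have : s * ‖x‖ / r = 0 := by rw [← ht]; exact h0.symm
          field_simp at this
          simpa using this
        have h2 : s • x = 0 := by
          rw [← norm_eq_zero, norm_smul, Real.norm_eq_abs, abs_of_nonneg hs, h1]
        rw [h2, ← h0]
        simpa using hk
      · have h1 : z + (s / t) • x ∈ K := by
          apply hz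
          rw [mem_closedBall, dist_eq_norm, add_sub_cancel_left, norm_smul, Real.norm_eq_abs,
            abs_of_nonneg (by positivity), ht]
          have hxp : 0 < ‖x‖ := norm_pos_iff.2 hx
          have hs0 : 0 < s := by
            rcases hs.eq_or_lt with h | h
            · exfalso; rw [ht, ← h] at h0; simp at h0
            · exact h
          apply le_of_eq
          field_simp
        have h2 := hKc hk h1 (a := 1 - t) (b := t) (by linarith) ht0 (by ring)
        convert h2 using 1
        rw [smul_add, smul_smul, mul_div_cancel₀ _ h0.ne']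
        abel
    have hKtm : MeasurableSet Kt :=
      (hK.image (AffineMap.homothety z (1 - t)).continuous_of_finiteDimensional).measurableSet
    have hvol : volume Kt = ENNReal.ofReal ((1 - t) ^ finrank ℝ E) * volume K := by
      rw [hKt, Measure.addHaar_image_homothety, abs_of_nonneg (pow_nonneg (by linarith) _)]
    calc out K x s ≤ volume (K \ Kt) := measure_mono hesc
      _ = volume K - volume Kt := measure_sdiff hsub hKtm.nullMeasurableSet
          ((measure_mono hsub).trans_lt hK.measure_lt_top).ne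
      _ ≤ ENNReal.ofReal (finrank ℝ E * t) * volume K := by
          rw [hvol, tsub_le_iff_right, ← add_mul, ← ENNReal.ofReal_add (by positivity)
            (pow_nonneg (by linarith) _)]
          have hb := one_add_mul_le_pow (a := -t) (by linarith) (finrank ℝ E)
          rw [← sub_eq_add_neg] at hb
          calc volume K = ENNReal.ofReal 1 * volume K := by rw [ENNReal.ofReal_one, one_mul]
            _ ≤ _ := by
              gcongr
              linarith
  · calc out K x s ≤ volume K := out_le_volume K x s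
      _ = ENNReal.ofReal 1 * volume K := by rw [ENNReal.ofReal_one, one_mul]
      _ ≤ _ := by
        gcongr
        nlinarith

/-- the moment is finite for `0 < q < 1` -/
theorem moment_lt_top {K : Set E} (hK : IsCompact K) (hKc : Convex ℝ K)
    (hint : (interior K).Nonempty) {q : ℝ} (hq : 0 < q) (hq1 : q < 1) {x : E} (hx : x ≠ 0) :
    ∫⁻ y in K, ENNReal.ofReal (len K x y ^ (-q)) < ∞ := by
  obtain ⟨z, hz⟩ := hint
  obtain ⟨r, hr, hzr⟩ := Metric.nhds_basis_closedBall.mem_iff.1 (mem_interior_iff_mem_nhds.1 hz)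
  rw [← layer hK hKc hx hq]
  refine ENNReal.mul_lt_top ENNReal.ofReal_lt_top ?_
  have hI : Ioi (0:ℝ) = Ioc 0 1 ∪ Ioi 1 := (Ioc_union_Ioi_eq_Ioi zero_le_one).symm
  rw [hI]
  refine (lintegral_union_le _ _ _).trans_lt (ENNReal.add_lt_top.2 ⟨?_, ?_⟩)
  · set C : ℝ := finrank ℝ E * (‖x‖ / r) with hC
    have hC0 : 0 ≤ C := by positivity
    calc ∫⁻ s in Ioc (0:ℝ) 1, ENNReal.ofReal (s ^ (-1 - q)) * out K x s
        ≤ ∫⁻ s in Ioc (0:ℝ) 1, ENNReal.ofReal (s ^ (-q)) * (ENNReal.ofReal C * volume K) := by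
          refine setLIntegral_mono' measurableSet_Ioc fun s hs => ?_
          have h1 := out_le hK hKc hr hzr hx hs.1.le
          calc ENNReal.ofReal (s ^ (-1 - q)) * out K x s
              ≤ ENNReal.ofReal (s ^ (-1 - q)) * (ENNReal.ofReal (C * s) * volume K) := by gcongr
            _ = ENNReal.ofReal (s ^ (-q)) * (ENNReal.ofReal C * volume K) := by
              rw [ENNReal.ofReal_mul hC0, show ENNReal.ofReal (s ^ (-q))
                = ENNReal.ofReal (s ^ (-1 - q)) * ENNReal.ofReal s by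
                  rw [← ENNReal.ofReal_mul (Real.rpow_nonneg hs.1.le _)]
                  congr 1
                  nth_rewrite 3 [← Real.rpow_one s]
                  rw [← Real.rpow_add hs.1]
                  congr 1; ring]
              ring
      _ = (∫⁻ s in Ioc (0:ℝ) 1, ENNReal.ofReal (s ^ (-q))) * (ENNReal.ofReal C * volume K) := by
          rw [lintegral_mul_const' _ _ (ENNReal.mul_ne_top ENNReal.ofReal_ne_top
            hK.measure_lt_top.ne)]
      _ < ∞ := by
          refine ENNReal.mul_lt_top ?_ (ENNReal.mul_lt_top ENNReal.ofReal_lt_top hK.measure_lt_top)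
          have h2 := intervalIntegral.intervalIntegrable_rpow' (r := -q) (a := 0) (b := 1)
            (by linarith)
          rw [intervalIntegrable_iff_integrableOn_Ioc_of_le zero_le_one] at h2
          exact h2.lintegral_lt_top
  · calc ∫⁻ s in Ioi (1:ℝ), ENNReal.ofReal (s ^ (-1 - q)) * out K x s
        ≤ ∫⁻ s in Ioi (1:ℝ), ENNReal.ofReal (s ^ (-1 - q)) * volume K := by
          refine lintegral_mono fun s => ?_
          gcongr
          exact out_le_volume K x s
      _ = (∫⁻ s in Ioi (1:ℝ), ENNReal.ofReal (s ^ (-1 - q))) * volume K := by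
          rw [lintegral_mul_const' _ _ hK.measure_lt_top.ne]
      _ < ∞ := by
          refine ENNReal.mul_lt_top ?_ hK.measure_lt_top
          rw [lintegral_rpow hq one_pos]
          exact ENNReal.ofReal_lt_top

omit [MeasurableSpace E] [BorelSpace E] in
/-- the norm is controlled by the coordinates -/
lemma norm_rpow_le {q : ℝ} (hq : 0 < q) (ξ : E) :
    ENNReal.ofReal (‖ξ‖ ^ q) ≤ ENNReal.ofReal ((finrank ℝ E : ℝ) ^ q) *
      ∑ i, ENNReal.ofReal (|⟪stdOrthonormalBasis ℝ E i, ξ⟫| ^ q) := by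
  set b := stdOrthonormalBasis ℝ E with hb
  by_cases hξ : ξ = 0
  · rw [hξ]; simp [Real.zero_rpow hq.ne']
  have hn : 1 ≤ finrank ℝ E := by
    have : Nontrivial E := ⟨⟨ξ, 0, hξ⟩⟩
    exact finrank_pos
  have hne : Nonempty (Fin (finrank ℝ E)) := ⟨⟨0, hn⟩⟩
  obtain ⟨i, hi⟩ := Finite.exists_max fun i => |⟪b i, ξ⟫|
  have h1 : ‖ξ‖ ≤ finrank ℝ E * |⟪b i, ξ⟫| := by
    calc ‖ξ‖ = ‖∑ j, ⟪b j, ξ⟫ • b j‖ := by rw [b.sum_repr' ξ]
      _ ≤ ∑ j, ‖⟪b j, ξ⟫ • b j‖ := norm_sum_le _ _
      _ = ∑ j, |⟪b j, ξ⟫| := by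
          refine Finset.sum_congr rfl fun j _ => ?_
          rw [norm_smul, b.norm_eq_one, mul_one, Real.norm_eq_abs]
      _ ≤ ∑ _j : Fin (finrank ℝ E), |⟪b i, ξ⟫| := Finset.sum_le_sum fun j _ => hi j
      _ = _ := by simp
  calc ENNReal.ofReal (‖ξ‖ ^ q) ≤ ENNReal.ofReal ((finrank ℝ E * |⟪b i, ξ⟫|) ^ q) := by
        gcongr
    _ = ENNReal.ofReal ((finrank ℝ E : ℝ) ^ q) * ENNReal.ofReal (|⟪b i, ξ⟫| ^ q) := by
        rw [Real.mul_rpow (by positivity) (abs_nonneg _), ENNReal.ofReal_mul (by positivity)]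
    _ ≤ _ := by
        gcongr
        exact Finset.single_le_sum (f := fun i => ENNReal.ofReal (|⟪b i, ξ⟫| ^ q))
          (fun _ _ => zero_le) (Finset.mem_univ i)

omit [FiniteDimensional ℝ E] in
lemma measurable_inner_rpow (x : E) (q : ℝ) :
    Measurable fun ξ : E => ENNReal.ofReal (|⟪x, ξ⟫| ^ q) := by
  have : Measurable fun ξ : E => |⟪x, ξ⟫| := by
    refine Continuous.measurable ?_
    fun_prop
  exact (this.pow_const q).ennreal_ofReal

/-- from a measure on the space to a finite measure on the sphere -/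
theorem exists_sphere {q : ℝ} (hq : 0 < q) (ν : Measure E)
    (hfin : ∀ x : E, x ≠ 0 → ∫⁻ ξ, ENNReal.ofReal (|⟪x, ξ⟫| ^ q) ∂ν < ∞) :
    ∃ μ : Measure (sphere (0 : E) 1), IsFiniteMeasure μ ∧ ∀ x : E,
      ∫⁻ ξ, ENNReal.ofReal (|⟪x, ξ⟫| ^ q) ∂ν = ∫⁻ u, ENNReal.ofReal (|⟪x, (u : E)⟫| ^ q) ∂μ := by
  set φ : E → E := fun ξ => ‖ξ‖⁻¹ • ξ with hφ
  have hφm : Measurable φ := by fun_prop
  set w : E → ℝ≥0∞ := fun ξ => ENNReal.ofReal (‖ξ‖ ^ q) with hw
  have hwm : Measurable w := (measurable_norm.pow_const q).ennreal_ofReal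
  set μE := Measure.map φ (ν.withDensity w) with hμE
  have hform : ∀ f : E → ℝ≥0∞, Measurable f → ∫⁻ u, f u ∂μE = ∫⁻ ξ, w ξ * f (φ ξ) ∂ν := by
    intro f hf
    have hc : Measurable fun ξ => f (φ ξ) := hf.comp hφm
    rw [hμE, lintegral_map hf hφm, lintegral_withDensity_eq_lintegral_mul _ hwm hc]
    rfl
  have hsm : MeasurableSet (sphere (0 : E) 1) := isClosed_sphere.measurableSet
  have hsupp : μE (sphere (0 : E) 1)ᶜ = 0 := by
    rw [← lintegral_indicator_one hsm.compl, hform _ (measurable_one.indicator hsm.compl),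
      ← lintegral_zero (μ := ν)]
    refine lintegral_congr fun ξ => ?_
    by_cases hξ : ξ = 0
    · simp only [hw, hξ, norm_zero, Real.zero_rpow hq.ne', ENNReal.ofReal_zero, zero_mul]
    · have : φ ξ ∉ (sphere (0 : E) 1)ᶜ := by
        rw [notMem_compl_iff, mem_sphere_zero_iff_norm, hφ]
        simp only [norm_smul, norm_inv, norm_norm]
        exact inv_mul_cancel₀ (norm_ne_zero_iff.2 hξ)
      rw [indicator_of_notMem this, mul_zero]
  have hmass : μE univ < ∞ := by
    rw [← lintegral_one, hform _ measurable_const]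
    simp only [mul_one, hw]
    calc ∫⁻ ξ, ENNReal.ofReal (‖ξ‖ ^ q) ∂ν
        ≤ ∫⁻ ξ, ENNReal.ofReal ((finrank ℝ E : ℝ) ^ q) *
          ∑ i, ENNReal.ofReal (|⟪stdOrthonormalBasis ℝ E i, ξ⟫| ^ q) ∂ν :=
          lintegral_mono fun ξ => norm_rpow_le hq ξ
      _ = ENNReal.ofReal ((finrank ℝ E : ℝ) ^ q) *
          ∑ i, ∫⁻ ξ, ENNReal.ofReal (|⟪stdOrthonormalBasis ℝ E i, ξ⟫| ^ q) ∂ν := by
          rw [lintegral_const_mul' _ _ ENNReal.ofReal_ne_top, lintegral_finsetSum]
          intro i _
          exact measurable_inner_rpow _ q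
      _ < ∞ := by
          refine ENNReal.mul_lt_top ENNReal.ofReal_lt_top ?_
          rw [ENNReal.sum_lt_top]
          intro i _
          apply hfin
          have := (stdOrthonormalBasis ℝ E).norm_eq_one i
          intro h0
          rw [h0] at this
          simp at this
  refine ⟨Measure.comap Subtype.val μE, ⟨?_⟩, fun x => ?_⟩
  · rw [comap_subtype_coe_apply hsm]
    exact (measure_mono (subset_univ _)).trans_lt hmass
  · have h1 : ∫⁻ u : sphere (0 : E) 1, ENNReal.ofReal (|⟪x, (u : E)⟫| ^ q)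
        ∂(Measure.comap Subtype.val μE) = ∫⁻ u in sphere (0 : E) 1,
          ENNReal.ofReal (|⟪x, u⟫| ^ q) ∂μE :=
      lintegral_subtype_comap hsm (fun u => ENNReal.ofReal (|⟪x, u⟫| ^ q))
    have h2 : μE.restrict (sphere (0 : E) 1) = μE :=
      Measure.restrict_eq_self_of_ae_mem hsupp
    rw [h1, h2, hform _ (measurable_inner_rpow x q)]
    refine lintegral_congr fun ξ => ?_
    by_cases hξ : ξ = 0
    · simp [hw, hξ, Real.zero_rpow hq.ne']
    · have hn : 0 < ‖ξ‖ := norm_pos_iff.2 hξ
      simp only [hw, hφ]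
      rw [← ENNReal.ofReal_mul (by positivity), real_inner_smul_right, abs_mul,
        abs_of_pos (inv_pos.2 hn), Real.mul_rpow (by positivity) (abs_nonneg _), ← mul_assoc,
        ← Real.mul_rpow hn.le (by positivity), mul_inv_cancel₀ hn.ne', Real.one_rpow, one_mul]

end Pool.Agent.R751.RMB
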