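import Mathlib

/-!
Adding a segment to a compact convex set: the volume grows linearly in the length of the segment.
-/

set_option autoImplicit false
open MeasureTheory Set
open scoped Pointwise

namespace Pool.Agent.R751

section growth

variable {E : Type*} [NormedAddCommGroup E] [InnerProductSpace ℝ E] [FiniteDimensional ℝ E]
  [MeasurableSpace E] [BorelSpace E]

/-- `M + [0,h] v` -/
def T (M : Set E) (v : E) (h : ℝ) : Set E := {x | ∃ m ∈ M, ∃ s ∈ Icc 0 h, x = m + s • v}

omit [FiniteDimensional ℝ E] [MeasurableSpace E] [BorelSpace E] in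
lemma T_compact {M : Set E} (hM : IsCompact M) (v : E) (h : ℝ) : IsCompact (T M v h) := by
  have : T M v h = (fun p : E × ℝ => p.1 + p.2 • v) '' (M ×ˢ Icc 0 h) := by
    ext x
    constructor
    · rintro ⟨m, hm, s, hs, rfl⟩
      exact ⟨(m, s), ⟨hm, hs⟩, rfl⟩
    · rintro ⟨⟨m, s⟩, ⟨hm, hs⟩, rfl⟩
      exact ⟨m, hm, s, hs, rfl⟩
  rw [this]
  exact (hM.prod isCompact_Icc).image (by fun_prop)

omit [FiniteDimensional ℝ E] [MeasurableSpace E] [BorelSpace E] in
lemma T_zero (M : Set E) (v : E) : T M v 0 = M := by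
  ext x
  constructor
  · rintro ⟨m, hm, s, hs, rfl⟩
    have : s = 0 := le_antisymm hs.2 hs.1
    subst this
    simpa using hm
  · intro hx
    exact ⟨x, hx, 0, ⟨le_rfl, le_rfl⟩, by simp⟩

omit [FiniteDimensional ℝ E] [MeasurableSpace E] [BorelSpace E] in
lemma T_mono (M : Set E) (v : E) {h k : ℝ} (hk : h ≤ k) : T M v h ⊆ T M v k := by
  rintro x ⟨m, hm, s, hs, rfl⟩
  exact ⟨m, hm, s, ⟨hs.1, hs.2.trans hk⟩, rfl⟩

omit [FiniteDimensional ℝ E] [MeasurableSpace E] [BorelSpace E] in
lemma T_eq (M : Set E) (v : E) {h : ℝ} (hh : 0 ≤ h) : M + segment ℝ 0 (h • v) = T M v h := by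
  ext x
  constructor
  · rintro ⟨m, hm, y, hy, rfl⟩
    rw [segment_eq_image] at hy
    obtain ⟨θ, hθ, rfl⟩ := hy
    refine ⟨m, hm, θ * h, ⟨mul_nonneg hθ.1 hh, ?_⟩, ?_⟩
    · nlinarith [hθ.2]
    · simp [smul_smul]
  · rintro ⟨m, hm, s, hs, rfl⟩
    refine ⟨m, hm, s • v, ?_, rfl⟩
    rw [segment_eq_image]
    rcases eq_or_lt_of_le hh with h0 | h0
    · have : s = 0 := le_antisymm (h0 ▸ hs.2) hs.1
      subst this
      exact ⟨0, ⟨le_rfl, zero_le_one⟩, by simp⟩
    · refine ⟨s / h, ⟨div_nonneg hs.1 hh, (div_le_one h0).2 hs.2⟩, ?_⟩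
      simp only [smul_zero, zero_add, smul_smul]
      rw [div_mul_cancel₀ _ h0.ne']

omit [FiniteDimensional ℝ E] [MeasurableSpace E] [BorelSpace E] in
lemma T_diff {M : Set E} (hM : Convex ℝ M) (v : E) {h δ : ℝ} (hh : 0 ≤ h) (_hδ : 0 ≤ δ) :
    T M v (h + δ) \ T M v h = (fun x => h • v + x) '' (T M v δ \ M) := by
  ext x
  constructor
  · rintro ⟨⟨m, hm, s, hs, rfl⟩, hx⟩
    have hsh : h < s := by
      by_contra hc
      exact hx ⟨m, hm, s, ⟨hs.1, not_lt.1 hc⟩, rfl⟩
    refine ⟨m + (s - h) • v, ⟨⟨m, hm, s - h, ⟨by linarith, by linarith [hs.2]⟩, rfl⟩, ?_⟩, ?_⟩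
    · intro hc
      exact hx ⟨_, hc, h, ⟨hh, le_rfl⟩, by module⟩
    · module
  · rintro ⟨y, ⟨⟨m, hm, s, hs, rfl⟩, hy⟩, rfl⟩
    refine ⟨⟨m, hm, h + s, ⟨by linarith [hs.1], by linarith [hs.2]⟩, by module⟩, ?_⟩
    rintro ⟨m', hm', s', hs', he⟩
    apply hy
    have he0 : h • v + (m + s • v) = m' + s' • v := he
    have he' : m' = m + (s + (h - s')) • v := by
      have : m' = h • v + (m + s • v) - s' • v := by rw [he0]; module
      rw [this]; module
    rcases eq_or_lt_of_le hs.1 with h0 | h0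
    · rw [← h0]; simpa using hm
    have hpos : 0 < s + (h - s') := by linarith [hs'.2]
    have h1 : m + s • v = (1 - s / (s + (h - s'))) • m + (s / (s + (h - s'))) • m' := by
      rw [he', smul_add, smul_smul, div_mul_cancel₀ _ hpos.ne']
      module
    rw [h1]
    have h2 : s / (s + (h - s')) ≤ 1 := by
      rw [div_le_one hpos]; linarith [hs'.2]
    exact hM hm hm' (by linarith) (by positivity) (by ring)

/-- the volume of `M + [0,h] v` -/
noncomputable def G (M : Set E) (v : E) (h : ℝ) : ℝ := (volume (T M v h)).toReal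

lemma T_vol_ne_top {M : Set E} (hM : IsCompact M) (v : E) (h : ℝ) : volume (T M v h) ≠ ⊤ :=
  (T_compact hM v h).measure_lt_top.ne

lemma G_mono {M : Set E} (hM : IsCompact M) (v : E) {h k : ℝ} (hk : h ≤ k) : G M v h ≤ G M v k :=
  ENNReal.toReal_mono (T_vol_ne_top hM v k) (measure_mono (T_mono M v hk))

lemma G_add {M : Set E} (hMc : IsCompact M) (hM : Convex ℝ M) (v : E) {h δ : ℝ}
    (hh : 0 ≤ h) (hδ : 0 ≤ δ) : G M v (h + δ) - G M v h = G M v δ - G M v 0 := by
  have h1 : volume (T M v (h + δ) \ T M v h) = volume (T M v δ \ T M v 0) := by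
    rw [T_diff hM v hh hδ, T_zero, image_add_left, measure_preimage_add]
  rw [measure_sdiff (T_mono M v (by linarith)) (T_compact hMc v h).measurableSet.nullMeasurableSet
    (T_vol_ne_top hMc v h), measure_sdiff (T_mono M v hδ)
    (T_compact hMc v 0).measurableSet.nullMeasurableSet (T_vol_ne_top hMc v 0)] at h1
  have h2 := congrArg ENNReal.toReal h1
  rw [ENNReal.toReal_sub_of_le (measure_mono (T_mono M v (by linarith))) (T_vol_ne_top hMc v _),
    ENNReal.toReal_sub_of_le (measure_mono (T_mono M v hδ)) (T_vol_ne_top hMc v _)] at h2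
  exact h2

lemma G_nat {M : Set E} (hMc : IsCompact M) (hM : Convex ℝ M) (v : E) {h : ℝ}
    (hh : 0 ≤ h) (n : ℕ) : G M v (n * h) - G M v 0 = n * (G M v h - G M v 0) := by
  induction n with
  | zero => simp
  | succ n ih =>
    have := G_add hMc hM v (h := n * h) (δ := h) (by positivity) hh
    push_cast
    rw [add_mul, one_mul]
    linarith

/-- The volume of `M + [0,h] v` is an affine function of `h ≥ 0`. -/
lemma G_lin {M : Set E} (hMc : IsCompact M) (hM : Convex ℝ M) (v : E) {h : ℝ}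
    (hh : 0 ≤ h) : G M v h = G M v 0 + h * (G M v 1 - G M v 0) := by
  set a := G M v 1 - G M v 0 with ha
  have ha0 : 0 ≤ a := by
    have := G_mono hMc v (zero_le_one (α := ℝ))
    linarith
  have key : ∀ n : ℕ, 0 < n → |(G M v h - G M v 0) - h * a| ≤ a / n := by
    intro n hn
    have hn' : (0:ℝ) < n := by exact_mod_cast hn
    have h1 := G_nat hMc hM v hh n
    have h2 := Nat.floor_le (show 0 ≤ n * h by positivity)
    have h3 := Nat.lt_floor_add_one (n * h)
    have h4 := G_nat hMc hM v (zero_le_one (α := ℝ)) ⌊n * h⌋₊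
    have h5 := G_nat hMc hM v (zero_le_one (α := ℝ)) (⌊n * h⌋₊ + 1)
    rw [mul_one] at h4 h5
    have h6 := G_mono hMc v h2
    have h7 := G_mono hMc v h3.le
    push_cast at h5
    rw [← ha] at h4 h5
    rw [abs_le, le_div_iff₀ hn', neg_le, ← sub_nonneg]
    constructor
    · have : a / n = a / n := rfl
      rw [sub_nonneg, neg_sub, le_div_iff₀ hn']
      nlinarith
    · nlinarith
  have h8 : |(G M v h - G M v 0) - h * a| ≤ 0 := by
    refine ge_of_tendsto (tendsto_const_div_atTop_nhds_zero_nat a) ?_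
    filter_upwards [Filter.eventually_gt_atTop 0] with n hn
    exact key n hn
  have h9 := abs_nonpos_iff.1 h8
  linarith

/-- the slope of the affine function `h ↦ G M v h`: the volume of the projection of `M` along `v`,
times the length of `v` -/
noncomputable def slope (M : Set E) (v : E) : ℝ := G M v 1 - G M v 0

lemma slope_nonneg {M : Set E} (hMc : IsCompact M) (v : E) : 0 ≤ slope M v := by
  have := G_mono hMc v (zero_le_one (α := ℝ))
  unfold slope
  linarith

lemma slope_le {M : Set E} (hMc : IsCompact M) (hM : Convex ℝ M) (v : E) {α β : ℝ}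
    (h : ∀ h : ℝ, 0 ≤ h → G M v h ≤ α + β * h) : slope M v ≤ β := by
  by_contra hc
  push Not at hc
  have h1 : 0 < slope M v - β := by linarith
  have h2 := h (|α - G M v 0| / (slope M v - β) + 1) (by positivity)
  have h5 : G M v (|α - G M v 0| / (slope M v - β) + 1) =
      G M v 0 + (|α - G M v 0| / (slope M v - β) + 1) * slope M v :=
    G_lin hMc hM v (by positivity)
  rw [h5] at h2
  have h3 : (|α - G M v 0| / (slope M v - β)) * (slope M v - β) = |α - G M v 0| :=
    div_mul_cancel₀ _ h1.ne'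
  have h4 := le_abs_self (α - G M v 0)
  nlinarith

lemma le_slope {M : Set E} (hMc : IsCompact M) (hM : Convex ℝ M) (v : E) {α β : ℝ}
    (h : ∀ h : ℝ, 0 ≤ h → α + β * h ≤ G M v h) : β ≤ slope M v := by
  by_contra hc
  push Not at hc
  have h1 : 0 < β - slope M v := by linarith
  have h2 := h (|G M v 0 - α| / (β - slope M v) + 1) (by positivity)
  have h5 : G M v (|G M v 0 - α| / (β - slope M v) + 1) =
      G M v 0 + (|G M v 0 - α| / (β - slope M v) + 1) * slope M v :=
    G_lin hMc hM v (by positivity)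
  rw [h5] at h2
  have h3 : (|G M v 0 - α| / (β - slope M v)) * (β - slope M v) = |G M v 0 - α| :=
    div_mul_cancel₀ _ h1.ne'
  have h4 := le_abs_self (G M v 0 - α)
  nlinarith

lemma G_eq {M : Set E} (hMc : IsCompact M) (hM : Convex ℝ M) (v : E) {h : ℝ}
    (hh : 0 ≤ h) : G M v h = (volume M).toReal + h * slope M v := by
  rw [G_lin hMc hM v hh, slope]
  unfold G
  rw [T_zero]

end growth

section box

variable {E : Type*} [NormedAddCommGroup E] [InnerProductSpace ℝ E] [FiniteDimensional ℝ E]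
  [MeasurableSpace E] [BorelSpace E] {ι : Type*} [Fintype ι]

/-- a box in an orthonormal frame -/
def Box (b : OrthonormalBasis ι ℝ E) (l u : ι → ℝ) : Set E :=
  {x | ∀ i, inner ℝ (b i) x ∈ Icc (l i) (u i)}

lemma volume_Box (b : OrthonormalBasis ι ℝ E) (l u : ι → ℝ) :
    volume (Box b l u) = ∏ i, ENNReal.ofReal (u i - l i) := by
  have h1 : Box b l u = b.measurableEquiv ⁻¹' (WithLp.ofLp ⁻¹' (Set.pi univ fun i => Icc (l i) (u i))) := by
    ext x
    simp only [Box, mem_ofPred_eq, mem_preimage, mem_pi, mem_univ, true_implies]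
    refine forall_congr' fun i => ?_
    have : (b.measurableEquiv x).ofLp i = inner ℝ (b i) x := by
      exact b.repr_apply_apply x i
    rw [this]
  rw [h1, b.measurePreserving_measurableEquiv.measure_preimage_equiv,
    (PiLp.volume_preserving_ofLp ι).measure_preimage
      (MeasurableSet.univ_pi fun i => measurableSet_Icc).nullMeasurableSet, volume_pi, Measure.pi_pi]
  simp

lemma volume_Box_toReal (b : OrthonormalBasis ι ℝ E) (l u : ι → ℝ) (h : ∀ i, l i ≤ u i) :
    (volume (Box b l u)).toReal = ∏ i, (u i - l i) := by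
  rw [volume_Box, ENNReal.toReal_prod]
  exact Finset.prod_congr rfl fun i _ => ENNReal.toReal_ofReal (by linarith [h i])

end box

end Pool.Agent.R751
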